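import Pool.Agent.Lib.MP_1d980c_gt.S4.Side

/-! Task O: a complex structure from a family of germs. -/

set_option autoImplicit false
open Topology
open scoped ContDiff Manifold

namespace Pool.Agent.S4T2

section mangen

variable {k : ℕ} {E' H M : Type} [NormedAddCommGroup E'] [NormedSpace ℝ E']
    [FiniteDimensional ℝ E'] [TopologicalSpace H] {J : ModelWithCorners ℝ E' H} [J.Boundaryless]
    [TopologicalSpace M] [ChartedSpace H M]

variable (J) in
/-- the extended chart as an open partial homeomorphism. -/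
private noncomputable def mgChart (x : M) : OpenPartialHomeomorph M E' :=
  (chartAt H x).transHomeomorph J.toHomeomorph

private lemma mgChart_apply (x y : M) : mgChart J x y = extChartAt J x y := rfl

private lemma mgChart_symm (x : M) (a : E') :
    (mgChart J x).symm a = (extChartAt J x).symm a := rfl

private lemma mgChart_source (x : M) : x ∈ (mgChart J x).source := mem_chart_source H x

private lemma mg_data {x : M} {f : M → EuclideanSpace ℂ (Fin k)}
    (hf : ContMDiffAt J 𝓘(ℝ, EuclideanSpace ℂ (Fin k)) ∞ f x)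
    (hb : Function.Bijective (mfderiv J 𝓘(ℝ, EuclideanSpace ℂ (Fin k)) f x)) :
    ∃ f' : E' ≃L[ℝ] EuclideanSpace ℂ (Fin k),
      HasFDerivAt (fun a => f ((mgChart J x).symm a))
        (f' : E' →L[ℝ] EuclideanSpace ℂ (Fin k)) (mgChart J x x) ∧
      ContDiffAt ℝ ∞ (fun a => f ((mgChart J x).symm a)) (mgChart J x x) := by
  have h1 := (contMDiffAt_iff.1 hf).2
  have h2 : ContDiffAt ℝ ∞ (fun a => f ((mgChart J x).symm a)) (mgChart J x x) := by
    rw [J.range_eq_univ] at h1
    exact h1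
  have h3 : HasFDerivAt (fun a => f ((mgChart J x).symm a))
      (fderiv ℝ (fun a => f ((mgChart J x).symm a)) (mgChart J x x)) (mgChart J x x) :=
    (h2.differentiableAt (by simp)).hasFDerivAt
  have h4 : mfderiv J 𝓘(ℝ, EuclideanSpace ℂ (Fin k)) f x =
      fderiv ℝ (fun a => f ((mgChart J x).symm a)) (mgChart J x x) := by
    rw [MDifferentiableAt.mfderiv (hf.mdifferentiableAt (by simp)), J.range_eq_univ,
      fderivWithin_univ]
    rfl
  rw [h4] at hb
  let f' : E' ≃L[ℝ] EuclideanSpace ℂ (Fin k) := LinearEquiv.toContinuousLinearEquiv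
    (LinearEquiv.ofBijective
      (fderiv ℝ (fun a => f ((mgChart J x).symm a)) (mgChart J x x)).toLinearMap hb)
  refine ⟨f', ?_, h2⟩
  have h5 : (f' : E' →L[ℝ] EuclideanSpace ℂ (Fin k)) =
      fderiv ℝ (fun a => f ((mgChart J x).symm a)) (mgChart J x x) := by
    ext a
    rfl
  rw [h5]
  exact h3

/-- local inverse. -/
private lemma mg_local {x : M} {f : M → EuclideanSpace ℂ (Fin k)}
    (hf : ContMDiffAt J 𝓘(ℝ, EuclideanSpace ℂ (Fin k)) ∞ f x)
    (hb : Function.Bijective (mfderiv J 𝓘(ℝ, EuclideanSpace ℂ (Fin k)) f x)) :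
    ∃ e : OpenPartialHomeomorph M (EuclideanSpace ℂ (Fin k)), x ∈ e.source ∧
      ∀ y ∈ e.source, e y = f y := by
  haveI : CompleteSpace E' := FiniteDimensional.complete ℝ E'
  obtain ⟨f', h1, h2⟩ := mg_data hf hb
  let g := h2.toOpenPartialHomeomorph _ h1 (by simp)
  refine ⟨(mgChart J x).trans g, ?_, ?_⟩
  · rw [OpenPartialHomeomorph.trans_source]
    exact ⟨mgChart_source x, h2.mem_toOpenPartialHomeomorph_source h1 (by simp)⟩
  · intro y hy
    rw [OpenPartialHomeomorph.trans_source] at hy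
    change f ((mgChart J x).symm (mgChart J x y)) = f y
    rw [(mgChart J x).left_inv hy.1]

/-- smoothness of the inverse. -/
private lemma mg_symm {x : M} (e : OpenPartialHomeomorph M (EuclideanSpace ℂ (Fin k)))
    (hx : x ∈ e.source)
    (hf : ContMDiffAt J 𝓘(ℝ, EuclideanSpace ℂ (Fin k)) ∞ e x)
    (hb : Function.Bijective (mfderiv J 𝓘(ℝ, EuclideanSpace ℂ (Fin k)) e x)) :
    ContMDiffAt 𝓘(ℝ, EuclideanSpace ℂ (Fin k)) J ∞ e.symm (e x) := by
  haveI : CompleteSpace E' := FiniteDimensional.complete ℝ E'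
  obtain ⟨f', h1, h2⟩ := mg_data hf hb
  let h := (mgChart J x).symm.trans e
  have ht : e x ∈ h.target := by
    change e x ∈ ((mgChart J x).symm.trans e).target
    rw [OpenPartialHomeomorph.trans_target]
    refine ⟨e.map_source hx, ?_⟩
    change e.symm (e x) ∈ (mgChart J x).source
    rw [e.left_inv hx]
    exact mgChart_source x
  have hs : h.symm (e x) = mgChart J x x := by
    change mgChart J x (e.symm (e x)) = _
    rw [e.left_inv hx]
  have h3 : ContDiffAt ℝ ∞ h.symm (e x) := by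
    apply h.contDiffAt_symm ht (f₀' := f')
    · rw [hs]; exact h1
    · rw [hs]; exact h2
  rw [contMDiffAt_iff]
  refine ⟨e.continuousAt_symm (e.map_source hx), ?_⟩
  rw [e.left_inv hx]
  exact h3.contDiffWithinAt

end mangen

theorem complex_of_germs {k : ℕ} {E' H M : Type} [NormedAddCommGroup E'] [NormedSpace ℝ E']
    [FiniteDimensional ℝ E'] [TopologicalSpace H] {J : ModelWithCorners ℝ E' H} [J.Boundaryless]
    [TopologicalSpace M] [ChartedSpace H M] [IsManifold J ∞ M]
    (Gm : M → Set (M → EuclideanSpace ℂ (Fin k)))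
    (h1 : ∀ x, ∃ f ∈ Gm x, ∀ᶠ y in 𝓝 x, f ∈ Gm y)
    (h2 : ∀ x, ∀ f ∈ Gm x, ContMDiffAt J 𝓘(ℝ, EuclideanSpace ℂ (Fin k)) ∞ f x ∧
      Function.Bijective (mfderiv J 𝓘(ℝ, EuclideanSpace ℂ (Fin k)) f x))
    (h3 : ∀ x, ∀ f ∈ Gm x, ∀ g ∈ Gm x, HolRel x f g) :
    ∃ (N : Type) (_ : TopologicalSpace N) (_ : ChartedSpace (EuclideanSpace ℂ (Fin k)) N),
      IsManifold 𝓘(ℂ, EuclideanSpace ℂ (Fin k)) ∞ N ∧
      Nonempty (Diffeomorph J 𝓘(ℝ, EuclideanSpace ℂ (Fin k)) M N ∞) := by
  classical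
  have key : ∀ x : M, ∃ (f : M → EuclideanSpace ℂ (Fin k))
      (e : OpenPartialHomeomorph M (EuclideanSpace ℂ (Fin k))), x ∈ e.source ∧
      (∀ y ∈ e.source, e y = f y) ∧ ∀ y ∈ e.source, f ∈ Gm y := by
    intro x
    obtain ⟨f, hf, hev⟩ := h1 x
    obtain ⟨hc, hb⟩ := h2 x f hf
    obtain ⟨e, he1, he2⟩ := mg_local hc hb
    obtain ⟨s, hs1, hs2, hs3⟩ := eventually_nhds_iff.1 hev
    refine ⟨f, e.restrOpen s hs2, ?_, ?_, ?_⟩
    · rw [OpenPartialHomeomorph.restrOpen_source]
      exact ⟨he1, hs3⟩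
    · intro y hy
      rw [OpenPartialHomeomorph.restrOpen_source] at hy
      exact he2 y hy.1
    · intro y hy
      rw [OpenPartialHomeomorph.restrOpen_source] at hy
      exact hs1 y hy.2
  choose f e he1 he2 he3 using key
  have hev : ∀ x, ∀ y ∈ (e x).source, ∀ᶠ y' in 𝓝 y, e x y' = f x y' := by
    intro x y hy
    filter_upwards [(e x).open_source.mem_nhds hy] with y' hy' using he2 x y' hy'
  have hcd : ∀ x, ∀ y ∈ (e x).source,
      ContMDiffAt J 𝓘(ℝ, EuclideanSpace ℂ (Fin k)) ∞ (e x) y := by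
    intro x y hy
    exact (h2 y (f x) (he3 x y hy)).1.congr_of_eventuallyEq (hev x y hy)
  have hbij : ∀ x, ∀ y ∈ (e x).source,
      Function.Bijective (mfderiv J 𝓘(ℝ, EuclideanSpace ℂ (Fin k)) (e x) y) := by
    intro x y hy
    have h4 := (h2 y (f x) (he3 x y hy)).2
    have h5 : mfderiv J 𝓘(ℝ, EuclideanSpace ℂ (Fin k)) (e x) y =
        mfderiv J 𝓘(ℝ, EuclideanSpace ℂ (Fin k)) (f x) y :=
      Filter.EventuallyEq.mfderiv_eq (hev x y hy)
    rw [h5]
    exact h4
  let cs : ChartedSpace (EuclideanSpace ℂ (Fin k)) M :=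
    { atlas := {e' | ∃ x, e' = e x}
      chartAt := fun x => e x
      mem_chart_source := fun x => he1 x
      chart_mem_atlas := fun x => ⟨x, rfl⟩ }
  refine ⟨M, inferInstance, cs, ?_, ⟨?_⟩⟩
  · apply isManifold_of_contDiffOn
    rintro _ _ ⟨x, rfl⟩ ⟨x', rfl⟩
    intro z hz
    apply ContDiffAt.contDiffWithinAt
    simp only [modelWithCornersSelf_coe_symm, modelWithCornersSelf_coe, Set.preimage_id,
      Set.range_id, Set.inter_univ, OpenPartialHomeomorph.trans_source,
      OpenPartialHomeomorph.symm_source, Set.mem_inter_iff, Set.mem_preimage] at hz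
    obtain ⟨hz1, hz2⟩ := hz
    set y : M := (e x).symm z with hy
    have hy1 : y ∈ (e x).source := (e x).map_target hz1
    have hyz : e x y = z := (e x).right_inv hz1
    obtain ⟨G, hG1, hG2⟩ := h3 y (f x) (he3 x y hy1) (f x') (he3 x' y hz2)
    rw [← he2 x y hy1, hyz] at hG1
    refine hG1.congr_of_eventuallyEq ?_
    have hc : Filter.Tendsto (e x).symm (𝓝 z) (𝓝 y) := (e x).continuousAt_symm hz1
    have h4 := hc.eventually hG2
    have h5 := hc.eventually (hev x y hy1)
    have h6 := hc.eventually (hev x' y hz2)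
    filter_upwards [h4, h5, h6, (e x).open_target.mem_nhds hz1] with z' h4' h5' h6' h7'
    change e x' ((e x).symm z') = G z'
    rw [h6', h4', ← h5', (e x).right_inv h7']
  · refine
      { toEquiv := Equiv.refl M
        contMDiff_toFun := ?_
        contMDiff_invFun := ?_ }
    · intro m
      rw [contMDiffAt_iff_target]
      exact ⟨continuousAt_id, hcd m m (he1 m)⟩
    · intro m
      rw [contMDiffAt_iff_source]
      exact (mg_symm (e m) (he1 m) (hcd m m (he1 m)) (hbij m m (he1 m))).contMDiffWithinAt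

end Pool.Agent.S4T2
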