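import Pool.Agent.Lib.MP_1d980c_gt.S4.Bet

/-! Task A2: elementary facts about `MM`, `DD`, `iota`, `y1`, `y2`, `z1`, `z2`, `ww`. -/

set_option autoImplicit false
open Complex ComplexConjugate Topology
open scoped ContDiff

namespace Pool.Agent.S4T2

/-! ### identities -/

private lemma nsq (z : ℂ) : ‖z‖ ^ 2 = z.re ^ 2 + z.im ^ 2 := by
  rw [← normSq_eq_norm_sq, normSq_apply]; ring

private lemma sq2r : Real.sqrt 2 * Real.sqrt 2 = 2 := Real.mul_self_sqrt (by norm_num)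

private lemma sq2c : ((Real.sqrt 2 : ℝ) : ℂ) * (Real.sqrt 2 : ℝ) = 2 := by
  rw [← ofReal_mul, sq2r]; norm_num

private lemma sq2c_ne : ((Real.sqrt 2 : ℝ) : ℂ) ≠ 0 := by
  intro h
  have := sq2c
  rw [h] at this
  norm_num at this

lemma MM_DD (P : A4) : (MM P).re ^ 2 + (MM P).im ^ 2 + DD P ^ 2 = rho2 P ^ 2 := by
  simp only [MM, DD, rho2, nsq, mul_re, mul_im, re_ofNat, im_ofNat]
  ring

lemma rho2_nonneg (P : A4) : 0 ≤ rho2 P := by unfold rho2; positivity

lemma rho2_S4 {P : A4} (hP : P ∈ S4) : rho2 P = 1 - P.2.2 ^ 2 := by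
  have h : ‖P.1‖ ^ 2 + ‖P.2.1‖ ^ 2 + P.2.2 ^ 2 = 1 := hP
  unfold rho2; linarith

lemma norm_X (P : A4) : ‖P.1‖ ^ 2 = (rho2 P + DD P) / 2 := by unfold rho2 DD; ring
lemma norm_Y (P : A4) : ‖P.2.1‖ ^ 2 = (rho2 P - DD P) / 2 := by unfold rho2 DD; ring

lemma iota_iota (P : A4) : iota (iota P) = P := by
  have h1 := sq2c_ne
  have h2 := sq2c
  have h3 : (((Real.sqrt 2 : ℝ) : ℂ)) ^ 2 = 2 := by rw [sq]; exact h2
  refine Prod.ext ?_ (Prod.ext ?_ ?_)
  · simp only [iota, map_div₀, map_add, map_mul, conj_ofReal, conj_I, conj_conj]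
    field_simp
    rw [h3]
    linear_combination (-P.1) * I_sq
  · simp only [iota, map_div₀, map_sub, map_mul, conj_ofReal, conj_I, conj_conj]
    field_simp
    rw [h3]
    linear_combination (-P.2.1) * I_sq
  · simp [iota]

lemma MM_iota (P : A4) : MM (iota P) = ((MM P).re : ℂ) + (DD P : ℂ) * I := by
  have h1 := sq2c_ne
  have h3 : (((Real.sqrt 2 : ℝ) : ℂ)) ^ 2 = 2 := by rw [sq]; exact sq2c
  have e : MM (iota P) = (P.2.1 + I * conj P.1) * (P.1 - I * conj P.2.1) := by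
    simp only [MM, iota]
    field_simp
    rw [h3]
    ring
  rw [e]
  apply Complex.ext
  · simp only [MM, mul_re, add_re, sub_re, mul_im, add_im, sub_im, I_re, I_im, conj_re, conj_im,
      ofReal_re, ofReal_im, re_ofNat, im_ofNat]
    ring
  · simp only [MM, DD, nsq, mul_re, add_re, sub_re, mul_im, add_im, sub_im, I_re, I_im, conj_re,
      conj_im, ofReal_re, ofReal_im, re_ofNat, im_ofNat]
    ring

private lemma norm_iota1 (P : A4) : ‖(iota P).1‖ ^ 2 = ‖P.2.1 + I * conj P.1‖ ^ 2 / 2 := by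
  simp only [iota, norm_div, norm_real, Real.norm_eq_abs, abs_of_nonneg (Real.sqrt_nonneg 2), div_pow]
  rw [Real.sq_sqrt (by norm_num)]

private lemma norm_iota2 (P : A4) : ‖(iota P).2.1‖ ^ 2 = ‖P.1 - I * conj P.2.1‖ ^ 2 / 2 := by
  simp only [iota, norm_div, norm_real, Real.norm_eq_abs, abs_of_nonneg (Real.sqrt_nonneg 2), div_pow]
  rw [Real.sq_sqrt (by norm_num)]

lemma DD_iota (P : A4) : DD (iota P) = (MM P).im := by
  rw [DD, norm_iota1, norm_iota2, nsq, nsq]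
  simp only [MM, mul_re, add_re, sub_re, mul_im, add_im, sub_im, I_re, I_im, conj_re, conj_im,
    re_ofNat, im_ofNat]
  ring

lemma rho2_iota (P : A4) : rho2 (iota P) = rho2 P := by
  rw [rho2, norm_iota1, norm_iota2, nsq, nsq, rho2, nsq, nsq]
  simp only [mul_re, add_re, sub_re, mul_im, add_im, sub_im, I_re, I_im, conj_re, conj_im]
  ring

lemma iota_mem {P : A4} (hP : P ∈ S4) : iota P ∈ S4 := by
  have h1 := rho2_iota P
  have h2 : ‖P.1‖ ^ 2 + ‖P.2.1‖ ^ 2 + P.2.2 ^ 2 = 1 := hP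
  have h3 : (iota P).2.2 = -P.2.2 := rfl
  show ‖(iota P).1‖ ^ 2 + ‖(iota P).2.1‖ ^ 2 + (iota P).2.2 ^ 2 = 1
  unfold rho2 at h1
  rw [h3, neg_sq]
  linarith

lemma y1_iota (P : A4) : y1 (iota P) = y2 P := by
  have h3 : (iota P).2.2 = -P.2.2 := rfl
  rw [y1, y2, h3, neg_neg, MM_iota, DD_iota]
  congr 2
  apply Complex.ext <;> simp

lemma y2_iota (P : A4) : y2 (iota P) = y1 P := by
  have h3 : (iota P).2.2 = -P.2.2 := rfl
  rw [y2, y1, h3, MM_iota]

lemma NN_iota (P : A4) : NN (iota P) = NN P := by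
  rw [NN, NN, y1_iota, y2_iota, add_comm]
lemma z1_iota (P : A4) : z1 (iota P) = z2 P := by rw [z1, z2, NN_iota, y1_iota]
lemma z2_iota (P : A4) : z2 (iota P) = z1 P := by rw [z1, z2, NN_iota, y2_iota]
lemma ww_iota (P : A4) : ww (iota P) = (ww P)⁻¹ := by rw [ww, ww, y1_iota, y2_iota, inv_div]

lemma NN_pos_iff (P : A4) : 0 < NN P ↔ (y1 P ≠ 0 ∨ y2 P ≠ 0) := by
  unfold NN
  rw [Real.sqrt_pos]
  constructor
  · intro h
    by_contra hcon
    push Not at hcon
    rw [hcon.1, hcon.2] at h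
    simp at h
  · rintro (h | h)
    · have := norm_pos_iff.2 h
      positivity
    · have := norm_pos_iff.2 h
      positivity

lemma NN_pos {P : A4} (hP : P ∈ S4) : 0 < NN P := by
  rw [NN_pos_iff]
  by_contra hcon
  push Not at hcon
  obtain ⟨h1, h2⟩ := hcon
  have r1 : bet (-P.2.2) + 2 * (MM P).re = 0 := by
    have := congrArg re h1
    simpa [y1] using this
  have r2 : 2 * DD P = 0 := by
    have := congrArg im h1
    simpa [y1] using this
  have r3 : bet P.2.2 + 2 * (MM P).re = 0 := by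
    have := congrArg re h2
    simpa [y2] using this
  have r4 : 2 * (MM P).im = 0 := by
    have := congrArg im h2
    simpa [y2] using this
  have hb := bet_add P.2.2
  have hm : (MM P).re = -1 / 4 := by linarith
  have hd : DD P = 0 := by linarith
  have hi : (MM P).im = 0 := by linarith
  have hM := MM_DD P
  have hr := rho2_S4 hP
  have hr0 := rho2_nonneg P
  rw [hm, hd, hi] at hM
  have hrho : rho2 P = 1 / 4 := by nlinarith
  have hh : P.2.2 ^ 2 = 3 / 4 := by linarith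
  have hbb : bet P.2.2 = 1 / 2 := by linarith
  rcases le_or_gt (1 / 2) P.2.2 with h | h
  · rw [bet_of_ge h] at hbb; norm_num at hbb
  · rcases le_or_gt P.2.2 (-(1 / 2)) with h' | h'
    · rw [bet_of_le h'] at hbb; norm_num at hbb
    · nlinarith

lemma norm_z (P : A4) (hP : 0 < NN P) : ‖z1 P‖ ^ 2 + ‖z2 P‖ ^ 2 = 1 := by
  have h1 : NN P ^ 2 = ‖y1 P‖ ^ 2 + ‖y2 P‖ ^ 2 := by
    unfold NN; exact Real.sq_sqrt (by positivity)
  rw [z1, z2, norm_div, norm_div, norm_real, Real.norm_eq_abs, abs_of_pos hP, div_pow, div_pow,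
    ← add_div, h1]
  apply div_self
  rw [← h1]; positivity

lemma y1_eq {P : A4} (hP : 0 < NN P) : y1 P = (NN P : ℂ) * z1 P := by
  have : (NN P : ℂ) ≠ 0 := by exact_mod_cast hP.ne'
  rw [z1, mul_div_cancel₀ _ this]
lemma y2_eq {P : A4} (hP : 0 < NN P) : y2 P = (NN P : ℂ) * z2 P := by
  have : (NN P : ℂ) ≠ 0 := by exact_mod_cast hP.ne'
  rw [z2, mul_div_cancel₀ _ this]
lemma ww_eq {P : A4} (hP : 0 < NN P) : ww P = z2 P / z1 P := by
  have : (NN P : ℂ) ≠ 0 := by exact_mod_cast hP.ne'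
  rw [ww, z1, z2, div_div_div_cancel_right₀ this]

/-- crude bound for `NN` on the sphere. -/
lemma NN_le {P : A4} (hP : P ∈ S4) : NN P ≤ 4 := by
  unfold NN
  rw [Real.sqrt_le_left (by norm_num)]
  have hb := bet_add P.2.2
  have h1 := bet_nonneg P.2.2
  have h2 := bet_nonneg (-P.2.2)
  have hM := MM_DD P
  have hr := rho2_S4 hP
  have hr0 := rho2_nonneg P
  have hr1 : rho2 P ≤ 1 := by rw [hr]; nlinarith [sq_nonneg P.2.2]
  have e1 : ‖y1 P‖ ^ 2 = (bet (-P.2.2) + 2 * (MM P).re) ^ 2 + (2 * DD P) ^ 2 := by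
    rw [nsq]; simp [y1]
  have e2 : ‖y2 P‖ ^ 2 = (bet P.2.2 + 2 * (MM P).re) ^ 2 + (2 * (MM P).im) ^ 2 := by
    rw [nsq]; simp [y2]
  have hm : (MM P).re ^ 2 ≤ 1 := by nlinarith [sq_nonneg (MM P).im, sq_nonneg (DD P)]
  have hm' : (MM P).re ≤ 1 := by nlinarith
  have hs : rho2 P ^ 2 ≤ 1 := by nlinarith
  rw [e1, e2]
  nlinarith [mul_nonneg h1 h2]

/-! ### smoothness -/

lemma contDiff_MM : ContDiff ℝ ∞ MM := by
  unfold MM
  fun_prop

lemma contDiff_DD : ContDiff ℝ ∞ DD := by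
  unfold DD
  exact ((contDiff_norm_sq ℝ).comp contDiff_fst).sub
    ((contDiff_norm_sq ℝ).comp (contDiff_fst.comp contDiff_snd))

lemma contDiff_rho2 : ContDiff ℝ ∞ rho2 := by
  unfold rho2
  exact ((contDiff_norm_sq ℝ).comp contDiff_fst).add
    ((contDiff_norm_sq ℝ).comp (contDiff_fst.comp contDiff_snd))

private lemma contDiff_ofReal' : ContDiff ℝ ∞ (fun x : ℝ => (x : ℂ)) := ofRealCLM.contDiff
private lemma contDiff_re' : ContDiff ℝ ∞ re := reCLM.contDiff

lemma contDiff_y1 : ContDiff ℝ ∞ y1 := by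
  unfold y1
  have h1 : ContDiff ℝ ∞ (fun P : A4 => ((bet (-P.2.2) : ℝ) : ℂ)) :=
    contDiff_ofReal'.comp (contDiff_bet.comp (contDiff_snd.comp contDiff_snd).neg)
  have h2 : ContDiff ℝ ∞ (fun P : A4 => (((MM P).re : ℝ) : ℂ)) :=
    contDiff_ofReal'.comp (contDiff_re'.comp contDiff_MM)
  have h3 : ContDiff ℝ ∞ (fun P : A4 => ((DD P : ℝ) : ℂ)) := contDiff_ofReal'.comp contDiff_DD
  exact h1.add (contDiff_const.mul (h2.add (h3.mul contDiff_const)))

lemma contDiff_y2 : ContDiff ℝ ∞ y2 := by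
  unfold y2
  have h1 : ContDiff ℝ ∞ (fun P : A4 => ((bet P.2.2 : ℝ) : ℂ)) :=
    contDiff_ofReal'.comp (contDiff_bet.comp (contDiff_snd.comp contDiff_snd))
  exact h1.add (contDiff_const.mul contDiff_MM)

private lemma contDiff_conj' : ContDiff ℝ ∞ (fun z : ℂ => conj z) := conjCLE.contDiff

lemma contDiff_iota : ContDiff ℝ ∞ iota := by
  have hX : ContDiff ℝ ∞ (fun P : A4 => P.1) := contDiff_fst
  have hY : ContDiff ℝ ∞ (fun P : A4 => P.2.1) := contDiff_fst.comp contDiff_snd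
  have hh : ContDiff ℝ ∞ (fun P : A4 => P.2.2) := contDiff_snd.comp contDiff_snd
  unfold iota
  exact ((hY.add (contDiff_const.mul (contDiff_conj'.comp hX))).div_const _).prodMk
    (((hX.sub (contDiff_const.mul (contDiff_conj'.comp hY))).div_const _).prodMk hh.neg)

lemma contDiffAt_NN {P : A4} (hP : 0 < NN P) : ContDiffAt ℝ ∞ NN P := by
  unfold NN
  have h1 : ContDiff ℝ ∞ (fun P : A4 => ‖y1 P‖ ^ 2 + ‖y2 P‖ ^ 2) :=
    ((contDiff_norm_sq ℝ).comp contDiff_y1).add ((contDiff_norm_sq ℝ).comp contDiff_y2)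
  apply h1.contDiffAt.sqrt
  intro h
  unfold NN at hP
  rw [h] at hP
  simp at hP

/-- division of complex valued functions, smooth over `ℝ`. -/
lemma cdAt_div {V : Type} [NormedAddCommGroup V] [NormedSpace ℝ V] {f g : V → ℂ} {P : V}
    (hf : ContDiffAt ℝ ∞ f P) (hg : ContDiffAt ℝ ∞ g P) (h0 : g P ≠ 0) :
    ContDiffAt ℝ ∞ (fun x => f x / g x) P := by
  simp only [div_eq_mul_inv]
  exact hf.mul (hg.inv h0)

lemma contDiffAt_z1 {P : A4} (hP : 0 < NN P) : ContDiffAt ℝ ∞ z1 P := by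
  unfold z1
  have h1 : ContDiffAt ℝ ∞ (fun P : A4 => ((NN P : ℝ) : ℂ)) P :=
    contDiff_ofReal'.contDiffAt.comp P (contDiffAt_NN hP)
  exact cdAt_div contDiff_y1.contDiffAt h1 (by exact_mod_cast hP.ne')

lemma contDiffAt_z2 {P : A4} (hP : 0 < NN P) : ContDiffAt ℝ ∞ z2 P := by
  unfold z2
  have h1 : ContDiffAt ℝ ∞ (fun P : A4 => ((NN P : ℝ) : ℂ)) P :=
    contDiff_ofReal'.contDiffAt.comp P (contDiffAt_NN hP)
  exact cdAt_div contDiff_y2.contDiffAt h1 (by exact_mod_cast hP.ne')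

lemma contDiffAt_ww {P : A4} (hP : y1 P ≠ 0) : ContDiffAt ℝ ∞ ww P := by
  unfold ww
  exact cdAt_div contDiff_y2.contDiffAt contDiff_y1.contDiffAt hP

/-! ### the circle action -/

private lemma norm_exp_phi (φ : ℝ) : ‖exp (φ * I)‖ = 1 := norm_exp_ofReal_mul_I φ
private lemma norm_exp_phi' (φ : ℝ) : ‖exp (-(φ * I))‖ = 1 := by
  have := norm_exp_ofReal_mul_I (-φ)
  rwa [ofReal_neg, neg_mul] at this

private lemma MM_act (φ : ℝ) (P : A4) : MM (act φ P) = MM P := by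
  unfold MM act
  have : exp (φ * I) * exp (-(φ * I)) = 1 := by rw [← exp_add, add_neg_cancel, exp_zero]
  linear_combination (2 * P.1 * P.2.1) * this

private lemma DD_act (φ : ℝ) (P : A4) : DD (act φ P) = DD P := by
  simp only [DD, act, norm_mul, norm_exp_phi, norm_exp_phi', one_mul]

lemma y1_act (φ : ℝ) (P : A4) : y1 (act φ P) = y1 P := by
  have h3 : (act φ P).2.2 = P.2.2 := rfl
  rw [y1, y1, MM_act, DD_act, h3]
lemma y2_act (φ : ℝ) (P : A4) : y2 (act φ P) = y2 P := by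
  have h3 : (act φ P).2.2 = P.2.2 := rfl
  rw [y2, y2, MM_act, h3]

private lemma conj_exp_phi (φ : ℝ) : conj (exp (φ * I)) = exp (-(φ * I)) := by
  rw [← exp_conj, map_mul, conj_ofReal, conj_I, mul_neg]
private lemma conj_exp_phi' (φ : ℝ) : conj (exp (-(φ * I))) = exp (φ * I) := by
  rw [← exp_conj, map_neg, map_mul, conj_ofReal, conj_I, mul_neg, neg_neg]

lemma iota_act (φ : ℝ) (P : A4) : iota (act φ P) = act (-φ) (iota P) := by
  refine Prod.ext ?_ (Prod.ext ?_ ?_)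
  · simp only [iota, act, map_mul, conj_exp_phi, ofReal_neg, neg_mul]
    ring
  · simp only [iota, act, map_mul, conj_exp_phi', ofReal_neg, neg_mul, neg_neg]
    ring
  · simp [iota, act]

lemma hasDerivAt_act (P : A4) : HasDerivAt (fun φ : ℝ => act φ P) (dphi P) 0 := by
  have h0 : HasDerivAt (fun φ : ℝ => (φ : ℂ) * I) I 0 := by
    simpa using (ofRealCLM.hasDerivAt (x := (0 : ℝ))).mul_const I
  have h1 : HasDerivAt (fun φ : ℝ => exp ((φ : ℂ) * I) * P.1) (I * P.1) 0 := by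
    have := (h0.cexp).mul_const P.1
    simpa using this
  have h2 : HasDerivAt (fun φ : ℝ => exp (-((φ : ℂ) * I)) * P.2.1) (-(I * P.2.1)) 0 := by
    have := ((h0.neg).cexp).mul_const P.2.1
    simpa using this
  have h3 : HasDerivAt (fun _ : ℝ => P.2.2) 0 0 := hasDerivAt_const _ _
  exact h1.prodMk (h2.prodMk h3)

lemma act_zero (P : A4) : act 0 P = P := by
  simp [act]

end Pool.Agent.S4T2
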