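import Pool.Agent.Lib.MP_1d980c_gt.S4.Defs

/-! Task A1: the cutoff `bet`. -/

set_option autoImplicit false
open Complex ComplexConjugate Topology
open scoped ContDiff

namespace Pool.Agent.S4T2

/-! ### the cutoff `bet` -/

lemma bet_nonneg (h : ℝ) : 0 ≤ bet h := Real.smoothTransition.nonneg _
lemma bet_le_one (h : ℝ) : bet h ≤ 1 := Real.smoothTransition.le_one _
lemma bet_add (h : ℝ) : bet h + bet (-h) = 1 := by
  unfold bet Real.smoothTransition
  rw [show (1 : ℝ) - (h + 1 / 2) = -h + 1 / 2 by ring, show (1 : ℝ) - (-h + 1 / 2) = h + 1 / 2 by ring,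
    add_comm (expNegInvGlue (-h + 1 / 2)) (expNegInvGlue (h + 1 / 2)), ← add_div]
  apply div_self
  have := Real.smoothTransition.pos_denom (h + 1 / 2)
  rw [show (1 : ℝ) - (h + 1 / 2) = -h + 1 / 2 by ring] at this
  exact this.ne'
lemma bet_of_le {h : ℝ} (hh : h ≤ -(1 / 2)) : bet h = 0 :=
  Real.smoothTransition.zero_of_nonpos (by linarith)
lemma bet_of_ge {h : ℝ} (hh : 1 / 2 ≤ h) : bet h = 1 :=
  Real.smoothTransition.one_of_one_le (by linarith)
lemma bet_pos {h : ℝ} (hh : -(1 / 2) < h) : 0 < bet h :=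
  Real.smoothTransition.pos_of_pos (by linarith)

private lemma glue_lt {x y : ℝ} (hx : 0 < x) (hxy : x < y) : expNegInvGlue x < expNegInvGlue y := by
  have hy : 0 < y := hx.trans hxy
  unfold expNegInvGlue
  rw [if_neg (not_le.2 hx), if_neg (not_le.2 hy)]
  apply Real.exp_lt_exp.2
  have : y⁻¹ < x⁻¹ := (inv_lt_inv₀ hy hx).2 hxy
  linarith

lemma bet_lt {h : ℝ} (hh : h < 0) (hh' : -(1 / 2) < h) : bet h < bet (-h) := by
  have h1 := bet_add h
  have h2 : expNegInvGlue (h + 1 / 2) < expNegInvGlue (-h + 1 / 2) :=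
    glue_lt (by linarith) (by linarith)
  unfold bet Real.smoothTransition
  rw [show (1 : ℝ) - (h + 1 / 2) = -h + 1 / 2 by ring, show (1 : ℝ) - (-h + 1 / 2) = h + 1 / 2 by ring,
    add_comm (expNegInvGlue (-h + 1 / 2)) (expNegInvGlue (h + 1 / 2))]
  have := Real.smoothTransition.pos_denom (h + 1 / 2)
  rw [show (1 : ℝ) - (h + 1 / 2) = -h + 1 / 2 by ring] at this
  exact div_lt_div_of_pos_right h2 this

lemma contDiff_bet : ContDiff ℝ ∞ bet := by
  unfold bet
  exact Real.smoothTransition.contDiff.comp (contDiff_id.add contDiff_const)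

private lemma monotone_bet : Monotone bet := by
  intro x y hxy
  exact Real.smoothTransition.monotone (by linarith)

lemma deriv_bet_nonneg (h : ℝ) : 0 ≤ deriv bet h := monotone_bet.deriv_nonneg

lemma deriv_bet_zero : 0 < deriv bet 0 := by
  have hg : ∀ x : ℝ, 0 < x → HasDerivAt expNegInvGlue (Real.exp (-x⁻¹) * (x ^ 2)⁻¹) x := by
    intro x hx
    have h1 : HasDerivAt (fun x : ℝ => Real.exp (-x⁻¹)) (Real.exp (-x⁻¹) * (x ^ 2)⁻¹) x := by
      have := ((hasDerivAt_inv hx.ne').neg).exp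
      simpa using this
    refine h1.congr_of_eventuallyEq ?_
    filter_upwards [lt_mem_nhds hx] with y hy
    simp [expNegInvGlue, not_le.2 hy]
  set e := Real.exp (-(1 / 2 : ℝ)⁻¹) with he
  have hepos : 0 < e := Real.exp_pos _
  have h1 : HasDerivAt (fun h : ℝ => expNegInvGlue (h + 1 / 2)) (e * 4) 0 := by
    have := (hg (0 + 1 / 2) (by norm_num)).comp_add_const 0 (1 / 2)
    have e1 : Real.exp (-(0 + 1 / 2 : ℝ)⁻¹) * (((0 : ℝ) + 1 / 2) ^ 2)⁻¹ = e * 4 := by
      rw [he]; norm_num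
    rwa [e1] at this
  have h2 : HasDerivAt (fun h : ℝ => expNegInvGlue (1 - (h + 1 / 2))) (-(e * 4)) 0 := by
    have h3 : HasDerivAt (fun h : ℝ => (1 : ℝ) - (h + 1 / 2)) (-1) 0 := by
      have := ((hasDerivAt_id (0 : ℝ)).add_const (1 / 2)).const_sub 1
      simpa using this
    have h4 := (hg (1 - (0 + 1 / 2)) (by norm_num)).comp (0 : ℝ) h3
    have e1 : Real.exp (-(1 - (0 + 1 / 2) : ℝ)⁻¹) * (((1 : ℝ) - (0 + 1 / 2)) ^ 2)⁻¹ * -1 = -(e * 4) := by
      rw [he]; norm_num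
    rwa [e1] at h4
  have h3 : HasDerivAt bet
      (((e * 4) * (expNegInvGlue (0 + 1 / 2) + expNegInvGlue (1 - (0 + 1 / 2))) -
        expNegInvGlue (0 + 1 / 2) * (e * 4 + -(e * 4))) /
        (expNegInvGlue (0 + 1 / 2) + expNegInvGlue (1 - (0 + 1 / 2))) ^ 2) 0 :=
    h1.div (h1.add h2) (Real.smoothTransition.pos_denom (0 + 1 / 2)).ne'
  rw [h3.deriv]
  have h4 := Real.smoothTransition.pos_denom ((0 : ℝ) + 1 / 2)
  apply div_pos _ (by positivity)
  rw [add_neg_cancel, mul_zero, sub_zero]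
  positivity

lemma deriv_bet_of_lt {h : ℝ} (hh : h < -(1 / 2)) : deriv bet h = 0 := by
  have : bet =ᶠ[𝓝 h] fun _ => 0 := by
    filter_upwards [gt_mem_nhds hh] with x hx
    exact bet_of_le hx.le
  rw [this.deriv_eq]
  simp

lemma deriv_bet_of_gt {h : ℝ} (hh : 1 / 2 < h) : deriv bet h = 0 := by
  have : bet =ᶠ[𝓝 h] fun _ => 1 := by
    filter_upwards [lt_mem_nhds hh] with x hx
    exact bet_of_ge hx.le
  rw [this.deriv_eq]
  simp

end Pool.Agent.S4T2
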