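import Pool.Agent.Lib.MP_1d980c_gt.S4.Odd

/-! Task P1: linear identifications; P2: from germs in the ambient space to the product of the three spheres. -/

set_option autoImplicit false
open Complex ComplexConjugate Topology
open scoped ContDiff Manifold

namespace Pool.Agent.S4T2

open Metric (sphere)

/-- the target of the charts. -/
abbrev Tgt (p q : ℕ) : Type := ℂ × ℂ × ℂ × (Fin p → ℂ) × (Fin q → ℂ)

/-- the ambient space. -/
abbrev Amb (p q : ℕ) : Type := A4 × (Fin (p + 1) → ℂ) × (Fin (q + 1) → ℂ)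

/-- the product of the three spheres inside the ambient space. -/
def SP (p q : ℕ) : Set (Amb p q) := {x | x.1 ∈ S4 ∧ x.2.1 ∈ SO p ∧ x.2.2 ∈ SO q}

theorem exists_tgt (p q : ℕ) : Nonempty (Tgt p q ≃L[ℂ] EuclideanSpace ℂ (Fin (p + q + 3))) := by
  apply FiniteDimensional.nonempty_continuousLinearEquiv_of_finrank_eq
  rw [finrank_euclideanSpace_fin]
  simp only [Module.finrank_prod, Module.finrank_self, Module.finrank_fin_fun]
  ring

/-- the map for `S⁴`. -/
private noncomputable def e5Equiv : EuclideanSpace ℝ (Fin 5) ≃ₗ[ℝ] A4 where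
  toFun v := (⟨v 0, v 1⟩, ⟨v 2, v 3⟩, v 4)
  map_add' v w := by
    refine Prod.ext ?_ (Prod.ext ?_ ?_)
    · apply Complex.ext <;> simp
    · apply Complex.ext <;> simp
    · simp
  map_smul' c v := by
    refine Prod.ext ?_ (Prod.ext ?_ ?_)
    · apply Complex.ext <;> simp
    · apply Complex.ext <;> simp
    · simp
  invFun P := WithLp.toLp 2 ![P.1.re, P.1.im, P.2.1.re, P.2.1.im, P.2.2]
  left_inv v := by
    ext i
    fin_cases i <;> rfl
  right_inv P := by
    refine Prod.ext ?_ (Prod.ext ?_ ?_)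
    · apply Complex.ext <;> simp
    · apply Complex.ext <;> simp
    · simp

private lemma e5Equiv_apply (v : EuclideanSpace ℝ (Fin 5)) :
    e5Equiv v = (⟨v 0, v 1⟩, ⟨v 2, v 3⟩, v 4) := rfl

private lemma sq_one_iff {x : ℝ} (hx : 0 ≤ x) : x ^ 2 = 1 ↔ x = 1 := by
  constructor
  · intro h
    nlinarith
  · rintro rfl
    norm_num

/-- `ℝ⁵ ≃ ℂ × ℂ × ℝ` maps the unit sphere onto `S4` and orthogonality to `Tan4`. -/
theorem exists_e5 : ∃ e : EuclideanSpace ℝ (Fin 5) ≃L[ℝ] A4,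
    (∀ v, e v ∈ S4 ↔ ‖v‖ = 1) ∧ ∀ u v, Tan4 (e u) (e v) ↔ inner ℝ u v = 0 := by
  refine ⟨e5Equiv.toContinuousLinearEquiv, ?_, ?_⟩
  · intro v
    change e5Equiv v ∈ S4 ↔ _
    rw [e5Equiv_apply, ← sq_one_iff (norm_nonneg v), EuclideanSpace.norm_sq_eq]
    unfold S4
    rw [Set.mem_ofPred_eq, Fin.sum_univ_five]
    simp only [← Complex.normSq_eq_norm_sq, Complex.normSq_apply, Real.norm_eq_abs, sq_abs]
    constructor <;> intro h <;> linarith
  · intro u v
    change Tan4 (e5Equiv u) (e5Equiv v) ↔ _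
    rw [e5Equiv_apply, e5Equiv_apply, PiLp.inner_apply, Fin.sum_univ_five]
    unfold Tan4
    simp only [mul_re, conj_re, conj_im, RCLike.inner_apply, conj_trivial]
    constructor <;> intro h <;> linarith

/-- the index equivalence. -/
private def eoIdx (p : ℕ) : Fin (p + 1) × Fin 2 ≃ Fin (2 * p + 2) :=
  finProdFinEquiv.trans (finCongr (by ring))

/-- the map for the odd spheres. -/
private noncomputable def eoEquiv (p : ℕ) :
    EuclideanSpace ℝ (Fin (2 * p + 2)) ≃ₗ[ℝ] (Fin (p + 1) → ℂ) where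
  toFun v := fun i => ⟨v (eoIdx p (i, 0)), v (eoIdx p (i, 1))⟩
  map_add' v w := by
    funext i
    apply Complex.ext <;> simp
  map_smul' c v := by
    funext i
    apply Complex.ext <;> simp
  invFun w := WithLp.toLp 2 fun k => if ((eoIdx p).symm k).2 = 0 then (w ((eoIdx p).symm k).1).re
    else (w ((eoIdx p).symm k).1).im
  left_inv v := by
    ext k
    obtain ⟨⟨i, j⟩, rfl⟩ := (eoIdx p).surjective k
    fin_cases j
    · simp
    · simp
  right_inv w := by
    funext i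
    apply Complex.ext <;> simp

private lemma eoEquiv_apply (p : ℕ) (v : EuclideanSpace ℝ (Fin (2 * p + 2))) (i : Fin (p + 1)) :
    eoEquiv p v i = ⟨v (eoIdx p (i, 0)), v (eoIdx p (i, 1))⟩ := rfl

private lemma eo_sum (p : ℕ) (g : Fin (2 * p + 2) → ℝ) :
    ∑ k, g k = ∑ i, (g (eoIdx p (i, 0)) + g (eoIdx p (i, 1))) := by
  rw [← (eoIdx p).sum_comp g, Fintype.sum_prod_type]
  apply Finset.sum_congr rfl
  intro i _
  rw [Fin.sum_univ_two]

/-- `ℝ^{2p+2} ≃ ℂ^{p+1}` maps the unit sphere onto `SO p` and orthogonality to `TanO`. -/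
theorem exists_eO (p : ℕ) : ∃ e : EuclideanSpace ℝ (Fin (2 * p + 2)) ≃L[ℝ] (Fin (p + 1) → ℂ),
    (∀ v, e v ∈ SO p ↔ ‖v‖ = 1) ∧ ∀ u v, TanO p (e u) (e v) ↔ inner ℝ u v = 0 := by
  refine ⟨(eoEquiv p).toContinuousLinearEquiv, ?_, ?_⟩
  · intro v
    change eoEquiv p v ∈ SO p ↔ _
    rw [← sq_one_iff (norm_nonneg v), EuclideanSpace.norm_sq_eq]
    unfold SO
    rw [Set.mem_ofPred_eq, eo_sum]
    simp only [eoEquiv_apply, ← Complex.normSq_eq_norm_sq, Complex.normSq_apply,
      Real.norm_eq_abs, sq_abs]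
    simp only [← sq]
  · intro u v
    change TanO p (eoEquiv p u) (eoEquiv p v) ↔ _
    rw [PiLp.inner_apply, eo_sum]
    unfold TanO
    simp only [eoEquiv_apply, mul_re, conj_re, conj_im, RCLike.inner_apply, conj_trivial]
    have h : ∀ i : Fin (p + 1), u (eoIdx p (i, 0)) * v (eoIdx p (i, 0)) -
        -u (eoIdx p (i, 1)) * v (eoIdx p (i, 1)) = v (eoIdx p (i, 0)) * u (eoIdx p (i, 0)) +
          v (eoIdx p (i, 1)) * u (eoIdx p (i, 1)) := by
      intro i; ring
    rw [Finset.sum_congr rfl fun i _ => h i]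

end Pool.Agent.S4T2
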