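import Pool.Agent.Lib.MP_1d980c_gt.S4.ManGen
import Pool.Agent.Lib.MP_1d980c_gt.S4.BridgeA

/-! Task P2: from germs in the ambient space to the product of the three spheres. -/

set_option autoImplicit false
open Complex ComplexConjugate Topology
open scoped ContDiff Manifold

namespace Pool.Agent.S4T2

open Metric (sphere)

section spheres

/-- the unit sphere of `ℝ^{n+1}`. -/
abbrev Sph (n : ℕ) : Type := sphere (0 : EuclideanSpace ℝ (Fin (n + 1))) 1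

variable {V : Type} [NormedAddCommGroup V] [NormedSpace ℝ V]

theorem sph_smooth (n : ℕ) (e : EuclideanSpace ℝ (Fin (n + 1)) ≃L[ℝ] V) :
    ContMDiff (𝓡 n) 𝓘(ℝ, V) ∞
      (fun y : Sph n => e (y : EuclideanSpace ℝ (Fin (n + 1)))) := by
  have := Fact.mk (@finrank_euclideanSpace_fin ℝ _ (n + 1))
  have h1 : ContMDiff 𝓘(ℝ, EuclideanSpace ℝ (Fin (n + 1))) 𝓘(ℝ, V) ∞ e :=
    e.contDiff.contMDiff
  exact h1.comp (contMDiff_coe_sphere (m := ∞))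

theorem sph_deriv (n : ℕ) (e : EuclideanSpace ℝ (Fin (n + 1)) ≃L[ℝ] V) (y : Sph n) :
    ∃ D : EuclideanSpace ℝ (Fin n) →L[ℝ] V,
      HasMFDerivAt (𝓡 n) 𝓘(ℝ, V)
        (fun y : Sph n => e (y : EuclideanSpace ℝ (Fin (n + 1)))) y D ∧
      (∀ w, D w = 0 → w = 0) ∧
      ∀ w, ∃ u, D w = e u ∧ inner ℝ (y : EuclideanSpace ℝ (Fin (n + 1))) u = 0 := by
  have := Fact.mk (@finrank_euclideanSpace_fin ℝ _ (n + 1))
  have hd : MDifferentiableAt (𝓡 n) 𝓘(ℝ, EuclideanSpace ℝ (Fin (n + 1)))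
      ((↑) : Sph n → EuclideanSpace ℝ (Fin (n + 1))) y :=
    (contMDiff_coe_sphere (m := 1) y).mdifferentiableAt one_ne_zero
  have hD := hd.hasMFDerivAt
  have he : HasMFDerivAt 𝓘(ℝ, EuclideanSpace ℝ (Fin (n + 1))) 𝓘(ℝ, V) e
      (y : EuclideanSpace ℝ (Fin (n + 1))) (e : EuclideanSpace ℝ (Fin (n + 1)) →L[ℝ] V) :=
    e.hasMFDerivAt
  have hinj := injective_mvfderiv_subtypeVal_sphere (n := n) y
  have hr := range_mvfderiv_subtypeVal (n := n) y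
  set D0 : EuclideanSpace ℝ (Fin n) →L[ℝ] EuclideanSpace ℝ (Fin (n + 1)) :=
    mfderiv (𝓡 n) 𝓘(ℝ, EuclideanSpace ℝ (Fin (n + 1)))
      ((↑) : Sph n → EuclideanSpace ℝ (Fin (n + 1))) y with hD0
  refine ⟨(e : EuclideanSpace ℝ (Fin (n + 1)) →L[ℝ] V).comp D0, he.comp y hD, ?_, ?_⟩
  · intro w hw
    have h1 : e (D0 w) = 0 := hw
    have h2 : D0 w = 0 := by simpa using h1
    have h3 : Function.Injective D0 := hinj
    exact h3 (by rw [h2, map_zero])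
  · intro w
    refine ⟨D0 w, rfl, ?_⟩
    have h4 : D0 w ∈ (ℝ ∙ (y : EuclideanSpace ℝ (Fin (n + 1))))ᗮ := by
      rw [← hr]
      exact ⟨w, rfl⟩
    exact (Submodule.mem_orthogonal_singleton_iff_inner_right.1 h4)

end spheres

section prod

variable {V1 V2 V3 : Type} [NormedAddCommGroup V1] [NormedSpace ℝ V1] [NormedAddCommGroup V2]
  [NormedSpace ℝ V2] [NormedAddCommGroup V3] [NormedSpace ℝ V3]

/-- the inclusion of the product of the spheres. -/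
def incl {n1 n2 n3 : ℕ} (e1 : EuclideanSpace ℝ (Fin (n1 + 1)) ≃L[ℝ] V1)
    (e2 : EuclideanSpace ℝ (Fin (n2 + 1)) ≃L[ℝ] V2)
    (e3 : EuclideanSpace ℝ (Fin (n3 + 1)) ≃L[ℝ] V3) (y : Sph n1 × Sph n2 × Sph n3) :
    V1 × V2 × V3 := (e1 y.1, e2 y.2.1, e3 y.2.2)

variable {n1 n2 n3 : ℕ} (e1 : EuclideanSpace ℝ (Fin (n1 + 1)) ≃L[ℝ] V1)
    (e2 : EuclideanSpace ℝ (Fin (n2 + 1)) ≃L[ℝ] V2)
    (e3 : EuclideanSpace ℝ (Fin (n3 + 1)) ≃L[ℝ] V3)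

theorem incl_smooth : ContMDiff ((𝓡 n1).prod ((𝓡 n2).prod (𝓡 n3))) 𝓘(ℝ, V1 × V2 × V3) ∞
    (incl e1 e2 e3) := by
  have h1 := (sph_smooth n1 e1).comp
    (contMDiff_fst (I := 𝓡 n1) (J := (𝓡 n2).prod (𝓡 n3)) (M := Sph n1) (N := Sph n2 × Sph n3)
      (n := ∞))
  have h2 := (sph_smooth n2 e2).comp ((contMDiff_fst (I := 𝓡 n2) (J := 𝓡 n3) (M := Sph n2)
    (N := Sph n3) (n := ∞)).comp
    (contMDiff_snd (I := 𝓡 n1) (J := (𝓡 n2).prod (𝓡 n3)) (M := Sph n1) (N := Sph n2 × Sph n3)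
      (n := ∞)))
  have h3 := (sph_smooth n3 e3).comp ((contMDiff_snd (I := 𝓡 n2) (J := 𝓡 n3) (M := Sph n2)
    (N := Sph n3) (n := ∞)).comp
    (contMDiff_snd (I := 𝓡 n1) (J := (𝓡 n2).prod (𝓡 n3)) (M := Sph n1) (N := Sph n2 × Sph n3)
      (n := ∞)))
  exact h1.prodMk_space (h2.prodMk_space h3)

theorem incl_deriv (y : Sph n1 × Sph n2 × Sph n3) :
    ∃ D : (EuclideanSpace ℝ (Fin n1) × EuclideanSpace ℝ (Fin n2) × EuclideanSpace ℝ (Fin n3)) →L[ℝ]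
        (V1 × V2 × V3),
      HasMFDerivAt ((𝓡 n1).prod ((𝓡 n2).prod (𝓡 n3))) 𝓘(ℝ, V1 × V2 × V3) (incl e1 e2 e3) y D ∧
      (∀ w, D w = 0 → w = 0) ∧
      ∀ w, (∃ u, (D w).1 = e1 u ∧ inner ℝ (y.1 : EuclideanSpace ℝ (Fin (n1 + 1))) u = 0) ∧
        (∃ u, (D w).2.1 = e2 u ∧ inner ℝ (y.2.1 : EuclideanSpace ℝ (Fin (n2 + 1))) u = 0) ∧
        (∃ u, (D w).2.2 = e3 u ∧ inner ℝ (y.2.2 : EuclideanSpace ℝ (Fin (n3 + 1))) u = 0) := by
  obtain ⟨D1, hD1, hi1, ho1⟩ := sph_deriv n1 e1 y.1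
  obtain ⟨D2, hD2, hi2, ho2⟩ := sph_deriv n2 e2 y.2.1
  obtain ⟨D3, hD3, hi3, ho3⟩ := sph_deriv n3 e3 y.2.2
  have g1 := hD1.comp y (hasMFDerivAt_fst (I := 𝓡 n1) (I' := (𝓡 n2).prod (𝓡 n3)) y)
  have g2 := hD2.comp y ((hasMFDerivAt_fst (I := 𝓡 n2) (I' := 𝓡 n3) y.2).comp y
    (hasMFDerivAt_snd (I := 𝓡 n1) (I' := (𝓡 n2).prod (𝓡 n3)) y))
  have g3 := hD3.comp y ((hasMFDerivAt_snd (I := 𝓡 n2) (I' := 𝓡 n3) y.2).comp y
    (hasMFDerivAt_snd (I := 𝓡 n1) (I' := (𝓡 n2).prod (𝓡 n3)) y))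
  refine ⟨(D1.comp (ContinuousLinearMap.fst ℝ _ _)).prod
    ((D2.comp ((ContinuousLinearMap.fst ℝ _ _).comp (ContinuousLinearMap.snd ℝ _ _))).prod
      (D3.comp ((ContinuousLinearMap.snd ℝ _ _).comp (ContinuousLinearMap.snd ℝ _ _)))),
    ⟨g1.1.prodMk (g2.1.prodMk g3.1), g1.2.prodMk (g2.2.prodMk g3.2)⟩, ?_, ?_⟩
  · rintro ⟨w1, w2, w3⟩ hw
    have k1 : D1 w1 = 0 := congrArg Prod.fst hw
    have k2 : D2 w2 = 0 := congrArg (fun z => z.2.1) hw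
    have k3 : D3 w3 = 0 := congrArg (fun z => z.2.2) hw
    rw [hi1 w1 k1, hi2 w2 k2, hi3 w3 k3]
    rfl
  · rintro ⟨w1, w2, w3⟩
    exact ⟨ho1 w1, ho2 w2, ho3 w3⟩

end prod

theorem bridge (p q : ℕ) (Gm : Amb p q → Set (Amb p q → Tgt p q))
    (h1 : ∀ x ∈ SP p q, ∃ f ∈ Gm x, ∀ᶠ y in 𝓝 x, y ∈ SP p q → f ∈ Gm y)
    (h2 : ∀ x ∈ SP p q, ∀ f ∈ Gm x, ContDiffAt ℝ ∞ f x ∧ ∀ v : Amb p q, Tan4 x.1 v.1 →
      TanO p x.2.1 v.2.1 → TanO q x.2.2 v.2.2 → fderiv ℝ f x v = 0 → v = 0)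
    (h3 : ∀ x ∈ SP p q, ∀ f ∈ Gm x, ∀ g ∈ Gm x, HolRel x f g) :
    ∃ (N : Type) (_ : TopologicalSpace N)
      (_ : ChartedSpace (EuclideanSpace ℂ (Fin (p + q + 3))) N),
      IsManifold 𝓘(ℂ, EuclideanSpace ℂ (Fin (p + q + 3))) ∞ N ∧
      Nonempty (Diffeomorph ((𝓡 4).prod ((𝓡 (2 * p + 1)).prod (𝓡 (2 * q + 1))))
        𝓘(ℝ, EuclideanSpace ℂ (Fin (p + q + 3)))
        (sphere (0 : EuclideanSpace ℝ (Fin 5)) 1 ×
          sphere (0 : EuclideanSpace ℝ (Fin (2 * p + 2))) 1 ×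
          sphere (0 : EuclideanSpace ℝ (Fin (2 * q + 2))) 1) N ∞) := by
  obtain ⟨T⟩ := exists_tgt p q
  obtain ⟨e1, he1, ht1⟩ := exists_e5
  obtain ⟨e2, he2, ht2⟩ := exists_eO p
  obtain ⟨e3, he3, ht3⟩ := exists_eO q
  let J := (𝓡 4).prod ((𝓡 (2 * p + 1)).prod (𝓡 (2 * q + 1)))
  let M := Sph 4 × Sph (2 * p + 1) × Sph (2 * q + 1)
  let ι : M → Amb p q := incl (n1 := 4) (n2 := 2 * p + 1) (n3 := 2 * q + 1) e1 e2 e3
  have hι : ContMDiff J 𝓘(ℝ, Amb p q) ∞ ι := incl_smooth _ _ _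
  have hmem : ∀ y, ι y ∈ SP p q := by
    rintro ⟨a, b, c⟩
    refine ⟨(he1 _).2 ?_, (he2 _).2 ?_, (he3 _).2 ?_⟩
    · simp
    · simp
    · simp
  let TR : Tgt p q ≃L[ℝ] EuclideanSpace ℂ (Fin (p + q + 3)) :=
    { toLinearEquiv := T.toLinearEquiv.restrictScalars ℝ
      continuous_toFun := T.continuous
      continuous_invFun := T.symm.continuous }
  refine complex_of_germs (k := p + q + 3) (J := J) (M := M)
    (fun y => {F | ∃ f ∈ Gm (ι y), F = fun y' => TR (f (ι y'))}) ?_ ?_ ?_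
  · intro x
    obtain ⟨f, hf, hn⟩ := h1 (ι x) (hmem x)
    refine ⟨fun y' => TR (f (ι y')), ⟨f, hf, rfl⟩, ?_⟩
    have hc : Filter.Tendsto ι (𝓝 x) (𝓝 (ι x)) := hι.continuous.tendsto x
    filter_upwards [hc.eventually hn] with y hy
    exact ⟨f, hy (hmem y), rfl⟩
  · rintro x F ⟨f, hf, rfl⟩
    obtain ⟨hs, hinj⟩ := h2 (ι x) (hmem x) f hf
    have hs' : ContDiffAt ℝ ∞ (fun z => TR (f z)) (ι x) :=
      (TR.contDiff.contDiffAt (n := ∞)).comp (ι x) hs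
    refine ⟨hs'.contMDiffAt.comp x (hι x), ?_⟩
    obtain ⟨D, hD, hDi, hDo⟩ := incl_deriv (n1 := 4) (n2 := 2 * p + 1) (n3 := 2 * q + 1) e1 e2 e3 x
    have hfd : HasFDerivAt f (fderiv ℝ f (ι x)) (ι x) :=
      (hs.differentiableAt (by simp)).hasFDerivAt
    have hg : HasFDerivAt (fun z => TR (f z))
        ((TR : Tgt p q →L[ℝ] EuclideanSpace ℂ (Fin (p + q + 3))).comp (fderiv ℝ f (ι x))) (ι x) :=
      TR.hasFDerivAt.comp (ι x) hfd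
    have hm := hg.hasMFDerivAt.comp x hD
    have hm' : mfderiv J 𝓘(ℝ, EuclideanSpace ℂ (Fin (p + q + 3))) (fun y' => TR (f (ι y'))) x =
        ((TR : Tgt p q →L[ℝ] EuclideanSpace ℂ (Fin (p + q + 3))).comp (fderiv ℝ f (ι x))).comp D :=
      hm.mfderiv
    rw [hm']
    set L : (EuclideanSpace ℝ (Fin 4) × EuclideanSpace ℝ (Fin (2 * p + 1)) ×
        EuclideanSpace ℝ (Fin (2 * q + 1))) →L[ℝ] EuclideanSpace ℂ (Fin (p + q + 3)) :=
      ((TR : Tgt p q →L[ℝ] EuclideanSpace ℂ (Fin (p + q + 3))).comp (fderiv ℝ f (ι x))).comp D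
      with hL
    have hLi : Function.Injective L := by
      rw [injective_iff_map_eq_zero]
      intro w hw
      have k1 : TR (fderiv ℝ f (ι x) (D w)) = 0 := hw
      have k2 : fderiv ℝ f (ι x) (D w) = 0 := by simpa using k1
      obtain ⟨⟨u1, a1, b1⟩, ⟨u2, a2, b2⟩, ⟨u3, a3, b3⟩⟩ := hDo w
      refine hDi w (hinj (D w) ?_ ?_ ?_ k2)
      · rw [a1]
        exact (ht1 _ _).2 b1
      · rw [a2]
        exact (ht2 _ _).2 b2
      · rw [a3]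
        exact (ht3 _ _).2 b3
    have hfr : Module.finrank ℝ (EuclideanSpace ℝ (Fin 4) × EuclideanSpace ℝ (Fin (2 * p + 1)) ×
        EuclideanSpace ℝ (Fin (2 * q + 1))) =
        Module.finrank ℝ (EuclideanSpace ℂ (Fin (p + q + 3))) := by
      have k3 : Module.finrank ℝ (EuclideanSpace ℂ (Fin (p + q + 3))) = 2 * (p + q + 3) := by
        rw [finrank_real_of_complex, finrank_euclideanSpace_fin]
      rw [k3, Module.finrank_prod, Module.finrank_prod, finrank_euclideanSpace_fin,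
        finrank_euclideanSpace_fin, finrank_euclideanSpace_fin]
      ring
    exact ⟨hLi, (LinearMap.injective_iff_surjective_of_finrank_eq_finrank
      (f := L.toLinearMap) hfr).1 hLi⟩
  · rintro x F ⟨f, hf, rfl⟩ G ⟨g, hg, rfl⟩
    obtain ⟨H, hH, hev⟩ := h3 (ι x) (hmem x) f hf g hg
    refine ⟨fun z => T (H (T.symm z)), ?_, ?_⟩
    · have e : T.symm (TR (f (ι x))) = f (ι x) := T.symm_apply_apply _
      refine (T.contDiff.contDiffAt (n := ∞)).comp _ (ContDiffAt.comp _ ?_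
        (T.symm.contDiff.contDiffAt (n := ∞)))
      rw [e]
      exact hH
    · have hc : Filter.Tendsto ι (𝓝 x) (𝓝 (ι x)) := hι.continuous.tendsto x
      filter_upwards [hc.eventually hev] with y hy
      have e : T.symm (TR (f (ι y))) = f (ι y) := T.symm_apply_apply _
      show TR (g (ι y)) = T (H (T.symm (TR (f (ι y)))))
      rw [e, hy]
      rfl

end Pool.Agent.S4T2
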