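import Pool.Agent.Lib.MP_1d980c_gt.S4.ChartReg

/-! Task L4: injectivity of the differential of the node chart. -/

set_option autoImplicit false
open Complex ComplexConjugate Topology
open scoped ContDiff

namespace Pool.Agent.S4T2

variable {V1 V2 R1 R2 : Type} [NormedAddCommGroup V1] [NormedSpace ℝ V1] [NormedAddCommGroup V2]
  [NormedSpace ℝ V2] [NormedAddCommGroup R1] [NormedSpace ℂ R1] [NormedAddCommGroup R2]
  [NormedSpace ℂ R2]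

theorem nodeChart_inj {s : Side} {C : ℝ} (hs : s.Good C) {ε μ : ℝ}
    (hε : ε = 1 ∨ ε = -1) (hμ : 0 < μ)
    (d1 : (V1 → ℂ) × (V1 → R1)) (d2 : (V2 → ℂ) × (V2 → R2)) {x : A4 × V1 × V2} (hx : x.1 ∈ S4)
    (hU : x.1 ∈ s.N) (h1 : ContDiffAt ℝ ∞ d1.1 x.2.1) (h1' : ContDiffAt ℝ ∞ d1.2 x.2.1)
    (h2 : ContDiffAt ℝ ∞ d2.1 x.2.2) (h2' : ContDiffAt ℝ ∞ d2.2 x.2.2)
    (v : A4 × V1 × V2) (hv : Tan4 x.1 v.1)
    (hr1 : fderiv ℝ d1.2 x.2.1 v.2.1 = 0 → (fderiv ℝ d1.1 x.2.1 v.2.1).im = 0)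
    (hi1 : fderiv ℝ d1.2 x.2.1 v.2.1 = 0 → fderiv ℝ d1.1 x.2.1 v.2.1 = 0 → v.2.1 = 0)
    (hr2 : fderiv ℝ d2.2 x.2.2 v.2.2 = 0 → (fderiv ℝ d2.1 x.2.2 v.2.2).im = 0)
    (hi2 : fderiv ℝ d2.2 x.2.2 v.2.2 = 0 → fderiv ℝ d2.1 x.2.2 v.2.2 = 0 → v.2.2 = 0)
    (h : fderiv ℝ (nodeChart s ε μ d1 d2) x v = 0) : v = 0 := by
  have hc := hasDerivAt_line (nodeChart_smooth hs ε μ d1 d2 hx hU h1 h1' h2 h2') v
  rw [h] at hc
  have hxx := hasDerivAt_line (hs.node_x x.1 hx hU) v.1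
  have hyy := hasDerivAt_line (hs.node_y x.1 hx hU) v.1
  have hL := hasDerivAt_line (hs.node_L x.1 hx hU) v.1
  have hb1 := hasDerivAt_line h1 v.2.1
  have hb2 := hasDerivAt_line h2 v.2.2
  have hrr1 := hasDerivAt_line h1' v.2.1
  have hrr2 := hasDerivAt_line h2' v.2.2
  have hX := hasDerivAt_fst' hc
  have hc2 := hasDerivAt_snd' hc
  have hY := hasDerivAt_fst' hc2
  have hc3 := hasDerivAt_snd' hc2
  have hZ := hasDerivAt_fst' hc3
  have hc4 := hasDerivAt_snd' hc3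
  have hR1 := hasDerivAt_fst' hc4
  have hR2 := hasDerivAt_snd' hc4
  simp only [nodeChart, Prod.fst_add, Prod.snd_add, Prod.smul_fst, Prod.smul_snd, Prod.fst_zero,
    Prod.snd_zero] at hX hY hZ hR1 hR2
  have r10 : fderiv ℝ d1.2 x.2.1 v.2.1 = 0 := hrr1.unique hR1
  have r20 : fderiv ℝ d2.2 x.2.2 v.2.2 = 0 := hrr2.unique hR2
  have hw := hxx.mul hyy
  have hlam := hasDerivAt_lam (ε := ε) (μ := μ) hw hL hb1 hb2
  simp only [Pi.mul_apply, zero_smul, add_zero] at hlam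
  set x' := fderiv ℝ s.x x.1 v.1 with hx'
  set y' := fderiv ℝ s.y x.1 v.1 with hy'
  set l := fderiv ℝ (s.L false) x.1 v.1 with hldef
  set β1 := fderiv ℝ d1.1 x.2.1 v.2.1 with hβ1
  set β2 := fderiv ℝ d2.1 x.2.2 v.2.2 with hβ2
  set Λ := -(I * μ / 2) * l - 2 * Real.pi * I * ((x' * s.y x.1 + s.x x.1 * y') *
    (d1.1 x.2.1 - I * ε * d2.1 x.2.2) + s.x x.1 * s.y x.1 * (β1 - I * ε * β2)) with hΛ
  set e := lam ε μ (s.x x.1 * s.y x.1) (s.L false x.1) (d1.1 x.2.1) (d2.1 x.2.2) with he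
  have hX2 := (hxx.mul hlam.neg.cexp).unique hX
  have hY2 := (hyy.mul hlam.cexp).unique hY
  simp only [Pi.neg_apply, zero_smul, add_zero] at hX2 hY2
  rw [← he] at hX2 hY2
  have hx2 : x' = s.x x.1 * Λ := by
    apply mul_right_cancel₀ (Complex.exp_ne_zero (-e))
    linear_combination hX2
  have hy2 : y' = -(s.y x.1 * Λ) := by
    apply mul_right_cancel₀ (Complex.exp_ne_zero e)
    linear_combination hY2
  have hw0 : x' * s.y x.1 + s.x x.1 * y' = 0 := by rw [hx2, hy2]; ring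
  have hz := hasDerivAt_zet (ε := ε) (μ := μ) hw hL hb1 hb2 (by simpa using hw0)
  have hz0 := hz.unique hZ
  simp only [Pi.mul_apply, zero_smul, add_zero] at hz0
  obtain ⟨hlre, hlim⟩ := hs.node_re x.1 hx hU v.1 hv Λ hx2 hy2
  obtain ⟨κ, hκ1, hκ2, hκ3⟩ := ker_core (μ := μ) hε (hr1 r10) (hr2 r20) hlre hz0
  have hΛ2 : Λ = ((Real.pi * κ * (1 + ‖s.x x.1 * s.y x.1‖ ^ 2) : ℝ) : ℂ) := by
    rw [← hκ3, hΛ, hw0]; ring
  have hwlt : ‖s.x x.1 * s.y x.1‖ < 1 := by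
    rw [← (hs.node_w x.1 hx hU).self_of_nhds]
    exact hs.node_lt x.1 hx hU
  have hn : ‖s.x x.1 * s.y x.1‖ ^ 2 < 1 := by
    have h0 := norm_nonneg (s.x x.1 * s.y x.1)
    nlinarith
  have hn0 : 0 ≤ ‖s.x x.1 * s.y x.1‖ ^ 2 := by positivity
  rw [hΛ2, ofReal_re] at hlim
  have hpi : 0 < Real.pi := Real.pi_pos
  have hκ0 : κ = 0 := by
    by_contra hne
    have hκp : 0 < κ ^ 2 := by positivity
    set n := ‖s.x x.1 * s.y x.1‖ ^ 2 with hndef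
    have e1 : μ * (l.im * (Real.pi * κ * (1 + n))) =
        2 * Real.pi ^ 2 * κ ^ 2 * ((1 - n) * (1 + n)) := by
      have : μ * (l.im * (Real.pi * κ * (1 + n))) = (μ * l.im) * (Real.pi * κ * (1 + n)) := by
        ring
      rw [this, hκ2]; ring
    have e2 : 0 < 2 * Real.pi ^ 2 * κ ^ 2 * ((1 - n) * (1 + n)) := by
      have : 0 < 1 - n := by linarith
      positivity
    have e3 : μ * (l.im * (Real.pi * κ * (1 + n))) ≤ 0 :=
      mul_nonpos_of_nonneg_of_nonpos hμ.le hlim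
    linarith
  have hΛ0 : Λ = 0 := by rw [hΛ2, hκ0]; simp
  have hP := hs.node_inj x.1 hx hU v.1 hv (by rw [← hx', hx2, hΛ0]; simp)
    (by rw [← hy', hy2, hΛ0]; simp)
  obtain ⟨hB1, hB2⟩ := eq_zero_of_re_im hε (hr1 r10) (hr2 r20) (by rw [hκ1, hκ0]; simp)
  have hv1 := hi1 r10 hB1
  have hv2 := hi2 r20 hB2
  exact Prod.ext hP (Prod.ext hv1 hv2)

end Pool.Agent.S4T2
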