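import Mathlib

/-! Task L1. -/

set_option autoImplicit false
open Complex ComplexConjugate Topology
open scoped ContDiff

namespace Pool.Agent.S4T2

/-- the linear algebra behind the nondegeneracy: solution of `a + conj a w² + i c w = 0`. -/
theorem ker_algebra {ε : ℝ} (hε : ε = 1 ∨ ε = -1) {w : ℂ} {B1 B2 c : ℝ}
    (h : (B1 : ℂ) * (1 + w ^ 2) + I * ε * B2 * (1 - w ^ 2) + I * c * w = 0) :
    ∃ κ : ℝ, (B1 : ℂ) + I * ε * B2 = -(I * κ * w) ∧ c = κ * (1 - ‖w‖ ^ 2) := by
  obtain ⟨u, v⟩ := w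
  have hn : ‖(⟨u, v⟩ : ℂ)‖ ^ 2 = u ^ 2 + v ^ 2 := by
    rw [← normSq_eq_norm_sq, normSq_apply]; ring
  have hre := congrArg re h
  have him := congrArg im h
  simp only [sq, mul_re, mul_im, add_re, add_im, sub_re, sub_im, one_re, one_im, ofReal_re,
    ofReal_im, I_re, I_im, zero_re, zero_im] at hre him
  set B : ℝ := ε * B2 with hB
  -- real equations
  have e1 : B1 * (1 + (u ^ 2 - v ^ 2)) + B * (2 * u * v) - c * v = 0 := by rw [hB]; linarith
  have e2 : B1 * (2 * u * v) + B * (1 - (u ^ 2 - v ^ 2)) + c * u = 0 := by rw [hB]; linarith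
  have key : ∃ κ : ℝ, B1 = κ * v ∧ B = -(κ * u) ∧ c = κ * (1 - (u ^ 2 + v ^ 2)) := by
    by_cases hw : u ^ 2 + v ^ 2 = 1
    · -- `|w| = 1`
      have f1 : c = 0 := by
        -- `u * e2 - v * e1`
        have : u * (B1 * (2 * u * v) + B * (1 - (u ^ 2 - v ^ 2)) + c * u) -
          v * (B1 * (1 + (u ^ 2 - v ^ 2)) + B * (2 * u * v) - c * v) = 0 := by
            rw [e1, e2]; ring
        have h3 : B1 * v * (u ^ 2 + v ^ 2 - 1) + B * u * (1 - (u ^ 2 + v ^ 2)) + c * (u ^ 2 + v ^ 2) = 0 := by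
          linarith [this]
        rw [hw] at h3; linarith
      -- `u * e1 + v * e2`
      have f2 : B1 * u + B * v = 0 := by
        have h3 : u * (B1 * (1 + (u ^ 2 - v ^ 2)) + B * (2 * u * v) - c * v) +
          v * (B1 * (2 * u * v) + B * (1 - (u ^ 2 - v ^ 2)) + c * u) = 0 := by
            rw [e1, e2]; ring
        have h4 : (B1 * u + B * v) + (B1 * u + B * v) * (u ^ 2 + v ^ 2) = 0 := by linarith [h3]
        rw [hw] at h4; linarith
      refine ⟨B1 * v - B * u, ?_, ?_, ?_⟩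
      · -- B1 = (B1 v - B u) v : B1 (1 - v²) + B u v = B1 u² + B u v = u (B1 u + B v) = 0
        have : B1 * (u ^ 2 + v ^ 2) = B1 := by rw [hw, mul_one]
        linear_combination (-1 : ℝ) * this + u * f2
      · have : B * (u ^ 2 + v ^ 2) = B := by rw [hw, mul_one]
        linear_combination (-1 : ℝ) * this + v * f2
      · rw [hw, f1]; ring
    · have hw' : 1 - (u ^ 2 + v ^ 2) ≠ 0 := fun h0 => hw (by linarith)
      have hw2 : 1 + (u ^ 2 + v ^ 2) ≠ 0 := by positivity
      refine ⟨c / (1 - (u ^ 2 + v ^ 2)), ?_, ?_, ?_⟩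
      · rw [div_mul_eq_mul_div, eq_div_iff hw']
        have : (1 + (u ^ 2 + v ^ 2)) * (B1 * (1 - (u ^ 2 + v ^ 2)) - c * v) = 0 := by
          linear_combination (1 - (u ^ 2 - v ^ 2)) * e1 - 2 * u * v * e2
        have := (mul_eq_zero.1 this).resolve_left hw2
        linarith
      · rw [div_mul_eq_mul_div, ← neg_div, eq_div_iff hw']
        have : (1 + (u ^ 2 + v ^ 2)) * (B * (1 - (u ^ 2 + v ^ 2)) + c * u) = 0 := by
          linear_combination (1 + (u ^ 2 - v ^ 2)) * e2 - 2 * u * v * e1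
        have := (mul_eq_zero.1 this).resolve_left hw2
        linarith
      · rw [div_mul_cancel₀ _ hw']
  obtain ⟨κ, k1, k2, k3⟩ := key
  refine ⟨κ, ?_, ?_⟩
  · apply Complex.ext
    · simp only [mul_re, mul_im, add_re, neg_re, ofReal_re, ofReal_im, I_re, I_im]
      linarith
    · simp only [mul_re, mul_im, add_im, neg_im, ofReal_re, ofReal_im, I_re, I_im]
      rw [hB] at k2
      linarith
  · rw [hn]; exact k3

end Pool.Agent.S4T2
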