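import Pool.Agent.Lib.MP_1d980c_gt.S4.ChartSmooth
import Pool.Agent.Lib.MP_1d980c_gt.S4.KerAlg

/-! Task L3: injectivity of the differential of the regular charts. -/

set_option autoImplicit false
open Complex ComplexConjugate Topology
open scoped ContDiff

namespace Pool.Agent.S4T2

variable {V1 V2 R1 R2 : Type} [NormedAddCommGroup V1] [NormedSpace ℝ V1] [NormedAddCommGroup V2]
  [NormedSpace ℝ V2] [NormedAddCommGroup R1] [NormedSpace ℂ R1] [NormedAddCommGroup R2]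
  [NormedSpace ℂ R2]

/-- the derivative of a function along the segment `x + t v`. -/
theorem hasDerivAt_line {E F : Type} [NormedAddCommGroup E] [NormedSpace ℝ E]
    [NormedAddCommGroup F] [NormedSpace ℝ F] {f : E → F} {x : E} (hf : ContDiffAt ℝ ∞ f x)
    (v : E) : HasDerivAt (fun t : ℝ => f (x + t • v)) (fderiv ℝ f x v) 0 := by
  have hd : HasFDerivAt f (fderiv ℝ f x) x :=
    (hf.differentiableAt (by simp)).hasFDerivAt
  have hl : HasDerivAt (fun t : ℝ => x + t • v) v 0 := by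
    have h := (hasDerivAt_id (0 : ℝ)).smul_const v
    simpa using h.const_add x
  have := hd.comp_hasDerivAt_of_eq (0 : ℝ) hl (by simp)
  exact this

theorem hasDerivAt_fst' {E F : Type} [NormedAddCommGroup E] [NormedSpace ℝ E]
    [NormedAddCommGroup F] [NormedSpace ℝ F] {f : ℝ → E × F} {f' : E × F} {t : ℝ}
    (h : HasDerivAt f f' t) : HasDerivAt (fun t => (f t).1) f'.1 t :=
  (ContinuousLinearMap.fst ℝ E F).hasFDerivAt.comp_hasDerivAt t h

theorem hasDerivAt_snd' {E F : Type} [NormedAddCommGroup E] [NormedSpace ℝ E]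
    [NormedAddCommGroup F] [NormedSpace ℝ F] {f : ℝ → E × F} {f' : E × F} {t : ℝ}
    (h : HasDerivAt f f' t) : HasDerivAt (fun t => (f t).2) f'.2 t :=
  (ContinuousLinearMap.snd ℝ E F).hasFDerivAt.comp_hasDerivAt t h

/-- the derivative of `lam` along a curve. -/
theorem hasDerivAt_lam {ε μ : ℝ} {w L b1 b2 : ℝ → ℂ} {w' l β1 β2 : ℂ}
    (hw : HasDerivAt w w' 0) (hL : HasDerivAt L l 0) (h1 : HasDerivAt b1 β1 0)
    (h2 : HasDerivAt b2 β2 0) :
    HasDerivAt (fun t => lam ε μ (w t) (L t) (b1 t) (b2 t))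
      (-(I * μ / 2) * l - 2 * Real.pi * I * (w' * (b1 0 - I * ε * b2 0) +
        w 0 * (β1 - I * ε * β2))) 0 := by
  unfold lam
  have hA : HasDerivAt (fun t => -(I * μ / 2) * L t) (-(I * μ / 2) * l) 0 := hL.const_mul _
  have hB : HasDerivAt (fun t => b1 t - I * ε * b2 t) (β1 - I * ε * β2) 0 :=
    h1.sub (h2.const_mul (I * (ε : ℂ)))
  have hC := (hw.const_mul (2 * (Real.pi : ℂ) * I)).mul hB
  have hD := hA.sub hC
  refine hD.congr_deriv ?_
  ring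

/-- the derivative of `zet` along a curve. -/
theorem hasDerivAt_zet {ε μ : ℝ} {w L b1 b2 : ℝ → ℂ} {w' l β1 β2 : ℂ}
    (hw : HasDerivAt w w' 0) (hL : HasDerivAt L l 0) (h1 : HasDerivAt b1 β1 0)
    (h2 : HasDerivAt b2 β2 0) (hw0 : w' = 0) :
    HasDerivAt (fun t => zet ε μ (w t) (L t) (b1 t) (b2 t))
      (β1 * (1 + w 0 ^ 2) + I * ε * β2 * (1 - w 0 ^ 2) + (μ / (2 * Real.pi)) * w 0 * l) 0 := by
  subst hw0
  unfold zet
  have hw2 : HasDerivAt (fun t => w t ^ 2) 0 0 := by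
    have := hw.mul hw
    refine (this.congr_deriv (by simp)).congr_of_eventuallyEq ?_
    exact Filter.Eventually.of_forall fun t => by simp [sq]
  have hA : HasDerivAt (fun t => b1 t * (1 + w t ^ 2)) (β1 * (1 + w 0 ^ 2) + b1 0 * 0) 0 :=
    h1.mul (hw2.const_add 1)
  have hB : HasDerivAt (fun t => I * ε * b2 t * (1 - w t ^ 2))
      (I * ε * β2 * (1 - w 0 ^ 2) + I * ε * b2 0 * (-0)) 0 :=
    (h2.const_mul (I * (ε : ℂ))).mul (hw2.const_sub 1)
  have hC : HasDerivAt (fun t => ((μ : ℂ) / (2 * Real.pi)) * w t * L t)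
      ((μ : ℂ) / (2 * Real.pi) * 0 * L 0 + (μ : ℂ) / (2 * Real.pi) * w 0 * l) 0 :=
    (hw.const_mul ((μ : ℂ) / (2 * Real.pi))).mul hL
  have hD := (hA.add hB).add hC
  refine hD.congr_deriv ?_
  ring

/-- the algebraic core of the nondegeneracy. -/
theorem ker_core {ε μ : ℝ} (hε : ε = 1 ∨ ε = -1) {w l : ℂ} {β1 β2 : ℂ}
    (h1 : β1.im = 0) (h2 : β2.im = 0) (hl : l.re = 0)
    (h : β1 * (1 + w ^ 2) + I * ε * β2 * (1 - w ^ 2) + (μ / (2 * Real.pi)) * w * l = 0) :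
    ∃ κ : ℝ, β1 + I * ε * β2 = -(I * κ * w) ∧ μ * l.im = 2 * Real.pi * (κ * (1 - ‖w‖ ^ 2)) ∧
      -(I * μ / 2) * l - 2 * Real.pi * I * (w * (β1 - I * ε * β2)) =
        ((Real.pi * κ * (1 + ‖w‖ ^ 2) : ℝ) : ℂ) := by
  have hpi : (Real.pi : ℝ) ≠ 0 := Real.pi_ne_zero
  have hb1 : β1 = (β1.re : ℂ) := by apply Complex.ext <;> simp [h1]
  have hb2 : β2 = (β2.re : ℂ) := by apply Complex.ext <;> simp [h2]
  have hl' : l = I * (l.im : ℂ) := by apply Complex.ext <;> simp [hl]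
  obtain ⟨κ, hκ, hc⟩ := ker_algebra (ε := ε) hε (w := w) (B1 := β1.re) (B2 := β2.re)
    (c := μ * l.im / (2 * Real.pi)) (by
      rw [← h, ← hb1, ← hb2]
      conv_rhs => rw [hl']
      push_cast
      ring)
  rw [← hb1, ← hb2] at hκ
  have hc' : μ * l.im = 2 * Real.pi * (κ * (1 - ‖w‖ ^ 2)) := by
    rw [← hc]; field_simp
  refine ⟨κ, hκ, hc', ?_⟩
  have hconj : β1 - I * ε * β2 = I * κ * conj w := by
    have := congrArg conj hκ
    rw [hb1, hb2] at this ⊢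
    simp only [map_add, map_mul, map_neg, conj_I, conj_ofReal] at this
    linear_combination this
  rw [hconj]
  have hww : w * conj w = ((‖w‖ ^ 2 : ℝ) : ℂ) := by
    rw [Complex.mul_conj, Complex.normSq_eq_norm_sq]
  have e1 : -(I * μ / 2) * l = ((μ * l.im / 2 : ℝ) : ℂ) := by
    conv_lhs => rw [hl']
    push_cast
    linear_combination (-(μ * (l.im : ℂ)) / 2) * I_sq
  have e2 : 2 * Real.pi * I * (w * (I * κ * conj w)) =
      -((2 * Real.pi * κ * ‖w‖ ^ 2 : ℝ) : ℂ) := by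
    have : 2 * (Real.pi : ℂ) * I * (w * (I * κ * conj w)) =
        2 * Real.pi * κ * (I ^ 2) * (w * conj w) := by ring
    rw [this, hww, I_sq]; push_cast; ring
  rw [e1, e2, hc']
  push_cast
  ring

theorem eq_zero_of_re_im {ε : ℝ} (hε : ε = 1 ∨ ε = -1) {β1 β2 : ℂ}
    (h1 : β1.im = 0) (h2 : β2.im = 0) (h : β1 + I * ε * β2 = 0) : β1 = 0 ∧ β2 = 0 := by
  have hre := congrArg Complex.re h
  have him := congrArg Complex.im h
  simp [h1, h2] at hre him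
  have hε0 : ε ≠ 0 := by rcases hε with h | h <;> rw [h] <;> norm_num
  constructor
  · apply Complex.ext <;> simp [h1, hre]
  · apply Complex.ext
    · simpa [hε0] using him
    · simpa using h2

theorem regChart_inj {s : Side} {C : ℝ} (hC : 0 ≤ C) (hs : s.Good C) (α : Bool) {ε μ : ℝ}
    (hε : ε = 1 ∨ ε = -1) (hμ : 2 * C < μ)
    (d1 : (V1 → ℂ) × (V1 → R1)) (d2 : (V2 → ℂ) × (V2 → R2)) {x : A4 × V1 × V2} (hx : x.1 ∈ S4)
    (hU : x.1 ∈ s.U α) (h1 : ContDiffAt ℝ ∞ d1.1 x.2.1) (h1' : ContDiffAt ℝ ∞ d1.2 x.2.1)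
    (h2 : ContDiffAt ℝ ∞ d2.1 x.2.2) (h2' : ContDiffAt ℝ ∞ d2.2 x.2.2)
    (v : A4 × V1 × V2) (hv : Tan4 x.1 v.1)
    (hr1 : fderiv ℝ d1.2 x.2.1 v.2.1 = 0 → (fderiv ℝ d1.1 x.2.1 v.2.1).im = 0)
    (hi1 : fderiv ℝ d1.2 x.2.1 v.2.1 = 0 → fderiv ℝ d1.1 x.2.1 v.2.1 = 0 → v.2.1 = 0)
    (hr2 : fderiv ℝ d2.2 x.2.2 v.2.2 = 0 → (fderiv ℝ d2.1 x.2.2 v.2.2).im = 0)
    (hi2 : fderiv ℝ d2.2 x.2.2 v.2.2 = 0 → fderiv ℝ d2.1 x.2.2 v.2.2 = 0 → v.2.2 = 0)
    (h : fderiv ℝ (regChart s α ε μ d1 d2) x v = 0) : v = 0 := by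
  have hc := hasDerivAt_line (regChart_smooth hs α ε μ d1 d2 hx hU h1 h1' h2 h2') v
  rw [h] at hc
  have hw := hasDerivAt_line (hs.smooth_w α x.1 hx hU) v.1
  have hL := hasDerivAt_line (hs.smooth_L α x.1 hx hU) v.1
  have hF := hasDerivAt_line (hs.smooth_F α x.1 hx hU) v.1
  have hb1 := hasDerivAt_line h1 v.2.1
  have hb2 := hasDerivAt_line h2 v.2.2
  have hrr1 := hasDerivAt_line h1' v.2.1
  have hrr2 := hasDerivAt_line h2' v.2.2
  have hT := hasDerivAt_fst' hc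
  have hc2 := hasDerivAt_snd' hc
  have hZ := hasDerivAt_fst' hc2
  have hc3 := hasDerivAt_snd' hc2
  have hW := hasDerivAt_fst' hc3
  have hc4 := hasDerivAt_snd' hc3
  have hR1 := hasDerivAt_fst' hc4
  have hR2 := hasDerivAt_snd' hc4
  simp only [regChart, Prod.fst_add, Prod.snd_add, Prod.smul_fst, Prod.smul_snd, Prod.fst_zero,
    Prod.snd_zero] at hT hZ hW hR1 hR2
  have w0 : fderiv ℝ s.w x.1 v.1 = 0 := hw.unique hW
  have r10 : fderiv ℝ d1.2 x.2.1 v.2.1 = 0 := hrr1.unique hR1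
  have r20 : fderiv ℝ d2.2 x.2.2 v.2.2 = 0 := hrr2.unique hR2
  have hz := hasDerivAt_zet (ε := ε) (μ := μ) hw hL hb1 hb2 w0
  have hz0 := hz.unique hZ
  simp only [zero_smul, add_zero] at hz0
  obtain ⟨κ, hκ1, hκ2, hκ3⟩ := ker_core (μ := μ) hε (hr1 r10) (hr2 r20)
    (hs.reg_re α x.1 hx hU v.1 hv w0) hz0
  have hlam := hasDerivAt_lam (ε := ε) (μ := μ) hw hL hb1 hb2
  simp only [zero_smul, add_zero] at hlam
  rw [w0, zero_mul, zero_add, hκ3] at hlam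
  have hT2 := hF.mul hlam.cexp
  have hT0 := hT2.unique hT
  simp only [zero_smul, add_zero] at hT0
  have hFne := hs.F_ne α x.1 hx hU
  have hFq : fderiv ℝ (s.F α) x.1 v.1 / s.F α x.1 =
      -((Real.pi * κ * (1 + ‖s.w x.1‖ ^ 2) : ℝ) : ℂ) := by
    rw [div_eq_iff hFne]
    have hexp := Complex.exp_ne_zero (lam ε μ (s.w x.1) (s.L α x.1) (d1.1 x.2.1) (d2.1 x.2.2))
    apply mul_right_cancel₀ hexp
    linear_combination hT0
  have hest := hs.reg_est α x.1 hx hU v.1 hv w0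
  have hlre := hs.reg_re α x.1 hx hU v.1 hv w0
  set l := fderiv ℝ (s.L α) x.1 v.1 with hldef
  have hlnorm : ‖l‖ = |l.im| := by
    have : l = I * (l.im : ℂ) := by apply Complex.ext <;> simp [hlre]
    rw [this]; simp
  rw [hFq, neg_re, ofReal_re, abs_neg, hlnorm] at hest
  have hμ0 : 0 < μ := by linarith
  have hpi : 0 < Real.pi := Real.pi_pos
  have hn : 0 ≤ ‖s.w x.1‖ ^ 2 := by positivity
  have hκ0 : κ = 0 := by
    by_contra hne
    have hκp : 0 < |κ| := abs_pos.mpr hne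
    have e1 : |Real.pi * κ * (1 + ‖s.w x.1‖ ^ 2)| = Real.pi * |κ| * (1 + ‖s.w x.1‖ ^ 2) := by
      rw [abs_mul, abs_mul, abs_of_pos hpi, abs_of_pos (show (0:ℝ) < 1 + ‖s.w x.1‖ ^ 2 by linarith)]
    have e2 : μ * |l.im| = 2 * Real.pi * (|κ| * |1 - ‖s.w x.1‖ ^ 2|) := by
      have h2 := congrArg abs hκ2
      rw [abs_mul μ l.im, abs_mul (2 * Real.pi) (κ * (1 - ‖s.w x.1‖ ^ 2)),
        abs_mul κ (1 - ‖s.w x.1‖ ^ 2), abs_of_pos hμ0,
        abs_of_pos (show (0:ℝ) < 2 * Real.pi by linarith)] at h2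
      exact h2
    rw [e1] at hest
    have e3 : |1 - ‖s.w x.1‖ ^ 2| ≤ 1 + ‖s.w x.1‖ ^ 2 := by
      rw [abs_le]; constructor <;> linarith
    have e4 : μ * (Real.pi * |κ| * (1 + ‖s.w x.1‖ ^ 2)) ≤ C * (μ * |l.im|) := by
      nlinarith
    rw [e2] at e4
    have e5 : C * (2 * Real.pi * (|κ| * |1 - ‖s.w x.1‖ ^ 2|)) ≤
        C * (2 * Real.pi * (|κ| * (1 + ‖s.w x.1‖ ^ 2))) := by
      gcongr
    have e6 : 0 < Real.pi * |κ| * (1 + ‖s.w x.1‖ ^ 2) := by positivity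
    nlinarith
  subst hκ0
  have hlim : l.im = 0 := by
    have : μ * l.im = 0 := by rw [hκ2]; ring
    exact (mul_eq_zero.mp this).resolve_left hμ0.ne'
  have hl0 : l = 0 := by apply Complex.ext <;> simp [hlre, hlim]
  have hf0 : fderiv ℝ (s.F α) x.1 v.1 = 0 := by
    have : fderiv ℝ (s.F α) x.1 v.1 / s.F α x.1 = 0 := by rw [hFq]; simp
    exact (div_eq_zero_iff.mp this).resolve_right hFne
  have hP := hs.reg_inj α x.1 hx hU v.1 hv w0 hl0 hf0
  obtain ⟨hB1, hB2⟩ := eq_zero_of_re_im hε (hr1 r10) (hr2 r20) (by rw [hκ1]; simp)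
  have hv1 := hi1 r10 hB1
  have hv2 := hi2 r20 hB2
  exact Prod.ext hP (Prod.ext hv1 hv2)

end Pool.Agent.S4T2
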