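import Pool.Agent.Lib.MP_1d980c_gt.S4.Side

/-! Task L2: smoothness of the charts. -/

set_option autoImplicit false
open Complex ComplexConjugate Topology
open scoped ContDiff

namespace Pool.Agent.S4T2

variable {V1 V2 R1 R2 : Type} [NormedAddCommGroup V1] [NormedSpace ℝ V1] [NormedAddCommGroup V2]
  [NormedSpace ℝ V2] [NormedAddCommGroup R1] [NormedSpace ℂ R1] [NormedAddCommGroup R2]
  [NormedSpace ℂ R2]

section aux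
variable {X : Type} [NormedAddCommGroup X] [NormedSpace ℝ X]

theorem lam_smooth (ε μ : ℝ) {w L b1 b2 : X → ℂ} {x : X} (hw : ContDiffAt ℝ ∞ w x)
    (hL : ContDiffAt ℝ ∞ L x) (h1 : ContDiffAt ℝ ∞ b1 x) (h2 : ContDiffAt ℝ ∞ b2 x) :
    ContDiffAt ℝ ∞ (fun y => lam ε μ (w y) (L y) (b1 y) (b2 y)) x := by
  unfold lam
  exact (contDiffAt_const.mul hL).sub ((contDiffAt_const.mul hw).mul
    (h1.sub (contDiffAt_const.mul h2)))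

theorem zet_smooth (ε μ : ℝ) {w L b1 b2 : X → ℂ} {x : X} (hw : ContDiffAt ℝ ∞ w x)
    (hL : ContDiffAt ℝ ∞ L x) (h1 : ContDiffAt ℝ ∞ b1 x) (h2 : ContDiffAt ℝ ∞ b2 x) :
    ContDiffAt ℝ ∞ (fun y => zet ε μ (w y) (L y) (b1 y) (b2 y)) x := by
  unfold zet
  exact ((h1.mul (contDiffAt_const.add (hw.pow 2))).add
    ((contDiffAt_const.mul h2).mul (contDiffAt_const.sub (hw.pow 2)))).add
    ((contDiffAt_const.mul hw).mul hL)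

end aux

theorem regChart_smooth {s : Side} {C : ℝ} (hs : s.Good C) (α : Bool) (ε μ : ℝ)
    (d1 : (V1 → ℂ) × (V1 → R1)) (d2 : (V2 → ℂ) × (V2 → R2)) {x : A4 × V1 × V2} (hx : x.1 ∈ S4)
    (hU : x.1 ∈ s.U α) (h1 : ContDiffAt ℝ ∞ d1.1 x.2.1) (h1' : ContDiffAt ℝ ∞ d1.2 x.2.1)
    (h2 : ContDiffAt ℝ ∞ d2.1 x.2.2) (h2' : ContDiffAt ℝ ∞ d2.2 x.2.2) :
    ContDiffAt ℝ ∞ (regChart s α ε μ d1 d2) x := by
  have f1 : ContDiffAt ℝ ∞ (fun x : A4 × V1 × V2 => x.1) x := contDiffAt_fst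
  have f2 : ContDiffAt ℝ ∞ (fun x : A4 × V1 × V2 => x.2.1) x := contDiffAt_snd.fst
  have f3 : ContDiffAt ℝ ∞ (fun x : A4 × V1 × V2 => x.2.2) x := contDiffAt_snd.snd
  have hw : ContDiffAt ℝ ∞ (fun x : A4 × V1 × V2 => s.w x.1) x := (hs.smooth_w α _ hx hU).comp x f1
  have hL : ContDiffAt ℝ ∞ (fun x : A4 × V1 × V2 => s.L α x.1) x :=
    (hs.smooth_L α _ hx hU).comp x f1
  have hF : ContDiffAt ℝ ∞ (fun x : A4 × V1 × V2 => s.F α x.1) x :=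
    (hs.smooth_F α _ hx hU).comp x f1
  have hb1 : ContDiffAt ℝ ∞ (fun x : A4 × V1 × V2 => d1.1 x.2.1) x := h1.comp x f2
  have hr1 : ContDiffAt ℝ ∞ (fun x : A4 × V1 × V2 => d1.2 x.2.1) x := h1'.comp x f2
  have hb2 : ContDiffAt ℝ ∞ (fun x : A4 × V1 × V2 => d2.1 x.2.2) x := h2.comp x f3
  have hr2 : ContDiffAt ℝ ∞ (fun x : A4 × V1 × V2 => d2.2 x.2.2) x := h2'.comp x f3
  exact (hF.mul (lam_smooth ε μ hw hL hb1 hb2).cexp).prodMk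
    ((zet_smooth ε μ hw hL hb1 hb2).prodMk (hw.prodMk (hr1.prodMk hr2)))

theorem nodeChart_smooth {s : Side} {C : ℝ} (hs : s.Good C) (ε μ : ℝ)
    (d1 : (V1 → ℂ) × (V1 → R1)) (d2 : (V2 → ℂ) × (V2 → R2)) {x : A4 × V1 × V2} (hx : x.1 ∈ S4)
    (hU : x.1 ∈ s.N) (h1 : ContDiffAt ℝ ∞ d1.1 x.2.1) (h1' : ContDiffAt ℝ ∞ d1.2 x.2.1)
    (h2 : ContDiffAt ℝ ∞ d2.1 x.2.2) (h2' : ContDiffAt ℝ ∞ d2.2 x.2.2) :
    ContDiffAt ℝ ∞ (nodeChart s ε μ d1 d2) x := by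
  have f1 : ContDiffAt ℝ ∞ (fun x : A4 × V1 × V2 => x.1) x := contDiffAt_fst
  have f2 : ContDiffAt ℝ ∞ (fun x : A4 × V1 × V2 => x.2.1) x := contDiffAt_snd.fst
  have f3 : ContDiffAt ℝ ∞ (fun x : A4 × V1 × V2 => x.2.2) x := contDiffAt_snd.snd
  have hX : ContDiffAt ℝ ∞ (fun x : A4 × V1 × V2 => s.x x.1) x := (hs.node_x _ hx hU).comp x f1
  have hY : ContDiffAt ℝ ∞ (fun x : A4 × V1 × V2 => s.y x.1) x := (hs.node_y _ hx hU).comp x f1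
  have hw : ContDiffAt ℝ ∞ (fun x : A4 × V1 × V2 => s.x x.1 * s.y x.1) x := hX.mul hY
  have hL : ContDiffAt ℝ ∞ (fun x : A4 × V1 × V2 => s.L false x.1) x :=
    (hs.node_L _ hx hU).comp x f1
  have hb1 : ContDiffAt ℝ ∞ (fun x : A4 × V1 × V2 => d1.1 x.2.1) x := h1.comp x f2
  have hr1 : ContDiffAt ℝ ∞ (fun x : A4 × V1 × V2 => d1.2 x.2.1) x := h1'.comp x f2
  have hb2 : ContDiffAt ℝ ∞ (fun x : A4 × V1 × V2 => d2.1 x.2.2) x := h2.comp x f3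
  have hr2 : ContDiffAt ℝ ∞ (fun x : A4 × V1 × V2 => d2.2 x.2.2) x := h2'.comp x f3
  exact (hX.mul (lam_smooth ε μ hw hL hb1 hb2).neg.cexp).prodMk
    ((hY.mul (lam_smooth ε μ hw hL hb1 hb2).cexp).prodMk
    ((zet_smooth ε μ hw hL hb1 hb2).prodMk (hr1.prodMk hr2)))

end Pool.Agent.S4T2
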