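import Pool.Agent.Lib.MP_1d980c_gt.S4.TS

/-! Task J: facts about the domains `UU`, `Nn`. -/

set_option autoImplicit false
open Complex ComplexConjugate Topology
open scoped ContDiff

namespace Pool.Agent.S4T2

private lemma j_y1_re (P : A4) : (y1 P).re = bet (-P.2.2) + 2 * (MM P).re := by simp [y1]
private lemma j_y1_im (P : A4) : (y1 P).im = 2 * DD P := by simp [y1]
private lemma j_y2_re (P : A4) : (y2 P).re = bet P.2.2 + 2 * (MM P).re := by simp [y2]
private lemma j_y2_im (P : A4) : (y2 P).im = 2 * (MM P).im := by simp [y2]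
private lemma j_nsq (z : ℂ) : ‖z‖ ^ 2 = z.re ^ 2 + z.im ^ 2 := by
  rw [Complex.sq_norm, Complex.normSq_apply]; ring
private lemma j_NN_sq (P : A4) : NN P ^ 2 = ‖y1 P‖ ^ 2 + ‖y2 P‖ ^ 2 := by
  rw [NN, Real.sq_sqrt (by positivity)]
private lemma j_re1 {P : A4} (hN : 0 < NN P) : (y1 P).re = NN P * (z1 P).re := by
  conv_lhs => rw [y1_eq hN]
  simp
private lemma j_im1 {P : A4} (hN : 0 < NN P) : (y1 P).im = NN P * (z1 P).im := by
  conv_lhs => rw [y1_eq hN]
  simp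

/-- on the part of `{z2 = 0}` where the argument of `z1` is small we are close to the pole. -/
theorem near_pole {δ : ℝ} (hδ : 0 < δ) (hδ' : δ ≤ 1 / 20) {P : A4} (hP : P ∈ S4)
    (hz : z2 P = 0) (hre : 0 ≤ (z1 P).re) (him : |(z1 P).im| ≤ δ) : P.2.2 < -(24 / 25) := by
  have hN := NN_pos hP
  have hy2 : y2 P = 0 := by rw [y2_eq hN, hz, mul_zero]
  have h1 : bet P.2.2 + 2 * (MM P).re = 0 := by rw [← j_y2_re, hy2]; rfl
  have h2 : (MM P).im = 0 := by
    have := j_y2_im P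
    rw [hy2] at this
    simp at this
    exact this
  have h3 : (y1 P).re = bet (-P.2.2) + 2 * (MM P).re := j_y1_re P
  have h4 : (y1 P).im = 2 * DD P := j_y1_im P
  have h5 : 0 ≤ (y1 P).re := by rw [j_re1 hN]; positivity
  have h6 : (y1 P).im ^ 2 ≤ (1 / 400) * NN P ^ 2 := by
    rw [j_im1 hN, mul_pow]
    have : (z1 P).im ^ 2 ≤ (1 / 20) ^ 2 := by
      rw [← sq_abs]
      exact pow_le_pow_left₀ (abs_nonneg _) (him.trans hδ') 2
    nlinarith [sq_nonneg (NN P)]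
  have h7 : NN P ^ 2 = (y1 P).re ^ 2 + (y1 P).im ^ 2 := by
    rw [j_NN_sq, hy2, j_nsq]; simp
  have h8 := bet_add P.2.2
  have h9 := bet_nonneg P.2.2
  have h10 := MM_DD P
  have h11 := rho2_S4 hP
  have h12 := rho2_nonneg P
  set b := bet P.2.2 with hb
  set h := P.2.2 with hh
  have hMr : (MM P).re = -b / 2 := by linarith
  have hb2 : b ≤ 1 / 2 := by linarith
  have hyr : (y1 P).re = 1 - 2 * b := by linarith
  have hD : DD P ^ 2 ≤ 1 / 1596 := by
    rw [h7, hyr, h4] at h6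
    nlinarith
  have hrho : rho2 P ^ 2 = b ^ 2 / 4 + DD P ^ 2 := by
    rw [← h10, hMr, h2]; ring
  rcases le_or_gt h (-(1 / 2)) with hc | hc
  · have hb0 : b = 0 := bet_of_le hc
    rw [hb0, h11] at hrho
    by_contra hcon
    push Not at hcon
    have : h ^ 2 ≤ (24 / 25) ^ 2 := by nlinarith
    nlinarith
  · rcases le_or_gt (1 / 2) h with hc' | hc'
    · have : b = 1 := bet_of_ge hc'
      linarith
    · exfalso
      have : h ^ 2 < 1 / 4 := by nlinarith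
      have h34 : 3 / 4 < rho2 P := by rw [h11]; linarith
      nlinarith

/-- if `|z2| ≤ |z1|` nearly, one of the two branches is valid. -/
theorem valid_or {δ : ℝ} (hδ : 0 < δ) (hδ' : δ ≤ 1 / 20) {P : A4} (hP : P ∈ S4)
    (hw : ‖z2 P‖ ^ 2 - ‖z1 P‖ ^ 2 < δ) : Valid δ true P ∨ (Valid δ false P ∧ |(z1 P).im| ≤ δ) := by
  have hN := NN_pos hP
  have hn := norm_z P hN
  by_cases h1 : (z1 P).re < 0
  · left; simp [Valid, h1]
  by_cases h2 : δ < |(z1 P).im|
  · left; simp [Valid, h2]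
  push Not at h1 h2
  right
  refine ⟨?_, h2⟩
  have : 0 < (z1 P).re := by
    rcases h1.lt_or_eq with h | h
    · exact h
    · exfalso
      have e : ‖z1 P‖ ^ 2 = (z1 P).im ^ 2 := by rw [j_nsq, ← h]; ring
      have e2 : (z1 P).im ^ 2 ≤ δ ^ 2 := by
        rw [← sq_abs]
        exact pow_le_pow_left₀ (abs_nonneg _) h2 2
      nlinarith
  simpa [Valid] using this

/-- the facts which hold near the pole. -/
theorem near_pole_facts {P : A4} (hP : P ∈ S4) (h : P ∈ Nn) :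
    3 / 4 < (y1 P).re ∧ 0 < (z1 P).re ∧ ‖ww P‖ ≤ 1 / 4 ∧ y1 P = 1 + 2 * (((MM P).re : ℂ) + (DD P : ℂ) * I)
      ∧ y2 P = 2 * MM P ∧ rho2 P ≤ 39 / 400 ∧ 3 / 4 ≤ ‖z1 P‖ ^ 2 - ‖z2 P‖ ^ 2 := by
  have hN := NN_pos hP
  have hh : P.2.2 < -(19 / 20) := h
  have hb : bet P.2.2 = 0 := bet_of_le (by linarith)
  have hb' : bet (-P.2.2) = 1 := bet_of_ge (by linarith)
  have hr : rho2 P ≤ 39 / 400 := by rw [rho2_S4 hP]; nlinarith
  have hr0 := rho2_nonneg P
  have hMD := MM_DD P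
  have hy1 : y1 P = 1 + 2 * (((MM P).re : ℂ) + (DD P : ℂ) * I) := by simp [y1, hb']
  have hy2 : y2 P = 2 * MM P := by simp [y2, hb]
  have hre : (y1 P).re = 1 + 2 * (MM P).re := by rw [j_y1_re, hb']
  have hMre : -rho2 P ≤ (MM P).re := by
    apply (abs_le_of_sq_le_sq' _ hr0).1
    nlinarith [sq_nonneg (MM P).im, sq_nonneg (DD P)]
  have hMn : ‖MM P‖ ≤ rho2 P := by
    apply (abs_le_of_sq_le_sq' _ hr0).2
    rw [j_nsq]
    nlinarith [sq_nonneg (DD P)]
  have hre34 : 322 / 400 ≤ (y1 P).re := by rw [hre]; linarith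
  have hn1 : 322 / 400 ≤ ‖y1 P‖ := hre34.trans ((le_abs_self _).trans (Complex.abs_re_le_norm _))
  have hn2 : ‖y2 P‖ ≤ 78 / 400 := by
    rw [hy2, norm_mul]
    simp only [Complex.norm_ofNat]
    linarith
  have hw : ‖ww P‖ ≤ 1 / 4 := by
    rw [ww, norm_div, div_le_iff₀ (by linarith)]
    linarith
  have hz := norm_z P hN
  have hzw : ‖z2 P‖ ≤ (1 / 4) * ‖z1 P‖ := by
    have e1 : ‖z2 P‖ = ‖y2 P‖ / NN P := by
      rw [z2, norm_div, Complex.norm_real, Real.norm_of_nonneg hN.le]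
    have e2 : ‖z1 P‖ = ‖y1 P‖ / NN P := by
      rw [z1, norm_div, Complex.norm_real, Real.norm_of_nonneg hN.le]
    rw [e1, e2, ← mul_div_assoc, div_le_div_iff_of_pos_right hN]
    linarith
  refine ⟨by linarith, ?_, hw, hy1, hy2, hr, ?_⟩
  · have := j_re1 hN
    by_contra hcon
    push Not at hcon
    nlinarith
  · have := norm_nonneg (z2 P)
    nlinarith [norm_nonneg (z1 P)]

theorem openU {δ : ℝ} {P : A4} (hP : P ∈ S4) (α : Bool) (h : P ∈ UU δ α) :
    ∀ᶠ P' in 𝓝 P, P' ∈ UU δ α := by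
  have hN := NN_pos hP
  obtain ⟨hv, hz, hw, hh⟩ := h
  have c1 : ContinuousAt z1 P := (contDiffAt_z1 hN).continuousAt
  have c2 : ContinuousAt z2 P := (contDiffAt_z2 hN).continuousAt
  have e1 := valid_eventually hN α hv
  have e2 : ∀ᶠ P' in 𝓝 P, (α = false → z2 P' ≠ 0) := by
    by_cases ha : α = false
    · filter_upwards [c2.eventually_ne (hz ha)] with P' hP' _ using hP'
    · exact Filter.Eventually.of_forall fun _ h => absurd h ha
  have e3 : ∀ᶠ P' in 𝓝 P, ‖z2 P'‖ ^ 2 - ‖z1 P'‖ ^ 2 < δ / 2 :=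
    ((c2.norm.pow 2).sub (c1.norm.pow 2)).eventually_lt continuousAt_const hw
  have e4 : ∀ᶠ P' in 𝓝 P, -(24 / 25) < P'.2.2 := by
    have c : ContinuousAt (fun P' : A4 => P'.2.2) P :=
      (continuous_snd.comp continuous_snd).continuousAt
    exact continuousAt_const.eventually_lt c hh
  filter_upwards [e1, e2, e3, e4] with P' a b c d using ⟨a, b, c, d⟩

theorem openN {P : A4} (h : P ∈ Nn) : ∀ᶠ P' in 𝓝 P, P' ∈ Nn := by
  have c : ContinuousAt (fun P' : A4 => P'.2.2) P :=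
    (continuous_snd.comp continuous_snd).continuousAt
  exact c.eventually_lt continuousAt_const h

private lemma j_cover {δ : ℝ} (hδ : 0 < δ) (hδ' : δ ≤ 1 / 20) {P : A4} (hP : P ∈ S4)
    (hw : ‖z2 P‖ ^ 2 - ‖z1 P‖ ^ 2 < δ / 2) : (∃ α, P ∈ UU δ α) ∨ P ∈ Nn := by
  by_cases hh : -(24 / 25) < P.2.2
  · left
    rcases valid_or hδ hδ' hP (by linarith) with hv | ⟨hv, him⟩
    · exact ⟨true, hv, by simp, hw, hh⟩
    · refine ⟨false, hv, fun _ hz => ?_, hw, hh⟩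
      have hre : 0 < (z1 P).re := by simpa [Valid] using hv
      have := near_pole hδ hδ' hP hz hre.le him
      linarith
  · right
    push Not at hh
    show P.2.2 < -(19 / 20)
    linarith

theorem cover {δ : ℝ} (hδ : 0 < δ) (hδ' : δ ≤ 1 / 20) {P : A4} (hP : P ∈ S4) :
    (∃ α, P ∈ UU δ α) ∨ P ∈ Nn ∨ (∃ α, iota P ∈ UU δ α) ∨ iota P ∈ Nn := by
  by_cases hw : ‖z2 P‖ ^ 2 - ‖z1 P‖ ^ 2 < δ / 2
  · rcases j_cover hδ hδ' hP hw with h | h
    · exact Or.inl h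
    · exact Or.inr (Or.inl h)
  · push Not at hw
    have hw' : ‖z2 (iota P)‖ ^ 2 - ‖z1 (iota P)‖ ^ 2 < δ / 2 := by
      rw [z1_iota, z2_iota]; linarith
    exact Or.inr (Or.inr (j_cover hδ hδ' (iota_mem hP) hw'))

theorem disj_NU {δ : ℝ} (hδ : 0 < δ) (hδ' : δ ≤ 1 / 20) {P : A4} (hP : P ∈ S4) (h : P ∈ Nn)
    (β : Bool) : iota P ∉ UU δ β := by
  rintro ⟨-, -, hw, -⟩
  have := (near_pole_facts hP h).2.2.2.2.2.2
  rw [z1_iota, z2_iota] at hw
  linarith

theorem disj_NN {P : A4} (h : P ∈ Nn) : iota P ∉ Nn := by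
  intro h'
  have h1 : P.2.2 < -(19 / 20) := h
  have h2 : -P.2.2 < -(19 / 20) := h'
  linarith

theorem z1_ne_of_UU {δ : ℝ} (hδ : 0 < δ) {P : A4} (α : Bool) (h : P ∈ UU δ α) : z1 P ≠ 0 := by
  intro hz
  have hv := h.1
  cases α with
  | false => simp [Valid, hz] at hv
  | true =>
    simp [Valid, hz] at hv
    linarith

end Pool.Agent.S4T2
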