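import Mathlib

/-!
# `S⁴ × S^{2p+1} × S^{2q+1}` : definitions

`A4 = ℂ × ℂ × ℝ` is the ambient space of `S⁴`, with points `P = (X, Y, h)`.
-/

set_option autoImplicit false
open Complex ComplexConjugate Topology
open scoped ContDiff

namespace Pool.Agent.S4T2

/-- ambient space of `S⁴`. -/
abbrev A4 : Type := ℂ × ℂ × ℝ

/-- the unit sphere of `A4` (Euclidean norm). -/
def S4 : Set A4 := {P | ‖P.1‖ ^ 2 + ‖P.2.1‖ ^ 2 + P.2.2 ^ 2 = 1}

/-- `v` is tangent to the sphere at `P`. -/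
def Tan4 (P v : A4) : Prop :=
  (conj P.1 * v.1).re + (conj P.2.1 * v.2.1).re + P.2.2 * v.2.2 = 0

/-- the circle action with weights `(1, -1)`. -/
noncomputable def act (φ : ℝ) (P : A4) : A4 :=
  (exp (φ * I) * P.1, exp (-(φ * I)) * P.2.1, P.2.2)

/-- the generating vector field of `act`. -/
noncomputable def dphi (P : A4) : A4 := (I * P.1, -(I * P.2.1), 0)

/-- the cutoff in `h`: `bet h + bet (-h) = 1`. -/
noncomputable def bet (h : ℝ) : ℝ := Real.smoothTransition (h + 1 / 2)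

noncomputable def MM (P : A4) : ℂ := 2 * P.1 * P.2.1
noncomputable def DD (P : A4) : ℝ := ‖P.1‖ ^ 2 - ‖P.2.1‖ ^ 2
noncomputable def rho2 (P : A4) : ℝ := ‖P.1‖ ^ 2 + ‖P.2.1‖ ^ 2

noncomputable def y1 (P : A4) : ℂ := (bet (-P.2.2) : ℂ) + 2 * (((MM P).re : ℂ) + (DD P : ℂ) * I)
noncomputable def y2 (P : A4) : ℂ := (bet P.2.2 : ℂ) + 2 * MM P
noncomputable def NN (P : A4) : ℝ := Real.sqrt (‖y1 P‖ ^ 2 + ‖y2 P‖ ^ 2)
noncomputable def z1 (P : A4) : ℂ := y1 P / (NN P : ℂ)
noncomputable def z2 (P : A4) : ℂ := y2 P / (NN P : ℂ)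
noncomputable def ww (P : A4) : ℂ := y2 P / y1 P

/-- the isometric involution exchanging `y1` and `y2`. -/
noncomputable def iota (P : A4) : A4 :=
  ((P.2.1 + I * conj P.1) / (Real.sqrt 2 : ℂ), (P.1 - I * conj P.2.1) / (Real.sqrt 2 : ℂ), -P.2.2)

/-- the cutoff in the argument of `z1`. -/
noncomputable def psi (δ : ℝ) (P : A4) : ℝ := Real.smoothTransition ((z1 P).im / (2 * δ) + 1 / 2)

noncomputable def tt (δ : ℝ) (P : A4) : ℂ :=
  ((1 - psi δ P : ℝ) : ℂ) / P.2.1 + (psi δ P : ℂ) * (4 * P.1) / y2 P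
noncomputable def ss (δ : ℝ) (P : A4) : ℂ :=
  ((1 - psi δ P : ℝ) : ℂ) / P.2.1 + (psi δ P : ℂ) * (4 * P.1) / y1 P

/-- the two branches of `log z1`: `false` is the principal one, `true` the one with imaginary part
in `(0, 2π)`. -/
noncomputable def Lb (α : Bool) (P : A4) : ℂ :=
  if α then log (-z1 P) + Real.pi * I else log (z1 P)

/-- the functions `F^A`. -/
noncomputable def FA (δ : ℝ) (α : Bool) (P : A4) : ℂ :=
  exp (Lb α P / 2) * (if α then ss δ P else tt δ P)

/-- the branches of `T̃`. -/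
noncomputable def TA (δ : ℝ) (α : Bool) (P : A4) : ℂ :=
  if α then FA δ true P / ww P else FA δ false P

/-- validity of the branch `α` at `P`. -/
def Valid (δ : ℝ) (α : Bool) (P : A4) : Prop :=
  if α then ((z1 P).re < 0 ∨ δ < |(z1 P).im|) else 0 < (z1 P).re

noncomputable def RR (l : ℂ) : ℂ := exp (l ^ 2 / (4 * Real.pi * I))

/-- the branch used to define `QQ`. -/
noncomputable def br (P : A4) : Bool := by
  classical exact if 0 < (z1 P).re then false else true

noncomputable def QQ (δ : ℝ) (P : A4) : ℂ :=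
  TA δ (br P) P * TA δ (br (iota P)) (iota P) / RR (Lb (br P) P - Lb (br (iota P)) (iota P))

/-- the gluing cutoff. -/
noncomputable def sig (δ : ℝ) (P : A4) : ℝ :=
  Real.smoothTransition (1 / 2 + (‖z2 P‖ ^ 2 - ‖z1 P‖ ^ 2) / δ)

noncomputable def GG (δ : ℝ) (P : A4) : ℂ := exp (-((sig δ P : ℂ) * log (QQ δ P)))

/-- the functions `F`. -/
noncomputable def FF (δ : ℝ) (α : Bool) (P : A4) : ℂ := FA δ α P * GG δ P

/-- the domain of the regular chart `α`. -/
def UU (δ : ℝ) (α : Bool) : Set A4 :=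
  {P | Valid δ α P ∧ (α = false → z2 P ≠ 0) ∧ ‖z2 P‖ ^ 2 - ‖z1 P‖ ^ 2 < δ / 2 ∧ -(24 / 25) < P.2.2}

/-- the domain of the node chart. -/
def Nn : Set A4 := {P | P.2.2 < -(19 / 20)}

noncomputable def x0 (P : A4) : ℂ := P.2.1 * exp (-(Lb false P / 2))
noncomputable def y0 (P : A4) : ℂ := 4 * P.1 / y1 P * exp (Lb false P / 2)

/-- the two logarithms used for the pure forms. `true`: imaginary part in `(-π/2, 3π/2)`,
`false`: imaginary part in `(-3π/2, π/2)`. -/
noncomputable def Lp (i : Bool) (P : A4) : ℂ :=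
  if i then log (-I * z1 P) + Real.pi / 2 * I else log (I * z1 P) - Real.pi / 2 * I

/-- the pure forms of `T̃` (`true` : `4 X / y2`, `false` : `1 / Y`). -/
noncomputable def Ep (i : Bool) (P : A4) : ℂ :=
  exp (Lp i P / 2) * (if i then 4 * P.1 / y2 P else 1 / P.2.1)

/-- the pure forms of `Q`. -/
noncomputable def Qp (i j : Bool) (P : A4) : ℂ :=
  Ep i P * Ep j (iota P) / RR (Lp i P - Lp j (iota P))

noncomputable def wt (δ : ℝ) (i : Bool) (P : A4) : ℝ := if i then psi δ P else 1 - psi δ P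

/-- the sign attached to a Boolean. -/
def sgn (i : Bool) : ℝ := if i then 1 else -1

end Pool.Agent.S4T2
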