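import Pool.Agent.Lib.MP_1d980c_gt.S4.Pos

/-! Task E: compactness: the positivity of `Qp` persists in a neighbourhood of the closed
quadrants. -/

set_option autoImplicit false
open Complex ComplexConjugate Topology
open scoped ContDiff

namespace Pool.Agent.S4T2

/-- the requirement on `δ`. -/
def GoodDelta (δ : ℝ) : Prop :=
  0 < δ ∧ δ ≤ 1 / 20 ∧ ∀ P ∈ S4, |‖z1 P‖ ^ 2 - ‖z2 P‖ ^ 2| ≤ δ → ∀ i j : Bool,
    -δ ≤ sgn i * (z1 P).im → -δ ≤ sgn j * (z2 P).im → 0 < (Qp i j P).re

theorem isCompact_S4 : IsCompact S4 := by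
  refine Metric.isCompact_of_isClosed_isBounded ?_ ?_
  · have h : Continuous (fun P : A4 => ‖P.1‖ ^ 2 + ‖P.2.1‖ ^ 2 + P.2.2 ^ 2) := by fun_prop
    exact isClosed_eq h continuous_const
  · refine (Metric.isBounded_closedBall (x := (0 : A4)) (r := 1)).subset ?_
    intro P hP
    have hP' : ‖P.1‖ ^ 2 + ‖P.2.1‖ ^ 2 + P.2.2 ^ 2 = 1 := hP
    rw [mem_closedBall_zero_iff]
    rw [Prod.norm_def, Prod.norm_def]
    refine max_le ?_ (max_le ?_ ?_)
    · nlinarith [norm_nonneg P.1, sq_nonneg ‖P.2.1‖, sq_nonneg P.2.2]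
    · nlinarith [norm_nonneg P.2.1, sq_nonneg ‖P.1‖, sq_nonneg P.2.2]
    · rw [Real.norm_eq_abs]
      nlinarith [abs_nonneg P.2.2, sq_abs P.2.2, sq_nonneg ‖P.1‖, sq_nonneg ‖P.2.1‖]

/-- generic compactness statement. -/
theorem exists_eps {X : Type} [TopologicalSpace X] {K : Set X} (hK : IsCompact K) (g : X → ℝ)
    (hg : ContinuousOn g K) (good : X → Prop)
    (h : ∀ x ∈ K, 0 ≤ g x → ∀ᶠ y in 𝓝[K] x, good y) :
    ∃ ε : ℝ, 0 < ε ∧ ∀ y ∈ K, -ε ≤ g y → good y := by
  have key : ∃ ε : ℝ, 0 < ε ∧ ∀ y ∈ K, y ∈ K → -ε ≤ g y → good y := by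
    refine hK.induction_on (p := fun s => ∃ ε : ℝ, 0 < ε ∧ ∀ y ∈ s, y ∈ K → -ε ≤ g y → good y)
      ?_ ?_ ?_ ?_
    · exact ⟨1, one_pos, fun y hy => absurd hy (Set.notMem_empty y)⟩
    · rintro s t hst ⟨ε, hε, h1⟩
      exact ⟨ε, hε, fun y hy => h1 y (hst hy)⟩
    · rintro s t ⟨ε, hε, h1⟩ ⟨ε', hε', h2⟩
      refine ⟨min ε ε', lt_min hε hε', fun y hy hyK hgy => ?_⟩
      rcases hy with hy | hy
      · exact h1 y hy hyK (le_trans (neg_le_neg (min_le_left _ _)) hgy)
      · exact h2 y hy hyK (le_trans (neg_le_neg (min_le_right _ _)) hgy)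
    · intro x hx
      by_cases h0 : 0 ≤ g x
      · exact ⟨{y | good y}, h x hx h0, 1, one_pos, fun y hy _ _ => hy⟩
      · push Not at h0
        refine ⟨{y | g y < g x / 2}, ?_, -(g x) / 2, by linarith, ?_⟩
        · exact (hg x hx).eventually_lt continuousWithinAt_const (by linarith)
        · intro y hy _ hgy
          have hy' : g y < g x / 2 := hy
          exfalso
          linarith
  obtain ⟨ε, hε, h1⟩ := key
  exact ⟨ε, hε, fun y hy => h1 y hy hy⟩

/-- on the sphere, `rho2` vanishes only where `y1` or `y2` vanishes. -/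
lemma rho2_pos_of_ne {P : A4} (hP : P ∈ S4) (h1 : y1 P ≠ 0) (h2 : y2 P ≠ 0) : 0 < rho2 P := by
  rcases (rho2_nonneg P).lt_or_eq with h | h
  · exact h
  · exfalso
    have hh : P.2.2 ^ 2 = 1 := by
      have := rho2_S4 hP
      linarith
    have hM := MM_DD P
    rw [← h] at hM
    have q1 := sq_nonneg (MM P).re
    have q2 := sq_nonneg (MM P).im
    have q3 := sq_nonneg (DD P)
    have hMr : (MM P).re = 0 := by
      have : (MM P).re ^ 2 = 0 := by linarith
      exact pow_eq_zero_iff (two_ne_zero) |>.1 this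
    have hMi : (MM P).im = 0 := by
      have : (MM P).im ^ 2 = 0 := by linarith
      exact pow_eq_zero_iff (two_ne_zero) |>.1 this
    have hD : DD P = 0 := by
      have : (DD P) ^ 2 = 0 := by linarith
      exact pow_eq_zero_iff (two_ne_zero) |>.1 this
    have hM0 : MM P = 0 := Complex.ext hMr hMi
    have hcase : P.2.2 = 1 ∨ P.2.2 = -1 := by
      have : (P.2.2 - 1) * (P.2.2 + 1) = 0 := by nlinarith
      rcases mul_eq_zero.1 this with h | h
      · left; linarith
      · right; linarith
    rcases hcase with hc | hc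
    · apply h1
      unfold y1
      rw [hc, bet_of_le (by norm_num), hMr, hD]
      simp
    · apply h2
      unfold y2
      rw [hc, bet_of_le (by norm_num), hM0]
      simp

lemma y1_ne_of_z1 {P : A4} (h : z1 P ≠ 0) : y1 P ≠ 0 := by
  intro h0
  apply h
  unfold z1
  rw [h0, zero_div]

lemma y2_ne_of_z2 {P : A4} (h : z2 P ≠ 0) : y2 P ≠ 0 := by
  intro h0
  apply h
  unfold z2
  rw [h0, zero_div]

lemma Y_ne_of_im {P : A4} (hP : P ∈ S4) (h1 : z1 P ≠ 0) (h2 : z2 P ≠ 0)
    (hi : (z1 P).im ≤ 0) : P.2.1 ≠ 0 := by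
  have hy1 := y1_ne_of_z1 h1
  have hy2 := y2_ne_of_z2 h2
  have hr := rho2_pos_of_ne hP hy1 hy2
  have hN := NN_pos hP
  have hyim : (y1 P).im = 2 * DD P := by
    unfold y1
    simp
  have hD : DD P ≤ 0 := by
    have h3 : (y1 P).im = NN P * (z1 P).im := by
      rw [y1_eq hN, Complex.im_ofReal_mul]
    have h4 : NN P * (z1 P).im ≤ 0 := mul_nonpos_of_nonneg_of_nonpos hN.le hi
    linarith
  intro h0
  have hY := norm_Y P
  rw [h0, norm_zero] at hY
  nlinarith

lemma continuousAt_Ep (i : Bool) {P : A4} (hP : P ∈ S4) (h1 : z1 P ≠ 0) (h2 : z2 P ≠ 0)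
    (hi : 0 ≤ sgn i * (z1 P).im) :
    ContinuousAt (Ep i) P ∧ ContinuousAt (Lp i) P := by
  have hN := NN_pos hP
  have hz1 : ContinuousAt z1 P := (contDiffAt_z1 hN).continuousAt
  have hre : (z1 P).re ≠ 0 ∨ (z1 P).im ≠ 0 := by
    by_contra hcon
    push Not at hcon
    exact h1 (Complex.ext hcon.1 hcon.2)
  have hL : ContinuousAt (Lp i) P := by
    cases i
    · have hs : I * z1 P ∈ slitPlane := by
        rw [mem_slitPlane_iff]
        have hi' : (z1 P).im ≤ 0 := by
          unfold sgn at hi
          simpa using hi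
        rcases hre with hr | hr
        · right
          simpa using hr
        · left
          have : (z1 P).im < 0 := lt_of_le_of_ne hi' hr
          simpa using this
      have hfun : Lp false = fun P => log (I * z1 P) - Real.pi / 2 * I := by
        funext Q
        simp [Lp]
      rw [hfun]
      exact ((continuousAt_const.mul hz1).clog hs).sub continuousAt_const
    · have hs : -I * z1 P ∈ slitPlane := by
        rw [mem_slitPlane_iff]
        have hi' : 0 ≤ (z1 P).im := by
          unfold sgn at hi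
          simpa using hi
        rcases hre with hr | hr
        · right
          simpa using hr
        · left
          have : 0 < (z1 P).im := lt_of_le_of_ne hi' (Ne.symm hr)
          simpa using this
      have hfun : Lp true = fun P => log (-I * z1 P) + Real.pi / 2 * I := by
        funext Q
        simp [Lp]
      rw [hfun]
      exact ((continuousAt_const.mul hz1).clog hs).add continuousAt_const
  refine ⟨?_, hL⟩
  have hexp : ContinuousAt (fun P => exp (Lp i P / 2)) P :=
    (hL.div_const 2).cexp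
  cases i
  · have hi' : (z1 P).im ≤ 0 := by
      unfold sgn at hi
      simpa using hi
    have hY := Y_ne_of_im hP h1 h2 hi'
    have hfun : Ep false = fun P => exp (Lp false P / 2) * (1 / P.2.1) := by
      funext Q
      simp [Ep]
    rw [hfun]
    refine hexp.mul (continuousAt_const.div ?_ hY)
    exact (continuous_fst.comp continuous_snd).continuousAt
  · have hy2 := y2_ne_of_z2 h2
    have hfun : Ep true = fun P => exp (Lp true P / 2) * (4 * P.1 / y2 P) := by
      funext Q
      simp [Ep]
    rw [hfun]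
    refine hexp.mul (ContinuousAt.div ?_ contDiff_y2.continuous.continuousAt hy2)
    exact (continuous_const.mul continuous_fst).continuousAt

lemma continuous_RR : Continuous RR := by
  unfold RR
  fun_prop

lemma continuousAt_Qp (i j : Bool) {P : A4} (hP : P ∈ S4) (h1 : z1 P ≠ 0) (h2 : z2 P ≠ 0)
    (hi : 0 ≤ sgn i * (z1 P).im) (hj : 0 ≤ sgn j * (z2 P).im) :
    ContinuousAt (Qp i j) P := by
  have hE := continuousAt_Ep i hP h1 h2 hi
  have hE' := continuousAt_Ep j (iota_mem hP) (by rw [z1_iota]; exact h2)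
    (by rw [z2_iota]; exact h1) (by rw [z1_iota]; exact hj)
  have hio : ContinuousAt iota P := contDiff_iota.continuous.continuousAt
  have hEi : ContinuousAt (fun P => Ep j (iota P)) P := ContinuousAt.comp hE'.1 hio
  have hLi : ContinuousAt (fun P => Lp j (iota P)) P := ContinuousAt.comp hE'.2 hio
  have hfun : Qp i j = fun P => Ep i P * Ep j (iota P) / RR (Lp i P - Lp j (iota P)) := by
    funext Q
    rfl
  rw [hfun]
  refine ContinuousAt.div (hE.1.mul hEi)
    (ContinuousAt.comp (g := RR) continuous_RR.continuousAt (hE.2.sub hLi)) ?_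
  unfold RR
  exact exp_ne_zero _

theorem exists_goodDelta : ∃ δ : ℝ, GoodDelta δ := by
  have main : ∀ i j : Bool, ∃ ε : ℝ, 0 < ε ∧ ∀ P ∈ S4,
      -ε ≤ min (-|‖z1 P‖ ^ 2 - ‖z2 P‖ ^ 2|) (min (sgn i * (z1 P).im) (sgn j * (z2 P).im)) →
      0 < (Qp i j P).re := by
    intro i j
    refine exists_eps isCompact_S4 _ ?_ _ ?_
    · intro P hP
      have hN := NN_pos hP
      have hz1 : ContinuousAt z1 P := (contDiffAt_z1 hN).continuousAt
      have hz2 : ContinuousAt z2 P := (contDiffAt_z2 hN).continuousAt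
      refine ContinuousAt.continuousWithinAt ?_
      refine ContinuousAt.inf ?_ (ContinuousAt.inf ?_ ?_)
      · exact (((hz1.norm.pow 2).sub (hz2.norm.pow 2)).abs).neg
      · exact continuousAt_const.mul (continuous_im.continuousAt.comp hz1)
      · exact continuousAt_const.mul (continuous_im.continuousAt.comp hz2)
    · intro P hP h0
      have ha : |‖z1 P‖ ^ 2 - ‖z2 P‖ ^ 2| ≤ 0 := by
        have := h0.trans (min_le_left _ _)
        linarith
      have hb : 0 ≤ sgn i * (z1 P).im :=
        h0.trans ((min_le_right _ _).trans (min_le_left _ _))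
      have hc : 0 ≤ sgn j * (z2 P).im :=
        h0.trans ((min_le_right _ _).trans (min_le_right _ _))
      have hsq : ‖z1 P‖ ^ 2 = ‖z2 P‖ ^ 2 := by
        have := abs_nonpos_iff.1 ha
        linarith
      have heq : ‖z1 P‖ = ‖z2 P‖ := by
        have := (sq_eq_sq₀ (norm_nonneg (z1 P)) (norm_nonneg (z2 P))).1 hsq
        exact this
      have hnz := norm_z P (NN_pos hP)
      have h1 : z1 P ≠ 0 := by
        intro h
        rw [h, norm_zero] at hsq hnz
        nlinarith
      have h2 : z2 P ≠ 0 := by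
        intro h
        rw [h, norm_zero] at hsq hnz
        nlinarith
      have hpos := Qp_pos_closed hP heq i j hb hc
      have hcont : ContinuousAt (fun P => (Qp i j P).re) P :=
        continuous_re.continuousAt.comp (continuousAt_Qp i j hP h1 h2 hb hc)
      exact (hcont.eventually (lt_mem_nhds hpos)).filter_mono nhdsWithin_le_nhds
  choose ε hε0 hε using main
  set δ : ℝ := min (1 / 20) (min (min (ε true true) (ε true false))
    (min (ε false true) (ε false false))) with hδ
  have hδpos : 0 < δ := lt_min (by norm_num)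
    (lt_min (lt_min (hε0 _ _) (hε0 _ _)) (lt_min (hε0 _ _) (hε0 _ _)))
  have hle : ∀ i j, δ ≤ ε i j := by
    intro i j
    cases i <;> cases j
    · exact (min_le_right _ _).trans ((min_le_right _ _).trans (min_le_right _ _))
    · exact (min_le_right _ _).trans ((min_le_right _ _).trans (min_le_left _ _))
    · exact (min_le_right _ _).trans ((min_le_left _ _).trans (min_le_right _ _))
    · exact (min_le_right _ _).trans ((min_le_left _ _).trans (min_le_left _ _))
  refine ⟨δ, hδpos, min_le_left _ _, ?_⟩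
  intro P hP hd i j hi hj
  refine hε i j P hP ?_
  have := hle i j
  refine le_min ?_ (le_min ?_ ?_)
  · linarith
  · linarith
  · linarith

end Pool.Agent.S4T2
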