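import Pool.Agent.Lib.MP_1d980c_gt.S4.QComb

/-! Task G: the functions `GG` and `FF`. -/

set_option autoImplicit false
open Complex ComplexConjugate Topology
open scoped ContDiff

namespace Pool.Agent.S4T2

theorem sig_add (δ : ℝ) (P : A4) : sig δ P + sig δ (iota P) = 1 := by
  unfold sig
  rw [z1_iota, z2_iota]
  have h : 1 / 2 + (‖z1 P‖ ^ 2 - ‖z2 P‖ ^ 2) / δ
      = 1 - (1 / 2 + (‖z2 P‖ ^ 2 - ‖z1 P‖ ^ 2) / δ) := by ring
  rw [h]
  generalize 1 / 2 + (‖z2 P‖ ^ 2 - ‖z1 P‖ ^ 2) / δ = x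
  unfold Real.smoothTransition
  have h2 : 1 - (1 - x) = x := by ring
  rw [h2]
  have hpos := Real.smoothTransition.pos_denom x
  rw [add_comm (expNegInvGlue (1 - x)) (expNegInvGlue x), ← add_div]
  exact div_self hpos.ne'

theorem sig_eq_zero {δ : ℝ} (hδ : 0 < δ) {P : A4} (h : ‖z2 P‖ ^ 2 - ‖z1 P‖ ^ 2 ≤ -(δ / 2)) :
    sig δ P = 0 := by
  unfold sig
  apply Real.smoothTransition.zero_of_nonpos
  have : (‖z2 P‖ ^ 2 - ‖z1 P‖ ^ 2) / δ ≤ -(1 / 2) := by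
    rw [div_le_iff₀ hδ]; linarith
  linarith

theorem GG_eq_one {δ : ℝ} (hδ : 0 < δ) {P : A4} (h : ‖z2 P‖ ^ 2 - ‖z1 P‖ ^ 2 ≤ -(δ / 2)) :
    GG δ P = 1 := by
  unfold GG
  rw [sig_eq_zero hδ h]
  simp

theorem GG_ne (δ : ℝ) (P : A4) : GG δ P ≠ 0 := exp_ne_zero _

theorem GG_mul {δ : ℝ} {P : A4} (h : QQ δ P ≠ 0) : QQ δ P * GG δ P * GG δ (iota P) = 1 := by
  unfold GG
  rw [QQ_iota, mul_assoc, ← exp_add]
  have h1 : -((sig δ P : ℂ) * log (QQ δ P)) + -((sig δ (iota P) : ℂ) * log (QQ δ P))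
      = -log (QQ δ P) := by
    have h2 : ((sig δ P : ℂ)) + (sig δ (iota P) : ℂ) = 1 := by
      exact_mod_cast sig_add δ P
    calc -((sig δ P : ℂ) * log (QQ δ P)) + -((sig δ (iota P) : ℂ) * log (QQ δ P))
        = -(((sig δ P : ℂ) + (sig δ (iota P) : ℂ)) * log (QQ δ P)) := by ring
      _ = -log (QQ δ P) := by rw [h2, one_mul]
  rw [h1, exp_neg, exp_log h]
  exact mul_inv_cancel₀ h

private lemma contDiffAt_diff {P : A4} (hN : 0 < NN P) :
    ContDiffAt ℝ ∞ (fun P' : A4 => ‖z2 P'‖ ^ 2 - ‖z1 P'‖ ^ 2) P :=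
  ((contDiffAt_z2 hN).norm_sq ℝ).sub ((contDiffAt_z1 hN).norm_sq ℝ)

private lemma contDiffAt_sig {δ : ℝ} {P : A4} (hN : 0 < NN P) :
    ContDiffAt ℝ ∞ (sig δ) P := by
  unfold sig
  have h1 : ContDiffAt ℝ ∞ (fun P' : A4 => 1 / 2 + (‖z2 P'‖ ^ 2 - ‖z1 P'‖ ^ 2) / δ) P :=
    contDiffAt_const.add ((contDiffAt_diff hN).div_const δ)
  exact (Real.smoothTransition.contDiff.contDiffAt).comp P h1

theorem contDiffAt_GG {δ : ℝ} (hδ : GoodDelta δ) {P : A4} (hP : P ∈ S4)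
    (hw : ‖z2 P‖ ^ 2 - ‖z1 P‖ ^ 2 < δ) : ContDiffAt ℝ ∞ (GG δ) P := by
  have hN := NN_pos hP
  by_cases hc : |‖z1 P‖ ^ 2 - ‖z2 P‖ ^ 2| < δ
  · have hQ := contDiffAt_QQ hδ.1 hδ.2.1 hP hc
    have hre := QQ_re_pos hδ hP hc
    have hlog : ContDiffAt ℝ ∞ (fun P' : A4 => log (QQ δ P')) P := by
      have h1 : ContDiffAt ℂ ∞ log (QQ δ P) := Complex.contDiffAt_log (Or.inl hre)
      exact (h1.restrict_scalars ℝ).comp P hQ
    have hs : ContDiffAt ℝ ∞ (fun P' : A4 => (sig δ P' : ℂ)) P :=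
      (ofRealCLM.contDiff.contDiffAt).comp P (contDiffAt_sig hN)
    unfold GG
    exact ((hs.mul hlog).neg).cexp
  · have hlt : ‖z2 P‖ ^ 2 - ‖z1 P‖ ^ 2 < -(δ / 2) := by
      have hδ0 := hδ.1
      rw [not_lt] at hc
      rcases le_abs.mp hc with h | h <;> linarith
    have hev : ∀ᶠ P' in 𝓝 P, ‖z2 P'‖ ^ 2 - ‖z1 P'‖ ^ 2 < -(δ / 2) :=
      (contDiffAt_diff hN).continuousAt.eventually_lt continuousAt_const hlt
    have heq : GG δ =ᶠ[𝓝 P] fun _ => (1 : ℂ) := by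
      filter_upwards [hev] with P' hP'
      exact GG_eq_one hδ.1 hP'.le
    exact contDiffAt_const.congr_of_eventuallyEq heq

theorem contDiffAt_FF {δ : ℝ} (hδ : GoodDelta δ) {P : A4} (hP : P ∈ S4) (α : Bool)
    (hv : Valid δ α P) (hz : α = false → z2 P ≠ 0) (hw : ‖z2 P‖ ^ 2 - ‖z1 P‖ ^ 2 < δ) :
    ContDiffAt ℝ ∞ (FF δ α) P :=
  (contDiffAt_FA hδ.1 hδ.2.1 hP α hv hz).mul (contDiffAt_GG hδ hP hw)

theorem FF_ne {δ : ℝ} (hδ : GoodDelta δ) {P : A4} (hP : P ∈ S4) (α : Bool)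
    (hv : Valid δ α P) (hz : α = false → z2 P ≠ 0) (hw : ‖z2 P‖ ^ 2 - ‖z1 P‖ ^ 2 < δ) :
    FF δ α P ≠ 0 :=
  mul_ne_zero (FA_ne hδ.1 hδ.2.1 hP α hv hz hw) (GG_ne δ P)

theorem FF_rel_pos {δ : ℝ} (hδ : 0 < δ) {P : A4} (h : δ < (z1 P).im) (hz : z2 P ≠ 0) :
    FF δ true P = ww P * FF δ false P := by
  unfold FF
  rw [FA_rel_pos hδ h hz, mul_assoc]

theorem FF_rel_neg {δ : ℝ} (hδ : 0 < δ) {P : A4} (h : (z1 P).im < -δ) :
    FF δ true P = -FF δ false P := by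
  unfold FF
  rw [FA_rel_neg hδ h, neg_mul]

private lemma NN_act (φ : ℝ) (P : A4) : NN (act φ P) = NN P := by
  unfold NN; rw [y1_act, y2_act]

private lemma z1_act' (φ : ℝ) (P : A4) : z1 (act φ P) = z1 P := by
  unfold z1; rw [y1_act, NN_act]

private lemma z2_act' (φ : ℝ) (P : A4) : z2 (act φ P) = z2 P := by
  unfold z2; rw [y2_act, NN_act]

private lemma GG_act (δ : ℝ) (φ : ℝ) (P : A4) : GG δ (act φ P) = GG δ P := by
  unfold GG sig
  rw [QQ_act, z1_act', z2_act']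

theorem FF_act (δ : ℝ) (α : Bool) (φ : ℝ) (P : A4) :
    FF δ α (act φ P) = exp (φ * I) * FF δ α P := by
  unfold FF
  rw [FA_act, GG_act, mul_assoc]

/-- infinitesimal equivariance. -/
theorem fderiv_FF_dphi (δ : ℝ) (α : Bool) {P : A4} (h : DifferentiableAt ℝ (FF δ α) P) :
    fderiv ℝ (FF δ α) P (dphi P) = I * FF δ α P := by
  have h0 : HasFDerivAt (FF δ α) (fderiv ℝ (FF δ α) P) (act 0 P) := by
    rw [act_zero]; exact h.hasFDerivAt
  have h1 : HasDerivAt (fun φ : ℝ => FF δ α (act φ P)) (fderiv ℝ (FF δ α) P (dphi P)) 0 := by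
    have h10 := HasFDerivAt.comp_hasDerivAt (f := fun φ : ℝ => act φ P) (0 : ℝ) h0
      (hasDerivAt_act P)
    exact h10
  have h2 : HasDerivAt (fun φ : ℝ => exp ((φ : ℂ) * I) * FF δ α P) (I * FF δ α P) 0 := by
    have h3 : HasDerivAt (fun φ : ℝ => (φ : ℂ) * I) (1 * I) 0 :=
      (ofRealCLM.hasDerivAt).mul_const I
    have h4 := (h3.cexp).mul_const (FF δ α P)
    simpa using h4
  have h5 : (fun φ : ℝ => FF δ α (act φ P)) = fun φ : ℝ => exp ((φ : ℂ) * I) * FF δ α P := by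
    funext φ; exact FF_act δ α φ P
  rw [h5] at h1
  exact h1.unique h2

/-- the two sides are glued by `RR`. -/
theorem FF_cross {δ : ℝ} (hδ : GoodDelta δ) {P : A4} (hP : P ∈ S4) (α β : Bool)
    (hα : P ∈ UU δ α) (hβ : iota P ∈ UU δ β) :
    ∀ᶠ P' in 𝓝 P, ww P' * ww (iota P') = 1 ∧ exp (Lb α P' - Lb β (iota P')) = ww (iota P') ∧
      FF δ α P' * FF δ β (iota P') * (if β then ww P' else 1) =
        (if α then ww P' else 1) * RR (Lb α P' - Lb β (iota P')) := by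
  have hN := NN_pos hP
  have hδ0 := hδ.1
  have hδ1 := hδ.2.1
  have hc1 : ‖z2 P‖ ^ 2 - ‖z1 P‖ ^ 2 < δ / 2 := hα.2.2.1
  have hc2 : ‖z1 P‖ ^ 2 - ‖z2 P‖ ^ 2 < δ / 2 := by
    have := hβ.2.2.1
    rwa [z1_iota, z2_iota] at this
  have hcw : |‖z1 P‖ ^ 2 - ‖z2 P‖ ^ 2| < δ := abs_lt.mpr ⟨by linarith, by linarith⟩
  have hQre := QQ_re_pos hδ hP hcw
  have hQcont : ContinuousAt (QQ δ) P := (contDiffAt_QQ hδ0 hδ1 hP hcw).continuousAt
  have e1 : ∀ᶠ P' in 𝓝 P, 0 < (QQ δ P').re :=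
    continuousAt_const.eventually_lt (continuous_re.continuousAt.comp hQcont) hQre
  have e2 : ∀ᶠ P' in 𝓝 P, 0 < NN P' :=
    continuousAt_const.eventually_lt (contDiffAt_NN hN).continuousAt hN
  have e3 : ∀ᶠ P' in 𝓝 P, ‖z2 P'‖ ^ 2 - ‖z1 P'‖ ^ 2 < δ / 2 :=
    (contDiffAt_diff hN).continuousAt.eventually_lt continuousAt_const hc1
  have e4 : ∀ᶠ P' in 𝓝 P, -(δ / 2) < ‖z2 P'‖ ^ 2 - ‖z1 P'‖ ^ 2 :=
    continuousAt_const.eventually_lt (contDiffAt_diff hN).continuousAt (by linarith)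
  have e5 : ∀ᶠ P' in 𝓝 P, Valid δ α P' := valid_eventually hN α hα.1
  have e6 : ∀ᶠ P' in 𝓝 P, Valid δ β (iota P') := by
    have h1 : ∀ᶠ Q in 𝓝 (iota P), Valid δ β Q :=
      valid_eventually (by rw [NN_iota]; exact hN) β hβ.1
    exact (contDiff_iota.continuous.continuousAt).eventually h1
  filter_upwards [e1, e2, e3, e4, e5, e6] with P' hre hN' h3 h4 hva hvb
  have hnz := norm_z P' hN'
  have hz1 : z1 P' ≠ 0 := by
    intro h0
    rw [h0] at hnz h3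
    simp only [norm_zero] at hnz h3
    nlinarith
  have hz2 : z2 P' ≠ 0 := by
    intro h0
    rw [h0] at hnz h4
    simp only [norm_zero] at hnz h4
    nlinarith
  have hz1' : z1 (iota P') ≠ 0 := by rw [z1_iota]; exact hz2
  have hwne : ww P' ≠ 0 := by
    rw [ww_eq hN']; exact div_ne_zero hz2 hz1
  have hww : ww P' * ww (iota P') = 1 := by
    rw [ww_iota]; exact mul_inv_cancel₀ hwne
  refine ⟨hww, ?_, ?_⟩
  · rw [exp_sub, exp_Lb hz1, exp_Lb hz1', z1_iota, ww_iota, ww_eq hN', inv_div]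
  · have habs : |‖z1 P'‖ ^ 2 - ‖z2 P'‖ ^ 2| < δ := abs_lt.mpr ⟨by linarith, by linarith⟩
    have hQne : QQ δ P' ≠ 0 := by
      intro h0; rw [h0] at hre; simp at hre
    have hG := GG_mul hQne
    have hQ := QQ_eq hδ0 hδ1 hN' habs α β hva hvb
    have hR : RR (Lb α P' - Lb β (iota P')) ≠ 0 := RR_ne _
    have hFA : FA δ α P' = (if α then ww P' else 1) * TA δ α P' := by
      unfold TA
      cases α
      · simp
      · simp only [if_true]
        rw [mul_div_assoc', mul_div_cancel_left₀ _ hwne]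
    have hFB : FA δ β (iota P') = (if β then ww (iota P') else 1) * TA δ β (iota P') := by
      have hwne' : ww (iota P') ≠ 0 := by rw [ww_iota]; exact inv_ne_zero hwne
      unfold TA
      cases β
      · simp
      · simp only [if_true]
        rw [mul_div_assoc', mul_div_cancel_left₀ _ hwne']
    have hbb : (if β then ww (iota P') else 1) * (if β then ww P' else 1) = (1 : ℂ) := by
      cases β
      · simp
      · simp only [if_true]
        rw [mul_comm]; exact hww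
    have hTT : TA δ α P' * TA δ β (iota P') = QQ δ P' * RR (Lb α P' - Lb β (iota P')) := by
      rw [hQ, div_mul_cancel₀ _ hR]
    unfold FF
    calc FA δ α P' * GG δ P' * (FA δ β (iota P') * GG δ (iota P')) * (if β then ww P' else 1)
        = (if α then ww P' else 1) * (TA δ α P' * TA δ β (iota P')) * (GG δ P' * GG δ (iota P'))
            * ((if β then ww (iota P') else 1) * (if β then ww P' else 1)) := by
          rw [hFA, hFB]; ring
      _ = (if α then ww P' else 1) * RR (Lb α P' - Lb β (iota P')) *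
            (QQ δ P' * GG δ P' * GG δ (iota P')) := by
          rw [hbb, hTT]; ring
      _ = (if α then ww P' else 1) * RR (Lb α P' - Lb β (iota P')) := by rw [hG, mul_one]

end Pool.Agent.S4T2
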