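import Pool.Agent.Lib.MP_1d980c_gt.S4.EstB
import Pool.Agent.Lib.MP_1d980c_gt.S4.Cover
import Pool.Agent.Lib.MP_1d980c_gt.S4.FFs

/-! Task H3: the uniform estimate for `d log |F|` along the fibres of `w`. -/

set_option autoImplicit false
open Complex ComplexConjugate Topology
open scoped ContDiff

namespace Pool.Agent.S4T2

private lemma ev_z1 {P : A4} (hN : 0 < NN P) (hz : z1 P ≠ 0) :
    ∀ᶠ P' in 𝓝 P, 0 < NN P' ∧ z1 P' ≠ 0 ∧ y1 P' ≠ 0 := by
  have h1 : ∀ᶠ P' in 𝓝 P, 0 < NN P' :=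
    (contDiffAt_NN hN).continuousAt.eventually (lt_mem_nhds hN)
  have h2 : ∀ᶠ P' in 𝓝 P, z1 P' ≠ 0 :=
    (contDiffAt_z1 hN).continuousAt.eventually_ne hz
  filter_upwards [h1, h2] with P' h1 h2
  refine ⟨h1, h2, ?_⟩
  intro h0
  exact h2 (by rw [z1, h0, zero_div])

private lemma contAt_im {P : A4} (hN : 0 < NN P) : ContinuousAt (fun P' => (z1 P').im) P :=
  continuous_im.continuousAt.comp (contDiffAt_z1 hN).continuousAt

/-- comparison of the two branches, case `δ < Im z1`. -/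
private lemma cmp_pos {δ : ℝ} (hδ : GoodDelta δ) {P v : A4} (hP : P ∈ S4)
    (him : δ < (z1 P).im) (hz2 : z2 P ≠ 0) (hw : ‖z2 P‖ ^ 2 - ‖z1 P‖ ^ 2 < δ)
    (hre : 0 < (z1 P).re) (hv : fderiv ℝ ww P v = 0) :
    fderiv ℝ (FF δ true) P v / FF δ true P = fderiv ℝ (FF δ false) P v / FF δ false P ∧
      fderiv ℝ (Lb true) P v = fderiv ℝ (Lb false) P v := by
  have hN := NN_pos hP
  have hz1 : z1 P ≠ 0 := fun h => by rw [h] at hre; simp at hre
  have hreg := ev_z1 hN hz1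
  have hd0 := hδ.1
  have hvf : Valid δ false P := by simpa [Valid] using hre
  have hev1 : ∀ᶠ P' in 𝓝 P, δ < (z1 P').im := (contAt_im hN).eventually (lt_mem_nhds him)
  have hev2 : ∀ᶠ P' in 𝓝 P, z2 P' ≠ 0 := (contDiffAt_z2 hN).continuousAt.eventually_ne hz2
  have hF : FF δ true =ᶠ[𝓝 P] fun P' => ww P' * FF δ false P' := by
    filter_upwards [hev1, hev2] with P' h1 h2
    exact FF_rel_pos hd0 h1 h2
  have hL : Lb true =ᶠ[𝓝 P] Lb false := by
    filter_upwards [hev1] with P' h1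
    exact Lb_rel_pos (hd0.trans h1)
  have hdw : HasFDerivAt ww (fderiv ℝ ww P) P :=
    ((contDiffAt_ww hreg.self_of_nhds.2.2).differentiableAt (by simp)).hasFDerivAt
  have hdF : HasFDerivAt (FF δ false) (fderiv ℝ (FF δ false) P) P :=
    ((contDiffAt_FF hδ hP false hvf (fun _ => hz2) hw).differentiableAt (by simp)).hasFDerivAt
  have hw0 : ww P ≠ 0 := by
    rw [ww_eq hN]; exact div_ne_zero hz2 hz1
  refine ⟨?_, by rw [hL.fderiv_eq]⟩
  rw [hF.fderiv_eq, hF.self_of_nhds]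
  have hd : fderiv ℝ (fun P' => ww P' * FF δ false P') P = _ := (hdw.mul hdF).fderiv
  rw [hd]
  have e : (ww P • fderiv ℝ (FF δ false) P + FF δ false P • fderiv ℝ ww P) v
      = ww P * fderiv ℝ (FF δ false) P v := by
    show ww P • fderiv ℝ (FF δ false) P v + FF δ false P • fderiv ℝ ww P v = _
    rw [hv, smul_zero, add_zero, smul_eq_mul]
  rw [e, mul_div_mul_left _ _ hw0]

/-- comparison of the two branches, case `Im z1 < -δ`. -/
private lemma cmp_neg {δ : ℝ} (hδ : GoodDelta δ) {P v : A4} (hP : P ∈ S4)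
    (him : (z1 P).im < -δ) :
    fderiv ℝ (FF δ true) P v / FF δ true P = fderiv ℝ (FF δ false) P v / FF δ false P ∧
      fderiv ℝ (Lb true) P v = fderiv ℝ (Lb false) P v := by
  have hN := NN_pos hP
  have hd0 := hδ.1
  have hev1 : ∀ᶠ P' in 𝓝 P, (z1 P').im < -δ := (contAt_im hN).eventually (gt_mem_nhds him)
  have hF : FF δ true =ᶠ[𝓝 P] fun P' => -FF δ false P' := by
    filter_upwards [hev1] with P' h1
    exact FF_rel_neg hd0 h1
  have hL : Lb true =ᶠ[𝓝 P] fun P' => Lb false P' + 2 * Real.pi * I := by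
    filter_upwards [hev1] with P' h1
    exact Lb_rel_neg (by linarith)
  refine ⟨?_, ?_⟩
  · rw [hF.fderiv_eq, hF.self_of_nhds]
    have : fderiv ℝ (fun P' => -FF δ false P') P = -fderiv ℝ (FF δ false) P := fderiv_neg
    rw [this]
    simp
  · rw [hL.fderiv_eq]
    have : fderiv ℝ (fun P' => Lb false P' + 2 * Real.pi * I) P = fderiv ℝ (Lb false) P :=
      fderiv_add_const _
    rw [this]

/-- the two branches give the same quantities wherever both are valid. -/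
private lemma cmp {δ : ℝ} (hδ : GoodDelta δ) {P v : A4} (hP : P ∈ S4)
    (ht : Valid δ true P) (hf : Valid δ false P) (hz2 : z2 P ≠ 0)
    (hw : ‖z2 P‖ ^ 2 - ‖z1 P‖ ^ 2 < δ) (hv : fderiv ℝ ww P v = 0) :
    fderiv ℝ (FF δ true) P v / FF δ true P = fderiv ℝ (FF δ false) P v / FF δ false P ∧
      fderiv ℝ (Lb true) P v = fderiv ℝ (Lb false) P v := by
  have hre : 0 < (z1 P).re := by simpa [Valid] using hf
  have ht' : (z1 P).re < 0 ∨ δ < |(z1 P).im| := by simpa [Valid] using ht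
  have him : δ < |(z1 P).im| := by
    rcases ht' with h | h
    · linarith
    · exact h
  rcases lt_abs.1 him with h | h
  · exact cmp_pos hδ hP h hz2 hw hre hv
  · exact cmp_neg hδ hP (by linarith)

/-- the estimate at one point of the compact set. -/
private lemma exists_C_local {δ : ℝ} (hδ : GoodDelta δ) {P0 : A4} (hP0 : P0 ∈ S4)
    (hw : ‖z2 P0‖ ^ 2 - ‖z1 P0‖ ^ 2 ≤ δ / 2) (hh : -(24 / 25) ≤ P0.2.2) :
    ∃ C : ℝ, ∀ᶠ P in 𝓝 P0, P ∈ S4 → ∀ α : Bool, P ∈ UU δ α → ∀ v, Tan4 P v →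
      fderiv ℝ ww P v = 0 →
      |(fderiv ℝ (FF δ α) P v / FF δ α P).re| ≤ C * ‖fderiv ℝ (Lb α) P v‖ := by
  have hd0 := hδ.1
  have hd1 := hδ.2.1
  have hN := NN_pos hP0
  have hw' : ‖z2 P0‖ ^ 2 - ‖z1 P0‖ ^ 2 < δ := by linarith
  have hnz := norm_z P0 hN
  have hz : z1 P0 ≠ 0 := by
    intro h
    rw [h, norm_zero] at hnz hw'
    nlinarith
  have hreg := ev_z1 hN hz
  have hNev : ∀ᶠ P in 𝓝 P0, 0 < NN P := by filter_upwards [hreg] with P h using h.1
  -- `rho2 P0 ≠ 0`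
  have hrho : rho2 P0 ≠ 0 := by
    intro h0
    have h1 := rho2_S4 hP0
    rw [h0] at h1
    have h2 : P0.2.2 = 1 := by
      have : (P0.2.2 - 1) * (P0.2.2 + 1) = 0 := by ring_nf; linarith
      rcases mul_eq_zero.1 this with h | h
      · linarith
      · exfalso; linarith
    -- then `M = 0`, `D = 0`, `y1 = bet (-1) = 0`
    have h3 := MM_DD P0
    rw [h0] at h3
    have q1 : 0 ≤ (MM P0).re ^ 2 := sq_nonneg _
    have q2 : 0 ≤ (MM P0).im ^ 2 := sq_nonneg _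
    have q3 : 0 ≤ (DD P0) ^ 2 := sq_nonneg _
    have hMr : (MM P0).re = 0 := by
      have : (MM P0).re ^ 2 = 0 := by linarith
      exact pow_eq_zero_iff (two_ne_zero) |>.1 this
    have hD : DD P0 = 0 := by
      have : (DD P0) ^ 2 = 0 := by linarith
      exact pow_eq_zero_iff (two_ne_zero) |>.1 this
    have hb : bet (-P0.2.2) = 0 := bet_of_le (by rw [h2]; norm_num)
    have : y1 P0 = 0 := by rw [y1, hb, hMr, hD]; simp
    exact hreg.self_of_nhds.2.2 this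
  have hwev : ∀ᶠ P in 𝓝 P0, ‖z2 P‖ ^ 2 - ‖z1 P‖ ^ 2 < δ := by
    have hc : ContinuousAt (fun P => ‖z2 P‖ ^ 2 - ‖z1 P‖ ^ 2) P0 :=
      ((contDiffAt_z2 hN).continuousAt.norm.pow 2).sub ((contDiffAt_z1 hN).continuousAt.norm.pow 2)
    exact hc.eventually (gt_mem_nhds hw')
  -- the choice of the branch at `P0`
  obtain ⟨α, hα, hα2⟩ : ∃ α, Valid δ α P0 ∧ (α = false → z2 P0 ≠ 0) := by
    rcases valid_or hd0 hd1 hP0 hw' with h | ⟨h, him⟩
    · exact ⟨true, h, by simp⟩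
    · refine ⟨false, h, fun _ h0 => ?_⟩
      have hre : 0 < (z1 P0).re := by simpa [Valid] using h
      have := near_pole hd0 hd1 hP0 h0 hre.le him
      linarith
  have hFs := contDiffAt_FF hδ hP0 α hα hα2 hw'
  have hF0 := FF_ne hδ hP0 α hα hα2 hw'
  have hLs := contDiffAt_Lb hd0 hN α hα
  have hexp : ∀ᶠ P in 𝓝 P0, exp (Lb α P) = z1 P := by
    filter_upwards [hreg] with P h
    exact exp_Lb h.2.1 α
  have hFd : ∀ᶠ P in 𝓝 P0, DifferentiableAt ℝ (FF δ α) P := by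
    have h := (hFs.of_le (show (1 : WithTop ℕ∞) ≤ ∞ by simp)).eventually (by simp)
    filter_upwards [h] with P hP
    exact hP.differentiableAt (by simp)
  have hact : ∀ᶠ P in 𝓝 P0, fderiv ℝ (FF δ α) P (dphi P) = I * FF δ α P := by
    filter_upwards [hFd] with P h
    exact fderiv_FF_dphi δ α h
  obtain ⟨C, hC⟩ := local_est hP0 hrho hz hFs hF0 hLs hexp hact
  refine ⟨C, ?_⟩
  have hval : ∀ᶠ P in 𝓝 P0, Valid δ α P := valid_eventually hN α hα
  have hz2ev : ∀ᶠ P in 𝓝 P0, α = false → z2 P ≠ 0 := by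
    cases α
    · filter_upwards [(contDiffAt_z2 hN).continuousAt.eventually_ne (hα2 rfl)] with P h _
      exact h
    · exact Filter.Eventually.of_forall (fun P h => by simp at h)
  filter_upwards [hC, hval, hz2ev, hwev] with P hC hval hz2 hw hPS β hβ v hv hwv
  have hmain := hC hPS v hv hwv
  by_cases hab : β = α
  · rw [hab]; exact hmain
  · cases α
    · have hb : β = true := by
        cases β
        · exact absurd rfl hab
        · rfl
      subst hb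
      obtain ⟨e1, e2⟩ := cmp hδ hPS hβ.1 hval (hz2 rfl) hw hwv
      rw [e1, e2]; exact hmain
    · have hb : β = false := by
        cases β
        · rfl
        · exact absurd rfl hab
      subst hb
      obtain ⟨e1, e2⟩ := cmp hδ hPS hval hβ.1 (hβ.2.1 rfl) hw hwv
      rw [← e1, ← e2]; exact hmain

theorem exists_C {δ : ℝ} (hδ : GoodDelta δ) : ∃ C : ℝ, 0 ≤ C ∧ ∀ α : Bool, ∀ P ∈ S4, P ∈ UU δ α →
    ∀ v, Tan4 P v → fderiv ℝ ww P v = 0 →
      |(fderiv ℝ (FF δ α) P v / FF δ α P).re| ≤ C * ‖fderiv ℝ (Lb α) P v‖ := by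
  set K : Set A4 := {P ∈ S4 | ‖z2 P‖ ^ 2 - ‖z1 P‖ ^ 2 ≤ δ / 2 ∧ -(24 / 25) ≤ P.2.2} with hK
  have hcz : ContinuousOn (fun P => ‖z2 P‖ ^ 2 - ‖z1 P‖ ^ 2) S4 := fun P hP =>
    (((contDiffAt_z2 (NN_pos hP)).continuousAt.norm.pow 2).sub
      ((contDiffAt_z1 (NN_pos hP)).continuousAt.norm.pow 2)).continuousWithinAt
  have hKc : IsCompact K := by
    have h1 : IsClosed {P ∈ S4 | ‖z2 P‖ ^ 2 - ‖z1 P‖ ^ 2 ≤ δ / 2} := by
      have := hcz.preimage_isClosed_of_isClosed isCompact_S4.isClosed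
        (isClosed_Iic : IsClosed (Set.Iic (δ / 2)))
      exact this
    have h2 : IsClosed {P : A4 | -(24 / 25) ≤ P.2.2} :=
      isClosed_le continuous_const (by fun_prop)
    have h3 : IsCompact (S4 ∩ ({P ∈ S4 | ‖z2 P‖ ^ 2 - ‖z1 P‖ ^ 2 ≤ δ / 2} ∩
        {P : A4 | -(24 / 25) ≤ P.2.2})) := isCompact_S4.inter_right (h1.inter h2)
    have h4 : K = S4 ∩ ({P ∈ S4 | ‖z2 P‖ ^ 2 - ‖z1 P‖ ^ 2 ≤ δ / 2} ∩
        {P : A4 | -(24 / 25) ≤ P.2.2}) := by
      ext P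
      simp only [hK, Set.mem_ofPred_eq, Set.mem_inter_iff]
      tauto
    rw [h4]; exact h3
  have hloc : ∀ P0 ∈ K, ∃ t ∈ 𝓝[K] P0, ∃ C : ℝ, ∀ P ∈ t, P ∈ S4 → ∀ α : Bool, P ∈ UU δ α →
      ∀ v, Tan4 P v → fderiv ℝ ww P v = 0 →
      |(fderiv ℝ (FF δ α) P v / FF δ α P).re| ≤ C * ‖fderiv ℝ (Lb α) P v‖ := by
    intro P0 hP0
    obtain ⟨C, hC⟩ := exists_C_local hδ hP0.1 hP0.2.1 hP0.2.2
    exact ⟨_, mem_nhdsWithin_of_mem_nhds hC, C, fun P hP => hP⟩
  have hind : ∃ C : ℝ, ∀ P ∈ K, P ∈ S4 → ∀ α : Bool, P ∈ UU δ α →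
      ∀ v, Tan4 P v → fderiv ℝ ww P v = 0 →
      |(fderiv ℝ (FF δ α) P v / FF δ α P).re| ≤ C * ‖fderiv ℝ (Lb α) P v‖ := by
    refine hKc.induction_on (p := fun s => ∃ C : ℝ, ∀ P ∈ s, P ∈ S4 → ∀ α : Bool, P ∈ UU δ α →
      ∀ v, Tan4 P v → fderiv ℝ ww P v = 0 →
      |(fderiv ℝ (FF δ α) P v / FF δ α P).re| ≤ C * ‖fderiv ℝ (Lb α) P v‖) ?_ ?_ ?_ hloc
    · exact ⟨0, by simp⟩
    · rintro s t hst ⟨C, hC⟩
      exact ⟨C, fun P hP => hC P (hst hP)⟩
    · rintro s t ⟨C, hC⟩ ⟨C', hC'⟩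
      refine ⟨max C C', fun P hP hPS α hα v hv hwv => ?_⟩
      rcases hP with h | h
      · exact (hC P h hPS α hα v hv hwv).trans
          (mul_le_mul_of_nonneg_right (le_max_left _ _) (norm_nonneg _))
      · exact (hC' P h hPS α hα v hv hwv).trans
          (mul_le_mul_of_nonneg_right (le_max_right _ _) (norm_nonneg _))
  obtain ⟨C, hC⟩ := hind
  refine ⟨max C 0, le_max_right _ _, fun α P hP hPU v hv hwv => ?_⟩
  have hPK : P ∈ K := ⟨hP, hPU.2.2.1.le, hPU.2.2.2.le⟩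
  exact (hC P hPK hP α hPU v hv hwv).trans
    (mul_le_mul_of_nonneg_right (le_max_left _ _) (norm_nonneg _))

end Pool.Agent.S4T2
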