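import Pool.Agent.Lib.MP_1d980c_gt.S4.Kernel

/-! Task H1. -/

set_option autoImplicit false
open Complex ComplexConjugate Topology
open scoped ContDiff

namespace Pool.Agent.S4T2

/-- near a point with `z1 ≠ 0` everything is regular. -/
private lemma ev_regular {P : A4} (hN : 0 < NN P) (hz : z1 P ≠ 0) :
    ∀ᶠ P' in 𝓝 P, 0 < NN P' ∧ z1 P' ≠ 0 ∧ y1 P' ≠ 0 := by
  have h1 : ∀ᶠ P' in 𝓝 P, 0 < NN P' :=
    (contDiffAt_NN hN).continuousAt.eventually (lt_mem_nhds hN)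
  have h2 : ∀ᶠ P' in 𝓝 P, z1 P' ≠ 0 :=
    (contDiffAt_z1 hN).continuousAt.eventually_ne hz
  filter_upwards [h1, h2] with P' h1 h2
  refine ⟨h1, h2, ?_⟩
  intro h0
  exact h2 (by rw [z1, h0, zero_div])

private lemma line_hasDerivAt (P v : A4) : HasDerivAt (fun t : ℝ => P + t • v) v 0 := by
  have h := ((hasDerivAt_id (0 : ℝ)).smul_const v).const_add P
  simpa using h

private lemma line_tendsto (P v : A4) : Filter.Tendsto (fun t : ℝ => P + t • v) (𝓝 0) (𝓝 P) := by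
  have h := (line_hasDerivAt P v).continuousAt.tendsto
  simpa using h

private lemma comp_line {E : Type} [NormedAddCommGroup E] [NormedSpace ℝ E] {f : A4 → E} {P v : A4}
    (hf : DifferentiableAt ℝ f P) : HasDerivAt (fun t : ℝ => f (P + t • v)) (fderiv ℝ f P v) 0 := by
  have h0 : P + (0 : ℝ) • v = P := by simp
  have hf' : HasFDerivAt f (fderiv ℝ f P) (P + (0 : ℝ) • v) := by rw [h0]; exact hf.hasFDerivAt
  exact hf'.comp_hasDerivAt (0 : ℝ) (line_hasDerivAt P v)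

/-- along the fibres of `ww` a branch of `log z1` has purely imaginary derivative. -/
theorem fderiv_L_re {P v : A4} (hN : 0 < NN P) (hz : z1 P ≠ 0) {L : A4 → ℂ}
    (hL : DifferentiableAt ℝ L P) (hexp : ∀ᶠ P' in 𝓝 P, exp (L P') = z1 P')
    (hv : fderiv ℝ ww P v = 0) : (fderiv ℝ L P v).re = 0 := by
  have hreg := ev_regular hN hz
  have hy1 : y1 P ≠ 0 := hreg.self_of_nhds.2.2
  have hid : ∀ᶠ P' in 𝓝 P, Real.exp (2 * (L P').re) * (1 + ‖ww P'‖ ^ 2) = 1 := by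
    filter_upwards [hreg, hexp] with P' h1 h2
    have hn := norm_z P' h1.1
    have hw := ww_eq h1.1
    have hz1 : ‖z1 P'‖ ≠ 0 := norm_ne_zero_iff.2 h1.2.1
    have he : Real.exp (2 * (L P').re) = ‖z1 P'‖ ^ 2 := by
      rw [← h2, norm_exp, ← Real.exp_nat_mul]; norm_num
    rw [he, hw, norm_div]
    field_simp
    exact hn
  have hdL : HasDerivAt (fun t : ℝ => L (P + t • v)) (fderiv ℝ L P v) 0 := comp_line hL
  have hdw : HasDerivAt (fun t : ℝ => ww (P + t • v)) (fderiv ℝ ww P v) 0 :=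
    comp_line ((contDiffAt_ww hy1).differentiableAt (by simp))
  rw [hv] at hdw
  have hdLre : HasDerivAt (fun t : ℝ => (L (P + t • v)).re) (fderiv ℝ L P v).re 0 := by
    exact (reCLM.hasFDerivAt (x := L (P + (0 : ℝ) • v))).comp_hasDerivAt (0 : ℝ) hdL
  have hd1 : HasDerivAt (fun t : ℝ => Real.exp (2 * (L (P + t • v)).re))
      (Real.exp (2 * (L (P + (0 : ℝ) • v)).re) * (2 * (fderiv ℝ L P v).re)) 0 :=
    (hdLre.const_mul 2).exp
  have hd2 : HasDerivAt (fun t : ℝ => 1 + ‖ww (P + t • v)‖ ^ 2) 0 0 := by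
    have h := (hdw.norm_sq).const_add 1
    simpa using h
  have hd3 := hd1.mul hd2
  have hev : (fun t : ℝ => Real.exp (2 * (L (P + t • v)).re) * (1 + ‖ww (P + t • v)‖ ^ 2))
      =ᶠ[𝓝 0] fun _ => (1 : ℝ) := (line_tendsto P v).eventually hid
  have hd4 : HasDerivAt (fun _ : ℝ => (1 : ℝ))
      (Real.exp (2 * (L (P + (0 : ℝ) • v)).re) * (2 * (fderiv ℝ L P v).re) *
        (1 + ‖ww (P + (0 : ℝ) • v)‖ ^ 2) + Real.exp (2 * (L (P + (0 : ℝ) • v)).re) * 0) 0 :=
    hd3.congr_of_eventuallyEq hev.symm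
  have hu := hd4.unique (hasDerivAt_const (0 : ℝ) (1 : ℝ))
  have hp1 : Real.exp (2 * (L (P + (0 : ℝ) • v)).re) ≠ 0 := (Real.exp_pos _).ne'
  have hp2 : (1 + ‖ww (P + (0 : ℝ) • v)‖ ^ 2) ≠ 0 := by positivity
  rw [mul_zero, add_zero] at hu
  rcases mul_eq_zero.1 hu with h | h
  · rcases mul_eq_zero.1 h with h | h
    · exact absurd h hp1
    · linarith
  · exact absurd h hp2

/-- injectivity up to the circle direction. -/
theorem kernel_L {P v : A4} (hP : P ∈ S4) (hne : rho2 P ≠ 0) (hz : z1 P ≠ 0) {L : A4 → ℂ}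
    (hL : DifferentiableAt ℝ L P) (hexp : ∀ᶠ P' in 𝓝 P, exp (L P') = z1 P') (hv : Tan4 P v)
    (h1 : fderiv ℝ ww P v = 0) (h2 : fderiv ℝ L P v = 0) : ∃ c : ℝ, v = c • dphi P := by
  have hN := NN_pos hP
  have hreg := ev_regular hN hz
  have hy1 : y1 P ≠ 0 := hreg.self_of_nhds.2.2
  have hdz1 : fderiv ℝ z1 P v = 0 := by
    have h : z1 =ᶠ[𝓝 P] fun P' => exp (L P') := by
      filter_upwards [hexp] with P' h; exact h.symm
    rw [h.fderiv_eq]
    have hd : HasFDerivAt (fun P' => exp (L P')) (exp (L P) • fderiv ℝ L P) P :=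
      hL.hasFDerivAt.cexp
    rw [hd.fderiv]
    simp [h2]
  have hdz2 : fderiv ℝ z2 P v = 0 := by
    have h : z2 =ᶠ[𝓝 P] fun P' => ww P' * z1 P' := by
      filter_upwards [hreg] with P' h
      rw [ww_eq h.1, div_mul_cancel₀ _ h.2.1]
    rw [h.fderiv_eq]
    have hdw : HasFDerivAt ww (fderiv ℝ ww P) P :=
      ((contDiffAt_ww hy1).differentiableAt (by simp)).hasFDerivAt
    have hdz : HasFDerivAt z1 (fderiv ℝ z1 P) P :=
      ((contDiffAt_z1 hN).differentiableAt (by simp)).hasFDerivAt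
    have hd := hdw.mul hdz
    have hd' : fderiv ℝ (fun P' => ww P' * z1 P') P = _ := hd.fderiv
    rw [hd']
    simp [h1, hdz1]
  exact kernel_dir hP hne hv hdz1 hdz2

end Pool.Agent.S4T2
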