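import Pool.Agent.Lib.MP_1d980c_gt.S4.EstA

/-! Task H2: local estimate. -/

set_option autoImplicit false
open Complex ComplexConjugate Topology
open scoped ContDiff

namespace Pool.Agent.S4T2

/-- linear algebra: a continuous family of linear maps which is injective at `x0` is uniformly
bounded below near `x0`. -/
theorem bdd_below {X V W : Type} [TopologicalSpace X] [NormedAddCommGroup V] [NormedSpace ℝ V]
    [FiniteDimensional ℝ V] [NormedAddCommGroup W] [NormedSpace ℝ W] (T : X → V →L[ℝ] W) (x0 : X)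
    (hT : ContinuousAt T x0) (hinj : ∀ v, T x0 v = 0 → v = 0) :
    ∃ c : ℝ, 0 < c ∧ ∀ᶠ x in 𝓝 x0, ∀ v, c * ‖v‖ ≤ ‖T x v‖ := by
  have hker : LinearMap.ker (T x0 : V →ₗ[ℝ] W) = ⊥ := by
    rw [LinearMap.ker_eq_bot']
    intro v hv
    exact hinj v hv
  obtain ⟨K, hK, hanti⟩ := (T x0 : V →ₗ[ℝ] W).exists_antilipschitzWith hker
  have hKr : (0 : ℝ) < K := by exact_mod_cast hK
  have hbd : ∀ v : V, ‖v‖ ≤ K * ‖T x0 v‖ := by
    intro v
    have h := hanti.le_mul_dist v 0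
    simpa [dist_zero_right] using h
  refine ⟨1 / (2 * K), by positivity, ?_⟩
  have hev : ∀ᶠ x in 𝓝 x0, ‖T x - T x0‖ < 1 / (2 * K) := by
    have h := Metric.tendsto_nhds.1 hT (1 / (2 * K)) (by positivity)
    filter_upwards [h] with x hx
    rwa [dist_eq_norm] at hx
  filter_upwards [hev] with x hx v
  have h1 : ‖(T x - T x0) v‖ ≤ 1 / (2 * K) * ‖v‖ :=
    (ContinuousLinearMap.le_opNorm _ v).trans
      (mul_le_mul_of_nonneg_right hx.le (norm_nonneg v))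
  have h2 : T x0 v = T x v - (T x - T x0) v := by simp
  have h3 : ‖T x0 v‖ ≤ ‖T x v‖ + ‖(T x - T x0) v‖ := by
    rw [h2]; exact norm_sub_le _ _
  have h4 : 1 / K * ‖v‖ ≤ ‖T x0 v‖ := by
    rw [div_mul_eq_mul_div, one_mul, div_le_iff₀ hKr]
    linarith [hbd v, mul_comm (K : ℝ) ‖T x0 v‖]
  have h5 : 1 / (2 * (K : ℝ)) * ‖v‖ = 1 / K * ‖v‖ - 1 / (2 * K) * ‖v‖ := by
    field_simp; ring
  linarith

/-- the real scalar product `⟨a, v⟩` of `A4`. -/
private noncomputable def ip (a : A4) : A4 →L[ℝ] ℝ :=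
  a.1.re • (reCLM.comp (ContinuousLinearMap.fst ℝ ℂ (ℂ × ℝ))) +
  a.1.im • (imCLM.comp (ContinuousLinearMap.fst ℝ ℂ (ℂ × ℝ))) +
  a.2.1.re • (reCLM.comp ((ContinuousLinearMap.fst ℝ ℂ ℝ).comp
    (ContinuousLinearMap.snd ℝ ℂ (ℂ × ℝ)))) +
  a.2.1.im • (imCLM.comp ((ContinuousLinearMap.fst ℝ ℂ ℝ).comp
    (ContinuousLinearMap.snd ℝ ℂ (ℂ × ℝ)))) +
  a.2.2 • ((ContinuousLinearMap.snd ℝ ℂ ℝ).comp (ContinuousLinearMap.snd ℝ ℂ (ℂ × ℝ)))

private lemma ip_apply (a v : A4) : ip a v =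
    a.1.re * v.1.re + a.1.im * v.1.im + a.2.1.re * v.2.1.re + a.2.1.im * v.2.1.im
      + a.2.2 * v.2.2 := by
  simp [ip]

private lemma continuous_ip : Continuous ip := by
  unfold ip
  fun_prop

private lemma tan4_iff (P v : A4) : Tan4 P v ↔ ip P v = 0 := by
  rw [ip_apply, Tan4]
  simp only [mul_re, conj_re, conj_im]
  constructor <;> intro h <;> linarith

private lemma ip_dphi_dphi (P : A4) : ip (dphi P) (dphi P) = rho2 P := by
  rw [ip_apply, rho2, ← normSq_eq_norm_sq, ← normSq_eq_norm_sq, normSq_apply, normSq_apply]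
  simp [dphi]
  ring

private lemma ip_dphi (P : A4) : ip P (dphi P) = 0 := by
  rw [ip_apply]
  simp [dphi]
  ring

private lemma continuous_dphi : Continuous dphi := by
  unfold dphi
  fun_prop

private lemma ev_regular' {P : A4} (hN : 0 < NN P) (hz : z1 P ≠ 0) :
    ∀ᶠ P' in 𝓝 P, 0 < NN P' ∧ z1 P' ≠ 0 ∧ y1 P' ≠ 0 := by
  have h1 : ∀ᶠ P' in 𝓝 P, 0 < NN P' :=
    (contDiffAt_NN hN).continuousAt.eventually (lt_mem_nhds hN)
  have h2 : ∀ᶠ P' in 𝓝 P, z1 P' ≠ 0 :=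
    (contDiffAt_z1 hN).continuousAt.eventually_ne hz
  filter_upwards [h1, h2] with P' h1 h2
  refine ⟨h1, h2, ?_⟩
  intro h0
  exact h2 (by rw [z1, h0, zero_div])

private lemma comp_act {E : Type} [NormedAddCommGroup E] [NormedSpace ℝ E] {f : A4 → E} {P : A4}
    (hf : DifferentiableAt ℝ f P) :
    HasDerivAt (fun φ : ℝ => f (act φ P)) (fderiv ℝ f P (dphi P)) 0 := by
  have hf' : HasFDerivAt f (fderiv ℝ f P) (act 0 P) := by rw [act_zero]; exact hf.hasFDerivAt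
  exact hf'.comp_hasDerivAt (0 : ℝ) (hasDerivAt_act P)

private lemma fderiv_ww_dphi {P : A4} (hy : y1 P ≠ 0) : fderiv ℝ ww P (dphi P) = 0 := by
  have h := comp_act ((contDiffAt_ww hy).differentiableAt (by simp))
  have hc : (fun φ : ℝ => ww (act φ P)) = fun _ => ww P := by
    funext φ; rw [ww, y1_act, y2_act, ww]
  rw [hc] at h
  exact h.unique (hasDerivAt_const (0 : ℝ) (ww P))

private lemma fderiv_L_dphi {P : A4} {L : A4 → ℂ} (hL : DifferentiableAt ℝ L P)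
    (hexp : ∀ᶠ P' in 𝓝 P, exp (L P') = z1 P') : fderiv ℝ L P (dphi P) = 0 := by
  have h := (comp_act hL).cexp
  have ht : Filter.Tendsto (fun φ : ℝ => act φ P) (𝓝 0) (𝓝 P) := by
    have := (hasDerivAt_act P).continuousAt.tendsto
    simpa [act_zero] using this
  have hev : (fun φ : ℝ => exp (L (act φ P))) =ᶠ[𝓝 0] fun _ => z1 P := by
    filter_upwards [ht.eventually hexp] with φ hφ
    rw [hφ, z1, z1, NN, NN, y1_act, y2_act]
  have h2 := h.congr_of_eventuallyEq hev.symm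
  have h3 := h2.unique (hasDerivAt_const (0 : ℝ) (z1 P))
  exact (mul_eq_zero.1 h3).resolve_left (exp_ne_zero _)

theorem local_est {P0 : A4} (hP0 : P0 ∈ S4) (hne : rho2 P0 ≠ 0) (hz : z1 P0 ≠ 0) {F L : A4 → ℂ}
    (hF : ContDiffAt ℝ ∞ F P0) (hF0 : F P0 ≠ 0) (hL : ContDiffAt ℝ ∞ L P0)
    (hexp : ∀ᶠ P in 𝓝 P0, exp (L P) = z1 P)
    (hact : ∀ᶠ P in 𝓝 P0, fderiv ℝ F P (dphi P) = I * F P) :
    ∃ C : ℝ, ∀ᶠ P in 𝓝 P0, P ∈ S4 → ∀ v, Tan4 P v → fderiv ℝ ww P v = 0 →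
      |(fderiv ℝ F P v / F P).re| ≤ C * ‖fderiv ℝ L P v‖ := by
  have hN := NN_pos hP0
  have hreg := ev_regular' hN hz
  have hy0 : y1 P0 ≠ 0 := hreg.self_of_nhds.2.2
  -- the family of linear maps
  let T : A4 → A4 →L[ℝ] ℂ × ℂ × ℝ × ℝ := fun P =>
    (fderiv ℝ ww P).prod ((fderiv ℝ L P).prod ((ip (dphi P)).prod (ip P)))
  have hTc : ContinuousAt T P0 := by
    have h1 : ContinuousAt (fderiv ℝ ww) P0 :=
      ((contDiffAt_ww hy0).fderiv_right (m := 0) (by simp)).continuousAt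
    have h2 : ContinuousAt (fderiv ℝ L) P0 := (hL.fderiv_right (m := 0) (by simp)).continuousAt
    have h3 : ContinuousAt (fun P => ip (dphi P)) P0 :=
      (continuous_ip.comp continuous_dphi).continuousAt
    have h4 : ContinuousAt ip P0 := continuous_ip.continuousAt
    have hp : ∀ {E G : Type} [NormedAddCommGroup E] [NormedSpace ℝ E] [NormedAddCommGroup G]
        [NormedSpace ℝ G] {f : A4 → A4 →L[ℝ] E} {g : A4 → A4 →L[ℝ] G}, ContinuousAt f P0 →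
        ContinuousAt g P0 → ContinuousAt (fun P => (f P).prod (g P)) P0 := by
      intro E G _ _ _ _ f g hf hg
      have hc : Continuous (fun q : (A4 →L[ℝ] E) × (A4 →L[ℝ] G) => q.1.prod q.2) :=
        (ContinuousLinearMap.prodₗᵢ ℝ : (A4 →L[ℝ] E) × (A4 →L[ℝ] G) ≃ₗᵢ[ℝ] A4 →L[ℝ] E × G).continuous
      exact hc.continuousAt.comp (hf.prodMk hg)
    exact hp h1 (hp h2 (hp h3 h4))
  have hTinj : ∀ v, T P0 v = 0 → v = 0 := by
    intro v hv
    have hv' : (fderiv ℝ ww P0 v, fderiv ℝ L P0 v, ip (dphi P0) v, ip P0 v)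
        = ((0, 0, 0, 0) : ℂ × ℂ × ℝ × ℝ) := hv
    simp only [Prod.mk.injEq] at hv'
    obtain ⟨e1, e2, e3, e4⟩ := hv'
    obtain ⟨c, hc⟩ := kernel_L hP0 hne hz (hL.differentiableAt (by simp)) hexp
      ((tan4_iff _ _).2 e4) e1 e2
    rw [hc, map_smul, ip_dphi_dphi, smul_eq_mul] at e3
    rw [hc, (mul_eq_zero.1 e3).resolve_right hne, zero_smul]
  obtain ⟨c, hc, hcT⟩ := bdd_below T P0 hTc hTinj
  have hrho : ∀ᶠ P in 𝓝 P0, rho2 P ≠ 0 := contDiff_rho2.continuous.continuousAt.eventually_ne hne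
  have hdF : ContinuousAt (fderiv ℝ F) P0 := (hF.fderiv_right (m := 0) (by simp)).continuousAt
  have hB : ContinuousAt (fun P => ‖fderiv ℝ F P‖ / ‖F P‖) P0 :=
    hdF.norm.div hF.continuousAt.norm (norm_ne_zero_iff.2 hF0)
  have hBev : ∀ᶠ P in 𝓝 P0, ‖fderiv ℝ F P‖ / ‖F P‖ < ‖fderiv ℝ F P0‖ / ‖F P0‖ + 1 :=
    hB.eventually (gt_mem_nhds (lt_add_one _))
  have hFev : ∀ᶠ P in 𝓝 P0, F P ≠ 0 := hF.continuousAt.eventually_ne hF0
  have hLd : ∀ᶠ P in 𝓝 P0, DifferentiableAt ℝ L P := by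
    have h := (hL.of_le (show (1 : WithTop ℕ∞) ≤ ∞ by simp)).eventually (by simp)
    filter_upwards [h] with P hP
    exact hP.differentiableAt (by simp)
  refine ⟨(‖fderiv ℝ F P0‖ / ‖F P0‖ + 1) / c, ?_⟩
  filter_upwards [hcT, hrho, hBev, hFev, hLd, hreg, hexp.eventually_nhds, hact]
    with P hcT hrho hBev hFev hLd hreg hexp hact hPS v hv hwv
  set φ : ℝ := ip (dphi P) v / rho2 P with hφ
  set v' : A4 := v - φ • dphi P with hv'
  have e1 : fderiv ℝ ww P v' = 0 := by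
    rw [hv', map_sub, map_smul, fderiv_ww_dphi hreg.2.2, hwv]; simp
  have e2 : fderiv ℝ L P v' = fderiv ℝ L P v := by
    rw [hv', map_sub, map_smul, fderiv_L_dphi hLd hexp]; simp
  have e3 : ip (dphi P) v' = 0 := by
    rw [hv', map_sub, map_smul, ip_dphi_dphi, smul_eq_mul, hφ, div_mul_cancel₀ _ hrho, sub_self]
  have e4 : ip P v' = 0 := by
    rw [hv', map_sub, map_smul, ip_dphi, (tan4_iff _ _).1 hv]; simp
  have hT : T P v' = (0, fderiv ℝ L P v, 0, 0) := by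
    show (fderiv ℝ ww P v', fderiv ℝ L P v', ip (dphi P) v', ip P v') = _
    rw [e1, e2, e3, e4]
  have hTn : ‖T P v'‖ = ‖fderiv ℝ L P v‖ := by
    rw [hT]
    simp [Prod.norm_def]
  have h1 := hcT v'
  rw [hTn] at h1
  have h2 : ‖v'‖ ≤ ‖fderiv ℝ L P v‖ / c := by
    rw [le_div_iff₀ hc]; linarith [mul_comm c ‖v'‖]
  have e5 : fderiv ℝ F P v = fderiv ℝ F P v' + φ • (I * F P) := by
    rw [hv', map_sub, map_smul, hact]; simp
  have e6 : (fderiv ℝ F P v / F P).re = (fderiv ℝ F P v' / F P).re := by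
    have : fderiv ℝ F P v / F P = fderiv ℝ F P v' / F P + (φ : ℂ) * I := by
      rw [e5, real_smul]
      field_simp
    rw [this]
    simp
  rw [e6]
  calc |(fderiv ℝ F P v' / F P).re| ≤ ‖fderiv ℝ F P v' / F P‖ := abs_re_le_norm _
    _ = ‖fderiv ℝ F P v'‖ / ‖F P‖ := norm_div _ _
    _ ≤ (‖fderiv ℝ F P‖ * ‖v'‖) / ‖F P‖ := by
        gcongr
        exact ContinuousLinearMap.le_opNorm _ _
    _ = (‖fderiv ℝ F P‖ / ‖F P‖) * ‖v'‖ := by ring
    _ ≤ (‖fderiv ℝ F P0‖ / ‖F P0‖ + 1) * (‖fderiv ℝ L P v‖ / c) := by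
        gcongr
    _ = (‖fderiv ℝ F P0‖ / ‖F P0‖ + 1) / c * ‖fderiv ℝ L P v‖ := by ring

end Pool.Agent.S4T2
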