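import Pool.Agent.Lib.MP_1d980c_gt.S4.Basic

/-! Task B: away from the poles the map `(z1, z2) : S⁴ → S³` has kernel spanned by `dphi`. -/

set_option autoImplicit false
open Complex ComplexConjugate Topology
open scoped ContDiff

namespace Pool.Agent.S4T2

/-- derivative along a line. -/
theorem kernel_line {E : Type} [NormedAddCommGroup E] [NormedSpace ℝ E] {f : A4 → E} {P v : A4}
    (hf : DifferentiableAt ℝ f P) :
    HasDerivAt (fun t : ℝ => f (P + t • v)) (fderiv ℝ f P v) 0 := by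
  have h1 : HasDerivAt (fun t : ℝ => P + t • v) v 0 := by
    have := ((hasDerivAt_id (0 : ℝ)).smul_const v).const_add P
    simpa using this
  have h2 : HasFDerivAt f (fderiv ℝ f P) (P + (0 : ℝ) • v) := by
    simpa using hf.hasFDerivAt
  exact h2.comp_hasDerivAt (0 : ℝ) h1

theorem kernel_line_X (P v : A4) : HasDerivAt (fun t : ℝ => (P + t • v).1) v.1 0 := by
  have := ((hasDerivAt_id (0 : ℝ)).smul_const v.1).const_add P.1
  simpa using this

theorem kernel_line_Y (P v : A4) : HasDerivAt (fun t : ℝ => (P + t • v).2.1) v.2.1 0 := by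
  have := ((hasDerivAt_id (0 : ℝ)).smul_const v.2.1).const_add P.2.1
  simpa using this

theorem kernel_line_h (P v : A4) : HasDerivAt (fun t : ℝ => (P + t • v).2.2) v.2.2 0 := by
  have := ((hasDerivAt_id (0 : ℝ)).smul_const v.2.2).const_add P.2.2
  simpa using this

theorem kernel_line_MM (P v : A4) : HasDerivAt (fun t : ℝ => MM (P + t • v))
    (2 * (v.1 * P.2.1 + P.1 * v.2.1)) 0 := by
  have h := ((kernel_line_X P v).const_mul (2 : ℂ)).mul (kernel_line_Y P v)
  refine h.congr_deriv ?_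
  simp only [zero_smul, add_zero]; ring

theorem kernel_line_normSq {f : ℝ → ℂ} {a b : ℂ} (hf : HasDerivAt f b 0) (h0 : f 0 = a) :
    HasDerivAt (fun t : ℝ => ‖f t‖ ^ 2) (2 * (conj a * b).re) 0 := by
  have hre : HasDerivAt (fun t => (f t).re) b.re 0 := by
    exact (Complex.reCLM.hasFDerivAt (x := f 0)).comp_hasDerivAt (0 : ℝ) hf
  have him : HasDerivAt (fun t => (f t).im) b.im 0 := by
    exact (Complex.imCLM.hasFDerivAt (x := f 0)).comp_hasDerivAt (0 : ℝ) hf
  have h := (hre.pow 2).add (him.pow 2)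
  have h2 : (fun t : ℝ => ‖f t‖ ^ 2) = fun t => (f t).re ^ 2 + (f t).im ^ 2 := by
    funext t
    rw [← Complex.normSq_eq_norm_sq, Complex.normSq_apply]; ring
  rw [h2]
  refine h.congr_deriv ?_
  simp only [h0, Complex.mul_re, Complex.conj_re, Complex.conj_im]
  push_cast
  ring

theorem kernel_line_DD (P v : A4) : HasDerivAt (fun t : ℝ => DD (P + t • v))
    (2 * (conj P.1 * v.1).re - 2 * (conj P.2.1 * v.2.1).re) 0 := by
  have h := (kernel_line_normSq (a := P.1) (kernel_line_X P v) (by simp)).sub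
    (kernel_line_normSq (a := P.2.1) (kernel_line_Y P v) (by simp))
  exact h

theorem kernel_line_y2 (P v : A4) : HasDerivAt (fun t : ℝ => y2 (P + t • v))
    (((deriv bet P.2.2 * v.2.2 : ℝ) : ℂ) + 2 * (2 * (v.1 * P.2.1 + P.1 * v.2.1))) 0 := by
  have hb : HasDerivAt bet (deriv bet P.2.2) ((P + (0 : ℝ) • v).2.2) := by
    have := (contDiff_bet.differentiable (by simp)).differentiableAt (x := P.2.2)
    simpa using this.hasDerivAt
  have h1 := HasDerivAt.comp (0 : ℝ) hb (kernel_line_h P v)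
  exact h1.ofReal_comp.add ((kernel_line_MM P v).const_mul (2 : ℂ))

theorem kernel_line_y1 (P v : A4) : HasDerivAt (fun t : ℝ => y1 (P + t • v))
    (((deriv bet (-P.2.2) * (-v.2.2) : ℝ) : ℂ) + 2 * (((2 * (v.1 * P.2.1 + P.1 * v.2.1)).re : ℂ) +
      ((2 * (conj P.1 * v.1).re - 2 * (conj P.2.1 * v.2.1).re : ℝ) : ℂ) * I)) 0 := by
  have hb : HasDerivAt bet (deriv bet (-P.2.2)) (-(P + (0 : ℝ) • v).2.2) := by
    have := (contDiff_bet.differentiable (by simp)).differentiableAt (x := -P.2.2)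
    simpa using this.hasDerivAt
  have h1 := HasDerivAt.comp (0 : ℝ) hb (kernel_line_h P v).neg
  have hre : HasDerivAt (fun t : ℝ => (MM (P + t • v)).re)
      (2 * (v.1 * P.2.1 + P.1 * v.2.1)).re 0 := by
    exact (Complex.reCLM.hasFDerivAt (x := MM (P + (0 : ℝ) • v))).comp_hasDerivAt (0 : ℝ)
      (kernel_line_MM P v)
  exact h1.ofReal_comp.add ((hre.ofReal_comp.add
    ((kernel_line_DD P v).ofReal_comp.mul_const I)).const_mul (2 : ℂ))

theorem kernel_fderiv_y2 (P v : A4) : fderiv ℝ y2 P v =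
    ((deriv bet P.2.2 * v.2.2 : ℝ) : ℂ) + 2 * (2 * (v.1 * P.2.1 + P.1 * v.2.1)) :=
  (kernel_line (contDiff_y2.differentiable (by simp)).differentiableAt).unique
    (kernel_line_y2 P v)

theorem kernel_fderiv_y1 (P v : A4) : fderiv ℝ y1 P v =
    ((deriv bet (-P.2.2) * (-v.2.2) : ℝ) : ℂ) + 2 * (((2 * (v.1 * P.2.1 + P.1 * v.2.1)).re : ℂ) +
      ((2 * (conj P.1 * v.1).re - 2 * (conj P.2.1 * v.2.1).re : ℝ) : ℂ) * I) :=
  (kernel_line (contDiff_y1.differentiable (by simp)).differentiableAt).unique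
    (kernel_line_y1 P v)

theorem kernel_fderiv_scale {y z : A4 → ℂ} {P v : A4} (hN : 0 < NN P)
    (hz : DifferentiableAt ℝ z P) (hzy : ∀ P', 0 < NN P' → y P' = (NN P' : ℂ) * z P')
    (h : fderiv ℝ z P v = 0) :
    fderiv ℝ y P v = ((fderiv ℝ NN P v / NN P : ℝ) : ℂ) * y P := by
  have hNd : DifferentiableAt ℝ NN P := (contDiffAt_NN hN).differentiableAt (by simp)
  have h1 := (kernel_line (v := v) hNd).ofReal_comp.mul (kernel_line (v := v) hz)
  have hcont : ContinuousAt (fun t : ℝ => NN (P + t • v)) 0 :=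
    (kernel_line (v := v) hNd).continuousAt
  have hev : ∀ᶠ t in 𝓝 (0 : ℝ), y (P + t • v) = (NN (P + t • v) : ℂ) * z (P + t • v) := by
    have : ∀ᶠ t in 𝓝 (0 : ℝ), 0 < NN (P + t • v) :=
      hcont.eventually (lt_mem_nhds (by simpa using hN))
    filter_upwards [this] with t ht using hzy _ ht
  have h2 := h1.congr_of_eventuallyEq hev
  have hyd : DifferentiableAt ℝ y P := by
    have h3 : DifferentiableAt ℝ (fun P' => (NN P' : ℂ) * z P') P :=
      (Complex.ofRealCLM.differentiableAt.comp P hNd).mul hz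
    refine h3.congr_of_eventuallyEq ?_
    have : ∀ᶠ P' in 𝓝 P, 0 < NN P' := hNd.continuousAt.eventually (lt_mem_nhds hN)
    filter_upwards [this] with P' hP' using hzy _ hP'
  have h4 := (kernel_line (v := v) hyd).unique h2
  rw [h4, hzy P hN, h]
  have hN' : (NN P : ℂ) ≠ 0 := by exact_mod_cast hN.ne'
  push_cast
  simp only [zero_smul, add_zero, mul_zero]
  field_simp

theorem kernel_deriv_bet_neg (h : ℝ) : deriv bet (-h) = deriv bet h := by
  have hd : Differentiable ℝ bet := contDiff_bet.differentiable (by simp)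
  have h1 : HasDerivAt bet (deriv bet h) h := (hd h).hasDerivAt
  have h2 : HasDerivAt (fun x => bet (-x)) (deriv bet (-h) * (-1)) h :=
    ((hd (-h)).hasDerivAt).comp h (hasDerivAt_neg h)
  have h3 := h1.add h2
  have h4 : (fun x => bet x + bet (-x)) = fun _ => (1 : ℝ) := by
    funext x; exact bet_add x
  have h5 : HasDerivAt (fun x => bet x + bet (-x)) 0 h := by
    rw [h4]; exact hasDerivAt_const _ _
  have h6 := h3.unique h5
  linarith

/-- the real algebra behind `kernel_dir`. -/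
theorem kernel_bracket {h r m : ℝ} (hr : r = 1 - h ^ 2) (hr0 : 0 < r) (hm : |m| ≤ r) :
    0 < deriv bet h * (r ^ 2 + m / 4) + h * r * (bet h - bet (-h)) := by
  obtain ⟨hm1, hm2⟩ := abs_le.1 hm
  have hb := bet_add h
  have hβ := deriv_bet_nonneg h
  rcases lt_trichotomy h 0 with h0 | h0 | h0
  · -- h < 0
    have hlt : bet h < bet (-h) := by
      by_cases hh : -(1 / 2) < h
      · exact bet_lt h0 hh
      · push Not at hh
        rw [bet_of_le hh, bet_of_ge (by linarith)]; norm_num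
    have hpos : 0 < h * r * (bet h - bet (-h)) := by
      have : 0 < (-h) * r * (bet (-h) - bet h) := by
        apply mul_pos (mul_pos (by linarith) hr0) (by linarith)
      linarith
    by_cases hh : h < -(1 / 2)
    · rw [deriv_bet_of_lt hh]; linarith
    · push Not at hh
      have h34 : 3 / 4 ≤ r := by nlinarith
      have : 0 ≤ deriv bet h * (r ^ 2 + m / 4) := mul_nonneg hβ (by nlinarith)
      linarith
  · subst h0
    have h34 : r = 1 := by linarith
    have h1 := deriv_bet_zero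
    have h2 : 0 < r ^ 2 + m / 4 := by rw [h34] at hm1 ⊢; linarith
    have h3 := mul_pos h1 h2
    linarith
  · have hlt : bet (-h) < bet h := by
      by_cases hh : -(1 / 2) < -h
      · have := bet_lt (h := -h) (by linarith) hh
        rwa [neg_neg] at this
      · push Not at hh
        rw [bet_of_le hh, bet_of_ge (by linarith)]; norm_num
    have hpos : 0 < h * r * (bet h - bet (-h)) :=
      mul_pos (mul_pos h0 hr0) (by linarith)
    by_cases hh : 1 / 2 < h
    · rw [deriv_bet_of_gt hh]; linarith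
    · push Not at hh
      have h34 : 3 / 4 ≤ r := by nlinarith
      have : 0 ≤ deriv bet h * (r ^ 2 + m / 4) := mul_nonneg hβ (by nlinarith)
      linarith

/-- the real algebra behind `kernel_dir`. -/
theorem kernel_alg {x1 x2 u1 u2 h a1 a2 b1 b2 h' β p q lam m n D r : ℝ}
    (hm : m = 2 * (x1 * u1 - x2 * u2)) (hn : n = 2 * (x1 * u2 + x2 * u1))
    (hD : D = x1 ^ 2 + x2 ^ 2 - u1 ^ 2 - u2 ^ 2) (hr : r = x1 ^ 2 + x2 ^ 2 + u1 ^ 2 + u2 ^ 2)
    (hpq : p + q = 1) (hr0 : r ≠ 0)
    (hv : x1 * a1 + x2 * a2 + u1 * b1 + u2 * b2 + h * h' = 0)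
    (e1r : -β * h' + 2 * (2 * (a1 * u1 - a2 * u2 + x1 * b1 - x2 * b2)) = lam * (q + 2 * m))
    (e1i : 2 * (x1 * a1 + x2 * a2) - 2 * (u1 * b1 + u2 * b2) = lam * D)
    (e2r : β * h' + 2 * (2 * (a1 * u1 - a2 * u2 + x1 * b1 - x2 * b2)) = lam * (p + 2 * m))
    (e2i : 2 * (a1 * u2 + a2 * u1 + x1 * b2 + x2 * b1) = lam * n)
    (hbr : 0 < β * (r ^ 2 + m / 4) + h * r * (p - q)) (hb0 : h = 0 → 0 < β) :
    ∃ c : ℝ, a1 = -(c * x2) ∧ a2 = c * x1 ∧ b1 = c * u2 ∧ b2 = -(c * u1) ∧ h' = 0 := by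
  have h1 : 2 * (a1 * u1 - a2 * u2 + x1 * b1 - x2 * b2) = lam * (1 / 4 + m) := by
    linear_combination (e1r + e2r) / 4 + lam / 4 * hpq
  have h2 : 2 * β * h' = lam * (p - q) := by linear_combination e2r - e1r
  have h3 : r * (2 * (x1 * a1 + x2 * a2 + u1 * b1 + u2 * b2)) = lam * (r ^ 2 + m / 4) := by
    have key : r * (2 * (x1 * a1 + x2 * a2 + u1 * b1 + u2 * b2)) =
        m * (2 * (a1 * u1 - a2 * u2 + x1 * b1 - x2 * b2)) +
        n * (2 * (a1 * u2 + a2 * u1 + x1 * b2 + x2 * b1)) +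
        D * (2 * (x1 * a1 + x2 * a2) - 2 * (u1 * b1 + u2 * b2)) := by
      rw [hm, hn, hD, hr]; ring
    have key2 : r ^ 2 = m ^ 2 + n ^ 2 + D ^ 2 := by rw [hm, hn, hD, hr]; ring
    rw [key, h1, e1i, e2i, key2]; ring
  have h4 : -(2 * h * h' * r) = lam * (r ^ 2 + m / 4) := by
    linear_combination h3 - 2 * r * hv
  have h5 : lam * (β * (r ^ 2 + m / 4) + h * r * (p - q)) = 0 := by
    linear_combination -β * h4 - h * r * h2
  have hl : lam = 0 := by
    rcases mul_eq_zero.1 h5 with h6 | h6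
    · exact h6
    · exact absurd h6 hbr.ne'
  subst hl
  have hh : h' = 0 := by
    by_cases h0 : h = 0
    · have := hb0 h0
      have h6 : 2 * β * h' = 0 := by rw [h2]; ring
      rcases mul_eq_zero.1 h6 with h7 | h7
      · linarith
      · exact h7
    · have h6 : (2 * h * r) * h' = 0 := by linear_combination -h4
      rcases mul_eq_zero.1 h6 with h7 | h7
      · exfalso
        rcases mul_eq_zero.1 h7 with h8 | h8
        · exact h0 (by linarith)
        · exact hr0 h8
      · exact h7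
  subst hh
  have k1 : x1 * a1 + x2 * a2 = 0 := by linarith
  have k2 : u1 * b1 + u2 * b2 = 0 := by linarith
  have k3 : a1 * u1 - a2 * u2 + x1 * b1 - x2 * b2 = 0 := by linarith
  have k4 : a1 * u2 + a2 * u1 + x1 * b2 + x2 * b1 = 0 := by linarith
  by_cases hx : x1 ^ 2 + x2 ^ 2 = 0
  · have hx1 : x1 = 0 := by nlinarith [sq_nonneg x1, sq_nonneg x2]
    have hx2 : x2 = 0 := by nlinarith [sq_nonneg x1, sq_nonneg x2]
    subst hx1 hx2
    have hu : u1 ^ 2 + u2 ^ 2 ≠ 0 := by
      intro h0; apply hr0; rw [hr]; linarith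
    refine ⟨-((u1 * b2 - u2 * b1) / (u1 ^ 2 + u2 ^ 2)), ?_, ?_, ?_, ?_, rfl⟩
    · have : (u1 ^ 2 + u2 ^ 2) * a1 = 0 := by linear_combination u1 * k3 + u2 * k4
      rcases mul_eq_zero.1 this with h8 | h8
      · exact absurd h8 hu
      · rw [h8]; ring
    · have : (u1 ^ 2 + u2 ^ 2) * a2 = 0 := by linear_combination u1 * k4 - u2 * k3
      rcases mul_eq_zero.1 this with h8 | h8
      · exact absurd h8 hu
      · rw [h8]; ring
    · field_simp
      linear_combination u1 * k2
    · field_simp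
      linear_combination u2 * k2
  · refine ⟨(x1 * a2 - x2 * a1) / (x1 ^ 2 + x2 ^ 2), ?_, ?_, ?_, ?_, rfl⟩
    · field_simp
      linear_combination x1 * k1
    · field_simp
      linear_combination x2 * k1
    · field_simp
      linear_combination x1 * k3 + x2 * k4 - u1 * k1
    · field_simp
      linear_combination x1 * k4 - x2 * k3 - u2 * k1

theorem kernel_dir {P v : A4} (hP : P ∈ S4) (hne : rho2 P ≠ 0) (hv : Tan4 P v)
    (h1 : fderiv ℝ z1 P v = 0) (h2 : fderiv ℝ z2 P v = 0) : ∃ c : ℝ, v = c • dphi P := by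
  have hN : 0 < NN P := NN_pos hP
  have e1 := kernel_fderiv_scale hN ((contDiffAt_z1 hN).differentiableAt (by simp))
    (fun P' h => y1_eq h) h1
  have e2 := kernel_fderiv_scale hN ((contDiffAt_z2 hN).differentiableAt (by simp))
    (fun P' h => y2_eq h) h2
  rw [kernel_fderiv_y1] at e1
  rw [kernel_fderiv_y2] at e2
  set lam : ℝ := fderiv ℝ NN P v / NN P with hlam
  have hrho := rho2_S4 hP
  have hMD := MM_DD P
  rw [kernel_deriv_bet_neg] at e1
  have hbr := kernel_bracket (h := P.2.2) (r := rho2 P) (m := (MM P).re) hrho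
    (lt_of_le_of_ne (rho2_nonneg P) (Ne.symm hne))
    (abs_le_of_sq_le_sq (by nlinarith [sq_nonneg (MM P).im, sq_nonneg (DD P)]) (rho2_nonneg P))
  obtain ⟨X, Y, h⟩ := P
  obtain ⟨X', Y', h'⟩ := v
  simp only [Tan4] at hv
  have e1r := congrArg Complex.re e1
  have e1i := congrArg Complex.im e1
  have e2r := congrArg Complex.re e2
  have e2i := congrArg Complex.im e2
  simp only [y1, y2, MM, DD, rho2, Complex.add_re, Complex.add_im, Complex.mul_re, Complex.mul_im,
    Complex.ofReal_re, Complex.ofReal_im, Complex.I_re, Complex.I_im, Complex.conj_re,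
    Complex.conj_im, Complex.re_ofNat, Complex.im_ofNat, ← Complex.normSq_eq_norm_sq,
    Complex.normSq_apply] at e1r e1i e2r e2i hbr hv hne hrho
  obtain ⟨x1, x2⟩ := X
  obtain ⟨y1', y2'⟩ := Y
  obtain ⟨a1, a2⟩ := X'
  obtain ⟨b1, b2⟩ := Y'
  simp only at e1r e1i e2r e2i hbr hv hne hrho
  obtain ⟨c, c1, c2, c3, c4, c5⟩ := kernel_alg (x1 := x1) (x2 := x2) (u1 := y1') (u2 := y2')
    (h := h) (a1 := a1) (a2 := a2) (b1 := b1) (b2 := b2) (h' := h') (β := deriv bet h)
    (p := bet h) (q := bet (-h)) (lam := lam) (m := 2 * (x1 * y1' - x2 * y2'))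
    (n := 2 * (x1 * y2' + x2 * y1')) (D := x1 ^ 2 + x2 ^ 2 - y1' ^ 2 - y2' ^ 2)
    (r := x1 ^ 2 + x2 ^ 2 + y1' ^ 2 + y2' ^ 2) rfl rfl rfl rfl (bet_add h)
    (by intro h0; apply hne; linarith) (by linarith) (by linarith) (by linarith)
    (by linarith) (by linarith) (by
      have e : x1 * x1 + x2 * x2 + (y1' * y1' + y2' * y2') =
        x1 ^ 2 + x2 ^ 2 + y1' ^ 2 + y2' ^ 2 := by ring
      rw [e] at hbr
      convert hbr using 2
      ring) (fun h0 => by rw [h0]; exact deriv_bet_zero)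
  refine ⟨c, ?_⟩
  simp only [dphi, Prod.smul_mk, Prod.mk.injEq, smul_zero]
  refine ⟨?_, ?_, c5⟩
  · apply Complex.ext <;> simp [c1, c2]
  · apply Complex.ext <;> simp [c3, c4]

end Pool.Agent.S4T2
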