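import Pool.Agent.Lib.MP_1d980c_gt.S4.NodeA
import Pool.Agent.Lib.MP_1d980c_gt.S4.FFs

/-! Task I2: the node chart, relations. -/

set_option autoImplicit false
open Complex ComplexConjugate Topology
open scoped ContDiff

namespace Pool.Agent.S4T2

/-- near the pole `GG` is one. -/
theorem node_GG {δ : ℝ} (hδ : GoodDelta δ) {P : A4} (hP : P ∈ S4) (h : P ∈ Nn) :
    ∀ᶠ P' in 𝓝 P, GG δ P' = 1 := by
  obtain ⟨h0, h1, _⟩ := hδ
  have hf := (near_pole_facts hP h).2.2.2.2.2.2
  have hN := NN_pos hP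
  have hc1 : ContinuousAt z1 P := (contDiffAt_z1 hN).continuousAt
  have hc2 : ContinuousAt z2 P := (contDiffAt_z2 hN).continuousAt
  have hc : ContinuousAt (fun P => ‖z2 P‖ ^ 2 - ‖z1 P‖ ^ 2) P :=
    (hc2.norm.pow 2).sub (hc1.norm.pow 2)
  have hlt : ‖z2 P‖ ^ 2 - ‖z1 P‖ ^ 2 < -(δ / 2) := by linarith
  filter_upwards [hc.eventually (gt_mem_nhds hlt)] with P' hP'
  exact GG_eq_one h0 hP'.le

theorem node_y2 {P : A4} (h : P ∈ Nn) :
    ∀ᶠ P' in 𝓝 P, y2 P' = 4 * P'.1 * P'.2.1 := by
  filter_upwards [nodeA_ev h] with P' hP'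
  rw [y2, bet_of_le hP', MM]
  push_cast
  ring

theorem rel_0N {δ : ℝ} (hδ : GoodDelta δ) {P : A4} (hP : P ∈ S4) (h : P ∈ Nn)
    (hU : P ∈ UU δ false) :
    ∀ᶠ P' in 𝓝 P, x0 P' * FF δ false P' = 1 ∧ y0 P' = ww P' * FF δ false P' := by
  have hz2 : z2 P ≠ 0 := hU.2.1 rfl
  have hN := NN_pos hP
  have hy2 : y2 P ≠ 0 := by
    intro h0; apply hz2; rw [z2, h0, zero_div]
  have ev2 : ∀ᶠ P' in 𝓝 P, y2 P' ≠ 0 :=
    contDiff_y2.continuous.continuousAt.eventually_ne hy2
  filter_upwards [node_GG hδ hP h, node_y2 h, ev2] with P' hG hy hy0'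
  have hne : 4 * P'.1 * P'.2.1 ≠ 0 := hy ▸ hy0'
  have hX : P'.1 ≠ 0 := by
    intro h0; apply hne; rw [h0]; ring
  have hY : P'.2.1 ≠ 0 := by
    intro h0; apply hne; rw [h0]; ring
  have he : exp (-(Lb false P' / 2)) * exp (Lb false P' / 2) = 1 := by
    rw [← Complex.exp_add]; simp
  have htt : tt δ P' = 1 / P'.2.1 := by
    rw [tt, hy]
    have e1 : (psi δ P' : ℂ) * (4 * P'.1) / (4 * P'.1 * P'.2.1) = psi δ P' / P'.2.1 := by
      field_simp
    rw [e1]
    push_cast
    ring
  have hFF : FF δ false P' = exp (Lb false P' / 2) * (1 / P'.2.1) := by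
    rw [FF, hG, mul_one, FA, htt]
    simp
  rw [hFF]
  constructor
  · rw [x0]
    calc P'.2.1 * exp (-(Lb false P' / 2)) * (exp (Lb false P' / 2) * (1 / P'.2.1))
        = (exp (-(Lb false P' / 2)) * exp (Lb false P' / 2)) * (P'.2.1 * (1 / P'.2.1)) := by ring
      _ = 1 := by rw [he, mul_one_div_cancel hY, mul_one]
  · rw [y0, ww, hy]
    calc 4 * P'.1 / y1 P' * exp (Lb false P' / 2)
        = 4 * P'.1 / y1 P' * exp (Lb false P' / 2) * (P'.2.1 * (1 / P'.2.1)) := by
          rw [mul_one_div_cancel hY, mul_one]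
      _ = _ := by ring

theorem rel_1N {δ : ℝ} (hδ : GoodDelta δ) {P : A4} (hP : P ∈ S4) (h : P ∈ Nn)
    (hU : P ∈ UU δ true) :
    (∀ᶠ P' in 𝓝 P, Lb true P' = Lb false P' ∧ y0 P' = FF δ true P' ∧
      x0 P' * FF δ true P' = ww P') ∨
    (∀ᶠ P' in 𝓝 P, Lb true P' = Lb false P' + 2 * Real.pi * I ∧ x0 P' * FF δ true P' = -1 ∧
      y0 P' = -(ww P' * FF δ true P')) := by
  have hδ0 := hδ.1
  have hN := NN_pos hP
  have hre := (near_pole_facts hP h).2.1
  have hval : δ < |(z1 P).im| := by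
    have := hU.1
    simp only [Valid, if_true] at this
    rcases this with h1 | h1
    · linarith
    · exact h1
  have hcim : ContinuousAt (fun P => (z1 P).im) P :=
    Complex.continuous_im.continuousAt.comp (contDiffAt_z1 hN).continuousAt
  rcases lt_abs.1 hval with h1 | h1
  · left
    filter_upwards [node_GG hδ hP h, node_y2 h, hcim.eventually (lt_mem_nhds h1)]
      with P' hG hy him
    have hL : Lb true P' = Lb false P' := Lb_rel_pos (by linarith)
    have he : exp (-(Lb false P' / 2)) * exp (Lb false P' / 2) = 1 := by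
      rw [← Complex.exp_add]; simp
    have hFF : FF δ true P' = exp (Lb false P' / 2) * (4 * P'.1 / y1 P') := by
      rw [FF, hG, mul_one, FA, hL]
      simp only [if_true]
      rw [ss, psi_eq_one hδ0 him.le]
      push_cast
      ring
    refine ⟨hL, ?_, ?_⟩
    · rw [hFF, y0]; ring
    · rw [hFF, x0, ww, hy]
      calc P'.2.1 * exp (-(Lb false P' / 2)) * (exp (Lb false P' / 2) * (4 * P'.1 / y1 P'))
          = (exp (-(Lb false P' / 2)) * exp (Lb false P' / 2)) *
              (4 * P'.1 * P'.2.1 / y1 P') := by ring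
        _ = _ := by rw [he, one_mul]
  · right
    have h2 : (z1 P).im < -δ := by linarith
    filter_upwards [node_GG hδ hP h, node_y2 h, hcim.eventually (gt_mem_nhds h2),
      (contDiffAt_NN hN).continuousAt.eventually (lt_mem_nhds hN)] with P' hG hy him hN'
    have hL : Lb true P' = Lb false P' + 2 * Real.pi * I := Lb_rel_neg (by linarith)
    have hY : P'.2.1 ≠ 0 := by
      intro h0
      have e1 : (y1 P').im = 2 * DD P' := by
        simp [y1]
      have e2 : (y1 P').im = NN P' * (z1 P').im := by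
        rw [y1_eq hN', Complex.im_ofReal_mul]
      have e3 : 0 ≤ DD P' := by
        rw [DD, h0]; simp
      have e4 : NN P' * (z1 P').im < 0 := mul_neg_of_pos_of_neg hN' (by linarith)
      linarith
    have he : exp (-(Lb false P' / 2)) * exp (Lb false P' / 2) = 1 := by
      rw [← Complex.exp_add]; simp
    have hE : exp (Lb true P' / 2) = -exp (Lb false P' / 2) := by
      rw [hL]
      have : (Lb false P' + 2 * Real.pi * I) / 2 = Lb false P' / 2 + Real.pi * I := by ring
      rw [this, Complex.exp_add, Complex.exp_pi_mul_I]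
      ring
    have hFF : FF δ true P' = -(exp (Lb false P' / 2) * (1 / P'.2.1)) := by
      rw [FF, hG, mul_one, FA, hE]
      simp only [if_true]
      rw [ss, psi_eq_zero hδ0 him.le]
      push_cast
      ring
    refine ⟨hL, ?_, ?_⟩
    · rw [hFF, x0]
      calc P'.2.1 * exp (-(Lb false P' / 2)) * -(exp (Lb false P' / 2) * (1 / P'.2.1))
          = -((exp (-(Lb false P' / 2)) * exp (Lb false P' / 2)) *
              (P'.2.1 * (1 / P'.2.1))) := by ring
        _ = -1 := by rw [he, mul_one_div_cancel hY, mul_one]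
    · rw [hFF, y0, ww, hy]
      calc 4 * P'.1 / y1 P' * exp (Lb false P' / 2)
          = 4 * P'.1 / y1 P' * exp (Lb false P' / 2) * (P'.2.1 * (1 / P'.2.1)) := by
            rw [mul_one_div_cancel hY, mul_one]
        _ = _ := by ring

end Pool.Agent.S4T2
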