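import Pool.Agent.Lib.MP_1d980c_gt.S4.Side
import Pool.Agent.Lib.MP_1d980c_gt.S4.Basic

/-! Task K: composing a side with the isometry `iota`. -/

set_option autoImplicit false
open Complex ComplexConjugate Topology
open scoped ContDiff

namespace Pool.Agent.S4T2

/-- `iota` as a continuous linear map. -/
theorem exists_iotaL : ∃ T : A4 →L[ℝ] A4, ∀ P, T P = iota P := by
  have hadd : ∀ P Q : A4, iota (P + Q) = iota P + iota Q := by
    intro P Q
    refine Prod.ext ?_ (Prod.ext ?_ ?_)
    · simp only [iota, Prod.fst_add, Prod.snd_add, map_add]; ring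
    · simp only [iota, Prod.fst_add, Prod.snd_add, map_add]; ring
    · simp only [iota, Prod.snd_add]; ring
  have hsmul : ∀ (c : ℝ) (P : A4), iota (c • P) = c • iota P := by
    intro c P
    refine Prod.ext ?_ (Prod.ext ?_ ?_)
    · simp only [iota, Prod.smul_fst, Prod.smul_snd, real_smul, map_mul, conj_ofReal]; ring
    · simp only [iota, Prod.smul_fst, Prod.smul_snd, real_smul, map_mul, conj_ofReal]; ring
    · simp only [iota, Prod.smul_snd, smul_eq_mul]; ring
  let T0 : A4 →ₗ[ℝ] A4 := { toFun := iota, map_add' := hadd, map_smul' := hsmul }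
  exact ⟨⟨T0, contDiff_iota.continuous⟩, fun P => rfl⟩

theorem tan4_iota {P v : A4} (hv : Tan4 P v) : Tan4 (iota P) (iota v) := by
  have hs : ((Real.sqrt 2 : ℝ) : ℂ) * (Real.sqrt 2 : ℝ) = 2 := by
    rw [← ofReal_mul, Real.mul_self_sqrt (by norm_num)]; norm_num
  have hs0 : ((Real.sqrt 2 : ℝ) : ℂ) ≠ 0 := by
    intro h; rw [h] at hs; norm_num at hs
  unfold Tan4 at hv ⊢
  have e1 : conj (iota P).1 * (iota v).1 =
      (conj P.2.1 - I * P.1) * (v.2.1 + I * conj v.1) / 2 := by
    simp only [iota, map_div₀, map_add, map_mul, conj_I, conj_conj, conj_ofReal]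
    rw [div_mul_div_comm, hs]
    ring
  have e2 : conj (iota P).2.1 * (iota v).2.1 =
      (conj P.1 + I * P.2.1) * (v.1 - I * conj v.2.1) / 2 := by
    simp only [iota, map_div₀, map_sub, map_mul, conj_I, conj_conj, conj_ofReal]
    rw [div_mul_div_comm, hs]
    ring
  have e3 : (iota P).2.2 * (iota v).2.2 = P.2.2 * v.2.2 := by
    simp only [iota]; ring
  rw [e1, e2, e3]
  have h2 : ∀ z : ℂ, (z / 2).re = z.re / 2 := fun z => by
    rw [show (2 : ℂ) = ((2 : ℝ) : ℂ) by norm_num, div_ofReal_re]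
  rw [h2, h2]
  simp only [mul_re, mul_im, add_re, add_im, sub_re, sub_im, conj_re, conj_im, I_re, I_im] at hv ⊢
  linarith

/-- the side composed with `iota`. -/
noncomputable def Side.comp (s : Side) : Side where
  U := fun α => iota ⁻¹' s.U α
  N := iota ⁻¹' s.N
  w := fun P => s.w (iota P)
  L := fun α P => s.L α (iota P)
  F := fun α P => s.F α (iota P)
  x := fun P => s.x (iota P)
  y := fun P => s.y (iota P)

private lemma fderiv_comp_iota {f : A4 → ℂ} {P : A4} (hf : ContDiffAt ℝ ∞ f (iota P)) (v : A4) :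
    fderiv ℝ (fun Q => f (iota Q)) P v = fderiv ℝ f (iota P) (iota v) := by
  obtain ⟨T, hT⟩ := exists_iotaL
  have h1 : HasFDerivAt iota T P := by
    have : (iota : A4 → A4) = T := by funext Q; exact (hT Q).symm
    rw [this]
    exact T.hasFDerivAt
  have h2 : HasFDerivAt f (fderiv ℝ f (iota P)) (iota P) :=
    (hf.differentiableAt (by simp)).hasFDerivAt
  have h3 := (h2.comp P h1).fderiv
  have h4 : fderiv ℝ (fun Q => f (iota Q)) P = (fderiv ℝ f (iota P)).comp T := h3
  rw [h4, ContinuousLinearMap.comp_apply, hT]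

private lemma iota_eq_zero {v : A4} (h : iota v = 0) : v = 0 := by
  obtain ⟨T, hT⟩ := exists_iotaL
  have h2 : iota (iota v) = v := iota_iota v
  rw [h, ← hT, map_zero] at h2
  exact h2.symm

theorem Side.Good.comp {s : Side} {C : ℝ} (hs : s.Good C) : s.comp.Good C := by
  have hev : ∀ (P : A4) (p : A4 → Prop), (∀ᶠ Q in 𝓝 (iota P), p Q) → ∀ᶠ Q in 𝓝 P, p (iota Q) :=
    fun P p h => contDiff_iota.continuous.continuousAt.eventually h
  have hsm : ∀ (P : A4) (f : A4 → ℂ), ContDiffAt ℝ ∞ f (iota P) →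
      ContDiffAt ℝ ∞ (fun Q => f (iota Q)) P :=
    fun P f h => h.comp P contDiff_iota.contDiffAt
  constructor
  · intro α P hP h
    exact hev P _ (hs.openU α _ (iota_mem hP) h)
  · intro P hP h
    exact hev P _ (hs.openN _ (iota_mem hP) h)
  · intro α P hP h
    exact hsm P _ (hs.smooth_w α _ (iota_mem hP) h)
  · intro α P hP h
    exact hsm P _ (hs.smooth_L α _ (iota_mem hP) h)
  · intro α P hP h
    exact hsm P _ (hs.smooth_F α _ (iota_mem hP) h)
  · intro α P hP h
    exact hs.F_ne α _ (iota_mem hP) h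
  · intro P hP h
    exact hsm P _ (hs.node_x _ (iota_mem hP) h)
  · intro P hP h
    exact hsm P _ (hs.node_y _ (iota_mem hP) h)
  · intro P hP h
    exact hsm P _ (hs.node_L _ (iota_mem hP) h)
  · intro P hP h
    exact hev P _ (hs.node_w _ (iota_mem hP) h)
  · intro P hP h
    exact hs.node_lt _ (iota_mem hP) h
  · intro α P hP h v hv hw
    have hP' := iota_mem hP
    change (fderiv ℝ (fun Q => s.L α (iota Q)) P v).re = 0
    rw [fderiv_comp_iota (hs.smooth_L α _ hP' h)]
    refine hs.reg_re α _ hP' h _ (tan4_iota hv) ?_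
    rw [← fderiv_comp_iota (hs.smooth_w α _ hP' h)]
    exact hw
  · intro α P hP h v hv hw
    have hP' := iota_mem hP
    change |(fderiv ℝ (fun Q => s.F α (iota Q)) P v / s.F α (iota P)).re| ≤
      C * ‖fderiv ℝ (fun Q => s.L α (iota Q)) P v‖
    rw [fderiv_comp_iota (hs.smooth_L α _ hP' h), fderiv_comp_iota (hs.smooth_F α _ hP' h)]
    refine hs.reg_est α _ hP' h _ (tan4_iota hv) ?_
    rw [← fderiv_comp_iota (hs.smooth_w α _ hP' h)]
    exact hw
  · intro α P hP h v hv h1 h2 h3
    have hP' := iota_mem hP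
    apply iota_eq_zero
    refine hs.reg_inj α _ hP' h _ (tan4_iota hv) ?_ ?_ ?_
    · rw [← fderiv_comp_iota (hs.smooth_w α _ hP' h)]; exact h1
    · rw [← fderiv_comp_iota (hs.smooth_L α _ hP' h)]; exact h2
    · rw [← fderiv_comp_iota (hs.smooth_F α _ hP' h)]; exact h3
  · intro P hP h v hv l hx hy
    have hP' := iota_mem hP
    change (fderiv ℝ (fun Q => s.L false (iota Q)) P v).re = 0 ∧
      (fderiv ℝ (fun Q => s.L false (iota Q)) P v).im * l.re ≤ 0
    rw [fderiv_comp_iota (hs.node_L _ hP' h)]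
    refine hs.node_re _ hP' h _ (tan4_iota hv) l ?_ ?_
    · rw [← fderiv_comp_iota (hs.node_x _ hP' h)]; exact hx
    · rw [← fderiv_comp_iota (hs.node_y _ hP' h)]; exact hy
  · intro P hP h v hv hx hy
    have hP' := iota_mem hP
    apply iota_eq_zero
    refine hs.node_inj _ hP' h _ (tan4_iota hv) ?_ ?_
    · rw [← fderiv_comp_iota (hs.node_x _ hP' h)]; exact hx
    · rw [← fderiv_comp_iota (hs.node_y _ hP' h)]; exact hy
  · intro P hP h0 h1
    obtain ⟨g1, g2⟩ := hs.rel_01 _ (iota_mem hP) h0 h1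
    refine ⟨g1, ?_⟩
    rcases g2 with g2 | g2
    · exact Or.inl (hev P _ g2)
    · exact Or.inr (hev P _ g2)
  · intro P hP h0 h1
    exact hev P _ (hs.rel_0N _ (iota_mem hP) h0 h1)
  · intro P hP h0 h1
    rcases hs.rel_1N _ (iota_mem hP) h0 h1 with g2 | g2
    · exact Or.inl (hev P _ g2)
    · exact Or.inr (hev P _ g2)

end Pool.Agent.S4T2
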