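import Pool.Agent.Lib.MP_1d980c_gt.S4.Side

/-! Task M1: transitions between charts of one side: change of the odd data. -/

set_option autoImplicit false
open Complex ComplexConjugate Topology
open scoped ContDiff

namespace Pool.Agent.S4T2

theorem HolRel.refl {X F : Type} [TopologicalSpace X] [NormedAddCommGroup F] [NormedSpace ℂ F]
    (x : X) (f : X → F) : HolRel x f f := ⟨id, contDiffAt_id, Filter.Eventually.of_forall fun _ => rfl⟩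

theorem HolRel.trans {X F : Type} [TopologicalSpace X] [NormedAddCommGroup F] [NormedSpace ℂ F]
    {x : X} {f g h : X → F} (h1 : HolRel x f g) (h2 : HolRel x g h) : HolRel x f h := by
  obtain ⟨H1, c1, e1⟩ := h1
  obtain ⟨H2, c2, e2⟩ := h2
  refine ⟨H2 ∘ H1, ?_, ?_⟩
  · rw [e1.self_of_nhds] at c2
    exact c2.comp (f x) c1
  · filter_upwards [e1, e2] with y h1 h2
    rw [h2, h1]; rfl

variable {V1 V2 R1 R2 : Type} [NormedAddCommGroup V1] [NormedSpace ℝ V1] [NormedAddCommGroup V2]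
  [NormedSpace ℝ V2] [NormedAddCommGroup R1] [NormedSpace ℂ R1] [NormedAddCommGroup R2]
  [NormedSpace ℂ R2]

theorem regChart_trans_b (s : Side) (α : Bool) (ε μ : ℝ)
    {d1 d1' : (V1 → ℂ) × (V1 → R1)} {d2 d2' : (V2 → ℂ) × (V2 → R2)} {x : A4 × V1 × V2}
    (t1 : ∃ (g : R1 → ℂ) (H : R1 → R1), ContDiffAt ℂ ∞ g (d1.2 x.2.1) ∧
      ContDiffAt ℂ ∞ H (d1.2 x.2.1) ∧
      ∀ᶠ u' in 𝓝 x.2.1, d1'.1 u' = d1.1 u' + g (d1.2 u') ∧ d1'.2 u' = H (d1.2 u'))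
    (t2 : ∃ (g : R2 → ℂ) (H : R2 → R2), ContDiffAt ℂ ∞ g (d2.2 x.2.2) ∧
      ContDiffAt ℂ ∞ H (d2.2 x.2.2) ∧
      ∀ᶠ u' in 𝓝 x.2.2, d2'.1 u' = d2.1 u' + g (d2.2 u') ∧ d2'.2 u' = H (d2.2 u')) :
    HolRel x (regChart s α ε μ d1 d2) (regChart s α ε μ d1' d2') := by
  obtain ⟨g1, H1, cg1, cH1, e1⟩ := t1
  obtain ⟨g2, H2, cg2, cH2, e2⟩ := t2
  refine ⟨fun p => (p.1 * exp (-(2 * Real.pi * I * p.2.2.1 *
      (g1 p.2.2.2.1 - I * ε * g2 p.2.2.2.2))),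
    p.2.1 + g1 p.2.2.2.1 * (1 + p.2.2.1 ^ 2) + I * ε * g2 p.2.2.2.2 * (1 - p.2.2.1 ^ 2),
    p.2.2.1, H1 p.2.2.2.1, H2 p.2.2.2.2), ?_, ?_⟩
  · have G1 : ContDiffAt ℂ ∞ (fun p : ℂ × ℂ × ℂ × R1 × R2 => g1 p.2.2.2.1)
        (regChart s α ε μ d1 d2 x) :=
      ContDiffAt.comp (g := g1) (regChart s α ε μ d1 d2 x) cg1
        (by fun_prop : ContDiff ℂ ∞ (fun p : ℂ × ℂ × ℂ × R1 × R2 => p.2.2.2.1)).contDiffAt
    have G2 : ContDiffAt ℂ ∞ (fun p : ℂ × ℂ × ℂ × R1 × R2 => g2 p.2.2.2.2)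
        (regChart s α ε μ d1 d2 x) :=
      ContDiffAt.comp (g := g2) (regChart s α ε μ d1 d2 x) cg2
        (by fun_prop : ContDiff ℂ ∞ (fun p : ℂ × ℂ × ℂ × R1 × R2 => p.2.2.2.2)).contDiffAt
    have K1 : ContDiffAt ℂ ∞ (fun p : ℂ × ℂ × ℂ × R1 × R2 => H1 p.2.2.2.1)
        (regChart s α ε μ d1 d2 x) :=
      ContDiffAt.comp (g := H1) (regChart s α ε μ d1 d2 x) cH1
        (by fun_prop : ContDiff ℂ ∞ (fun p : ℂ × ℂ × ℂ × R1 × R2 => p.2.2.2.1)).contDiffAt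
    have K2 : ContDiffAt ℂ ∞ (fun p : ℂ × ℂ × ℂ × R1 × R2 => H2 p.2.2.2.2)
        (regChart s α ε μ d1 d2 x) :=
      ContDiffAt.comp (g := H2) (regChart s α ε μ d1 d2 x) cH2
        (by fun_prop : ContDiff ℂ ∞ (fun p : ℂ × ℂ × ℂ × R1 × R2 => p.2.2.2.2)).contDiffAt
    fun_prop
  · have c1 : Filter.Tendsto (fun y : A4 × V1 × V2 => y.2.1) (𝓝 x) (𝓝 x.2.1) :=
      (continuous_fst.comp continuous_snd).continuousAt
    have c2 : Filter.Tendsto (fun y : A4 × V1 × V2 => y.2.2) (𝓝 x) (𝓝 x.2.2) :=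
      (continuous_snd.comp continuous_snd).continuousAt
    filter_upwards [c1.eventually e1, c2.eventually e2] with y h1 h2
    simp only [regChart, lam, zet, h1.1, h1.2, h2.1, h2.2, Prod.mk.injEq, and_true, true_and]
    refine ⟨?_, ?_⟩
    · rw [mul_assoc (s.F α y.1), ← Complex.exp_add]
      congr 2
      ring
    · ring

theorem nodeChart_trans_b (s : Side) (ε μ : ℝ)
    {d1 d1' : (V1 → ℂ) × (V1 → R1)} {d2 d2' : (V2 → ℂ) × (V2 → R2)} {x : A4 × V1 × V2}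
    (t1 : ∃ (g : R1 → ℂ) (H : R1 → R1), ContDiffAt ℂ ∞ g (d1.2 x.2.1) ∧
      ContDiffAt ℂ ∞ H (d1.2 x.2.1) ∧
      ∀ᶠ u' in 𝓝 x.2.1, d1'.1 u' = d1.1 u' + g (d1.2 u') ∧ d1'.2 u' = H (d1.2 u'))
    (t2 : ∃ (g : R2 → ℂ) (H : R2 → R2), ContDiffAt ℂ ∞ g (d2.2 x.2.2) ∧
      ContDiffAt ℂ ∞ H (d2.2 x.2.2) ∧
      ∀ᶠ u' in 𝓝 x.2.2, d2'.1 u' = d2.1 u' + g (d2.2 u') ∧ d2'.2 u' = H (d2.2 u')) :
    HolRel x (nodeChart s ε μ d1 d2) (nodeChart s ε μ d1' d2') := by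
  obtain ⟨g1, H1, cg1, cH1, e1⟩ := t1
  obtain ⟨g2, H2, cg2, cH2, e2⟩ := t2
  refine ⟨fun p => (p.1 * exp (2 * Real.pi * I * (p.1 * p.2.1) *
      (g1 p.2.2.2.1 - I * ε * g2 p.2.2.2.2)),
    p.2.1 * exp (-(2 * Real.pi * I * (p.1 * p.2.1) *
      (g1 p.2.2.2.1 - I * ε * g2 p.2.2.2.2))),
    p.2.2.1 + g1 p.2.2.2.1 * (1 + (p.1 * p.2.1) ^ 2) +
      I * ε * g2 p.2.2.2.2 * (1 - (p.1 * p.2.1) ^ 2),
    H1 p.2.2.2.1, H2 p.2.2.2.2), ?_, ?_⟩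
  · have G1 : ContDiffAt ℂ ∞ (fun p : ℂ × ℂ × ℂ × R1 × R2 => g1 p.2.2.2.1)
        (nodeChart s ε μ d1 d2 x) :=
      ContDiffAt.comp (g := g1) (nodeChart s ε μ d1 d2 x) cg1
        (by fun_prop : ContDiff ℂ ∞ (fun p : ℂ × ℂ × ℂ × R1 × R2 => p.2.2.2.1)).contDiffAt
    have G2 : ContDiffAt ℂ ∞ (fun p : ℂ × ℂ × ℂ × R1 × R2 => g2 p.2.2.2.2)
        (nodeChart s ε μ d1 d2 x) :=
      ContDiffAt.comp (g := g2) (nodeChart s ε μ d1 d2 x) cg2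
        (by fun_prop : ContDiff ℂ ∞ (fun p : ℂ × ℂ × ℂ × R1 × R2 => p.2.2.2.2)).contDiffAt
    have K1 : ContDiffAt ℂ ∞ (fun p : ℂ × ℂ × ℂ × R1 × R2 => H1 p.2.2.2.1)
        (nodeChart s ε μ d1 d2 x) :=
      ContDiffAt.comp (g := H1) (nodeChart s ε μ d1 d2 x) cH1
        (by fun_prop : ContDiff ℂ ∞ (fun p : ℂ × ℂ × ℂ × R1 × R2 => p.2.2.2.1)).contDiffAt
    have K2 : ContDiffAt ℂ ∞ (fun p : ℂ × ℂ × ℂ × R1 × R2 => H2 p.2.2.2.2)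
        (nodeChart s ε μ d1 d2 x) :=
      ContDiffAt.comp (g := H2) (nodeChart s ε μ d1 d2 x) cH2
        (by fun_prop : ContDiff ℂ ∞ (fun p : ℂ × ℂ × ℂ × R1 × R2 => p.2.2.2.2)).contDiffAt
    fun_prop
  · have c1 : Filter.Tendsto (fun y : A4 × V1 × V2 => y.2.1) (𝓝 x) (𝓝 x.2.1) :=
      (continuous_fst.comp continuous_snd).continuousAt
    have c2 : Filter.Tendsto (fun y : A4 × V1 × V2 => y.2.2) (𝓝 x) (𝓝 x.2.2) :=
      (continuous_snd.comp continuous_snd).continuousAt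
    filter_upwards [c1.eventually e1, c2.eventually e2] with y h1 h2
    set W := s.x y.1 * s.y y.1 with hW
    set A := lam ε μ W (s.L false y.1) (d1.1 y.2.1) (d2.1 y.2.2) with hA
    have hxy : s.x y.1 * exp (-A) * (s.y y.1 * exp A) = W := by
      rw [hW, mul_mul_mul_comm, ← Complex.exp_add]
      simp
    have hA' : lam ε μ W (s.L false y.1) (d1'.1 y.2.1) (d2'.1 y.2.2) =
        A - 2 * Real.pi * I * W * (g1 (d1.2 y.2.1) - I * ε * g2 (d2.2 y.2.2)) := by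
      rw [hA, h1.1, h2.1]; simp only [lam]; ring
    simp only [nodeChart, ← hW, ← hA, hxy, hA', h1.2, h2.2, Prod.mk.injEq, and_true]
    refine ⟨?_, ?_, ?_⟩
    · rw [mul_assoc (s.x y.1) (exp (-A)), ← Complex.exp_add]
      congr 2
      ring
    · rw [mul_assoc (s.y y.1) (exp A), ← Complex.exp_add]
      congr 2
    · rw [h1.1, h2.1]; simp only [zet]; ring

end Pool.Agent.S4T2
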