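import Pool.Agent.Lib.MP_1d980c_gt.S4.Side

/-! Task M3: transitions between the two sides, same odd data. -/

set_option autoImplicit false
open Complex ComplexConjugate Topology
open scoped ContDiff

namespace Pool.Agent.S4T2

variable {V1 V2 R1 R2 : Type} [NormedAddCommGroup V1] [NormedSpace ℝ V1] [NormedAddCommGroup V2]
  [NormedSpace ℝ V2] [NormedAddCommGroup R1] [NormedSpace ℂ R1] [NormedAddCommGroup R2]
  [NormedSpace ℂ R2]

private theorem transC_RR_neg (l : ℂ) : RR (-l) = RR l := by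
  simp only [RR, neg_sq]

theorem Cross.symm {s t : Side} (h : Cross s t) : Cross t s := by
  refine ⟨?_, fun β P hP hN => h.disj2 β P hP hN, fun α P hP hN => h.disj1 α P hP hN,
    fun P hP h1 h2 => h.disj3 P hP h2 h1, fun P hP => ?_⟩
  · intro α β P hP hα hβ
    filter_upwards [h.glue β α P hP hβ hα] with P' hP'
    obtain ⟨h1, h2, h3⟩ := hP'
    have hsw : s.w P' ≠ 0 := left_ne_zero_of_mul (by rw [h1]; exact one_ne_zero)
    have htw : t.w P' ≠ 0 := right_ne_zero_of_mul (by rw [h1]; exact one_ne_zero)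
    have e1 : t.L α P' - s.L β P' = -(s.L β P' - t.L α P') := by ring
    refine ⟨by rw [mul_comm]; exact h1, ?_, ?_⟩
    · rw [e1, Complex.exp_neg, h2]
      exact (eq_inv_of_mul_eq_one_left h1).symm
    · rw [e1, transC_RR_neg]
      set R := RR (s.L β P' - t.L α P') with hR
      cases α <;> cases β
      · simp only [Bool.false_eq_true, if_false] at h3 ⊢
        linear_combination h3
      · simp only [Bool.false_eq_true, if_false, if_true] at h3 ⊢
        linear_combination t.w P' * h3 + R * h1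
      · simp only [Bool.false_eq_true, if_false, if_true] at h3 ⊢
        linear_combination t.w P' * h3 - t.F true P' * s.F false P' * h1
      · simp only [if_true] at h3 ⊢
        have h4 : s.w P' * (s.F true P' * t.F true P' - R) = 0 := by linear_combination h3
        have h5 := (mul_eq_zero.1 h4).resolve_left hsw
        linear_combination t.w P' * h5
  · rcases h.cover P hP with h1 | h1 | h1 | h1
    · exact Or.inr (Or.inr (Or.inl h1))
    · exact Or.inr (Or.inr (Or.inr h1))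
    · exact Or.inl h1
    · exact Or.inr (Or.inl h1)

theorem trans_cross {s t : Side} {C : ℝ} (hs : s.Good C) (ht : t.Good C) (hst : Cross s t)
    {ε μ : ℝ} (hε : ε = 1 ∨ ε = -1) (α β : Bool)
    (d1 : (V1 → ℂ) × (V1 → R1)) (d2 : (V2 → ℂ) × (V2 → R2)) {x : A4 × V1 × V2} (hx : x.1 ∈ S4)
    (hα : x.1 ∈ s.U α) (hβ : x.1 ∈ t.U β) :
    HolRel x (regChart s α ε μ d1 d2) (regChart t β (-ε) μ d1 d2) := by
  have hg := hst.glue α β x.1 hx hα hβ
  obtain ⟨g1, g2, g3⟩ := hg.self_of_nhds
  have hw0 : s.w x.1 ≠ 0 := left_ne_zero_of_mul (by rw [g1]; exact one_ne_zero)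
  have hF0 := hs.F_ne α x.1 hx hα
  set w0 := s.w x.1 with hw0'
  set l0 := s.L α x.1 - t.L β x.1 with hl0
  have hT0 : (regChart s α ε μ d1 d2 x).1 ≠ 0 := by
    simp only [regChart]
    exact mul_ne_zero hF0 (Complex.exp_ne_zero _)
  have hw0'' : (regChart s α ε μ d1 d2 x).2.2.1 = w0 := rfl
  refine ⟨fun p => (p.1⁻¹ * ((if α then p.2.2.1 else 1) / (if β then p.2.2.1 else 1)) *
      RR (l0 + log (w0 / p.2.2.1)) *
      exp (-(2 * Real.pi * I * (p.2.2.1)⁻¹ * p.2.1) + I * μ / 2 * (l0 + log (w0 / p.2.2.1))),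
    (p.2.2.1)⁻¹ ^ 2 * p.2.1 - μ / (2 * Real.pi) * (p.2.2.1)⁻¹ * (l0 + log (w0 / p.2.2.1)),
    (p.2.2.1)⁻¹, p.2.2.2.1, p.2.2.2.2), ?_, ?_⟩
  · set q := regChart s α ε μ d1 d2 x with hq
    have cT : ContDiffAt ℂ ∞ (fun p : ℂ × ℂ × ℂ × R1 × R2 => p.1) q := contDiffAt_fst
    have cTi : ContDiffAt ℂ ∞ (fun p : ℂ × ℂ × ℂ × R1 × R2 => p.1⁻¹) q := cT.inv hT0
    have cz : ContDiffAt ℂ ∞ (fun p : ℂ × ℂ × ℂ × R1 × R2 => p.2.1) q := by fun_prop
    have cw : ContDiffAt ℂ ∞ (fun p : ℂ × ℂ × ℂ × R1 × R2 => p.2.2.1) q := by fun_prop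
    have hqw : q.2.2.1 ≠ 0 := hw0
    have cwi : ContDiffAt ℂ ∞ (fun p : ℂ × ℂ × ℂ × R1 × R2 => (p.2.2.1)⁻¹) q := cw.inv hqw
    have cr1 : ContDiffAt ℂ ∞ (fun p : ℂ × ℂ × ℂ × R1 × R2 => p.2.2.2.1) q := by fun_prop
    have cr2 : ContDiffAt ℂ ∞ (fun p : ℂ × ℂ × ℂ × R1 × R2 => p.2.2.2.2) q := by fun_prop
    have clog : ContDiffAt ℂ ∞ (fun p : ℂ × ℂ × ℂ × R1 × R2 => log (w0 / p.2.2.1)) q := by
      have c1 : ContDiffAt ℂ ∞ (fun p : ℂ × ℂ × ℂ × R1 × R2 => w0 / p.2.2.1) q := by
        simp only [div_eq_mul_inv]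
        exact contDiffAt_const.mul cwi
      have h1 : w0 / q.2.2.1 ∈ Complex.slitPlane := by
        have : w0 / q.2.2.1 = 1 := div_self hw0
        rw [this]
        exact Complex.one_mem_slitPlane
      exact (Complex.contDiffAt_log h1).comp q c1
    have cl : ContDiffAt ℂ ∞ (fun p : ℂ × ℂ × ℂ × R1 × R2 => l0 + log (w0 / p.2.2.1)) q :=
      contDiffAt_const.add clog
    have cq : ContDiffAt ℂ ∞ (fun p : ℂ × ℂ × ℂ × R1 × R2 =>
        ((if α then p.2.2.1 else 1) / (if β then p.2.2.1 else 1) : ℂ)) q := by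
      cases α <;> cases β <;> simp only [Bool.false_eq_true, if_false, if_true, div_one]
      · exact contDiffAt_const
      · simp only [one_div]; exact cwi
      · exact cw
      · simp only [div_eq_mul_inv]; exact cw.mul cwi
    have cR : ContDiffAt ℂ ∞ (fun p : ℂ × ℂ × ℂ × R1 × R2 =>
        RR (l0 + log (w0 / p.2.2.1))) q := by
      simp only [RR, div_eq_mul_inv (_ ^ 2)]
      exact ((cl.pow 2).mul contDiffAt_const).cexp
    have cE : ContDiffAt ℂ ∞ (fun p : ℂ × ℂ × ℂ × R1 × R2 =>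
        exp (-(2 * Real.pi * I * (p.2.2.1)⁻¹ * p.2.1) +
          I * μ / 2 * (l0 + log (w0 / p.2.2.1)))) q :=
      (((contDiffAt_const.mul cwi).mul cz).neg.add (contDiffAt_const.mul cl)).cexp
    have c1 := ((cTi.mul cq).mul cR).mul cE
    have c2 : ContDiffAt ℂ ∞ (fun p : ℂ × ℂ × ℂ × R1 × R2 =>
        (p.2.2.1)⁻¹ ^ 2 * p.2.1 - μ / (2 * Real.pi) * (p.2.2.1)⁻¹ *
          (l0 + log (w0 / p.2.2.1))) q :=
      ((cwi.pow 2).mul cz).sub ((contDiffAt_const.mul cwi).mul cl)
    exact c1.prodMk (c2.prodMk (cwi.prodMk (cr1.prodMk cr2)))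
  · have c1 : Filter.Tendsto (fun y : A4 × V1 × V2 => y.1) (𝓝 x) (𝓝 x.1) :=
      continuous_fst.continuousAt
    have cL : ContinuousAt (fun P => s.L α P - t.L β P - l0) x.1 :=
      (((hs.smooth_L α x.1 hx hα).continuousAt).sub
        ((ht.smooth_L β x.1 hx hβ).continuousAt)).sub continuousAt_const
    have hz : s.L α x.1 - t.L β x.1 - l0 = 0 := by rw [hl0]; ring
    have cim : ContinuousAt (fun P => (s.L α P - t.L β P - l0).im) x.1 :=
      Complex.continuous_im.continuousAt.comp cL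
    have eim1 : ∀ᶠ P in 𝓝 x.1, (s.L α P - t.L β P - l0).im < Real.pi := by
      refine cim.eventually (gt_mem_nhds ?_)
      simp only []
      rw [hz]; simpa using Real.pi_pos
    have eim2 : ∀ᶠ P in 𝓝 x.1, -Real.pi < (s.L α P - t.L β P - l0).im := by
      refine cim.eventually (lt_mem_nhds ?_)
      simp only []
      rw [hz]; simpa using Real.pi_pos
    filter_upwards [c1.eventually hg, c1.eventually eim1, c1.eventually eim2] with y hy hy1 hy2
    obtain ⟨k1, k2, k3⟩ := hy
    have hw : s.w y.1 ≠ 0 := left_ne_zero_of_mul (by rw [k1]; exact one_ne_zero)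
    have htw : t.w y.1 = (s.w y.1)⁻¹ := eq_inv_of_mul_eq_one_right k1
    have hl : l0 + log (w0 / s.w y.1) = s.L α y.1 - t.L β y.1 := by
      have e1 : exp (s.L α y.1 - t.L β y.1 - l0) = w0 / s.w y.1 := by
        rw [Complex.exp_sub, k2, g2, htw]
        have e2 : t.w x.1 = w0⁻¹ := eq_inv_of_mul_eq_one_right g1
        rw [e2]
        field_simp
      rw [← e1, Complex.log_exp hy2 hy1.le]
      ring
    simp only [regChart, hl, htw, Prod.mk.injEq, and_true]
    set w := s.w y.1 with hw'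
    set Ls := s.L α y.1 with hLs
    set Lt := t.L β y.1 with hLt
    set b1 := d1.1 y.2.1 with hb1
    set b2 := d2.1 y.2.2 with hb2
    refine ⟨?_, ?_⟩
    · have hF : s.F α y.1 ≠ 0 := by
        intro h0
        rw [h0] at k3
        have h4 : (if α = true then w else 1) * RR (Ls - Lt) = 0 := by
          rw [← k3]; ring
        rcases mul_eq_zero.1 h4 with h5 | h5
        · cases α
          · simp at h5
          · exact hw (by simpa using h5)
        · exact absurd h5 (Complex.exp_ne_zero _)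
      have hE : exp (lam (-ε) μ w⁻¹ Lt b1 b2) = (exp (lam ε μ w Ls b1 b2))⁻¹ *
          exp (-(2 * Real.pi * I * w⁻¹ * zet ε μ w Ls b1 b2) + I * μ / 2 * (Ls - Lt)) := by
        rw [← Complex.exp_neg, ← Complex.exp_add]
        congr 1
        simp only [lam, zet]
        push_cast
        field_simp
        ring
      have hβ0 : (if β = true then w else 1) ≠ 0 := by
        cases β <;> simp [hw]
      have hFt : t.F β y.1 = (s.F α y.1)⁻¹ * ((if α = true then w else 1) /
          (if β = true then w else 1)) * RR (Ls - Lt) := by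
        field_simp
        linear_combination k3
      rw [hE, hFt, mul_inv]
      ring
    · simp only [zet]
      push_cast
      field_simp
      ring

end Pool.Agent.S4T2
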