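import Pool.Agent.Lib.MP_1d980c_gt.S4.Side

/-! Task M2: transitions between charts of different kinds of one side, same odd data. -/

set_option autoImplicit false
open Complex ComplexConjugate Topology
open scoped ContDiff

namespace Pool.Agent.S4T2

variable {V1 V2 R1 R2 : Type} [NormedAddCommGroup V1] [NormedSpace ℝ V1] [NormedAddCommGroup V2]
  [NormedSpace ℝ V2] [NormedAddCommGroup R1] [NormedSpace ℂ R1] [NormedAddCommGroup R2]
  [NormedSpace ℂ R2]

private lemma lam_add (ε μ : ℝ) (w L b1 b2 : ℂ) :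
    lam ε μ w (L + 2 * Real.pi * I) b1 b2 = lam ε μ w L b1 b2 + Real.pi * μ := by
  simp only [lam]
  linear_combination (-(μ : ℂ) * Real.pi) * Complex.I_sq

private lemma zet_add (ε μ : ℝ) (w L b1 b2 : ℂ) :
    zet ε μ w (L + 2 * Real.pi * I) b1 b2 = zet ε μ w L b1 b2 + I * μ * w := by
  have h : (Real.pi : ℂ) ≠ 0 := by exact_mod_cast Real.pi_ne_zero
  simp only [zet]
  field_simp
  ring

private lemma ev_fst {p : A4 → Prop} {x : A4 × V1 × V2} (h : ∀ᶠ P in 𝓝 x.1, p P) :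
    ∀ᶠ y in 𝓝 x, p y.1 := by
  have c1 : Filter.Tendsto (fun y : A4 × V1 × V2 => y.1) (𝓝 x) (𝓝 x.1) :=
    continuous_fst.continuousAt
  exact c1.eventually h

theorem trans_01 {s : Side} {C : ℝ} (hs : s.Good C) {ε μ : ℝ} (hε : ε = 1 ∨ ε = -1)
    (d1 : (V1 → ℂ) × (V1 → R1)) (d2 : (V2 → ℂ) × (V2 → R2)) {x : A4 × V1 × V2} (hx : x.1 ∈ S4)
    (h0 : x.1 ∈ s.U false) (h1 : x.1 ∈ s.U true) :
    HolRel x (regChart s false ε μ d1 d2) (regChart s true ε μ d1 d2) ∧
    HolRel x (regChart s true ε μ d1 d2) (regChart s false ε μ d1 d2) := by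
  obtain ⟨hw, h | h⟩ := hs.rel_01 x.1 hx h0 h1
  · have hwc : ContinuousAt s.w x.1 := (hs.smooth_w false x.1 hx h0).continuousAt
    have hwe : ∀ᶠ P in 𝓝 x.1, s.w P ≠ 0 := hwc.eventually_ne hw
    refine ⟨⟨fun p => (p.2.2.1 * p.1, p.2.1, p.2.2.1, p.2.2.2.1, p.2.2.2.2), by fun_prop, ?_⟩,
      ⟨fun p => (p.1 / p.2.2.1, p.2.1, p.2.2.1, p.2.2.2.1, p.2.2.2.2), ?_, ?_⟩⟩
    · filter_upwards [ev_fst h] with y hy
      simp only [regChart, hy.1, hy.2, Prod.mk.injEq, and_true]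
      ring
    · have : (regChart s true ε μ d1 d2 x).2.2.1 ≠ 0 := hw
      fun_prop (disch := assumption)
    · filter_upwards [ev_fst h, ev_fst hwe] with y hy hwy
      simp only [regChart, hy.1, hy.2, Prod.mk.injEq, and_true]
      field_simp
  · refine ⟨⟨fun p => (-(exp (Real.pi * μ) * p.1), p.2.1 + I * μ * p.2.2.1, p.2.2.1,
        p.2.2.2.1, p.2.2.2.2), by fun_prop, ?_⟩,
      ⟨fun p => (-(exp (-(Real.pi * μ)) * p.1), p.2.1 - I * μ * p.2.2.1, p.2.2.1,
        p.2.2.2.1, p.2.2.2.2), by fun_prop, ?_⟩⟩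
    · filter_upwards [ev_fst h] with y hy
      simp only [regChart, hy.1, hy.2, lam_add, zet_add, Prod.mk.injEq, and_true]
      rw [Complex.exp_add]
      ring
    · filter_upwards [ev_fst h] with y hy
      simp only [regChart, hy.1, hy.2, lam_add, zet_add, Prod.mk.injEq, and_true]
      refine ⟨?_, by ring⟩
      have : exp (-(Real.pi * μ : ℂ)) * exp (Real.pi * μ) = 1 := by
        rw [← Complex.exp_add]; simp
      rw [Complex.exp_add]
      linear_combination (-s.F false y.1 * exp (lam ε μ (s.w y.1) (s.L false y.1) (d1.1 y.2.1)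
        (d2.1 y.2.2))) * this

theorem trans_0N {s : Side} {C : ℝ} (hs : s.Good C) {ε μ : ℝ} (hε : ε = 1 ∨ ε = -1)
    (d1 : (V1 → ℂ) × (V1 → R1)) (d2 : (V2 → ℂ) × (V2 → R2)) {x : A4 × V1 × V2} (hx : x.1 ∈ S4)
    (h0 : x.1 ∈ s.U false) (hN : x.1 ∈ s.N) :
    HolRel x (regChart s false ε μ d1 d2) (nodeChart s ε μ d1 d2) ∧
    HolRel x (nodeChart s ε μ d1 d2) (regChart s false ε μ d1 d2) := by
  have hr := hs.rel_0N x.1 hx h0 hN
  have hw := hs.node_w x.1 hx hN
  have hr0 := hr.self_of_nhds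
  have hx0 : s.x x.1 ≠ 0 := left_ne_zero_of_mul_eq_one hr0.1
  have hF0 : s.F false x.1 ≠ 0 := right_ne_zero_of_mul_eq_one hr0.1
  refine ⟨⟨fun p => (1 / p.1, p.2.2.1 * p.1, p.2.1, p.2.2.2.1, p.2.2.2.2), ?_, ?_⟩,
      ⟨fun p => (1 / p.1, p.2.2.1, p.1 * p.2.1, p.2.2.2.1, p.2.2.2.2), ?_, ?_⟩⟩
  · have : (regChart s false ε μ d1 d2 x).1 ≠ 0 := mul_ne_zero hF0 (Complex.exp_ne_zero _)
    fun_prop (disch := assumption)
  · filter_upwards [ev_fst hr, ev_fst hw] with y hy hwy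
    have hFy : s.F false y.1 ≠ 0 := right_ne_zero_of_mul_eq_one hy.1
    have hxy : s.x y.1 = 1 / s.F false y.1 := by field_simp; exact hy.1
    simp only [regChart, nodeChart, ← hwy, Prod.mk.injEq, and_true, true_and]
    refine ⟨?_, ?_⟩
    · rw [hxy, Complex.exp_neg]; field_simp
    · rw [hy.2]; ring
  · have : (nodeChart s ε μ d1 d2 x).1 ≠ 0 := mul_ne_zero hx0 (Complex.exp_ne_zero _)
    fun_prop (disch := assumption)
  · filter_upwards [ev_fst hr, ev_fst hw] with y hy hwy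
    have hFy : s.F false y.1 ≠ 0 := right_ne_zero_of_mul_eq_one hy.1
    have hxy : s.x y.1 = 1 / s.F false y.1 := by field_simp; exact hy.1
    simp only [regChart, nodeChart, ← hwy, Prod.mk.injEq, and_true, true_and]
    refine ⟨?_, ?_⟩
    · rw [hxy, Complex.exp_neg]; field_simp
    · rw [mul_mul_mul_comm, ← hwy, ← Complex.exp_add]; simp

theorem trans_1N {s : Side} {C : ℝ} (hs : s.Good C) {ε μ : ℝ} (hε : ε = 1 ∨ ε = -1)
    (d1 : (V1 → ℂ) × (V1 → R1)) (d2 : (V2 → ℂ) × (V2 → R2)) {x : A4 × V1 × V2} (hx : x.1 ∈ S4)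
    (h1 : x.1 ∈ s.U true) (hN : x.1 ∈ s.N) :
    HolRel x (regChart s true ε μ d1 d2) (nodeChart s ε μ d1 d2) ∧
    HolRel x (nodeChart s ε μ d1 d2) (regChart s true ε μ d1 d2) := by
  have hw := hs.node_w x.1 hx hN
  have hF0 : s.F true x.1 ≠ 0 := hs.F_ne true x.1 hx h1
  have hFc : ContinuousAt (s.F true) x.1 := (hs.smooth_F true x.1 hx h1).continuousAt
  have hFe : ∀ᶠ P in 𝓝 x.1, s.F true P ≠ 0 := hFc.eventually_ne hF0
  rcases hs.rel_1N x.1 hx h1 hN with h | h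
  · refine ⟨⟨fun p => (p.2.2.1 / p.1, p.1, p.2.1, p.2.2.2.1, p.2.2.2.2), ?_, ?_⟩,
      ⟨fun p => (p.2.1, p.2.2.1, p.1 * p.2.1, p.2.2.2.1, p.2.2.2.2), by fun_prop, ?_⟩⟩
    · have : (regChart s true ε μ d1 d2 x).1 ≠ 0 := mul_ne_zero hF0 (Complex.exp_ne_zero _)
      fun_prop (disch := assumption)
    · filter_upwards [ev_fst h, ev_fst hw, ev_fst hFe] with y hy hwy hFy
      have hxy : s.x y.1 = s.w y.1 / s.F true y.1 := by
        rw [← hy.2.2]; field_simp
      simp only [regChart, nodeChart, hy.1, hy.2.1, hy.2.2, Prod.mk.injEq, and_true]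
      rw [hxy, Complex.exp_neg]; field_simp
    · filter_upwards [ev_fst h, ev_fst hw, ev_fst hFe] with y hy hwy hFy
      simp only [regChart, nodeChart, hy.1, hy.2.1, hy.2.2, Prod.mk.injEq, and_true, true_and]
      rw [mul_mul_mul_comm, hy.2.2, ← Complex.exp_add]; simp
  · refine ⟨⟨fun p => (-(exp (Real.pi * μ) / p.1), -(p.2.2.1 * p.1 * exp (-(Real.pi * μ))),
        p.2.1 - I * μ * p.2.2.1, p.2.2.2.1, p.2.2.2.2), ?_, ?_⟩,
      ⟨fun p => (-(exp (Real.pi * μ) / p.1), p.2.2.1 + I * μ * (p.1 * p.2.1), p.1 * p.2.1,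
        p.2.2.2.1, p.2.2.2.2), ?_, ?_⟩⟩
    · have : (regChart s true ε μ d1 d2 x).1 ≠ 0 := mul_ne_zero hF0 (Complex.exp_ne_zero _)
      fun_prop (disch := assumption)
    · filter_upwards [ev_fst h, ev_fst hw, ev_fst hFe] with y hy hwy hFy
      have hxy : s.x y.1 = -(1 / s.F true y.1) := by
        field_simp; exact hy.2.1
      simp only [regChart, nodeChart, ← hwy, Prod.mk.injEq, and_true, hy.1, lam_add, zet_add]
      refine ⟨?_, ?_, by ring⟩
      · rw [hxy, Complex.exp_neg, Complex.exp_add]; field_simp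
      · rw [hy.2.2, Complex.exp_add, Complex.exp_neg]; field_simp
    · have hx0 : s.x x.1 ≠ 0 := by
        intro h0
        have := h.self_of_nhds.2.1
        rw [h0] at this; simp at this
      have : (nodeChart s ε μ d1 d2 x).1 ≠ 0 := mul_ne_zero hx0 (Complex.exp_ne_zero _)
      fun_prop (disch := assumption)
    · filter_upwards [ev_fst h, ev_fst hw, ev_fst hFe] with y hy hwy hFy
      have hxy : s.x y.1 = -(1 / s.F true y.1) := by
        field_simp; exact hy.2.1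
      set A := lam ε μ (s.w y.1) (s.L false y.1) (d1.1 y.2.1) (d2.1 y.2.2) with hA
      have hp : s.x y.1 * exp (-A) * (s.y y.1 * exp A) = s.w y.1 := by
        rw [mul_mul_mul_comm, ← hwy, ← Complex.exp_add]; simp
      simp only [regChart, nodeChart, ← hwy, Prod.mk.injEq, and_true, hy.1, lam_add, zet_add,
        ← hA, hp]
      rw [hxy, Complex.exp_neg, Complex.exp_add]; field_simp

end Pool.Agent.S4T2
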