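import Pool.Agent.Lib.MP_1d980c_gt.S4.Est
import Pool.Agent.Lib.MP_1d980c_gt.S4.Node
import Pool.Agent.Lib.MP_1d980c_gt.S4.SideIota
import Pool.Agent.Lib.MP_1d980c_gt.S4.ChartKer
import Pool.Agent.Lib.MP_1d980c_gt.S4.TransB
import Pool.Agent.Lib.MP_1d980c_gt.S4.TransK
import Pool.Agent.Lib.MP_1d980c_gt.S4.TransC
import Pool.Agent.Lib.MP_1d980c_gt.S4.Bridge

/-! Final assembly. -/

set_option autoImplicit false
open Complex ComplexConjugate Topology
open scoped ContDiff Manifold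

namespace Pool.Agent.S4T2

open Metric (sphere)

/-- the first side. -/
noncomputable def s4Side (δ : ℝ) : Side where
  U := UU δ
  N := Nn
  w := ww
  L := Lb
  F := FF δ
  x := x0
  y := y0

theorem s4Side_good {δ : ℝ} (hδ : GoodDelta δ) : ∃ C : ℝ, 0 ≤ C ∧ (s4Side δ).Good C := by
  obtain ⟨C, hC, hest⟩ := exists_C hδ
  have hδ0 : 0 < δ := hδ.1
  have hδ1 : δ ≤ 1 / 20 := hδ.2.1
  have hy1 : ∀ P ∈ S4, z1 P ≠ 0 → y1 P ≠ 0 := by
    intro P hP hz h
    apply hz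
    rw [z1, h, zero_div]
  have hrho : ∀ α, ∀ P ∈ S4, P ∈ UU δ α → rho2 P ≠ 0 := by
    intro α P hP hU h0
    have h1 := rho2_S4 hP
    have h2 : -(24 / 25 : ℝ) < P.2.2 := hU.2.2.2
    have h3 : P.2.2 ^ 2 = 1 := by linarith
    have h4 : P.2.2 = 1 := by nlinarith
    have hX : P.1 = 0 := by
      have : ‖P.1‖ ^ 2 ≤ 0 := by
        have : rho2 P = ‖P.1‖ ^ 2 + ‖P.2.1‖ ^ 2 := rfl
        nlinarith [sq_nonneg ‖P.2.1‖]
      have h5 : ‖P.1‖ = 0 := by nlinarith [norm_nonneg P.1]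
      exact norm_eq_zero.1 h5
    have hY : P.2.1 = 0 := by
      have : ‖P.2.1‖ ^ 2 ≤ 0 := by
        have : rho2 P = ‖P.1‖ ^ 2 + ‖P.2.1‖ ^ 2 := rfl
        nlinarith [sq_nonneg ‖P.1‖]
      have h5 : ‖P.2.1‖ = 0 := by nlinarith [norm_nonneg P.2.1]
      exact norm_eq_zero.1 h5
    have hz := z1_ne_of_UU hδ0 α hU
    apply hz
    have : y1 P = 0 := by
      rw [y1, MM, DD, hX, hY, h4, bet_of_le (by norm_num)]
      simp
    rw [z1, this, zero_div]
  refine ⟨C, hC, ?_⟩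
  constructor
  · intro α P hP h
    exact openU hP α h
  · intro P _ h
    exact openN h
  · intro α P hP h
    exact contDiffAt_ww (hy1 P hP (z1_ne_of_UU hδ0 α h))
  · intro α P hP h
    exact contDiffAt_Lb hδ0 (NN_pos hP) α h.1
  · intro α P hP h
    exact contDiffAt_FF hδ hP α h.1 h.2.1 (by linarith [h.2.2.1])
  · intro α P hP h
    exact FF_ne hδ hP α h.1 h.2.1 (by linarith [h.2.2.1])
  · intro P hP h
    exact contDiffAt_x0 hP h
  · intro P hP h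
    exact contDiffAt_y0 hP h
  · intro P hP h
    have h2 := (near_pole_facts hP h).2.1
    exact contDiffAt_Lb (δ := δ) hδ0 (NN_pos hP) false (by simpa [Valid] using h2)
  · intro P hP h
    exact ww_node hP h
  · intro P hP h
    have h2 := (near_pole_facts hP h).2.2.1
    show ‖ww P‖ < 1
    linarith
  · intro α P hP h v hv hw
    refine fderiv_L_re (NN_pos hP) (z1_ne_of_UU hδ0 α h)
      ((contDiffAt_Lb hδ0 (NN_pos hP) α h.1).differentiableAt (by simp)) ?_ hw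
    filter_upwards [openU hP α h] with P' hP'
    exact exp_Lb (z1_ne_of_UU hδ0 α hP') α
  · intro α P hP h v hv hw
    exact hest α P hP h v hv hw
  · intro α P hP h v hv h1 h2 h3
    have hexp : ∀ᶠ P' in 𝓝 P, exp (Lb α P') = z1 P' := by
      filter_upwards [openU hP α h] with P' hP'
      exact exp_Lb (z1_ne_of_UU hδ0 α hP') α
    obtain ⟨c, hc⟩ := kernel_L hP (hrho α P hP h) (z1_ne_of_UU hδ0 α h)
      ((contDiffAt_Lb hδ0 (NN_pos hP) α h.1).differentiableAt (by simp)) hexp hv h1 h2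
    have hd : DifferentiableAt ℝ (FF δ α) P :=
      (contDiffAt_FF hδ hP α h.1 h.2.1 (by linarith [h.2.2.1])).differentiableAt (by simp)
    have h4 := fderiv_FF_dphi δ α hd
    have h5 : fderiv ℝ (FF δ α) P v = 0 := h3
    rw [hc, map_smul, h4] at h5
    have h6 : FF δ α P ≠ 0 := FF_ne hδ hP α h.1 h.2.1 (by linarith [h.2.2.1])
    rcases smul_eq_zero.1 h5 with h7 | h7
    · rw [hc, h7, zero_smul]
    · exact absurd h7 (mul_ne_zero I_ne_zero h6)
  · intro P hP h v hv l hx hy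
    exact node_deriv hP h hv l hx hy
  · intro P hP h v hv hx hy
    exact node_inj hP h hv hx hy
  · intro P hP h0 h1
    have hz2 : z2 P ≠ 0 := h0.2.1 rfl
    have hN := NN_pos hP
    refine ⟨?_, ?_⟩
    · show ww P ≠ 0
      rw [ww_eq hN]
      exact div_ne_zero hz2 (z1_ne_of_UU hδ0 false h0)
    · have hre : 0 < (z1 P).re := by simpa [Valid] using h0.1
      have hv1 : (z1 P).re < 0 ∨ δ < |(z1 P).im| := by simpa [Valid] using h1.1
      have him : δ < |(z1 P).im| := by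
        rcases hv1 with h | h
        · linarith
        · exact h
      have hc1 : ContinuousAt z1 P := (contDiffAt_z1 hN).continuousAt
      have hc2 : ContinuousAt z2 P := (contDiffAt_z2 hN).continuousAt
      have hev2 : ∀ᶠ P' in 𝓝 P, z2 P' ≠ 0 := hc2.eventually_ne hz2
      rcases lt_abs.1 him with h | h
      · left
        have hev : ∀ᶠ P' in 𝓝 P, δ < (z1 P').im :=
          (continuous_im.continuousAt.comp hc1).eventually (lt_mem_nhds h)
        filter_upwards [hev, hev2] with P' h1 h2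
        exact ⟨Lb_rel_pos (by linarith), FF_rel_pos hδ0 h1 h2⟩
      · right
        have h' : (z1 P).im < -δ := by linarith
        have hev : ∀ᶠ P' in 𝓝 P, (z1 P').im < -δ :=
          (continuous_im.continuousAt.comp hc1).eventually (gt_mem_nhds h')
        filter_upwards [hev] with P' h1
        exact ⟨Lb_rel_neg (by linarith), FF_rel_neg hδ0 h1⟩
  · intro P hP h0 hN
    exact rel_0N hδ hP hN h0
  · intro P hP h1 hN
    exact rel_1N hδ hP hN h1

theorem s4Side_cross {δ : ℝ} (hδ : GoodDelta δ) : Cross (s4Side δ) (s4Side δ).comp := by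
  constructor
  · intro α β P hP hα hβ
    exact FF_cross hδ hP α β hα hβ
  · intro β P hP h
    exact disj_NU hδ.1 hδ.2.1 hP h β
  · intro α P hP h hU
    have h2 := disj_NU hδ.1 hδ.2.1 (iota_mem hP) h α
    rw [iota_iota] at h2
    exact h2 hU
  · intro P hP h
    exact disj_NN h
  · intro P hP
    exact cover hδ.1 hδ.2.1 hP

section final

variable {p q : ℕ}

/-- all germs. -/
def allGerms (s t : Side) (μ : ℝ) (x : Amb p q) : Set (Amb p q → Tgt p q) :=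
  sideGerms s 1 μ (GO p) (GO q) x ∪ sideGerms t (-1) μ (GO p) (GO q) x

theorem sideGerms_hol {s : Side} {C : ℝ} (hs : s.Good C) {ε μ : ℝ} (hε : ε = 1 ∨ ε = -1)
    {x : Amb p q} (hx : x ∈ SP p q) {f g : Amb p q → Tgt p q}
    (hf : f ∈ sideGerms s ε μ (GO p) (GO q) x) (hg : g ∈ sideGerms s ε μ (GO p) (GO q) x) :
    HolRel x f g := by
  obtain ⟨d1, hd1, d2, hd2, hf⟩ := hf
  obtain ⟨d1', hd1', d2', hd2', hg⟩ := hg
  obtain ⟨hx1, hx2, hx3⟩ := hx
  have t1 := (oddGerms p).trans _ hx2 d1 hd1 d1' hd1'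
  have t2 := (oddGerms q).trans _ hx3 d2 hd2 d2' hd2'
  have t1' := (oddGerms p).trans _ hx2 d1' hd1' d1 hd1
  have t2' := (oddGerms q).trans _ hx3 d2' hd2' d2 hd2
  rcases hf with ⟨α, hα, rfl⟩ | ⟨hN, rfl⟩ <;> rcases hg with ⟨β, hβ, rfl⟩ | ⟨hN', rfl⟩
  · have key : HolRel x (regChart s α ε μ d1 d2) (regChart s β ε μ d1 d2) := by
      cases α <;> cases β
      · exact HolRel.refl _ _
      · exact (trans_01 hs hε d1 d2 hx1 hα hβ).1
      · exact (trans_01 hs hε d1 d2 hx1 hβ hα).2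
      · exact HolRel.refl _ _
    exact key.trans (regChart_trans_b s β ε μ t1 t2)
  · have key : HolRel x (regChart s α ε μ d1 d2) (nodeChart s ε μ d1 d2) := by
      cases α
      · exact (trans_0N hs hε d1 d2 hx1 hα hN').1
      · exact (trans_1N hs hε d1 d2 hx1 hα hN').1
    exact key.trans (nodeChart_trans_b s ε μ t1 t2)
  · have key : HolRel x (nodeChart s ε μ d1 d2) (regChart s β ε μ d1 d2) := by
      cases β
      · exact (trans_0N hs hε d1 d2 hx1 hβ hN).2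
      · exact (trans_1N hs hε d1 d2 hx1 hβ hN).2
    exact key.trans (regChart_trans_b s β ε μ t1 t2)
  · exact nodeChart_trans_b s ε μ t1 t2

theorem cross_hol {s t : Side} {C : ℝ} (hs : s.Good C) (ht : t.Good C) (hst : Cross s t)
    {ε μ : ℝ} (hε : ε = 1 ∨ ε = -1)
    {x : Amb p q} (hx : x ∈ SP p q) {f g : Amb p q → Tgt p q}
    (hf : f ∈ sideGerms s ε μ (GO p) (GO q) x) (hg : g ∈ sideGerms t (-ε) μ (GO p) (GO q) x) :
    HolRel x f g := by
  obtain ⟨d1, hd1, d2, hd2, hf⟩ := hf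
  obtain ⟨d1', hd1', d2', hd2', hg⟩ := hg
  obtain ⟨hx1, hx2, hx3⟩ := hx
  have t1 := (oddGerms p).trans _ hx2 d1 hd1 d1' hd1'
  have t2 := (oddGerms q).trans _ hx3 d2 hd2 d2' hd2'
  rcases hf with ⟨α, hα, rfl⟩ | ⟨hN, rfl⟩ <;> rcases hg with ⟨β, hβ, rfl⟩ | ⟨hN', rfl⟩
  · exact (trans_cross hs ht hst hε α β d1 d2 hx1 hα hβ).trans
      (regChart_trans_b t β (-ε) μ t1 t2)
  · exact absurd hα (hst.disj2 α _ hx1 hN')
  · exact absurd hβ (hst.disj1 β _ hx1 hN)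
  · exact absurd hN' (hst.disj3 _ hx1 hN)

theorem sideGerms_smooth {s : Side} {C : ℝ} (hC : 0 ≤ C) (hs : s.Good C) {ε μ : ℝ}
    (hε : ε = 1 ∨ ε = -1) (hμ : 2 * C < μ)
    {x : Amb p q} (hx : x ∈ SP p q) {f : Amb p q → Tgt p q}
    (hf : f ∈ sideGerms s ε μ (GO p) (GO q) x) :
    ContDiffAt ℝ ∞ f x ∧ ∀ v : Amb p q, Tan4 x.1 v.1 →
      TanO p x.2.1 v.2.1 → TanO q x.2.2 v.2.2 → fderiv ℝ f x v = 0 → v = 0 := by
  obtain ⟨d1, hd1, d2, hd2, hf⟩ := hf
  obtain ⟨hx1, hx2, hx3⟩ := hx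
  have o1 := oddGerms p
  have o2 := oddGerms q
  have a1 := o1.smooth_b _ hx2 d1 hd1
  have a2 := o1.smooth_r _ hx2 d1 hd1
  have b1 := o2.smooth_b _ hx3 d2 hd2
  have b2 := o2.smooth_r _ hx3 d2 hd2
  rcases hf with ⟨α, hα, rfl⟩ | ⟨hN, rfl⟩
  · refine ⟨regChart_smooth hs α ε μ d1 d2 hx1 hα a1 a2 b1 b2, ?_⟩
    intro v hv4 hv1 hv2 h
    exact regChart_inj hC hs α hε hμ d1 d2 hx1 hα a1 a2 b1 b2 v hv4
      (o1.real _ hx2 d1 hd1 _ hv1) (o1.inj _ hx2 d1 hd1 _ hv1)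
      (o2.real _ hx3 d2 hd2 _ hv2) (o2.inj _ hx3 d2 hd2 _ hv2) h
  · refine ⟨nodeChart_smooth hs ε μ d1 d2 hx1 hN a1 a2 b1 b2, ?_⟩
    intro v hv4 hv1 hv2 h
    exact nodeChart_inj hs hε (by linarith) d1 d2 hx1 hN a1 a2 b1 b2 v hv4
      (o1.real _ hx2 d1 hd1 _ hv1) (o1.inj _ hx2 d1 hd1 _ hv1)
      (o2.real _ hx3 d2 hd2 _ hv2) (o2.inj _ hx3 d2 hd2 _ hv2) h

theorem sideGerms_ex {s : Side} {C : ℝ} (hs : s.Good C) (ε μ : ℝ) {x : Amb p q}
    (hx : x ∈ SP p q) (h : (∃ α, x.1 ∈ s.U α) ∨ x.1 ∈ s.N) :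
    ∃ f ∈ sideGerms s ε μ (GO p) (GO q) x, ∀ᶠ y in 𝓝 x, y ∈ SP p q →
      f ∈ sideGerms s ε μ (GO p) (GO q) y := by
  obtain ⟨hx1, hx2, hx3⟩ := hx
  obtain ⟨d1, hd1, e1⟩ := (oddGerms p).ex _ hx2
  obtain ⟨d2, hd2, e2⟩ := (oddGerms q).ex _ hx3
  have e1' : ∀ᶠ y in 𝓝 x, d1 ∈ GO p y.2.1 :=
    (continuous_fst.comp continuous_snd).continuousAt.eventually e1
  have e2' : ∀ᶠ y in 𝓝 x, d2 ∈ GO q y.2.2 :=
    (continuous_snd.comp continuous_snd).continuousAt.eventually e2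
  rcases h with ⟨α, hα⟩ | hN
  · refine ⟨regChart s α ε μ d1 d2, ⟨d1, hd1, d2, hd2, Or.inl ⟨α, hα, rfl⟩⟩, ?_⟩
    have e3 : ∀ᶠ y in 𝓝 x, y.1 ∈ s.U α :=
      continuous_fst.continuousAt.eventually (hs.openU α _ hx1 hα)
    filter_upwards [e1', e2', e3] with y h1 h2 h3 _
    exact ⟨d1, h1, d2, h2, Or.inl ⟨α, h3, rfl⟩⟩
  · refine ⟨nodeChart s ε μ d1 d2, ⟨d1, hd1, d2, hd2, Or.inr ⟨hN, rfl⟩⟩, ?_⟩
    have e3 : ∀ᶠ y in 𝓝 x, y.1 ∈ s.N :=
      continuous_fst.continuousAt.eventually (hs.openN _ hx1 hN)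
    filter_upwards [e1', e2', e3] with y h1 h2 h3 _
    exact ⟨d1, h1, d2, h2, Or.inr ⟨h3, rfl⟩⟩

end final

theorem main (p q : ℕ) :
    ∃ (N : Type) (_ : TopologicalSpace N)
      (_ : ChartedSpace (EuclideanSpace ℂ (Fin (p + q + 3))) N),
      IsManifold 𝓘(ℂ, EuclideanSpace ℂ (Fin (p + q + 3))) ∞ N ∧
      Nonempty (Diffeomorph ((𝓡 4).prod ((𝓡 (2 * p + 1)).prod (𝓡 (2 * q + 1))))
        𝓘(ℝ, EuclideanSpace ℂ (Fin (p + q + 3)))
        (sphere (0 : EuclideanSpace ℝ (Fin 5)) 1 ×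
          sphere (0 : EuclideanSpace ℝ (Fin (2 * p + 2))) 1 ×
          sphere (0 : EuclideanSpace ℝ (Fin (2 * q + 2))) 1) N ∞) := by
  obtain ⟨δ, hδ⟩ := exists_goodDelta
  obtain ⟨C, hC, hs⟩ := s4Side_good hδ
  have ht := hs.comp
  have hst := s4Side_cross hδ
  set s := s4Side δ
  set t := s.comp
  set μ : ℝ := 2 * C + 1 with hμ
  have hμ' : 2 * C < μ := by rw [hμ]; linarith
  refine bridge p q (allGerms s t μ) ?_ ?_ ?_
  · intro x hx
    have hcov := hst.cover x.1 hx.1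
    rcases hcov with h | h | h | h
    · obtain ⟨f, hf, e⟩ := sideGerms_ex hs 1 μ hx (Or.inl h)
      exact ⟨f, Or.inl hf, e.mono fun y hy hy' => Or.inl (hy hy')⟩
    · obtain ⟨f, hf, e⟩ := sideGerms_ex hs 1 μ hx (Or.inr h)
      exact ⟨f, Or.inl hf, e.mono fun y hy hy' => Or.inl (hy hy')⟩
    · obtain ⟨f, hf, e⟩ := sideGerms_ex ht (-1) μ hx (Or.inl h)
      exact ⟨f, Or.inr hf, e.mono fun y hy hy' => Or.inr (hy hy')⟩
    · obtain ⟨f, hf, e⟩ := sideGerms_ex ht (-1) μ hx (Or.inr h)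
      exact ⟨f, Or.inr hf, e.mono fun y hy hy' => Or.inr (hy hy')⟩
  · intro x hx f hf
    rcases hf with hf | hf
    · exact sideGerms_smooth hC hs (Or.inl rfl) hμ' hx hf
    · exact sideGerms_smooth hC ht (Or.inr rfl) hμ' hx hf
  · intro x hx f hf g hg
    rcases hf with hf | hf <;> rcases hg with hg | hg
    · exact sideGerms_hol hs (Or.inl rfl) hx hf hg
    · exact cross_hol hs ht hst (Or.inl rfl) hx hf hg
    · have hg' : g ∈ sideGerms s (-(-1)) μ (GO p) (GO q) x := by rwa [neg_neg]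
      exact cross_hol ht hs hst.symm (Or.inr rfl) hx hf hg'
    · exact sideGerms_hol ht (Or.inr rfl) hx hf hg

end Pool.Agent.S4T2
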