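import Pool.Agent.Lib.MP_1d980c_gt.S4.Cover
import Pool.Agent.Lib.MP_1d980c_gt.S4.Kernel

/-! Task I1: the node chart, derivative computation. -/

set_option autoImplicit false
open Complex ComplexConjugate Topology
open scoped ContDiff

namespace Pool.Agent.S4T2

theorem nodeA_L {P : A4} (hP : P ∈ S4) (h : P ∈ Nn) : ContDiffAt ℝ ∞ (Lb false) P := by
  have hf := near_pole_facts hP h
  refine contDiffAt_Lb (δ := 1) one_pos (NN_pos hP) false ?_
  simp only [Valid]
  exact hf.2.1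

theorem nodeA_y1_ne {P : A4} (hP : P ∈ S4) (h : P ∈ Nn) : y1 P ≠ 0 := by
  have hf := near_pole_facts hP h
  intro h0
  rw [h0] at hf
  have := hf.1
  norm_num at this

theorem nodeA_z1_ne {P : A4} (hP : P ∈ S4) (h : P ∈ Nn) : z1 P ≠ 0 := by
  have hf := near_pole_facts hP h
  intro h0
  rw [h0] at hf
  have := hf.2.1
  norm_num at this

theorem nodeA_Y (P : A4) : ContDiffAt ℝ ∞ (fun P : A4 => P.2.1) P :=
  (contDiff_fst.comp contDiff_snd).contDiffAt

theorem nodeA_X (P : A4) : ContDiffAt ℝ ∞ (fun P : A4 => P.1) P :=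
  contDiff_fst.contDiffAt

theorem contDiffAt_x0 {P : A4} (hP : P ∈ S4) (h : P ∈ Nn) : ContDiffAt ℝ ∞ x0 P := by
  have hL := nodeA_L hP h
  have : ContDiffAt ℝ ∞ (fun P => -(Lb false P / 2)) P := (hL.div_const 2).neg
  exact (nodeA_Y P).mul this.cexp

theorem contDiffAt_y0 {P : A4} (hP : P ∈ S4) (h : P ∈ Nn) : ContDiffAt ℝ ∞ y0 P := by
  have hL := nodeA_L hP h
  have h1 : ContDiffAt ℝ ∞ (fun P => Lb false P / 2) P := hL.div_const 2
  have h2 : ContDiffAt ℝ ∞ (fun P : A4 => 4 * P.1 / y1 P) P := by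
    simp only [div_eq_mul_inv]
    exact (contDiffAt_const.mul (nodeA_X P)).mul
      (contDiff_y1.contDiffAt.inv (nodeA_y1_ne hP h))
  exact h2.mul h1.cexp

theorem nodeA_ev {P : A4} (h : P ∈ Nn) : ∀ᶠ P' : A4 in 𝓝 P, P'.2.2 ≤ -(1 / 2) := by
  have hc : ContinuousAt (fun P : A4 => P.2.2) P := by fun_prop
  have h1 : P.2.2 < -(1 / 2) := by
    have : P.2.2 < -(19 / 20) := h
    linarith
  filter_upwards [hc.eventually (gt_mem_nhds h1)] with P' hP' using hP'.le

theorem ww_node {P : A4} (hP : P ∈ S4) (h : P ∈ Nn) : ∀ᶠ P' in 𝓝 P, ww P' = x0 P' * y0 P' := by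
  filter_upwards [nodeA_ev h] with P' hP'
  have hb : bet P'.2.2 = 0 := bet_of_le hP'
  have he : exp (-(Lb false P' / 2)) * exp (Lb false P' / 2) = 1 := by
    rw [← Complex.exp_add]; simp
  simp only [ww, x0, y0, y2, MM, hb]
  calc ((0 : ℝ) + 2 * (2 * P'.1 * P'.2.1) : ℂ) / y1 P' =
      P'.2.1 * (4 * P'.1 / y1 P') * 1 := by push_cast; ring
    _ = _ := by rw [← he]; ring

/-- derivative of `y = N z`. -/
theorem nodeA_scale {y z : A4 → ℂ} {P v : A4} (hN : 0 < NN P)
    (hz : DifferentiableAt ℝ z P) (hzy : ∀ P', 0 < NN P' → y P' = (NN P' : ℂ) * z P') :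
    fderiv ℝ y P v = (fderiv ℝ NN P v : ℂ) * z P + (NN P : ℂ) * fderiv ℝ z P v := by
  have hNd : DifferentiableAt ℝ NN P := (contDiffAt_NN hN).differentiableAt (by simp)
  have h1 := (kernel_line (v := v) hNd).ofReal_comp.mul (kernel_line (v := v) hz)
  have hcont : ContinuousAt (fun t : ℝ => NN (P + t • v)) 0 :=
    (kernel_line (v := v) hNd).continuousAt
  have hev : ∀ᶠ t in 𝓝 (0 : ℝ), y (P + t • v) = (NN (P + t • v) : ℂ) * z (P + t • v) := by
    have : ∀ᶠ t in 𝓝 (0 : ℝ), 0 < NN (P + t • v) :=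
      hcont.eventually (lt_mem_nhds (by simpa using hN))
    filter_upwards [this] with t ht using hzy _ ht
  have h2 := h1.congr_of_eventuallyEq hev
  have hyd : DifferentiableAt ℝ y P := by
    have h3 : DifferentiableAt ℝ (fun P' => (NN P' : ℂ) * z P') P :=
      (Complex.ofRealCLM.differentiableAt.comp P hNd).mul hz
    refine h3.congr_of_eventuallyEq ?_
    have : ∀ᶠ P' in 𝓝 P, 0 < NN P' := hNd.continuousAt.eventually (lt_mem_nhds hN)
    filter_upwards [this] with P' hP' using hzy _ hP'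
  have h4 := (kernel_line (v := v) hyd).unique h2
  rw [h4]
  simp only [zero_smul, add_zero]

/-- the derivative of a product vanishes. -/
theorem nodeA_mul {f g : A4 → ℂ} {P v : A4} (hf : DifferentiableAt ℝ f P)
    (hg : DifferentiableAt ℝ g P) :
    fderiv ℝ (fun P => f P * g P) P v = fderiv ℝ f P v * g P + f P * fderiv ℝ g P v := by
  rw [fderiv_fun_mul hf hg]
  simp only [add_apply, smul_apply, smul_eq_mul]
  ring

theorem nodeA_exp {f : A4 → ℂ} {P v : A4} (hf : DifferentiableAt ℝ f P) :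
    fderiv ℝ (fun P => exp (f P)) P v = exp (f P) * fderiv ℝ f P v := by
  have h := (kernel_line (v := v) hf).cexp
  have h2 := kernel_line (v := v) (f := fun P => exp (f P)) hf.cexp
  have h3 := h2.unique h
  rw [h3]
  simp

theorem nodeA_half {f : A4 → ℂ} {P : A4} (hf : DifferentiableAt ℝ f P) :
    DifferentiableAt ℝ (fun P' => f P' / 2) P := by
  simp only [div_eq_mul_inv]
  exact hf.mul_const _

/-- the facts about derivatives used in both theorems. -/
theorem nodeA_core {P v : A4} (hP : P ∈ S4) (h : P ∈ Nn) (l : ℂ)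
    (hx : fderiv ℝ x0 P v = x0 P * l) (hy : fderiv ℝ y0 P v = -(y0 P * l)) :
    ∃ ν τ : ℝ, fderiv ℝ (Lb false) P v = (τ : ℂ) * I ∧
      fderiv ℝ y1 P v = ((ν : ℂ) + τ * I) * y1 P ∧
      fderiv ℝ y2 P v = ((ν : ℂ) + τ * I) * y2 P ∧
      v.2.1 = P.2.1 * (τ / 2 * I + l) ∧ v.1 = P.1 * (ν + τ / 2 * I - l) := by
  have hN : 0 < NN P := NN_pos hP
  have hy1 := nodeA_y1_ne hP h
  have hz1 := nodeA_z1_ne hP h
  have hLd : DifferentiableAt ℝ (Lb false) P := (nodeA_L hP h).differentiableAt (by simp)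
  have hz1d : DifferentiableAt ℝ z1 P := (contDiffAt_z1 hN).differentiableAt (by simp)
  have hz2d : DifferentiableAt ℝ z2 P := (contDiffAt_z2 hN).differentiableAt (by simp)
  have hx0d : DifferentiableAt ℝ x0 P := (contDiffAt_x0 hP h).differentiableAt (by simp)
  have hy0d : DifferentiableAt ℝ y0 P := (contDiffAt_y0 hP h).differentiableAt (by simp)
  have hy1d : DifferentiableAt ℝ y1 P := contDiff_y1.contDiffAt.differentiableAt (by simp)
  have hwwd : DifferentiableAt ℝ ww P := (contDiffAt_ww hy1).differentiableAt (by simp)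
  have evN : ∀ᶠ P' in 𝓝 P, 0 < NN P' :=
    (contDiffAt_NN hN).continuousAt.eventually (lt_mem_nhds hN)
  have evz : ∀ᶠ P' in 𝓝 P, z1 P' ≠ 0 := hz1d.continuousAt.eventually_ne hz1
  have evy : ∀ᶠ P' in 𝓝 P, y1 P' ≠ 0 := hy1d.continuousAt.eventually_ne hy1
  set L' := fderiv ℝ (Lb false) P v with hL'
  set ν : ℝ := fderiv ℝ NN P v / NN P with hν
  have hNc : (NN P : ℂ) ≠ 0 := by exact_mod_cast hN.ne'
  have hz1' : fderiv ℝ z1 P v = z1 P * L' := by
    have e1 : z1 =ᶠ[𝓝 P] fun P' => exp (Lb false P') := by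
      filter_upwards [evz] with P' hP' using (exp_Lb hP' false).symm
    rw [e1.fderiv_eq, nodeA_exp hLd, exp_Lb hz1]
  have hy1' : fderiv ℝ y1 P v = ((ν : ℂ) + L') * y1 P := by
    rw [nodeA_scale hN hz1d (fun P' hP' => y1_eq hP'), hz1', y1_eq hN, hν]
    push_cast
    field_simp
  have hww' : fderiv ℝ ww P v = 0 := by
    have e1 : ww =ᶠ[𝓝 P] fun P' => x0 P' * y0 P' := ww_node hP h
    rw [e1.fderiv_eq, nodeA_mul hx0d hy0d, hx, hy]
    ring
  have hy2' : fderiv ℝ y2 P v = ((ν : ℂ) + L') * y2 P := by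
    have e1 : y2 =ᶠ[𝓝 P] fun P' => ww P' * y1 P' := by
      filter_upwards [evy] with P' hP'
      rw [ww, div_mul_cancel₀ _ hP']
    rw [e1.fderiv_eq, nodeA_mul hwwd hy1d, hww', hy1', e1.eq_of_nhds]
    ring
  have hz2' : fderiv ℝ z2 P v = z2 P * L' := by
    have e1 : z2 =ᶠ[𝓝 P] fun P' => ww P' * z1 P' := by
      filter_upwards [evy] with P' hP'
      rw [ww, z1, z2]
      field_simp
    rw [e1.fderiv_eq, nodeA_mul hwwd hz1d, hww', hz1', e1.eq_of_nhds]
    ring
  have hre : L'.re = 0 := by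
    have h1 := kernel_line_normSq (a := z1 P) (kernel_line (v := v) hz1d) (by simp)
    have h2 := kernel_line_normSq (a := z2 P) (kernel_line (v := v) hz2d) (by simp)
    have h3 := h1.add h2
    have hcont : ContinuousAt (fun t : ℝ => NN (P + t • v)) 0 :=
      (kernel_line (v := v) ((contDiffAt_NN hN).differentiableAt (by simp))).continuousAt
    have hev : ∀ᶠ t in 𝓝 (0 : ℝ), ‖z1 (P + t • v)‖ ^ 2 + ‖z2 (P + t • v)‖ ^ 2 = 1 := by
      have : ∀ᶠ t in 𝓝 (0 : ℝ), 0 < NN (P + t • v) :=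
        hcont.eventually (lt_mem_nhds (by simpa using hN))
      filter_upwards [this] with t ht using norm_z _ ht
    have h4 : HasDerivAt (fun t : ℝ => ‖z1 (P + t • v)‖ ^ 2 + ‖z2 (P + t • v)‖ ^ 2) 0 0 :=
      (hasDerivAt_const (0 : ℝ) (1 : ℝ)).congr_of_eventuallyEq hev
    have h5 := h3.unique h4
    rw [hz1', hz2', ← mul_assoc, ← mul_assoc, ← Complex.normSq_eq_conj_mul_self,
      ← Complex.normSq_eq_conj_mul_self, Complex.re_ofReal_mul, Complex.re_ofReal_mul,
      Complex.normSq_eq_norm_sq, Complex.normSq_eq_norm_sq] at h5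
    have h6 := norm_z P hN
    have h7 : 2 * (‖z1 P‖ ^ 2 + ‖z2 P‖ ^ 2) * L'.re = 0 := by linarith
    rw [h6] at h7
    linarith
  have hLI : L' = (L'.im : ℂ) * I := by
    apply Complex.ext
    · simp [hre]
    · simp
  refine ⟨ν, L'.im, hLI, ?_, ?_, ?_, ?_⟩
  · rw [← hLI, hy1']
  · rw [← hLI, hy2']
  · -- derivative of x0
    have hE : DifferentiableAt ℝ (fun P' => exp (-(Lb false P' / 2))) P := by
      exact (nodeA_half hLd).fun_neg.cexp
    have hYd : DifferentiableAt ℝ (fun P : A4 => P.2.1) P :=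
      (nodeA_Y P).differentiableAt (by simp)
    have e1 : fderiv ℝ x0 P v = v.2.1 * exp (-(Lb false P / 2)) +
        P.2.1 * (exp (-(Lb false P / 2)) * (-(L' / 2))) := by
      have e2 : x0 = fun P' => P'.2.1 * exp (-(Lb false P' / 2)) := rfl
      rw [e2, nodeA_mul hYd hE, nodeA_exp (nodeA_half hLd).fun_neg]
      congr 1
      · congr 1
        exact (kernel_line (v := v) hYd).unique (kernel_line_Y P v)
      · congr 2
        have h1 := kernel_line (v := v) (nodeA_half hLd).fun_neg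
        exact h1.unique ((kernel_line (v := v) hLd).div_const 2).neg
    rw [hx, x0] at e1
    have hne := Complex.exp_ne_zero (-(Lb false P / 2))
    have e3 : exp (-(Lb false P / 2)) * (v.2.1 - P.2.1 * (L' / 2 + l)) = 0 := by
      linear_combination -e1
    have e4 := (mul_eq_zero.1 e3).resolve_left hne
    have e5 : v.2.1 = P.2.1 * (L' / 2 + l) := sub_eq_zero.1 e4
    rw [e5]
    nth_rewrite 1 [hLI]
    ring
  · have hE : DifferentiableAt ℝ (fun P' => exp (Lb false P' / 2)) P := by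
      exact (nodeA_half hLd).cexp
    have hXd : DifferentiableAt ℝ (fun P : A4 => 4 * P.1) P :=
      ((nodeA_X P).differentiableAt (by simp)).const_mul 4
    have ev : (fun P' => y0 P' * y1 P') =ᶠ[𝓝 P]
        fun P' => (4 * P'.1) * exp (Lb false P' / 2) := by
      filter_upwards [evy] with P' hP'
      rw [y0]
      field_simp
    have e1 : fderiv ℝ (fun P' => y0 P' * y1 P') P v =
        fderiv ℝ (fun P' : A4 => (4 * P'.1) * exp (Lb false P' / 2)) P v := by
      rw [ev.fderiv_eq]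
    rw [nodeA_mul hy0d hy1d, nodeA_mul hXd hE, nodeA_exp (nodeA_half hLd), hy, hy1'] at e1
    have e2 : fderiv ℝ (fun P : A4 => 4 * P.1) P v = 4 * v.1 :=
      (kernel_line (v := v) hXd).unique ((kernel_line_X P v).const_mul 4)
    have e3 : fderiv ℝ (fun P' => Lb false P' / 2) P v = L' / 2 := by
      have h1 := kernel_line (v := v) (nodeA_half hLd)
      exact h1.unique ((kernel_line (v := v) hLd).div_const 2)
    rw [e2, e3] at e1
    have e4 : y0 P * y1 P = 4 * P.1 * exp (Lb false P / 2) := ev.eq_of_nhds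
    have hne := Complex.exp_ne_zero (Lb false P / 2)
    have e5 : (4 * exp (Lb false P / 2)) * (v.1 - P.1 * (ν + L' / 2 - l)) = 0 := by
      linear_combination -e1 + (ν + L' - l) * e4
    have e6 := (mul_eq_zero.1 e5).resolve_left (mul_ne_zero (by norm_num) hne)
    have e7 : v.1 = P.1 * (ν + L' / 2 - l) := sub_eq_zero.1 e6
    rw [e7]
    nth_rewrite 1 [hLI]
    ring

/-- the real consequences. -/
theorem nodeA_real {P v : A4} (hP : P ∈ S4) (h : P ∈ Nn) {l : ℂ} {ν τ : ℝ}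
    (h1 : fderiv ℝ y1 P v = ((ν : ℂ) + τ * I) * y1 P)
    (h2 : fderiv ℝ y2 P v = ((ν : ℂ) + τ * I) * y2 P)
    (h3 : v.2.1 = P.2.1 * (τ / 2 * I + l)) (h4 : v.1 = P.1 * (ν + τ / 2 * I - l)) :
    ∃ B : ℝ, 0 < B ∧ 4 * rho2 P * l.re = -(τ * B) ∧ ∃ K : ℝ, ν = τ * K := by
  have hf := near_pole_facts hP h
  obtain ⟨_, _, _, hy1, hy2, hr, _⟩ := hf
  have hh : P.2.2 < -(19 / 20) := h
  rw [kernel_fderiv_y1, deriv_bet_of_gt (by linarith), hy1] at h1
  rw [kernel_fderiv_y2, deriv_bet_of_lt (by linarith), hy2] at h2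
  have hMD := MM_DD P
  have hrn := rho2_nonneg P
  have hm := abs_le.1 (abs_le_of_sq_le_sq (a := (MM P).re) (b := rho2 P)
    (by nlinarith [sq_nonneg (MM P).im, sq_nonneg (DD P)]) hrn)
  have hn := abs_le.1 (abs_le_of_sq_le_sq (a := (MM P).im) (b := rho2 P)
    (by nlinarith [sq_nonneg (MM P).re, sq_nonneg (DD P)]) hrn)
  have hD := abs_le.1 (abs_le_of_sq_le_sq (a := DD P) (b := rho2 P)
    (by nlinarith [sq_nonneg (MM P).re, sq_nonneg (MM P).im]) hrn)
  set m := (MM P).re with hm'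
  set n := (MM P).im with hn'
  set D := DD P with hD'
  set r := rho2 P with hr'
  have h1r := congrArg Complex.re h1
  have h1i := congrArg Complex.im h1
  have h2r := congrArg Complex.re h2
  obtain ⟨⟨x1, x2⟩, ⟨u1, u2⟩, hh'⟩ := P
  obtain ⟨X', Y', v'⟩ := v
  obtain ⟨l1, l2⟩ := l
  simp only at h3 h4
  simp only [MM, DD, rho2, ← Complex.normSq_eq_norm_sq, Complex.normSq_apply, Complex.mul_re,
    Complex.mul_im, Complex.re_ofNat, Complex.im_ofNat] at hm' hn' hD' hr'
  rw [h3, h4] at h1i h1r h2r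
  simp only [hm', MM, Complex.add_re, Complex.add_im, Complex.sub_re, Complex.sub_im,
    Complex.mul_re, Complex.mul_im, Complex.ofReal_re, Complex.ofReal_im, Complex.I_re,
    Complex.I_im, Complex.conj_re, Complex.conj_im, Complex.re_ofNat, Complex.im_ofNat,
    Complex.one_re, Complex.one_im, Complex.div_ofNat_re, Complex.div_ofNat_im] at h1r h1i h2r
  have k1 : ν = τ * (2 * (D - n)) := by
    rw [hn']; linear_combination h2r - h1r
  have k2 : 4 * r * l1 = -(τ * ((1 + 2 * m) - 4 * r * (D - n))) := by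
    have e1 : 4 * r * l1 = 2 * ν * r - τ * (1 + 2 * m) := by
      rw [hr', hm']
      rw [hD'] at h1i
      linear_combination -h1i
    rw [e1]
    nth_rewrite 1 [k1]
    ring
  exact ⟨(1 + 2 * m) - 4 * r * (D - n), by nlinarith, k2, 2 * (D - n), k1⟩

theorem node_deriv {P v : A4} (hP : P ∈ S4) (h : P ∈ Nn) (hv : Tan4 P v) (l : ℂ)
    (hx : fderiv ℝ x0 P v = x0 P * l) (hy : fderiv ℝ y0 P v = -(y0 P * l)) :
    (fderiv ℝ (Lb false) P v).re = 0 ∧ (fderiv ℝ (Lb false) P v).im * l.re ≤ 0 := by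
  obtain ⟨ν, τ, hL, h1, h2, h3, h4⟩ := nodeA_core hP h l hx hy
  obtain ⟨B, hB, hB', K, hK⟩ := nodeA_real hP h h1 h2 h3 h4
  rw [hL]
  refine ⟨by simp, ?_⟩
  have him : ((τ : ℂ) * I).im = τ := by simp
  rw [him]
  rcases (rho2_nonneg P).eq_or_lt with h0 | h0
  · rw [← h0] at hB'
    have : τ * B = 0 := by linarith
    rcases mul_eq_zero.1 this with h5 | h5
    · rw [h5]; simp
    · exact absurd h5 hB.ne'
  · by_contra hcon
    push Not at hcon
    have h5 : 0 < 4 * rho2 P * (τ * l.re) := by positivity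
    have h6 : 4 * rho2 P * (τ * l.re) = -(τ ^ 2 * B) := by linear_combination τ * hB'
    have h7 : 0 ≤ τ ^ 2 * B := by positivity
    linarith

theorem node_inj {P v : A4} (hP : P ∈ S4) (h : P ∈ Nn) (hv : Tan4 P v)
    (hx : fderiv ℝ x0 P v = 0) (hy : fderiv ℝ y0 P v = 0) : v = 0 := by
  obtain ⟨ν, τ, hL, h1, h2, h3, h4⟩ := nodeA_core hP h 0 (by simpa using hx) (by simpa using hy)
  obtain ⟨B, hB, hB', K, hK⟩ := nodeA_real hP h h1 h2 h3 h4
  have hτ : τ = 0 := by
    have : τ * B = 0 := by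
      simp only [Complex.zero_re, mul_zero] at hB'
      linarith
    rcases mul_eq_zero.1 this with h5 | h5
    · exact h5
    · exact absurd h5 hB.ne'
  subst hτ
  have hν : ν = 0 := by rw [hK]; ring
  subst hν
  have hX : v.1 = 0 := by rw [h4]; simp
  have hY : v.2.1 = 0 := by rw [h3]; simp
  have hh : P.2.2 < -(19 / 20) := h
  have hv' : P.2.2 * v.2.2 = 0 := by
    have := hv
    rw [Tan4, hX, hY] at this
    simpa using this
  have hz : v.2.2 = 0 := by
    rcases mul_eq_zero.1 hv' with h5 | h5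
    · linarith
    · exact h5
  exact Prod.ext hX (Prod.ext hY hz)

end Pool.Agent.S4T2
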