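import Pool.Agent.Lib.MP_1d980c_gt.S4.Side

/-! Task N: the odd dimensional spheres. -/

set_option autoImplicit false
open Complex ComplexConjugate Topology
open scoped ContDiff

namespace Pool.Agent.S4T2

/-- the unit sphere of `ℂ^{p+1}` (Euclidean norm). -/
def SO (p : ℕ) : Set (Fin (p + 1) → ℂ) := {u | ∑ i, ‖u i‖ ^ 2 = 1}

/-- tangent vectors. -/
def TanO (p : ℕ) (u v : Fin (p + 1) → ℂ) : Prop := ∑ i, (conj (u i) * v i).re = 0

/-- the germs. -/
def GO (p : ℕ) (u : Fin (p + 1) → ℂ) :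
    Set (((Fin (p + 1) → ℂ) → ℂ) × ((Fin (p + 1) → ℂ) → (Fin p → ℂ))) :=
  {d | ∃ (j : Fin (p + 1)) (c : ℂ), c ≠ 0 ∧ c * u j ∈ slitPlane ∧
    d = (fun u' => log (c * u' j) / (2 * Real.pi * I), fun u' i => u' (j.succAbove i) / u' j)}

/-- homogeneous coordinates. -/
private noncomputable def odIns {p : ℕ} (j : Fin (p + 1)) (ρ : Fin p → ℂ) (k : Fin (p + 1)) : ℂ :=
  Fin.insertNth (α := fun _ => ℂ) j 1 ρ k

private lemma od_ins_contDiff {p : ℕ} (j k : Fin (p + 1)) :
    ContDiff ℂ ∞ (fun ρ : Fin p → ℂ => odIns j ρ k) := by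
  rcases Fin.eq_self_or_eq_succAbove j k with rfl | ⟨i, rfl⟩
  · simp only [odIns, Fin.insertNth_apply_same]
    exact contDiff_const
  · simp only [odIns, Fin.insertNth_apply_succAbove]
    exact contDiff_apply ℂ ℂ i

private lemma od_ins_eq {p : ℕ} (j k : Fin (p + 1)) (u : Fin (p + 1) → ℂ) (hu : u j ≠ 0) :
    odIns j (fun i => u (j.succAbove i) / u j) k = u k / u j := by
  rcases Fin.eq_self_or_eq_succAbove j k with rfl | ⟨i, rfl⟩
  · simp [odIns, Fin.insertNth_apply_same, hu]
  · simp only [odIns, Fin.insertNth_apply_succAbove]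

private lemma od_ev {X : Type} [TopologicalSpace X] {x : X} {D : X → ℂ} (hc : ContinuousAt D x)
    (h0 : D x = 0) (h : ∀ᶠ y in 𝓝 x, exp (D y) = 1) : ∀ᶠ y in 𝓝 x, D y = 0 := by
  have h1 : ∀ᶠ y in 𝓝 x, ‖D y‖ < 2 * Real.pi := by
    have h2 : Filter.Tendsto (fun y => ‖D y‖) (𝓝 x) (𝓝 ‖D x‖) := hc.norm
    rw [h0, norm_zero] at h2
    exact h2.eventually_lt_const (by positivity)
  filter_upwards [h, h1] with y hy1 hy2
  obtain ⟨n, hn⟩ := exp_eq_one_iff.1 hy1
  rw [hn] at hy2 ⊢
  have h3 : ‖(n : ℂ) * (2 * Real.pi * I)‖ = |(n : ℝ)| * (2 * Real.pi) := by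
    rw [norm_mul, norm_mul, norm_I, mul_one, norm_mul]
    simp [abs_of_pos Real.pi_pos]
  rw [h3] at hy2
  have h4 : |(n : ℝ)| < 1 := by
    have := Real.pi_pos
    by_contra hcon
    push Not at hcon
    nlinarith
  have h5 : n = 0 := by
    rw [← Int.cast_abs] at h4
    have : |n| < 1 := by exact_mod_cast h4
    exact Int.abs_lt_one_iff.1 this
  simp [h5]

private lemma od_smooth_b {p : ℕ} (j : Fin (p + 1)) (c : ℂ) (u : Fin (p + 1) → ℂ)
    (hu : c * u j ∈ slitPlane) :
    ContDiffAt ℝ ∞ (fun u' : Fin (p + 1) → ℂ => log (c * u' j)) u := by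
  have h1 : ContDiffAt ℝ ∞ (fun u' : Fin (p + 1) → ℂ => c * u' j) u :=
    contDiffAt_const.mul (contDiff_apply ℝ ℂ j).contDiffAt
  have h2 : ContDiffAt ℝ ∞ log (c * u j) := (contDiffAt_log hu).restrict_scalars ℝ
  exact h2.comp u h1

private lemma od_smooth_r {p : ℕ} (j : Fin (p + 1)) (u : Fin (p + 1) → ℂ) (hu : u j ≠ 0) :
    ContDiffAt ℝ ∞ (fun (u' : Fin (p + 1) → ℂ) (i : Fin p) => u' (j.succAbove i) / u' j) u := by
  rw [contDiffAt_pi]
  intro i
  have h1 : ContDiffAt ℝ ∞ (fun u' : Fin (p + 1) → ℂ => (u' j)⁻¹) u :=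
    (contDiff_apply ℝ ℂ j).contDiffAt.inv hu
  simp only [div_eq_mul_inv]
  exact (contDiff_apply ℝ ℂ (j.succAbove i)).contDiffAt.mul h1

/-- the kernel of the derivative of the ratios. -/
private lemma od_ker {p : ℕ} (j : Fin (p + 1)) (u v : Fin (p + 1) → ℂ) (hu : u j ≠ 0)
    (h : fderiv ℝ (fun (u' : Fin (p + 1) → ℂ) (i : Fin p) => u' (j.succAbove i) / u' j) u v = 0) :
    v = (v j / u j) • u := by
  have h1 : ∀ i : Fin p, HasFDerivAt (fun u' : Fin (p + 1) → ℂ => u' (j.succAbove i) / u' j)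
      ((u (j.succAbove i)) • ((-((u j) ^ 2)⁻¹) •
          (ContinuousLinearMap.proj (R := ℝ) (φ := fun _ => ℂ) j)) +
        (u j)⁻¹ • (ContinuousLinearMap.proj (R := ℝ) (φ := fun _ => ℂ) (j.succAbove i))) u := by
    intro i
    have ha : HasFDerivAt (fun u' : Fin (p + 1) → ℂ => u' (j.succAbove i))
      (ContinuousLinearMap.proj (R := ℝ) (φ := fun _ => ℂ) (j.succAbove i)) u :=
      hasFDerivAt_apply _ _
    have hb : HasFDerivAt (fun u' : Fin (p + 1) → ℂ => u' j)
      (ContinuousLinearMap.proj (R := ℝ) (φ := fun _ => ℂ) j) u :=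
      hasFDerivAt_apply _ _
    have hc := (hasDerivAt_inv hu).comp_hasFDerivAt u hb
    simp only [div_eq_mul_inv]
    exact ha.mul hc
  have h2 : fderiv ℝ (fun (u' : Fin (p + 1) → ℂ) (i : Fin p) => u' (j.succAbove i) / u' j) u =
      ContinuousLinearMap.pi fun i : Fin p =>
      ((u (j.succAbove i)) • ((-((u j) ^ 2)⁻¹) •
          (ContinuousLinearMap.proj (R := ℝ) (φ := fun _ => ℂ) j)) +
        (u j)⁻¹ • (ContinuousLinearMap.proj (R := ℝ) (φ := fun _ => ℂ) (j.succAbove i))) :=
    (hasFDerivAt_pi.2 h1).fderiv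
  rw [h2] at h
  funext k
  rcases Fin.eq_self_or_eq_succAbove j k with rfl | ⟨i, rfl⟩
  · simp [hu]
  · have h3 := congrFun h i
    have h4 : u (j.succAbove i) * (-((u j) ^ 2)⁻¹ * v j) + (u j)⁻¹ * v (j.succAbove i) = 0 := h3
    rw [Pi.smul_apply, smul_eq_mul]
    field_simp at h4 ⊢
    linear_combination h4

private lemma od_db {p : ℕ} (j : Fin (p + 1)) (c : ℂ) (u v : Fin (p + 1) → ℂ) (hc : c ≠ 0)
    (hu : c * u j ∈ slitPlane) :
    fderiv ℝ (fun u' : Fin (p + 1) → ℂ => log (c * u' j) / (2 * Real.pi * I)) u v =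
      v j / u j / (2 * Real.pi * I) := by
  have hu0 : u j ≠ 0 := by
    intro h0
    rw [h0, mul_zero] at hu
    exact slitPlane_ne_zero hu rfl
  have hb : HasFDerivAt (fun u' : Fin (p + 1) → ℂ => c * u' j)
      (c • (ContinuousLinearMap.proj (R := ℝ) (φ := fun _ => ℂ) j)) u :=
    (hasFDerivAt_apply (𝕜 := ℝ) (F' := fun _ : Fin (p + 1) => ℂ) j u).const_mul c
  have h1 : HasFDerivAt (fun u' : Fin (p + 1) → ℂ => log (c * u' j))
      ((c * u j)⁻¹ • (c • (ContinuousLinearMap.proj (R := ℝ) (φ := fun _ => ℂ) j))) u := by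
    have h0 : HasDerivAt log (c * u j)⁻¹ ((fun u' : Fin (p + 1) → ℂ => c * u' j) u) :=
      hasDerivAt_log hu
    exact h0.comp_hasFDerivAt u hb
  have h2 := (h1.mul_const ((2 * Real.pi * I : ℂ)⁻¹)).fderiv
  simp only [← div_eq_mul_inv] at h2
  rw [h2]
  change (2 * Real.pi * I : ℂ)⁻¹ * ((c * u j)⁻¹ * (c * v j)) = _
  have hpi : (Real.pi : ℂ) ≠ 0 := by exact_mod_cast Real.pi_ne_zero
  field_simp

private lemma od_re {p : ℕ} {u v : Fin (p + 1) → ℂ} {l : ℂ} (hu : u ∈ SO p)
    (ht : TanO p u v) (hv : v = l • u) : l.re = 0 := by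
  unfold TanO at ht
  unfold SO at hu
  rw [Set.mem_ofPred_eq] at hu
  have h1 : ∀ i, (conj (u i) * v i).re = l.re * ‖u i‖ ^ 2 := by
    intro i
    rw [hv, Pi.smul_apply, smul_eq_mul, ← Complex.normSq_eq_norm_sq, Complex.normSq_apply]
    simp only [mul_re, mul_im, conj_re, conj_im]
    ring
  rw [Finset.sum_congr rfl fun i _ => h1 i, ← Finset.mul_sum, hu, mul_one] at ht
  exact ht

theorem oddGerms (p : ℕ) : OddGerms (SO p) (TanO p) (GO p) := by
  have hpi : (Real.pi : ℂ) ≠ 0 := by exact_mod_cast Real.pi_ne_zero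
  have hne : ∀ (c : ℂ) (z : ℂ), c * z ∈ slitPlane → z ≠ 0 := by
    intro c z hz h0
    rw [h0, mul_zero] at hz
    exact slitPlane_ne_zero hz rfl
  constructor
  · -- ex
    intro u hu
    have h1 : ∃ j, u j ≠ 0 := by
      by_contra hcon
      push Not at hcon
      unfold SO at hu
      simp [hcon] at hu
    obtain ⟨j, hj⟩ := h1
    have h2 : (u j)⁻¹ * u j ∈ slitPlane := by
      rw [inv_mul_cancel₀ hj]; exact one_mem_slitPlane
    refine ⟨_, ⟨j, (u j)⁻¹, inv_ne_zero hj, h2, rfl⟩, ?_⟩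
    have h3 : ContinuousAt (fun u' : Fin (p + 1) → ℂ => (u j)⁻¹ * u' j) u :=
      continuousAt_const.mul (continuous_apply j).continuousAt
    filter_upwards [h3.eventually (isOpen_slitPlane.mem_nhds h2)] with u' hu'
    exact ⟨j, (u j)⁻¹, inv_ne_zero hj, hu', rfl⟩
  · -- smooth_b
    rintro u - d ⟨j, c, hc, hj, rfl⟩
    exact (od_smooth_b j c u hj).div_const _
  · rintro u - d ⟨j, c, hc, hj, rfl⟩
    exact od_smooth_r j u (hne _ _ hj)
  · -- real
    rintro u hu d ⟨j, c, hc, hj, rfl⟩ v hv hd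
    simp only at hd ⊢
    have h1 := od_ker j u v (hne _ _ hj) hd
    have h2 := od_re hu hv h1
    rw [od_db j c u v hc hj]
    have h3 : v j / u j = ((v j / u j).im : ℂ) * I := by
      apply Complex.ext
      · simp [h2]
      · simp
    have h4 : v j / u j / (2 * Real.pi * I) = (((v j / u j).im / (2 * Real.pi) : ℝ) : ℂ) := by
      rw [h3]
      push_cast
      field_simp
      simp
    rw [h4, ofReal_im]
  · -- inj
    rintro u hu d ⟨j, c, hc, hj, rfl⟩ v hv hd hb
    simp only at hd hb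
    have h1 := od_ker j u v (hne _ _ hj) hd
    rw [od_db j c u v hc hj, div_eq_zero_iff] at hb
    have h2 : v j / u j = 0 := by
      rcases hb with hb | hb
      · exact hb
      · exfalso
        simp [hpi, I_ne_zero] at hb
    rw [h1, h2, zero_smul]
  · -- trans
    rintro u hu d ⟨j, c, hc, hj, rfl⟩ d' ⟨j', c', hc', hj', rfl⟩
    have huj := hne _ _ hj
    have huj' := hne _ _ hj'
    simp only
    have hins : odIns j (fun i => u (j.succAbove i) / u j) j' ≠ 0 := by
      rw [od_ins_eq j j' u huj]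
      exact div_ne_zero huj' huj
    have hcj : ∀ᶠ u' in 𝓝 u, u' j ≠ 0 :=
      (continuous_apply j).continuousAt.eventually (isOpen_ne.mem_nhds huj)
    have hcj' : ∀ᶠ u' in 𝓝 u, u' j' ≠ 0 :=
      (continuous_apply j').continuousAt.eventually (isOpen_ne.mem_nhds huj')
    refine ⟨fun ρ => (log (c' * u j') - log (c * u j) +
      log (odIns j ρ j' / odIns j (fun i => u (j.succAbove i) / u j) j')) / (2 * Real.pi * I),
      fun ρ i => odIns j ρ (j'.succAbove i) / odIns j ρ j', ?_, ?_, ?_⟩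
    · apply ContDiffAt.div_const
      apply contDiffAt_const.add
      have h1 : ContDiffAt ℂ ∞ (fun ρ : Fin p → ℂ =>
          odIns j ρ j' / odIns j (fun i => u (j.succAbove i) / u j) j')
          (fun i => u (j.succAbove i) / u j) :=
        (od_ins_contDiff j j').contDiffAt.div_const _
      have h2 : ContDiffAt ℂ ∞ log ((fun ρ : Fin p → ℂ =>
          odIns j ρ j' / odIns j (fun i => u (j.succAbove i) / u j) j')
          (fun i => u (j.succAbove i) / u j)) := by
        apply contDiffAt_log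
        simp only
        rw [div_self hins]
        exact one_mem_slitPlane
      exact ContDiffAt.comp (fun i => u (j.succAbove i) / u j) h2 h1
    · rw [contDiffAt_pi]
      intro i
      have h1 : ContDiffAt ℂ ∞ (fun ρ : Fin p → ℂ => (odIns j ρ j')⁻¹)
          (fun i => u (j.succAbove i) / u j) :=
        (od_ins_contDiff j j').contDiffAt.inv hins
      simp only [div_eq_mul_inv] at h1 ⊢
      exact (od_ins_contDiff j (j'.succAbove i)).contDiffAt.mul h1
    · have hD : ∀ᶠ u' in 𝓝 u, log (c' * u' j') - log (c * u' j) -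
          (log (c' * u j') - log (c * u j)) -
          log ((u' j' / u' j) / (u j' / u j)) = 0 := by
        apply od_ev
        · have k1 : ContinuousAt (fun u' : Fin (p + 1) → ℂ => log (c' * u' j')) u :=
            (od_smooth_b j' c' u hj').continuousAt
          have k2 : ContinuousAt (fun u' : Fin (p + 1) → ℂ => log (c * u' j)) u :=
            (od_smooth_b j c u hj).continuousAt
          have k3 : ContinuousAt (fun u' : Fin (p + 1) → ℂ => log ((u' j' / u' j) / (u j' / u j))) u := by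
            have k4 : ContinuousAt (fun u' : Fin (p + 1) → ℂ => (u' j' / u' j) / (u j' / u j)) u := by
              apply ContinuousAt.div_const
              exact (continuous_apply j').continuousAt.div (continuous_apply j).continuousAt huj
            apply k4.clog
            rw [div_self (div_ne_zero huj' huj)]
            exact one_mem_slitPlane
          exact ((k1.sub k2).sub continuousAt_const).sub k3
        · rw [div_self (div_ne_zero huj' huj), log_one]
          ring
        · filter_upwards [hcj, hcj'] with u' h1 h2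
          rw [exp_sub, exp_sub, exp_sub, exp_sub, exp_log (mul_ne_zero hc' h2),
            exp_log (mul_ne_zero hc h1), exp_log (mul_ne_zero hc' huj'),
            exp_log (mul_ne_zero hc huj), exp_log (div_ne_zero (div_ne_zero h2 h1)
              (div_ne_zero huj' huj))]
          field_simp
      filter_upwards [hcj, hcj', hD] with u' h1 h2 h3
      constructor
      · rw [od_ins_eq j j' u huj, od_ins_eq j j' u' h1, ← add_div]
        congr 1
        linear_combination h3
      · funext i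
        rw [od_ins_eq j _ u' h1, od_ins_eq j j' u' h1]
        field_simp

end Pool.Agent.S4T2
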