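import Mathlib

/-! Task D2. -/

set_option autoImplicit false
open Complex ComplexConjugate Topology
open scoped ContDiff

namespace Pool.Agent.S4T2

/-- quadrants `(true, false)` and `(false, true)`. -/
theorem quad_diff (m r a t1 t2 : ℝ) (hr : 0 < r) (ha : r ≤ a) (hm : |m| ≤ r)
    (ht1 : 0 ≤ t1) (ht1' : t1 ≤ Real.pi) (ht2 : 0 ≤ t2) (ht2' : t2 ≤ Real.pi)
    (h : 0 < m → t1 < Real.pi / 2 ∧ t2 < Real.pi / 2) :
    0 < a * Real.cos ((t1 + t2) / 2 - (t1 + t2) ^ 2 / (4 * Real.pi))
      - m * Real.sin ((t1 + t2) / 2 - (t1 + t2) ^ 2 / (4 * Real.pi)) := by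
  have hpi := Real.pi_pos
  set g : ℝ := (t1 + t2) / 2 - (t1 + t2) ^ 2 / (4 * Real.pi) with hg
  have hg1 : g = (t1 + t2) * (2 * Real.pi - (t1 + t2)) / (4 * Real.pi) := by
    rw [hg]; field_simp; ring
  have hg2 : g = Real.pi / 4 - (t1 + t2 - Real.pi) ^ 2 / (4 * Real.pi) := by
    rw [hg]; field_simp; ring
  have hg0 : 0 ≤ g := by
    rw [hg1]
    apply div_nonneg (mul_nonneg (by linarith) (by linarith)) (by linarith)
  have hgle : g ≤ Real.pi / 4 := by
    have : 0 ≤ (t1 + t2 - Real.pi) ^ 2 / (4 * Real.pi) := by positivity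
    linarith
  have hcos : 0 < Real.cos g := Real.cos_pos_of_mem_Ioo ⟨by linarith, by linarith⟩
  have hsin : 0 ≤ Real.sin g := Real.sin_nonneg_of_nonneg_of_le_pi hg0 (by linarith)
  rcases le_or_gt m 0 with hm0 | hm0
  · have h1 : 0 < a * Real.cos g := mul_pos (by linarith) hcos
    have h2 : m * Real.sin g ≤ 0 := mul_nonpos_of_nonpos_of_nonneg hm0 hsin
    linarith
  · obtain ⟨ha1, ha2⟩ := h hm0
    have hglt : g < Real.pi / 4 := by
      have : 0 < (t1 + t2 - Real.pi) ^ 2 / (4 * Real.pi) := by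
        apply div_pos _ (by linarith)
        apply sq_pos_of_neg
        linarith
      linarith
    have hsc : Real.sin g < Real.cos g := by
      rw [← Real.cos_pi_div_two_sub]
      apply Real.cos_lt_cos_of_nonneg_of_le_pi <;> linarith
    have hmr : m ≤ r := (le_abs_self m).trans hm
    have e1 : m * Real.sin g ≤ r * Real.sin g := mul_le_mul_of_nonneg_right hmr hsin
    have e2 : r * Real.sin g < r * Real.cos g := mul_lt_mul_of_pos_left hsc hr
    have e3 : r * Real.cos g ≤ a * Real.cos g := mul_le_mul_of_nonneg_right ha hcos.le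
    linarith

end Pool.Agent.S4T2
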