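import Mathlib

/-! Task D1. -/

set_option autoImplicit false
open Complex ComplexConjugate Topology
open scoped ContDiff

namespace Pool.Agent.S4T2

/-- quadrants `(true, true)` and `(false, false)`. -/
theorem quad_same (b1 b2 m mi d r R1 R2 t1 t2 : ℝ) (hb : b1 + b2 = 1) (hb1 : 0 ≤ b1)
    (hb2 : 0 ≤ b2) (hr : 0 < r) (hb12 : 0 < b1 → 0 < b2 → 3 / 4 ≤ r)
    (hm : m ^ 2 + mi ^ 2 + d ^ 2 = r ^ 2) (hd : 0 ≤ d) (hmi : 0 ≤ mi) (hR1 : 0 < R1)
    (hR2 : 0 < R2) (h1 : b1 + 2 * m = R1 * Real.cos t1) (h1' : 2 * d = R1 * Real.sin t1)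
    (h2 : b2 + 2 * m = R2 * Real.cos t2) (h2' : 2 * mi = R2 * Real.sin t2)
    (ht1 : 0 ≤ t1) (ht1' : t1 ≤ Real.pi) (ht2 : 0 ≤ t2) (ht2' : t2 ≤ Real.pi) :
    0 < m * Real.cos ((t1 + t2) / 2 + (t1 - t2) ^ 2 / (4 * Real.pi))
      + (r + d + mi) * Real.sin ((t1 + t2) / 2 + (t1 - t2) ^ 2 / (4 * Real.pi)) := by
  have hpi := Real.pi_pos
  have hpi3 := Real.pi_gt_three
  set T : ℝ := (t1 + t2) / 2 + (t1 - t2) ^ 2 / (4 * Real.pi) with hT
  set a : ℝ := r + d + mi with ha
  have har : r ≤ a := by rw [ha]; linarith
  have hmr : |m| ≤ r := by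
    apply abs_le_of_sq_le_sq _ hr.le
    nlinarith [sq_nonneg mi, sq_nonneg d]
  have ha0 : 0 < a := lt_of_lt_of_le hr har
  have hsq : 0 ≤ (t1 - t2) ^ 2 / (4 * Real.pi) := by positivity
  have hTlow : (t1 + t2) / 2 ≤ T := by rw [hT]; linarith
  have hT0 : 0 ≤ T := by linarith
  have hTmax : T ≤ max t1 t2 := by
    have key : (t1 - t2) ^ 2 / (4 * Real.pi) ≤ |t1 - t2| / 2 := by
      rw [div_le_div_iff₀ (by positivity) (by norm_num), ← sq_abs]
      have h1 : |t1 - t2| ≤ 2 * Real.pi := by
        rw [abs_le]; constructor <;> linarith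
      nlinarith [abs_nonneg (t1 - t2)]
    rcases le_total t1 t2 with h | h
    · rw [max_eq_right h]
      rw [abs_of_nonpos (by linarith)] at key
      rw [hT]; linarith
    · rw [max_eq_left h]
      rw [abs_of_nonneg (by linarith)] at key
      rw [hT]; linarith
  have hTpi : T ≤ Real.pi := hTmax.trans (max_le ht1' ht2')
  have hsin : 0 ≤ Real.sin T := Real.sin_nonneg_of_nonneg_of_le_pi hT0 hTpi
  -- if the cosine of t is nonneg then t ≤ π/2
  have hle : ∀ t : ℝ, 0 ≤ t → t ≤ Real.pi → 0 ≤ Real.cos t → t ≤ Real.pi / 2 := by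
    intro t h0 h1 hc
    by_contra hcon
    push Not at hcon
    have := Real.cos_neg_of_pi_div_two_lt_of_lt hcon (by linarith)
    linarith
  have hlt : ∀ t : ℝ, 0 ≤ t → t ≤ Real.pi → 0 < Real.cos t → t < Real.pi / 2 := by
    intro t h0 h1 hc
    by_contra hcon
    push Not at hcon
    have := Real.cos_nonpos_of_pi_div_two_le_of_le hcon (by linarith)
    linarith
  rcases lt_trichotomy m 0 with hm0 | hm0 | hm0
  · -- m < 0
    rcases le_or_gt (Real.cos T) 0 with hc | hc
    · have h1 : 0 ≤ m * Real.cos T := mul_nonneg_of_nonpos_of_nonpos hm0.le hc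
      rcases eq_or_lt_of_le hc with hc0 | hc0
      · have hs1 : Real.sin T ^ 2 = 1 := by
          have := Real.sin_sq_add_cos_sq T
          rw [hc0] at this
          linarith
        have hs : 0 < Real.sin T := by
          rcases eq_or_lt_of_le hsin with h | h
          · rw [← h] at hs1; norm_num at hs1
          · exact h
        have := mul_pos ha0 hs
        linarith
      · have h1 : 0 < m * Real.cos T := mul_pos_of_neg_of_neg hm0 hc0
        have := mul_nonneg ha0.le hsin
        linarith
    · have hTlt : T < Real.pi / 2 := hlt T hT0 hTpi hc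
      have habs : |m| = -m := abs_of_neg hm0
      rcases lt_or_ge (Real.pi / 4) T with hT4 | hT4
      · have hsc : Real.cos T < Real.sin T := by
          rw [← Real.cos_pi_div_two_sub]
          apply Real.cos_lt_cos_of_nonneg_of_le_pi <;> linarith
        have hma : -m ≤ a := by rw [← habs]; exact hmr.trans har
        have e1 : a * Real.cos T < a * Real.sin T := mul_lt_mul_of_pos_left hsc ha0
        have e2 : -m * Real.cos T ≤ a * Real.cos T := mul_le_mul_of_nonneg_right hma hc.le
        linarith
      · have ht12 : t1 + t2 ≤ Real.pi / 2 := by linarith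
        have hc1 : 0 ≤ Real.cos t1 := Real.cos_nonneg_of_neg_pi_div_two_le_of_le (by linarith) (by linarith)
        have hc2 : 0 ≤ Real.cos t2 := Real.cos_nonneg_of_neg_pi_div_two_le_of_le (by linarith) (by linarith)
        have hb1m : 0 ≤ b1 + 2 * m := by rw [h1]; positivity
        have hb2m : 0 ≤ b2 + 2 * m := by rw [h2]; positivity
        have hr34 : 3 / 4 ≤ r := hb12 (by linarith) (by linarith)
        have hm4 : -m ≤ 1 / 4 := by linarith
        have hr2 : (3 / 4) ^ 2 ≤ r ^ 2 := pow_le_pow_left₀ (by norm_num) hr34 2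
        have hm2 : (-m) ^ 2 ≤ (1 / 4) ^ 2 := pow_le_pow_left₀ (by linarith) hm4 2
        have hdm : 1 / 2 ≤ d ^ 2 + mi ^ 2 := by linarith
        have hT8 : Real.pi / 8 ≤ T := by
          have hd2 : 1 / 2 ≤ d ∨ 1 / 2 ≤ mi := by
            by_contra hcon
            push Not at hcon
            have e1 : d ^ 2 < (1 / 2) ^ 2 := pow_lt_pow_left₀ hcon.1 hd (by norm_num)
            have e2 : mi ^ 2 < (1 / 2) ^ 2 := pow_lt_pow_left₀ hcon.2 hmi (by norm_num)
            norm_num at e1 e2
            linarith
          have haux : ∀ (b c R t : ℝ), 0 < R → 0 ≤ t → t ≤ Real.pi → b + 2 * m = R * Real.cos t →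
              2 * c = R * Real.sin t → 1 / 2 ≤ c → b ≤ 1 → Real.pi / 4 ≤ t := by
            intro b c R t hR h0 hpi' hcos hsin' hc hb'
            by_contra hcon
            push Not at hcon
            have : Real.sin t < Real.cos t := by
              rw [← Real.cos_pi_div_two_sub]
              apply Real.cos_lt_cos_of_nonneg_of_le_pi <;> linarith
            have := mul_lt_mul_of_pos_left this hR
            linarith
          rcases hd2 with h | h
          · have := haux b1 d R1 t1 hR1 ht1 ht1' h1 h1' h (by linarith)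
            linarith
          · have := haux b2 mi R2 t2 hR2 ht2 ht2' h2 h2' h (by linarith)
            linarith
        have htan : T < Real.tan T := Real.lt_tan (by linarith) hTlt
        have h13 : 1 / 3 < Real.tan T := by linarith
        rw [Real.tan_eq_sin_div_cos, lt_div_iff₀ hc] at h13
        have ha34 : 3 / 4 ≤ a := hr34.trans har
        have e1 : 3 / 4 * Real.sin T ≤ a * Real.sin T := mul_le_mul_of_nonneg_right ha34 hsin
        have e2 : -m * Real.cos T ≤ 1 / 4 * Real.cos T := mul_le_mul_of_nonneg_right hm4 hc.le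
        linarith
  · -- m = 0
    subst hm0
    have hc1 : 0 ≤ Real.cos t1 := by
      by_contra hcon
      push Not at hcon
      have := mul_neg_of_pos_of_neg hR1 hcon
      linarith
    have hc2 : 0 ≤ Real.cos t2 := by
      by_contra hcon
      push Not at hcon
      have := mul_neg_of_pos_of_neg hR2 hcon
      linarith
    have ht1h := hle t1 ht1 ht1' hc1
    have ht2h := hle t2 ht2 ht2' hc2
    have hTh : T ≤ Real.pi / 2 := hTmax.trans (max_le ht1h ht2h)
    have hTpos : 0 < T := by
      rcases eq_or_lt_of_le hT0 with h | h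
      · exfalso
        have h10 : t1 = 0 := by linarith
        have h20 : t2 = 0 := by linarith
        rw [h10, Real.sin_zero, mul_zero] at h1'
        rw [h20, Real.sin_zero, mul_zero] at h2'
        have hd0 : d = 0 := by linarith
        have hmi0 : mi = 0 := by linarith
        rw [hd0, hmi0] at hm
        have := pow_pos hr 2
        linarith
      · exact h
    have hs : 0 < Real.sin T := Real.sin_pos_of_pos_of_lt_pi hTpos (by linarith)
    have := mul_pos ha0 hs
    linarith
  · -- m > 0
    have hc1 : 0 < Real.cos t1 := by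
      by_contra hcon
      push Not at hcon
      have := mul_nonpos_of_nonneg_of_nonpos hR1.le hcon
      linarith
    have hc2 : 0 < Real.cos t2 := by
      by_contra hcon
      push Not at hcon
      have := mul_nonpos_of_nonneg_of_nonpos hR2.le hcon
      linarith
    have ht1h := hlt t1 ht1 ht1' hc1
    have ht2h := hlt t2 ht2 ht2' hc2
    have hTh : T < Real.pi / 2 := lt_of_le_of_lt hTmax (max_lt ht1h ht2h)
    have hc : 0 < Real.cos T := Real.cos_pos_of_mem_Ioo ⟨by linarith, hTh⟩
    have := mul_pos hm0 hc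
    have := mul_nonneg ha0.le hsin
    linarith

end Pool.Agent.S4T2
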