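import Pool.Agent.Lib.MP_1d980c_gt.S4.Basic
import Pool.Agent.Lib.MP_1d980c_gt.S4.QuadSame
import Pool.Agent.Lib.MP_1d980c_gt.S4.QuadDiff

/-! Task D3: positivity of the pure forms of `Q` on the closed quadrants of `{|z1| = |z2|}`. -/

set_option autoImplicit false
open Complex ComplexConjugate Topology
open scoped ContDiff

namespace Pool.Agent.S4T2

private lemma log_polar {z : ℂ} (hz : z ≠ 0) (θ φ : ℝ) (h : exp (φ * I) * z = ‖z‖ * exp (θ * I))
    (h1 : -Real.pi < θ) (h2 : θ ≤ Real.pi) :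
    log (exp (φ * I) * z) = Real.log ‖z‖ + θ * I := by
  have hpos : 0 < ‖z‖ := norm_pos_iff.2 hz
  have h3 : (‖z‖ : ℂ) * exp (θ * I) = exp (Real.log ‖z‖ + θ * I) := by
    rw [exp_add, ← ofReal_exp, Real.exp_log hpos]
  rw [h, h3, log_exp]
  · simpa using h1
  · simpa using h2

private lemma negI_eq : (-I : ℂ) = exp ((-(Real.pi / 2) : ℝ) * I) := by
  push_cast
  rw [neg_mul, exp_neg, exp_pi_div_two_mul_I, inv_I]

private lemma I_eq : (I : ℂ) = exp (((Real.pi / 2) : ℝ) * I) := by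
  push_cast
  rw [exp_pi_div_two_mul_I]

private lemma Lp_true {z : ℂ} (hz : z ≠ 0) (hi : 0 ≤ z.im) : ∃ t : ℝ, 0 ≤ t ∧ t ≤ Real.pi ∧
    z = ‖z‖ * exp (t * I) ∧ log (-I * z) + Real.pi / 2 * I = Real.log ‖z‖ + t * I := by
  refine ⟨arg z, arg_nonneg_iff.2 hi, arg_le_pi z, (norm_mul_exp_arg_mul_I z).symm, ?_⟩
  have h0 : 0 ≤ arg z := arg_nonneg_iff.2 hi
  have h1 : arg z ≤ Real.pi := arg_le_pi z
  have hp := Real.pi_pos
  have key := log_polar hz (arg z - Real.pi / 2) (-(Real.pi / 2)) (by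
    conv_lhs => rw [← norm_mul_exp_arg_mul_I z]
    rw [mul_left_comm, ← exp_add]
    congr 2
    push_cast; ring) (by linarith) (by linarith)
  rw [negI_eq, key]
  push_cast; ring

private lemma Lp_false {z : ℂ} (hz : z ≠ 0) (hi : z.im ≤ 0) : ∃ t : ℝ, 0 ≤ t ∧ t ≤ Real.pi ∧
    z = ‖z‖ * exp (-(t * I)) ∧ log (I * z) - Real.pi / 2 * I = Real.log ‖z‖ - t * I := by
  have hc : conj z ≠ 0 := by simpa using hz
  have h0 : 0 ≤ arg (conj z) := arg_nonneg_iff.2 (by simpa using hi)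
  have h1 : arg (conj z) ≤ Real.pi := arg_le_pi _
  have hp := Real.pi_pos
  have hz' : z = ‖z‖ * exp (-(arg (conj z) * I)) := by
    have h2 := norm_mul_exp_arg_mul_I (conj z)
    have h3 := congrArg conj h2
    rw [conj_conj, map_mul, ← exp_conj, map_mul, conj_I, conj_ofReal, norm_conj, conj_ofReal] at h3
    conv_lhs => rw [← h3]
    rw [mul_neg]
  refine ⟨arg (conj z), h0, h1, hz', ?_⟩
  have key := log_polar hz (Real.pi / 2 - arg (conj z)) (Real.pi / 2) (by
    conv_lhs => rw [hz']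
    rw [mul_left_comm, ← exp_add]
    congr 2
    push_cast; ring) (by linarith) (by linarith)
  nth_rewrite 1 [I_eq]
  rw [key]
  push_cast; ring

private lemma re_form (c : ℝ) (V : ℂ) (θ : ℝ) :
    ((c : ℂ) * (V * exp (θ * I))).re = c * (V.re * Real.cos θ - V.im * Real.sin θ) := by
  rw [re_ofReal_mul, exp_mul_I, ← ofReal_cos, ← ofReal_sin, mul_re]
  simp only [add_re, add_im, ofReal_re, ofReal_im, mul_re, mul_im, I_re, I_im]
  ring

private lemma RR_im (α : ℝ) : RR (α * I) = exp ((α ^ 2 / (4 * Real.pi) : ℝ) * I) := by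
  unfold RR
  congr 1
  have hp : (Real.pi : ℂ) ≠ 0 := by exact_mod_cast Real.pi_ne_zero
  push_cast
  rw [mul_pow, I_sq]
  field_simp
  rw [I_sq]
  ring

section
variable {P : A4}

private lemma norm_sq_X (P : A4) : P.1 * conj P.1 = (((rho2 P + DD P) / 2 : ℝ) : ℂ) := by
  rw [← norm_X, mul_conj, normSq_eq_norm_sq]

private lemma norm_sq_Y (P : A4) : P.2.1 * conj P.2.1 = (((rho2 P - DD P) / 2 : ℝ) : ℂ) := by
  rw [← norm_Y, mul_conj, normSq_eq_norm_sq]

private lemma sq2 : ((Real.sqrt 2 : ℝ) : ℂ) * (Real.sqrt 2 : ℝ) = 2 := by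
  rw [← ofReal_mul, Real.mul_self_sqrt (by norm_num)]; norm_num

private lemma sq2_ne : ((Real.sqrt 2 : ℝ) : ℂ) ≠ 0 := by
  intro h
  have := sq2
  rw [h] at this
  norm_num at this

/-- common facts. -/
private lemma facts (hP : P ∈ S4) (h : ‖z1 P‖ = ‖z2 P‖) : 0 < NN P ∧ 0 < ‖z1 P‖ ∧ z1 P ≠ 0 ∧
    z2 P ≠ 0 ∧ 0 < rho2 P ∧ (0 < bet (-P.2.2) → 0 < bet P.2.2 → 3 / 4 ≤ rho2 P) := by
  have hN := NN_pos hP
  have hz := norm_z P hN
  have h1 : 0 < ‖z1 P‖ := by
    rcases (norm_nonneg (z1 P)).eq_or_lt with h0 | h0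
    · rw [← h, ← h0] at hz; norm_num at hz
    · exact h0
  have h2 : z1 P ≠ 0 := norm_pos_iff.1 h1
  have h3 : z2 P ≠ 0 := norm_pos_iff.1 (h ▸ h1)
  refine ⟨hN, h1, h2, h3, ?_, ?_⟩
  · rcases (rho2_nonneg P).eq_or_lt with h0 | h0
    · exfalso
      have hr := rho2_S4 hP
      have hM := MM_DD P
      have hm1 : (MM P).re = 0 := by nlinarith [sq_nonneg (MM P).re, sq_nonneg (MM P).im, sq_nonneg (DD P)]
      have hm2 : (MM P).im = 0 := by nlinarith [sq_nonneg (MM P).re, sq_nonneg (MM P).im, sq_nonneg (DD P)]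
      have hd : DD P = 0 := by nlinarith [sq_nonneg (MM P).re, sq_nonneg (MM P).im, sq_nonneg (DD P)]
      have hM0 : MM P = 0 := Complex.ext hm1 hm2
      have hh : P.2.2 ^ 2 = 1 := by linarith
      have h5 : (P.2.2 - 1) * (P.2.2 + 1) = 0 := by linarith
      rcases mul_eq_zero.1 h5 with h4 | h4
      · apply h2
        have h6 : P.2.2 = 1 := by linarith
        rw [z1, y1, hM0, hd, h6, bet_of_le (by norm_num)]
        simp
      · apply h3
        have h6 : P.2.2 = -1 := by linarith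
        rw [z2, y2, hM0, h6, bet_of_le (by norm_num)]
        simp
    · exact h0
  · intro hb1 hb2
    have hh1 : P.2.2 < 1 / 2 := by
      by_contra hcon
      push Not at hcon
      rw [bet_of_le (by linarith)] at hb1
      exact lt_irrefl _ hb1
    have hh2 : -(1 / 2) < P.2.2 := by
      by_contra hcon
      push Not at hcon
      rw [bet_of_le (by linarith)] at hb2
      exact lt_irrefl _ hb2
    rw [rho2_S4 hP]
    nlinarith

/-- case `(true, true)`. -/
private lemma case_tt (hP : P ∈ S4) (h : ‖z1 P‖ = ‖z2 P‖)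
    (hi : 0 ≤ (z1 P).im) (hj : 0 ≤ (z2 P).im) : 0 < (Qp true true P).re := by
  obtain ⟨hN, hr, hz1, hz2, hrho, hb⟩ := facts hP h
  obtain ⟨t1, ht1, ht1', e1, l1⟩ := Lp_true hz1 hi
  obtain ⟨t2, ht2, ht2', e2, l2⟩ := Lp_true hz2 hj
  set r := ‖z1 P‖ with hrdef
  rw [← h] at e2 l2
  set Θ : ℝ := (t1 + t2) / 2 + (t1 - t2) ^ 2 / (4 * Real.pi) with hΘ
  have hy1 : y1 P = (NN P * r : ℝ) * exp (t1 * I) := by
    rw [y1_eq hN]; conv_lhs => rw [e1]
    push_cast; ring
  have hy2 : y2 P = (NN P * r : ℝ) * exp (t2 * I) := by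
    rw [y2_eq hN]; conv_lhs => rw [e2]
    push_cast; ring
  have hNr : 0 < NN P * r := mul_pos hN hr
  -- the formula
  have key : Qp true true P = ((r * 8 / (Real.sqrt 2 * (NN P * r) ^ 2) : ℝ) : ℂ) *
      ((MM P + I * ((rho2 P + DD P : ℝ) : ℂ)) * exp ((-Θ : ℝ) * I)) := by
    have hE : (4 * P.1) * (4 * (iota P).1) = 8 / (Real.sqrt 2 : ℂ) *
        (MM P + I * ((rho2 P + DD P : ℝ) : ℂ)) := by
      have h1 := norm_sq_X P
      have h2 : (((rho2 P + DD P : ℝ) : ℂ)) = 2 * (P.1 * conj P.1) := by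
        rw [h1]; push_cast; ring
      rw [h2, MM, iota]
      field_simp
      ring
    have hl : Lp true P - Lp true (iota P) = ((t1 - t2 : ℝ) : ℂ) * I := by
      unfold Lp
      simp only [if_true, z1_iota]
      rw [l1, l2]
      push_cast; ring
    have hl2 : exp (Lp true P / 2) * exp (Lp true (iota P) / 2) =
        (r : ℂ) * exp (((t1 + t2) / 2 : ℝ) * I) := by
      rw [← exp_add]
      unfold Lp
      simp only [if_true, z1_iota]
      rw [l1, l2]
      have : (r : ℂ) = exp (Real.log r) := by rw [← ofReal_exp, Real.exp_log hr]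
      conv_rhs => rw [this, ← exp_add]
      congr 1
      push_cast; ring
    have hQ : Qp true true P = (exp (Lp true P / 2) * exp (Lp true (iota P) / 2)) *
        ((4 * P.1) * (4 * (iota P).1)) / (y1 P * y2 P) / RR (Lp true P - Lp true (iota P)) := by
      unfold Qp Ep
      simp only [if_true, y2_iota]
      ring
    rw [hQ, hl, RR_im, hl2, hE, hy1, hy2]
    have e3 : exp ((-Θ : ℝ) * I) = exp (((t1 + t2) / 2 : ℝ) * I) /
        (exp (t1 * I) * exp (t2 * I)) / exp (((t1 - t2) ^ 2 / (4 * Real.pi) : ℝ) * I) := by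
      rw [← exp_add, ← exp_sub, ← exp_sub]
      congr 1
      rw [hΘ]; push_cast; ring
    rw [e3]
    have h3 := exp_ne_zero (t1 * I)
    have h4 := exp_ne_zero (t2 * I)
    have h5 := exp_ne_zero (((t1 - t2) ^ 2 / (4 * Real.pi) : ℝ) * I)
    have h6 : ((NN P * r : ℝ) : ℂ) ≠ 0 := by exact_mod_cast hNr.ne'
    have h7 := sq2_ne
    push_cast at h6 ⊢
    have h8 : (NN P : ℂ) ≠ 0 := left_ne_zero_of_mul h6
    have h9 : (r : ℂ) ≠ 0 := right_ne_zero_of_mul h6
    field_simp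
  rw [key, re_form]
  apply mul_pos (by positivity)
  rw [Real.cos_neg, Real.sin_neg]
  have hre : (y1 P).re = bet (-P.2.2) + 2 * (MM P).re := by simp [y1]
  have him : (y1 P).im = 2 * DD P := by simp [y1]
  have hre2 : (y2 P).re = bet P.2.2 + 2 * (MM P).re := by simp [y2]
  have him2 : (y2 P).im = 2 * (MM P).im := by simp [y2]
  have hre' : (y1 P).re = (NN P * r) * Real.cos t1 := by
    rw [hy1, re_ofReal_mul, exp_ofReal_mul_I_re]
  have him' : (y1 P).im = (NN P * r) * Real.sin t1 := by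
    rw [hy1, im_ofReal_mul, exp_ofReal_mul_I_im]
  have hre2' : (y2 P).re = (NN P * r) * Real.cos t2 := by
    rw [hy2, re_ofReal_mul, exp_ofReal_mul_I_re]
  have him2' : (y2 P).im = (NN P * r) * Real.sin t2 := by
    rw [hy2, im_ofReal_mul, exp_ofReal_mul_I_im]
  have hs1 : 0 ≤ Real.sin t1 := Real.sin_nonneg_of_nonneg_of_le_pi ht1 ht1'
  have hs2 : 0 ≤ Real.sin t2 := Real.sin_nonneg_of_nonneg_of_le_pi ht2 ht2'
  have hD : 0 ≤ DD P := by nlinarith [mul_nonneg hNr.le hs1]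
  have hMi : 0 ≤ (MM P).im := by nlinarith [mul_nonneg hNr.le hs2]
  have hbb := bet_add P.2.2
  have := quad_same (bet (-P.2.2)) (bet P.2.2) (MM P).re (MM P).im (DD P) (rho2 P)
    (NN P * r) (NN P * r) t1 t2 (by linarith) (bet_nonneg _) (bet_nonneg _) hrho hb
    (by linarith [MM_DD P]) hD hMi hNr hNr (by rw [← hre, hre']) (by rw [← him, him'])
    (by rw [← hre2, hre2']) (by rw [← him2, him2']) ht1 ht1' ht2 ht2'
  have e4 : (MM P + I * ((rho2 P + DD P : ℝ) : ℂ)).re = (MM P).re := by simp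
  have e5 : (MM P + I * ((rho2 P + DD P : ℝ) : ℂ)).im = rho2 P + DD P + (MM P).im := by
    simp; ring
  rw [e4, e5]
  rw [hΘ]
  linarith

/-- case `(false, false)`. -/
private lemma case_ff (hP : P ∈ S4) (h : ‖z1 P‖ = ‖z2 P‖)
    (hi : (z1 P).im ≤ 0) (hj : (z2 P).im ≤ 0) : 0 < (Qp false false P).re := by
  obtain ⟨hN, hr, hz1, hz2, hrho, hb⟩ := facts hP h
  obtain ⟨t1, ht1, ht1', e1, l1⟩ := Lp_false hz1 hi
  obtain ⟨t2, ht2, ht2', e2, l2⟩ := Lp_false hz2 hj
  set r := ‖z1 P‖ with hrdef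
  rw [← h] at e2 l2
  set Θ : ℝ := (t1 + t2) / 2 + (t1 - t2) ^ 2 / (4 * Real.pi) with hΘ
  have hy1 : y1 P = (NN P * r : ℝ) * exp ((-t1 : ℝ) * I) := by
    rw [y1_eq hN]; conv_lhs => rw [e1]
    push_cast; rw [neg_mul]; ring
  have hy2 : y2 P = (NN P * r : ℝ) * exp ((-t2 : ℝ) * I) := by
    rw [y2_eq hN]; conv_lhs => rw [e2]
    push_cast; rw [neg_mul]; ring
  have hNr : 0 < NN P * r := mul_pos hN hr
  have hre : (y1 P).re = bet (-P.2.2) + 2 * (MM P).re := by simp [y1]
  have him : (y1 P).im = 2 * DD P := by simp [y1]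
  have hre2 : (y2 P).re = bet P.2.2 + 2 * (MM P).re := by simp [y2]
  have him2 : (y2 P).im = 2 * (MM P).im := by simp [y2]
  have hre' : (y1 P).re = (NN P * r) * Real.cos t1 := by
    rw [hy1, re_ofReal_mul, exp_ofReal_mul_I_re, Real.cos_neg]
  have him' : (y1 P).im = -((NN P * r) * Real.sin t1) := by
    rw [hy1, im_ofReal_mul, exp_ofReal_mul_I_im, Real.sin_neg]; ring
  have hre2' : (y2 P).re = (NN P * r) * Real.cos t2 := by
    rw [hy2, re_ofReal_mul, exp_ofReal_mul_I_re, Real.cos_neg]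
  have him2' : (y2 P).im = -((NN P * r) * Real.sin t2) := by
    rw [hy2, im_ofReal_mul, exp_ofReal_mul_I_im, Real.sin_neg]; ring
  have hs1 : 0 ≤ Real.sin t1 := Real.sin_nonneg_of_nonneg_of_le_pi ht1 ht1'
  have hs2 : 0 ≤ Real.sin t2 := Real.sin_nonneg_of_nonneg_of_le_pi ht2 ht2'
  have hD : 0 ≤ -DD P := by nlinarith [mul_nonneg hNr.le hs1]
  have hMi : 0 ≤ -(MM P).im := by nlinarith [mul_nonneg hNr.le hs2]
  -- nonvanishing
  have hYsq : 0 < ‖P.2.1‖ ^ 2 := by rw [norm_Y]; linarith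
  have hY : P.2.1 ≠ 0 := by
    intro h0; rw [h0] at hYsq; norm_num at hYsq
  have hY'sq : 0 < ‖(iota P).2.1‖ ^ 2 := by
    rw [norm_Y, rho2_iota, DD_iota]; linarith
  have hY' : (iota P).2.1 ≠ 0 := by
    intro h0; rw [h0] at hY'sq; norm_num at hY'sq
  have hYY : P.2.1 * (iota P).2.1 ≠ 0 := mul_ne_zero hY hY'
  have hnpos : 0 < normSq (P.2.1 * (iota P).2.1) := normSq_pos.2 hYY
  -- the formula
  have key : Qp false false P = ((r / (normSq (P.2.1 * (iota P).2.1) * (2 * Real.sqrt 2)) : ℝ) : ℂ) *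
      ((conj (MM P) + I * ((rho2 P - DD P : ℝ) : ℂ)) * exp ((-Θ : ℝ) * I)) := by
    have hE : (P.2.1 * (iota P).2.1)⁻¹ = (1 / (normSq (P.2.1 * (iota P).2.1) * (2 * Real.sqrt 2)) : ℝ)
        * (conj (MM P) + I * ((rho2 P - DD P : ℝ) : ℂ)) := by
      have h1 := norm_sq_Y P
      have h2 : (((rho2 P - DD P : ℝ) : ℂ)) = 2 * (P.2.1 * conj P.2.1) := by
        rw [h1]; push_cast; ring
      have h3 : conj (P.2.1 * (iota P).2.1) = (1 / (2 * (Real.sqrt 2 : ℂ))) *
          (conj (MM P) + I * ((rho2 P - DD P : ℝ) : ℂ)) := by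
        rw [h2, MM]
        simp only [iota, map_mul, map_div₀, map_sub, conj_ofReal, conj_conj, conj_I, map_ofNat]
        have := sq2_ne
        field_simp
        ring
      rw [inv_def, h3]
      have := sq2_ne
      have h5 : ((normSq (P.2.1 * (iota P).2.1) : ℝ) : ℂ) ≠ 0 := by exact_mod_cast hnpos.ne'
      push_cast
      field_simp
    have hl : Lp false P - Lp false (iota P) = ((t2 - t1 : ℝ) : ℂ) * I := by
      unfold Lp
      simp only [Bool.false_eq_true, if_false, z1_iota]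
      rw [l1, l2]
      push_cast; ring
    have hl2 : exp (Lp false P / 2) * exp (Lp false (iota P) / 2) =
        (r : ℂ) * exp ((-(t1 + t2) / 2 : ℝ) * I) := by
      rw [← exp_add]
      unfold Lp
      simp only [Bool.false_eq_true, if_false, z1_iota]
      rw [l1, l2]
      have : (r : ℂ) = exp (Real.log r) := by rw [← ofReal_exp, Real.exp_log hr]
      conv_rhs => rw [this, ← exp_add]
      congr 1
      push_cast; ring
    have hQ : Qp false false P = (exp (Lp false P / 2) * exp (Lp false (iota P) / 2)) *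
        (P.2.1 * (iota P).2.1)⁻¹ / RR (Lp false P - Lp false (iota P)) := by
      unfold Qp Ep
      simp only [Bool.false_eq_true, if_false]
      rw [mul_inv]
      ring
    rw [hQ, hl, RR_im, hl2, hE]
    have e3 : exp ((-Θ : ℝ) * I) = exp ((-(t1 + t2) / 2 : ℝ) * I) /
        exp (((t2 - t1) ^ 2 / (4 * Real.pi) : ℝ) * I) := by
      rw [← exp_sub]
      congr 1
      rw [hΘ]; push_cast; ring
    rw [e3]
    push_cast
    ring
  rw [key, re_form]
  apply mul_pos (by positivity)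
  rw [Real.cos_neg, Real.sin_neg]
  have hbb := bet_add P.2.2
  have := quad_same (bet (-P.2.2)) (bet P.2.2) (MM P).re (-(MM P).im) (-DD P) (rho2 P)
    (NN P * r) (NN P * r) t1 t2 (by linarith) (bet_nonneg _) (bet_nonneg _) hrho hb
    (by linarith [MM_DD P]) hD hMi hNr hNr (by rw [← hre, hre']) (by linarith)
    (by rw [← hre2, hre2']) (by linarith) ht1 ht1' ht2 ht2'
  have e4 : (conj (MM P) + I * ((rho2 P - DD P : ℝ) : ℂ)).re = (MM P).re := by simp
  have e5 : (conj (MM P) + I * ((rho2 P - DD P : ℝ) : ℂ)).im = rho2 P - DD P - (MM P).im := by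
    simp; ring
  rw [e4, e5]
  rw [hΘ]
  linarith

/-- case `(true, false)`. -/
private lemma case_tf (hP : P ∈ S4) (h : ‖z1 P‖ = ‖z2 P‖)
    (hi : 0 ≤ (z1 P).im) (hj : (z2 P).im ≤ 0) : 0 < (Qp true false P).re := by
  obtain ⟨hN, hr, hz1, hz2, hrho, hb⟩ := facts hP h
  obtain ⟨t1, ht1, ht1', e1, l1⟩ := Lp_true hz1 hi
  obtain ⟨t2, ht2, ht2', e2, l2⟩ := Lp_false hz2 hj
  set r := ‖z1 P‖ with hrdef
  rw [← h] at e2 l2
  set Θ : ℝ := (t1 + t2) / 2 - (t1 + t2) ^ 2 / (4 * Real.pi) with hΘ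
  have hy1 : y1 P = (NN P * r : ℝ) * exp ((t1 : ℝ) * I) := by
    rw [y1_eq hN]; conv_lhs => rw [e1]
    push_cast; ring
  have hy2 : y2 P = (NN P * r : ℝ) * exp ((-t2 : ℝ) * I) := by
    rw [y2_eq hN]; conv_lhs => rw [e2]
    push_cast; rw [neg_mul]; ring
  have hNr : 0 < NN P * r := mul_pos hN hr
  have hre : (y1 P).re = bet (-P.2.2) + 2 * (MM P).re := by simp [y1]
  have him : (y1 P).im = 2 * DD P := by simp [y1]
  have hre2 : (y2 P).re = bet P.2.2 + 2 * (MM P).re := by simp [y2]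
  have him2 : (y2 P).im = 2 * (MM P).im := by simp [y2]
  have hre' : (y1 P).re = (NN P * r) * Real.cos t1 := by
    rw [hy1, re_ofReal_mul, exp_ofReal_mul_I_re]
  have him' : (y1 P).im = (NN P * r) * Real.sin t1 := by
    rw [hy1, im_ofReal_mul, exp_ofReal_mul_I_im]
  have hre2' : (y2 P).re = (NN P * r) * Real.cos t2 := by
    rw [hy2, re_ofReal_mul, exp_ofReal_mul_I_re, Real.cos_neg]
  have him2' : (y2 P).im = -((NN P * r) * Real.sin t2) := by
    rw [hy2, im_ofReal_mul, exp_ofReal_mul_I_im, Real.sin_neg]; ring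
  have hs1 : 0 ≤ Real.sin t1 := Real.sin_nonneg_of_nonneg_of_le_pi ht1 ht1'
  have hs2 : 0 ≤ Real.sin t2 := Real.sin_nonneg_of_nonneg_of_le_pi ht2 ht2'
  have hD : 0 ≤ DD P := by nlinarith [mul_nonneg hNr.le hs1]
  have hMi : 0 ≤ -(MM P).im := by nlinarith [mul_nonneg hNr.le hs2]
  -- nonvanishing
  have hY'sq : 0 < ‖(iota P).2.1‖ ^ 2 := by
    rw [norm_Y, rho2_iota, DD_iota]; linarith
  have hY' : (iota P).2.1 ≠ 0 := by
    intro h0; rw [h0] at hY'sq; norm_num at hY'sq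
  have hnpos : 0 < normSq ((iota P).2.1) := normSq_pos.2 hY'
  -- the formula
  have key : Qp true false P = ((Real.sqrt 2 / (normSq ((iota P).2.1) * (NN P)) : ℝ) : ℂ) *
      ((((rho2 P + DD P : ℝ) : ℂ) + I * MM P) * exp ((Θ : ℝ) * I)) := by
    have hE : (4 * P.1) * ((iota P).2.1)⁻¹ = ((Real.sqrt 2 / normSq ((iota P).2.1) : ℝ) : ℂ)
        * (((rho2 P + DD P : ℝ) : ℂ) + I * MM P) := by
      have h1 := norm_sq_X P
      have h2 : (((rho2 P + DD P : ℝ) : ℂ)) = 2 * (P.1 * conj P.1) := by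
        rw [h1]; push_cast; ring
      have h3 : (4 * P.1) * conj ((iota P).2.1) = (Real.sqrt 2 : ℂ) *
          (((rho2 P + DD P : ℝ) : ℂ) + I * MM P) := by
        rw [h2, MM]
        simp only [iota, map_mul, map_div₀, map_sub, conj_ofReal, conj_conj, conj_I]
        have h7 := sq2_ne
        have h8 := sq2
        field_simp
        linear_combination (-2 * P.1 * conj P.1 - 2 * I * P.1 * P.2.1) * h8
      rw [inv_def, ← mul_assoc, h3]
      have h5 : ((normSq ((iota P).2.1) : ℝ) : ℂ) ≠ 0 := by exact_mod_cast hnpos.ne'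
      push_cast
      field_simp
    have hl : Lp true P - Lp false (iota P) = ((t1 + t2 : ℝ) : ℂ) * I := by
      unfold Lp
      simp only [Bool.false_eq_true, if_false, if_true, z1_iota]
      rw [l1, l2]
      push_cast; ring
    have hl2 : exp (Lp true P / 2) * exp (Lp false (iota P) / 2) =
        (r : ℂ) * exp (((t1 - t2) / 2 : ℝ) * I) := by
      rw [← exp_add]
      unfold Lp
      simp only [Bool.false_eq_true, if_false, if_true, z1_iota]
      rw [l1, l2]
      have : (r : ℂ) = exp (Real.log r) := by rw [← ofReal_exp, Real.exp_log hr]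
      conv_rhs => rw [this, ← exp_add]
      congr 1
      push_cast; ring
    have hQ : Qp true false P = (exp (Lp true P / 2) * exp (Lp false (iota P) / 2)) *
        ((4 * P.1) * ((iota P).2.1)⁻¹) / y2 P / RR (Lp true P - Lp false (iota P)) := by
      unfold Qp Ep
      simp only [Bool.false_eq_true, if_false, if_true]
      ring
    rw [hQ, hl, RR_im, hl2, hE, hy2]
    have e3 : exp ((Θ : ℝ) * I) = exp (((t1 - t2) / 2 : ℝ) * I) / exp ((-t2 : ℝ) * I) /
        exp (((t1 + t2) ^ 2 / (4 * Real.pi) : ℝ) * I) := by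
      rw [← exp_sub, ← exp_sub]
      congr 1
      rw [hΘ]; push_cast; ring
    rw [e3]
    have h4 := exp_ne_zero ((-t2 : ℝ) * I)
    have h5 := exp_ne_zero (((t1 + t2) ^ 2 / (4 * Real.pi) : ℝ) * I)
    have h6 : ((NN P * r : ℝ) : ℂ) ≠ 0 := by exact_mod_cast hNr.ne'
    have h10 : ((normSq ((iota P).2.1) : ℝ) : ℂ) ≠ 0 := by exact_mod_cast hnpos.ne'
    push_cast at h6 h4 h5 ⊢
    have h8 : (NN P : ℂ) ≠ 0 := left_ne_zero_of_mul h6
    have h9 : (r : ℂ) ≠ 0 := right_ne_zero_of_mul h6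
    field_simp
  rw [key, re_form]
  apply mul_pos (by positivity)
  have hMD := MM_DD P
  have habs : |(MM P).re| ≤ rho2 P := abs_le_of_sq_le_sq (by nlinarith [sq_nonneg (MM P).im, sq_nonneg (DD P)]) hrho.le
  have hcos : 0 < (MM P).re → t1 < Real.pi / 2 ∧ t2 < Real.pi / 2 := by
    intro hm
    constructor
    · by_contra hcon
      push Not at hcon
      have := Real.cos_nonpos_of_pi_div_two_le_of_le hcon (by linarith [Real.pi_pos])
      nlinarith [bet_nonneg (-P.2.2), mul_nonneg hNr.le (neg_nonneg.2 this)]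
    · by_contra hcon
      push Not at hcon
      have := Real.cos_nonpos_of_pi_div_two_le_of_le hcon (by linarith [Real.pi_pos])
      nlinarith [bet_nonneg (P.2.2), mul_nonneg hNr.le (neg_nonneg.2 this)]
  have := quad_diff (MM P).re (rho2 P) (rho2 P + DD P - (MM P).im) t1 t2 hrho (by linarith)
    habs ht1 ht1' ht2 ht2' hcos
  have e4 : (((rho2 P + DD P : ℝ) : ℂ) + I * MM P).re = rho2 P + DD P - (MM P).im := by
    simp; ring
  have e5 : (((rho2 P + DD P : ℝ) : ℂ) + I * MM P).im = (MM P).re := by simp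
  rw [e4, e5]
  exact this

/-- case `(false, true)`. -/
private lemma case_ft (hP : P ∈ S4) (h : ‖z1 P‖ = ‖z2 P‖)
    (hi : (z1 P).im ≤ 0) (hj : 0 ≤ (z2 P).im) : 0 < (Qp false true P).re := by
  obtain ⟨hN, hr, hz1, hz2, hrho, hb⟩ := facts hP h
  obtain ⟨t1, ht1, ht1', e1, l1⟩ := Lp_false hz1 hi
  obtain ⟨t2, ht2, ht2', e2, l2⟩ := Lp_true hz2 hj
  set r := ‖z1 P‖ with hrdef
  rw [← h] at e2 l2
  set Θ : ℝ := (t1 + t2) / 2 - (t1 + t2) ^ 2 / (4 * Real.pi) with hΘ
  have hy1 : y1 P = (NN P * r : ℝ) * exp ((-t1 : ℝ) * I) := by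
    rw [y1_eq hN]; conv_lhs => rw [e1]
    push_cast; rw [neg_mul]; ring
  have hy2 : y2 P = (NN P * r : ℝ) * exp ((t2 : ℝ) * I) := by
    rw [y2_eq hN]; conv_lhs => rw [e2]
    push_cast; ring
  have hNr : 0 < NN P * r := mul_pos hN hr
  have hre : (y1 P).re = bet (-P.2.2) + 2 * (MM P).re := by simp [y1]
  have him : (y1 P).im = 2 * DD P := by simp [y1]
  have hre2 : (y2 P).re = bet P.2.2 + 2 * (MM P).re := by simp [y2]
  have him2 : (y2 P).im = 2 * (MM P).im := by simp [y2]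
  have hre' : (y1 P).re = (NN P * r) * Real.cos t1 := by
    rw [hy1, re_ofReal_mul, exp_ofReal_mul_I_re, Real.cos_neg]
  have him' : (y1 P).im = -((NN P * r) * Real.sin t1) := by
    rw [hy1, im_ofReal_mul, exp_ofReal_mul_I_im, Real.sin_neg]; ring
  have hre2' : (y2 P).re = (NN P * r) * Real.cos t2 := by
    rw [hy2, re_ofReal_mul, exp_ofReal_mul_I_re]
  have him2' : (y2 P).im = (NN P * r) * Real.sin t2 := by
    rw [hy2, im_ofReal_mul, exp_ofReal_mul_I_im]
  have hs1 : 0 ≤ Real.sin t1 := Real.sin_nonneg_of_nonneg_of_le_pi ht1 ht1'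
  have hs2 : 0 ≤ Real.sin t2 := Real.sin_nonneg_of_nonneg_of_le_pi ht2 ht2'
  have hD : 0 ≤ -DD P := by nlinarith [mul_nonneg hNr.le hs1]
  have hMi : 0 ≤ (MM P).im := by nlinarith [mul_nonneg hNr.le hs2]
  -- nonvanishing
  have hYsq : 0 < ‖P.2.1‖ ^ 2 := by rw [norm_Y]; linarith
  have hY : P.2.1 ≠ 0 := by
    intro h0; rw [h0] at hYsq; norm_num at hYsq
  have hnpos : 0 < normSq (P.2.1) := normSq_pos.2 hY
  -- the formula
  have key : Qp false true P = ((Real.sqrt 2 / (normSq (P.2.1) * (NN P)) : ℝ) : ℂ) *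
      ((((rho2 P - DD P : ℝ) : ℂ) + I * conj (MM P)) * exp ((Θ : ℝ) * I)) := by
    have hE : (P.2.1)⁻¹ * (4 * (iota P).1) = ((Real.sqrt 2 / normSq (P.2.1) : ℝ) : ℂ)
        * (((rho2 P - DD P : ℝ) : ℂ) + I * conj (MM P)) := by
      have h1 := norm_sq_Y P
      have h2 : (((rho2 P - DD P : ℝ) : ℂ)) = 2 * (P.2.1 * conj P.2.1) := by
        rw [h1]; push_cast; ring
      have h3 : conj P.2.1 * (4 * (iota P).1) = (Real.sqrt 2 : ℂ) *
          (((rho2 P - DD P : ℝ) : ℂ) + I * conj (MM P)) := by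
        rw [h2, MM]
        simp only [iota, map_mul, map_ofNat]
        have h7 := sq2_ne
        have h8 := sq2
        field_simp
        linear_combination (-2 * P.2.1 * conj P.2.1 - 2 * I * conj P.1 * conj P.2.1) * h8
      have h5 : ((normSq (P.2.1) : ℝ) : ℂ) ≠ 0 := by exact_mod_cast hnpos.ne'
      rw [inv_def, mul_right_comm, h3]
      push_cast
      field_simp
    have hl : Lp false P - Lp true (iota P) = ((-(t1 + t2) : ℝ) : ℂ) * I := by
      unfold Lp
      simp only [Bool.false_eq_true, if_false, if_true, z1_iota]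
      rw [l1, l2]
      push_cast; ring
    have hl2 : exp (Lp false P / 2) * exp (Lp true (iota P) / 2) =
        (r : ℂ) * exp (((t2 - t1) / 2 : ℝ) * I) := by
      rw [← exp_add]
      unfold Lp
      simp only [Bool.false_eq_true, if_false, if_true, z1_iota]
      rw [l1, l2]
      have : (r : ℂ) = exp (Real.log r) := by rw [← ofReal_exp, Real.exp_log hr]
      conv_rhs => rw [this, ← exp_add]
      congr 1
      push_cast; ring
    have hQ : Qp false true P = (exp (Lp false P / 2) * exp (Lp true (iota P) / 2)) *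
        ((P.2.1)⁻¹ * (4 * (iota P).1)) / y1 P / RR (Lp false P - Lp true (iota P)) := by
      unfold Qp Ep
      simp only [Bool.false_eq_true, if_false, if_true, y2_iota]
      ring
    rw [hQ, hl, RR_im, hl2, hE, hy1]
    have e3 : exp ((Θ : ℝ) * I) = exp (((t2 - t1) / 2 : ℝ) * I) / exp ((-t1 : ℝ) * I) /
        exp (((-(t1 + t2)) ^ 2 / (4 * Real.pi) : ℝ) * I) := by
      rw [← exp_sub, ← exp_sub]
      congr 1
      rw [hΘ]; push_cast; ring
    rw [e3]
    have h4 := exp_ne_zero ((-t1 : ℝ) * I)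
    have h5 := exp_ne_zero (((-(t1 + t2)) ^ 2 / (4 * Real.pi) : ℝ) * I)
    have h6 : ((NN P * r : ℝ) : ℂ) ≠ 0 := by exact_mod_cast hNr.ne'
    have h10 : ((normSq (P.2.1) : ℝ) : ℂ) ≠ 0 := by exact_mod_cast hnpos.ne'
    push_cast at h6 h4 h5 ⊢
    have h8 : (NN P : ℂ) ≠ 0 := left_ne_zero_of_mul h6
    have h9 : (r : ℂ) ≠ 0 := right_ne_zero_of_mul h6
    field_simp
  rw [key, re_form]
  apply mul_pos (by positivity)
  have hMD := MM_DD P
  have habs : |(MM P).re| ≤ rho2 P := abs_le_of_sq_le_sq (by nlinarith [sq_nonneg (MM P).im, sq_nonneg (DD P)]) hrho.le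
  have hcos : 0 < (MM P).re → t1 < Real.pi / 2 ∧ t2 < Real.pi / 2 := by
    intro hm
    constructor
    · by_contra hcon
      push Not at hcon
      have := Real.cos_nonpos_of_pi_div_two_le_of_le hcon (by linarith [Real.pi_pos])
      nlinarith [bet_nonneg (-P.2.2), mul_nonneg hNr.le (neg_nonneg.2 this)]
    · by_contra hcon
      push Not at hcon
      have := Real.cos_nonpos_of_pi_div_two_le_of_le hcon (by linarith [Real.pi_pos])
      nlinarith [bet_nonneg (P.2.2), mul_nonneg hNr.le (neg_nonneg.2 this)]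
  have := quad_diff (MM P).re (rho2 P) (rho2 P - DD P + (MM P).im) t1 t2 hrho (by linarith)
    habs ht1 ht1' ht2 ht2' hcos
  have e4 : (((rho2 P - DD P : ℝ) : ℂ) + I * conj (MM P)).re = rho2 P - DD P + (MM P).im := by
    simp
  have e5 : (((rho2 P - DD P : ℝ) : ℂ) + I * conj (MM P)).im = (MM P).re := by simp
  rw [e4, e5]
  exact this

end

theorem Qp_pos_closed {P : A4} (hP : P ∈ S4) (h : ‖z1 P‖ = ‖z2 P‖) (i j : Bool)
    (hi : 0 ≤ sgn i * (z1 P).im) (hj : 0 ≤ sgn j * (z2 P).im) : 0 < (Qp i j P).re := by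
  cases i <;> cases j <;> simp only [sgn, if_true, if_false, Bool.false_eq_true, one_mul, neg_mul, Left.nonneg_neg_iff] at hi hj
  · exact case_ff hP h hi hj
  · exact case_ft hP h hi hj
  · exact case_tf hP h hi hj
  · exact case_tt hP h hi hj

end Pool.Agent.S4T2
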