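import Pool.Agent.Lib.MP_1d980c_gt.S4.QCombA
import Pool.Agent.Lib.MP_1d980c_gt.S4.Eps

/-! Task F2: the function `QQ`. -/

set_option autoImplicit false
open Complex ComplexConjugate Topology
open scoped ContDiff

namespace Pool.Agent.S4T2

private lemma qc_z_ne {δ : ℝ} (hδ' : δ ≤ 1 / 20) {P : A4} (hN : 0 < NN P)
    (hw : |‖z1 P‖ ^ 2 - ‖z2 P‖ ^ 2| < δ) : z1 P ≠ 0 ∧ z2 P ≠ 0 := by
  have h1 := norm_z P hN
  have h2 := abs_lt.mp hw
  constructor
  · intro h
    rw [h, norm_zero] at h1 h2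
    nlinarith [h2.1, h2.2]
  · intro h
    rw [h, norm_zero] at h1 h2
    nlinarith [h2.1, h2.2]

private lemma qc_hw_iota {δ : ℝ} {P : A4} (hw : |‖z1 P‖ ^ 2 - ‖z2 P‖ ^ 2| < δ) :
    |‖z1 (iota P)‖ ^ 2 - ‖z2 (iota P)‖ ^ 2| < δ := by
  rw [z1_iota, z2_iota, abs_sub_comm]
  exact hw

private lemma qc_RR_comm (a b : ℂ) : RR (a - b) = RR (b - a) := by
  rw [← RR_neg (a - b), neg_sub]

private lemma qc_exp_Lp (i : Bool) {P : A4} (hz : z1 P ≠ 0) : exp (Lp i P) = z1 P := by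
  have hpi : exp ((Real.pi : ℂ) / 2 * I) = I := Complex.exp_pi_div_two_mul_I
  cases i
  · simp only [Lp, Bool.false_eq_true, if_false]
    rw [exp_sub, exp_log (mul_ne_zero I_ne_zero hz), hpi]
    field_simp
  · simp only [Lp, if_true]
    rw [exp_add, exp_log (mul_ne_zero (neg_ne_zero.mpr I_ne_zero) hz), hpi]
    have : -I * z1 P * I = -(I * I) * z1 P := by ring
    rw [this, I_mul_I]
    ring

theorem QQ_eq {δ : ℝ} (hδ : 0 < δ) (hδ' : δ ≤ 1 / 20) {P : A4} (hN : 0 < NN P)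
    (hw : |‖z1 P‖ ^ 2 - ‖z2 P‖ ^ 2| < δ) (α β : Bool) (hα : Valid δ α P)
    (hβ : Valid δ β (iota P)) :
    QQ δ P = TA δ α P * TA δ β (iota P) / RR (Lb α P - Lb β (iota P)) := by
  obtain ⟨hz1, hz2⟩ := qc_z_ne hδ' hN hw
  have hN' : 0 < NN (iota P) := by rw [NN_iota]; exact hN
  have hz1' : z1 (iota P) ≠ 0 := by rw [z1_iota]; exact hz2
  have hz2' : z2 (iota P) ≠ 0 := by rw [z2_iota]; exact hz1
  have hv := valid_br hδ hδ' hN hw
  have hv' := valid_br hδ hδ' hN' (qc_hw_iota hw)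
  have e1 := TA_div hδ hz1 hz2 (br P) α hv hα (Lb (br (iota P)) (iota P))
    (by rw [exp_Lb hz1', z1_iota])
  have e2 := TA_div hδ hz1' hz2' (br (iota P)) β hv' hβ (Lb α P)
    (by rw [exp_Lb hz1, z2_iota])
  calc QQ δ P = (TA δ (br P) P / RR (Lb (br P) P - Lb (br (iota P)) (iota P))) *
        TA δ (br (iota P)) (iota P) := by rw [QQ]; ring
    _ = (TA δ α P / RR (Lb α P - Lb (br (iota P)) (iota P))) *
        TA δ (br (iota P)) (iota P) := by rw [e1]
    _ = TA δ α P * (TA δ (br (iota P)) (iota P) /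
        RR (Lb (br (iota P)) (iota P) - Lb α P)) := by
          rw [qc_RR_comm (Lb α P) (Lb (br (iota P)) (iota P))]; ring
    _ = TA δ α P * (TA δ β (iota P) / RR (Lb β (iota P) - Lb α P)) := by rw [e2]
    _ = _ := by rw [qc_RR_comm (Lb β (iota P)) (Lb α P)]; ring

theorem QQ_comb {δ : ℝ} (hδ : 0 < δ) (hδ' : δ ≤ 1 / 20) {P : A4} (hN : 0 < NN P)
    (hw : |‖z1 P‖ ^ 2 - ‖z2 P‖ ^ 2| < δ) :
    QQ δ P = ∑ i : Bool, ∑ j : Bool, ((wt δ i P * wt δ j (iota P) : ℝ) : ℂ) * Qp i j P := by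
  obtain ⟨hz1, hz2⟩ := qc_z_ne hδ' hN hw
  have hN' : 0 < NN (iota P) := by rw [NN_iota]; exact hN
  have hz1' : z1 (iota P) ≠ 0 := by rw [z1_iota]; exact hz2
  have hz2' : z2 (iota P) ≠ 0 := by rw [z2_iota]; exact hz1
  have hv := valid_br hδ hδ' hN hw
  have hv' := valid_br hδ hδ' hN' (qc_hw_iota hw)
  have e1 := TA_comb hδ hz1 hz2 (br P) hv (Lb (br (iota P)) (iota P))
    (by rw [exp_Lb hz1', z1_iota])
  have e2 : ∀ i : Bool, TA δ (br (iota P)) (iota P) /
      RR (Lb (br (iota P)) (iota P) - Lp i P) =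
      ∑ j : Bool, (wt δ j (iota P) : ℂ) * Ep j (iota P) / RR (Lp j (iota P) - Lp i P) := by
    intro i
    exact TA_comb hδ hz1' hz2' (br (iota P)) hv' (Lp i P) (by rw [qc_exp_Lp i hz1, z2_iota])
  calc QQ δ P = (TA δ (br P) P / RR (Lb (br P) P - Lb (br (iota P)) (iota P))) *
        TA δ (br (iota P)) (iota P) := by rw [QQ]; ring
    _ = (∑ i : Bool, (wt δ i P : ℂ) * Ep i P /
          RR (Lp i P - Lb (br (iota P)) (iota P))) * TA δ (br (iota P)) (iota P) := by rw [e1]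
    _ = ∑ i : Bool, (wt δ i P : ℂ) * Ep i P * (TA δ (br (iota P)) (iota P) /
          RR (Lb (br (iota P)) (iota P) - Lp i P)) := by
        rw [Finset.sum_mul]
        apply Finset.sum_congr rfl
        intro i _
        rw [qc_RR_comm (Lp i P) (Lb (br (iota P)) (iota P))]
        ring
    _ = ∑ i : Bool, (wt δ i P : ℂ) * Ep i P *
          ∑ j : Bool, (wt δ j (iota P) : ℂ) * Ep j (iota P) / RR (Lp j (iota P) - Lp i P) := by
        apply Finset.sum_congr rfl
        intro i _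
        rw [e2 i]
    _ = _ := by
        apply Finset.sum_congr rfl
        intro i _
        rw [Finset.mul_sum]
        apply Finset.sum_congr rfl
        intro j _
        rw [Qp, qc_RR_comm (Lp j (iota P)) (Lp i P)]
        push_cast
        ring

private lemma qc_wt_nonneg (δ : ℝ) (i : Bool) (P : A4) : 0 ≤ wt δ i P := by
  cases i
  · simp only [wt, Bool.false_eq_true, if_false]
    linarith [psi_le_one δ P]
  · simp only [wt, if_true]
    exact psi_nonneg δ P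

private lemma qc_wt_sum (δ : ℝ) (P : A4) : ∑ i : Bool, wt δ i P = 1 := by
  simp [wt]

private lemma qc_wt_ne {δ : ℝ} (hδ : 0 < δ) (i : Bool) (P : A4) (h : wt δ i P ≠ 0) :
    -δ ≤ sgn i * (z1 P).im := by
  by_contra hlt
  push Not at hlt
  apply h
  cases i
  · simp only [sgn, Bool.false_eq_true, if_false] at hlt
    simp only [wt, Bool.false_eq_true, if_false]
    rw [psi_eq_one hδ (by linarith)]
    ring
  · simp only [sgn, if_true] at hlt
    simp only [wt, if_true]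
    exact psi_eq_zero hδ (by linarith)

theorem QQ_re_pos {δ : ℝ} (hδ : GoodDelta δ) {P : A4} (hP : P ∈ S4)
    (hw : |‖z1 P‖ ^ 2 - ‖z2 P‖ ^ 2| < δ) : 0 < (QQ δ P).re := by
  obtain ⟨h0, h1, h2⟩ := hδ
  have hN := NN_pos hP
  rw [QQ_comb h0 h1 hN hw]
  have hre : (∑ i : Bool, ∑ j : Bool,
      ((wt δ i P * wt δ j (iota P) : ℝ) : ℂ) * Qp i j P).re =
      ∑ i : Bool, ∑ j : Bool, (wt δ i P * wt δ j (iota P)) * (Qp i j P).re := by
    rw [Complex.re_sum]
    apply Finset.sum_congr rfl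
    intro i _
    rw [Complex.re_sum]
    apply Finset.sum_congr rfl
    intro j _
    rw [Complex.re_ofReal_mul]
  rw [hre]
  have hpos : ∀ i j : Bool, wt δ i P * wt δ j (iota P) ≠ 0 → 0 < (Qp i j P).re := by
    intro i j hij
    have hi := left_ne_zero_of_mul hij
    have hj := right_ne_zero_of_mul hij
    have g1 := qc_wt_ne h0 i P hi
    have g2 := qc_wt_ne h0 j (iota P) hj
    rw [z1_iota] at g2
    exact h2 P hP hw.le i j g1 g2
  have hnn : ∀ i j : Bool, 0 ≤ (wt δ i P * wt δ j (iota P)) * (Qp i j P).re := by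
    intro i j
    by_cases hij : wt δ i P * wt δ j (iota P) = 0
    · rw [hij, zero_mul]
    · exact mul_nonneg (mul_nonneg (qc_wt_nonneg δ i P) (qc_wt_nonneg δ j (iota P)))
        (hpos i j hij).le
  -- some weight is positive
  have hex : ∃ i j : Bool, wt δ i P * wt δ j (iota P) ≠ 0 := by
    by_contra hno
    push Not at hno
    have hs : (∑ i : Bool, wt δ i P) * (∑ j : Bool, wt δ j (iota P)) = 0 := by
      rw [Finset.sum_mul_sum]
      apply Finset.sum_eq_zero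
      intro i _
      apply Finset.sum_eq_zero
      intro j _
      exact hno i j
    rw [qc_wt_sum, qc_wt_sum] at hs
    norm_num at hs
  obtain ⟨i, j, hij⟩ := hex
  have hterm : 0 < (wt δ i P * wt δ j (iota P)) * (Qp i j P).re := by
    apply mul_pos _ (hpos i j hij)
    exact lt_of_le_of_ne (mul_nonneg (qc_wt_nonneg δ i P) (qc_wt_nonneg δ j (iota P)))
      (Ne.symm hij)
  refine lt_of_lt_of_le hterm ?_
  refine le_trans (Finset.single_le_sum (f := fun j => (wt δ i P * wt δ j (iota P)) *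
    (Qp i j P).re) (fun j _ => hnn i j) (Finset.mem_univ j)) ?_
  exact Finset.single_le_sum (f := fun i => ∑ j : Bool, (wt δ i P * wt δ j (iota P)) *
    (Qp i j P).re) (fun i _ => Finset.sum_nonneg (fun j _ => hnn i j)) (Finset.mem_univ i)

theorem QQ_iota (δ : ℝ) (P : A4) : QQ δ (iota P) = QQ δ P := by
  rw [QQ, QQ, iota_iota, qc_RR_comm (Lb (br (iota P)) (iota P)) (Lb (br P) P),
    mul_comm (TA δ (br (iota P)) (iota P))]

private lemma qc_NN_act (φ : ℝ) (P : A4) : NN (act φ P) = NN P := by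
  rw [NN, NN, y1_act, y2_act]

private lemma qc_z1_act (φ : ℝ) (P : A4) : z1 (act φ P) = z1 P := by
  rw [z1, z1, y1_act, qc_NN_act]

private lemma qc_ww_act (φ : ℝ) (P : A4) : ww (act φ P) = ww P := by
  rw [ww, ww, y1_act, y2_act]

private lemma qc_Lb_act (α : Bool) (φ : ℝ) (P : A4) : Lb α (act φ P) = Lb α P := by
  rw [Lb, Lb, qc_z1_act]

private lemma qc_br_act (φ : ℝ) (P : A4) : br (act φ P) = br P := by
  rw [br, br, qc_z1_act]

private lemma qc_TA_act (δ : ℝ) (α : Bool) (φ : ℝ) (P : A4) :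
    TA δ α (act φ P) = exp (φ * I) * TA δ α P := by
  cases α
  · simp only [TA, Bool.false_eq_true, if_false]
    rw [FA_act]
  · simp only [TA, if_true]
    rw [FA_act, qc_ww_act]
    ring

theorem QQ_act (δ : ℝ) (φ : ℝ) (P : A4) : QQ δ (act φ P) = QQ δ P := by
  rw [QQ, QQ, iota_act, qc_br_act, qc_br_act, qc_Lb_act, qc_Lb_act, qc_TA_act, qc_TA_act]
  have h : exp (φ * I) * exp (((-φ : ℝ) : ℂ) * I) = 1 := by
    rw [← exp_add]
    push_cast
    rw [show (φ : ℂ) * I + -(φ : ℂ) * I = 0 by ring, exp_zero]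
  congr 1
  calc exp (φ * I) * TA δ (br P) P * (exp (((-φ : ℝ) : ℂ) * I) * TA δ (br (iota P)) (iota P))
      = (exp (φ * I) * exp (((-φ : ℝ) : ℂ) * I)) *
        (TA δ (br P) P * TA δ (br (iota P)) (iota P)) := by ring
    _ = _ := by rw [h, one_mul]

private lemma qc_contDiffAt_TA {δ : ℝ} (hδ : 0 < δ) (hδ' : δ ≤ 1 / 20) {P : A4} (hP : P ∈ S4)
    (α : Bool) (hv : Valid δ α P) (hz1 : z1 P ≠ 0) (hz2 : z2 P ≠ 0) :
    ContDiffAt ℝ ∞ (TA δ α) P := by
  have hN := NN_pos hP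
  have hF := contDiffAt_FA hδ hδ' hP α hv (fun _ => hz2)
  have hNc : (NN P : ℂ) ≠ 0 := by exact_mod_cast hN.ne'
  have hy1 : y1 P ≠ 0 := by
    rw [y1_eq hN]
    exact mul_ne_zero hNc hz1
  have hww : ww P ≠ 0 := by
    rw [ww_eq hN]
    exact div_ne_zero hz2 hz1
  cases α
  · have : TA δ false = FA δ false := by
      funext P'
      simp [TA]
    rw [this]
    exact hF
  · have : TA δ true = fun P' => FA δ true P' / ww P' := by
      funext P'
      simp [TA]
    rw [this]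
    simp only [div_eq_mul_inv]
    exact hF.mul ((contDiffAt_ww hy1).inv hww)

private lemma qc_contDiff_RR : ContDiff ℝ ∞ RR := by
  have : RR = fun l : ℂ => exp (l ^ 2 / (4 * Real.pi * I)) := by
    funext l
    rfl
  rw [this]
  exact ((contDiff_id.pow 2).div_const _).cexp

theorem contDiffAt_QQ {δ : ℝ} (hδ : 0 < δ) (hδ' : δ ≤ 1 / 20) {P : A4} (hP : P ∈ S4)
    (hw : |‖z1 P‖ ^ 2 - ‖z2 P‖ ^ 2| < δ) : ContDiffAt ℝ ∞ (QQ δ) P := by
  have hN := NN_pos hP
  obtain ⟨hz1, hz2⟩ := qc_z_ne hδ' hN hw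
  have hN' : 0 < NN (iota P) := by rw [NN_iota]; exact hN
  have hz1' : z1 (iota P) ≠ 0 := by rw [z1_iota]; exact hz2
  have hz2' : z2 (iota P) ≠ 0 := by rw [z2_iota]; exact hz1
  have hv := valid_br hδ hδ' hN hw
  have hv' := valid_br hδ hδ' hN' (qc_hw_iota hw)
  have hιc : ContinuousAt iota P := contDiff_iota.continuous.continuousAt
  -- the formula near `P`
  have ev1 : ∀ᶠ P' in 𝓝 P, 0 < NN P' :=
    (contDiffAt_NN hN).continuousAt.eventually (lt_mem_nhds hN)
  have ev2 : ∀ᶠ P' in 𝓝 P, |‖z1 P'‖ ^ 2 - ‖z2 P'‖ ^ 2| < δ := by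
    have hc : ContinuousAt (fun P' => |‖z1 P'‖ ^ 2 - ‖z2 P'‖ ^ 2|) P :=
      (((contDiffAt_z1 hN).continuousAt.norm.pow 2).sub
        ((contDiffAt_z2 hN).continuousAt.norm.pow 2)).abs
    exact hc.eventually (gt_mem_nhds hw)
  have ev3 := valid_eventually hN (br P) hv
  have ev4 : ∀ᶠ P' in 𝓝 P, Valid δ (br (iota P)) (iota P') :=
    hιc.eventually (valid_eventually hN' (br (iota P)) hv')
  have hform : QQ δ =ᶠ[𝓝 P] fun P' => TA δ (br P) P' * TA δ (br (iota P)) (iota P') /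
      RR (Lb (br P) P' - Lb (br (iota P)) (iota P')) := by
    filter_upwards [ev1, ev2, ev3, ev4] with P' g1 g2 g3 g4
    exact QQ_eq hδ hδ' g1 g2 (br P) (br (iota P)) g3 g4
  refine ContDiffAt.congr_of_eventuallyEq ?_ hform
  have c1 := qc_contDiffAt_TA hδ hδ' hP (br P) hv hz1 hz2
  have c2 : ContDiffAt ℝ ∞ (fun P' => TA δ (br (iota P)) (iota P')) P :=
    (qc_contDiffAt_TA hδ hδ' (iota_mem hP) (br (iota P)) hv' hz1' hz2').comp P
      contDiff_iota.contDiffAt
  have c3 := contDiffAt_Lb hδ hN (br P) hv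
  have c4 : ContDiffAt ℝ ∞ (fun P' => Lb (br (iota P)) (iota P')) P :=
    (contDiffAt_Lb hδ hN' (br (iota P)) hv').comp P contDiff_iota.contDiffAt
  have c5 : ContDiffAt ℝ ∞ (fun P' => RR (Lb (br P) P' - Lb (br (iota P)) (iota P'))) P :=
    qc_contDiff_RR.contDiffAt.comp P (c3.sub c4)
  simp only [div_eq_mul_inv]
  exact (c1.mul c2).mul (c5.inv (RR_ne _))

end Pool.Agent.S4T2
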