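import Pool.Agent.Lib.MP_1d980c_gt.S4.TS

/-! Task F1: the function `QQ`. -/

set_option autoImplicit false
open Complex ComplexConjugate Topology
open scoped ContDiff

namespace Pool.Agent.S4T2

theorem RR_neg (l : ℂ) : RR (-l) = RR l := by unfold RR; rw [neg_sq]
theorem RR_ne (l : ℂ) : RR l ≠ 0 := exp_ne_zero _
/-- quasi-periodicity. -/
theorem RR_add (l : ℂ) : RR (l + 2 * Real.pi * I) = -exp l * RR l := by
  have hp : (Real.pi : ℂ) ≠ 0 := by exact_mod_cast Real.pi_ne_zero
  have h1 : (l + 2 * Real.pi * I) ^ 2 / (4 * Real.pi * I) =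
      l ^ 2 / (4 * Real.pi * I) + l + Real.pi * I := by
    field_simp
    ring_nf
  unfold RR
  rw [h1, exp_add, exp_add, exp_pi_mul_I]
  ring

private theorem RR_sub (l : ℂ) : RR (l - 2 * Real.pi * I) = -exp (-l) * RR l := by
  have h := RR_add (-l)
  have e : -l + 2 * Real.pi * I = -(l - 2 * Real.pi * I) := by ring
  rw [e, RR_neg, RR_neg] at h
  exact h

private lemma NN_pos_of_z1 {P : A4} (h : z1 P ≠ 0) : 0 < NN P := by
  have h0 : 0 ≤ NN P := Real.sqrt_nonneg _
  rcases h0.eq_or_lt with h1 | h1
  · exfalso; apply h; rw [z1, ← h1]; simp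
  · exact h1

private lemma ww_ne {P : A4} (hz1 : z1 P ≠ 0) (hz2 : z2 P ≠ 0) : ww P ≠ 0 := by
  rw [ww_eq (NN_pos_of_z1 hz1)]; exact div_ne_zero hz2 hz1

private lemma exp_sub_eq {P : A4} (hz1 : z1 P ≠ 0) (α : Bool) {L : ℂ}
    (hL : exp L = z2 P) : exp (-(Lb α P - L)) = ww P := by
  rw [neg_sub, exp_sub, hL, exp_Lb hz1, ww_eq (NN_pos_of_z1 hz1)]

private theorem TA_div_aux {δ : ℝ} (hδ : 0 < δ) {P : A4} (hz1 : z1 P ≠ 0) (hz2 : z2 P ≠ 0)
    (hv : Valid δ false P) (hv' : Valid δ true P) (L : ℂ) (hL : exp L = z2 P) :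
    TA δ false P / RR (Lb false P - L) = TA δ true P / RR (Lb true P - L) := by
  have hre : 0 < (z1 P).re := by simpa [Valid] using hv
  have him : δ < |(z1 P).im| := by
    have : (z1 P).re < 0 ∨ δ < |(z1 P).im| := by simpa [Valid] using hv'
    rcases this with h | h
    · linarith
    · exact h
  have hw := ww_ne hz1 hz2
  have e1 : TA δ false P = FA δ false P := by simp [TA]
  have e2 : TA δ true P = FA δ true P / ww P := by simp [TA]
  rw [e1, e2]
  rcases lt_abs.1 him with h | h
  · rw [Lb_rel_pos (by linarith), FA_rel_pos hδ h hz2, mul_div_cancel_left₀ _ hw]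
  · have h' : (z1 P).im < -δ := by linarith
    have hl : Lb true P - L = (Lb false P - L) + 2 * Real.pi * I := by
      rw [Lb_rel_neg (by linarith)]; ring
    have hexp : exp (Lb false P - L) = (ww P)⁻¹ := by
      rw [← exp_sub_eq hz1 false hL, ← exp_neg, neg_neg]
    rw [hl, RR_add, FA_rel_neg hδ h', hexp]
    have := RR_ne (Lb false P - L)
    field_simp

/-- independence of the branch. -/
theorem TA_div {δ : ℝ} (hδ : 0 < δ) {P : A4} (hz1 : z1 P ≠ 0) (hz2 : z2 P ≠ 0)
    (α α' : Bool) (hv : Valid δ α P) (hv' : Valid δ α' P) (L : ℂ) (hL : exp L = z2 P) :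
    TA δ α P / RR (Lb α P - L) = TA δ α' P / RR (Lb α' P - L) := by
  cases α <;> cases α'
  · rfl
  · exact TA_div_aux hδ hz1 hz2 hv hv' L hL
  · exact (TA_div_aux hδ hz1 hz2 hv' hv L hL).symm
  · rfl

private lemma arg_aux {z : ℂ} (hz : z ≠ 0) (c : ℂ) (θ : ℝ) (L : ℂ) (hc : c = exp (θ * I))
    (hL : exp L = z) (h1 : -Real.pi < L.im + θ) (h2 : L.im + θ ≤ Real.pi) :
    log (c * z) = L + θ * I := by
  rw [hc, ← hL, ← exp_add, add_comm ((θ : ℂ) * I) L, log_exp]
  · simpa using h1
  · simpa using h2

private lemma Lp_true_eq {P : A4} (hz : z1 P ≠ 0) {L : ℂ} (hL : exp L = z1 P)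
    (h1 : -(Real.pi / 2) < L.im) (h2 : L.im ≤ 3 * Real.pi / 2) : Lp true P = L := by
  have hc : (-I : ℂ) = exp (((-(Real.pi / 2) : ℝ) : ℂ) * I) := by
    push_cast
    rw [neg_mul, exp_neg, exp_pi_div_two_mul_I, inv_I]
  have := arg_aux hz (-I) (-(Real.pi / 2)) L hc hL (by linarith) (by linarith)
  unfold Lp
  simp only [if_true]
  rw [this]
  push_cast; ring

private lemma Lp_false_eq {P : A4} (hz : z1 P ≠ 0) {L : ℂ} (hL : exp L = z1 P)
    (h1 : -(3 * Real.pi / 2) < L.im) (h2 : L.im ≤ Real.pi / 2) : Lp false P = L := by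
  have hc : (I : ℂ) = exp ((((Real.pi / 2) : ℝ) : ℂ) * I) := by
    push_cast
    rw [exp_pi_div_two_mul_I]
  have := arg_aux hz I (Real.pi / 2) L hc hL (by linarith) (by linarith)
  unfold Lp
  simp only [Bool.false_eq_true, if_false]
  rw [this]
  push_cast; ring

private lemma Lb_false_im {P : A4} (h : 0 < (z1 P).re) :
    -(Real.pi / 2) < (Lb false P).im ∧ (Lb false P).im < Real.pi / 2 := by
  have e : (Lb false P).im = arg (z1 P) := by simp [Lb, log_im]
  rw [e]
  have := abs_lt.1 (abs_arg_lt_pi_div_two_iff.2 (Or.inl h))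
  exact this

private lemma Lb_true_im (P : A4) : (Lb true P).im = arg (-z1 P) + Real.pi := by
  simp [Lb, log_im]

/-- `Lb true` for `Re < 0`. -/
private lemma Lb_true_re {P : A4} (h : (z1 P).re < 0) :
    Real.pi / 2 < (Lb true P).im ∧ (Lb true P).im < 3 * Real.pi / 2 := by
  rw [Lb_true_im]
  have h' : 0 < (-z1 P).re := by simpa using h
  have := abs_lt.1 (abs_arg_lt_pi_div_two_iff.2 (Or.inl h'))
  constructor <;> linarith [this.1, this.2]

private lemma Lb_true_pos {P : A4} (h : 0 < (z1 P).im) :
    0 < (Lb true P).im ∧ (Lb true P).im < Real.pi := by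
  rw [Lb_true_im]
  have h' : (-z1 P).im < 0 := by simpa using h
  have h1 := arg_neg_iff.2 h'
  have h2 := neg_pi_lt_arg (-z1 P)
  constructor <;> linarith

private lemma Lb_true_neg {P : A4} (h : (z1 P).im < 0) :
    Real.pi < (Lb true P).im ∧ (Lb true P).im < 2 * Real.pi := by
  rw [Lb_true_im]
  have h' : 0 < (-z1 P).im := by simpa using h
  have h1 : 0 < arg (-z1 P) := by
    rcases (arg_nonneg_iff.2 h'.le).eq_or_lt with h2 | h2
    · exfalso
      have := arg_eq_zero_iff.1 h2.symm
      exact h'.ne' this.2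
    · exact h2
  have h2 : arg (-z1 P) < Real.pi := by
    rcases (arg_le_pi (-z1 P)).eq_or_lt with h2 | h2
    · exfalso
      have := arg_eq_pi_iff.1 h2
      exact h'.ne' this.2
    · exact h2
  constructor <;> linarith

/-- decomposition into pure forms. -/
theorem TA_comb {δ : ℝ} (hδ : 0 < δ) {P : A4} (hz1 : z1 P ≠ 0) (hz2 : z2 P ≠ 0)
    (α : Bool) (hv : Valid δ α P) (L : ℂ) (hL : exp L = z2 P) :
    TA δ α P / RR (Lb α P - L) =
      ∑ i : Bool, (wt δ i P : ℂ) * Ep i P / RR (Lp i P - L) := by
  have hp := Real.pi_pos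
  have hw := ww_ne hz1 hz2
  have hy1 : y1 P ≠ 0 := by
    intro h; apply hz1; rw [z1, h, zero_div]
  have hy2 : y2 P ≠ 0 := by
    intro h; apply hz2; rw [z2, h, zero_div]
  rw [Fintype.sum_bool]
  cases α
  · have hre : 0 < (z1 P).re := by simpa [Valid] using hv
    have him := Lb_false_im hre
    have e1 : Lp true P = Lb false P := Lp_true_eq hz1 (exp_Lb hz1 false) him.1 (by linarith [him.2])
    have e2 : Lp false P = Lb false P :=
      Lp_false_eq hz1 (exp_Lb hz1 false) (by linarith [him.1]) him.2.le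
    have e3 : TA δ false P = exp (Lb false P / 2) * tt δ P := by simp [TA, FA]
    rw [e3]
    unfold Ep wt tt
    rw [e1, e2]
    simp only [if_true, Bool.false_eq_true, if_false]
    ring
  · have hval : (z1 P).re < 0 ∨ δ < |(z1 P).im| := by simpa [Valid] using hv
    have e3 : TA δ true P = exp (Lb true P / 2) * ss δ P / ww P := by simp [TA, FA]
    -- the `true` term
    have t1 : (wt δ true P : ℂ) * Ep true P / RR (Lp true P - L) =
        exp (Lb true P / 2) * ((psi δ P : ℂ) * (4 * P.1) / y2 P) / RR (Lb true P - L) := by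
      by_cases hψ : psi δ P = 0
      · simp [wt, hψ]
      · have him : -δ < (z1 P).im := by
          by_contra hcon
          push Not at hcon
          exact hψ (psi_eq_zero hδ hcon)
        have h4 : -(Real.pi / 2) < (Lb true P).im ∧ (Lb true P).im ≤ 3 * Real.pi / 2 := by
          rcases hval with h | h
          · have := Lb_true_re h
            exact ⟨by linarith [this.1], this.2.le⟩
          · have hpos : 0 < (z1 P).im := by
              rcases lt_abs.1 h with h | h <;> linarith
            have := Lb_true_pos hpos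
            exact ⟨by linarith [this.1], by linarith [this.2]⟩
        have e1 : Lp true P = Lb true P := Lp_true_eq hz1 (exp_Lb hz1 true) h4.1 h4.2
        unfold Ep wt
        rw [e1]
        simp only [if_true]
        ring
    have t2 : (wt δ false P : ℂ) * Ep false P / RR (Lp false P - L) =
        exp (Lb true P / 2) * (((1 - psi δ P : ℝ) : ℂ) / (ww P * P.2.1)) / RR (Lb true P - L) := by
      by_cases hψ : psi δ P = 1
      · simp [wt, hψ]
      · have him : (z1 P).im < δ := by
          by_contra hcon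
          push Not at hcon
          exact hψ (psi_eq_one hδ hcon)
        have h4 : Real.pi / 2 < (Lb true P).im ∧ (Lb true P).im < 2 * Real.pi := by
          rcases hval with h | h
          · have := Lb_true_re h
            exact ⟨this.1, by linarith [this.2]⟩
          · have hneg : (z1 P).im < 0 := by
              rcases lt_abs.1 h with h | h <;> linarith
            have := Lb_true_neg hneg
            exact ⟨by linarith [this.1], this.2⟩
        have hexp : exp (Lb true P - 2 * Real.pi * I) = z1 P := by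
          rw [exp_sub, exp_two_pi_mul_I, div_one, exp_Lb hz1]
        have e1 : Lp false P = Lb true P - 2 * Real.pi * I := by
          apply Lp_false_eq hz1 hexp
          · simp; linarith [h4.1]
          · simp; linarith [h4.2]
        have e4 : exp ((Lb true P - 2 * Real.pi * I) / 2) = -exp (Lb true P / 2) := by
          rw [show (Lb true P - 2 * Real.pi * I) / 2 = Lb true P / 2 - Real.pi * I by ring,
            exp_sub, exp_pi_mul_I]
          ring
        have e5 : Lb true P - 2 * Real.pi * I - L = (Lb true P - L) - 2 * Real.pi * I := by ring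
        unfold Ep wt
        rw [e1]
        simp only [Bool.false_eq_true, if_false]
        rw [e4, e5, RR_sub, exp_sub_eq hz1 true hL]
        have := RR_ne (Lb true P - L)
        by_cases hY : P.2.1 = 0
        · rw [hY]; simp
        · field_simp
    rw [t1, t2, e3]
    have hww : ww P = y2 P / y1 P := rfl
    have := RR_ne (Lb true P - L)
    unfold ss
    by_cases hY : P.2.1 = 0
    · rw [hY, hww]
      simp
      field_simp
    · rw [hww]
      field_simp
      ring

/-- `br` is a valid branch near `{|z1| = |z2|}`. -/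
theorem valid_br {δ : ℝ} (hδ : 0 < δ) (hδ' : δ ≤ 1 / 20) {P : A4} (hN : 0 < NN P)
    (hw : |‖z1 P‖ ^ 2 - ‖z2 P‖ ^ 2| < δ) : Valid δ (br P) P := by
  have hz := norm_z P hN
  have hw' := abs_lt.1 hw
  unfold br
  by_cases h : 0 < (z1 P).re
  · rw [if_pos h]
    simpa [Valid] using h
  · rw [if_neg h]
    push Not at h
    have : (z1 P).re < 0 ∨ δ < |(z1 P).im| := by
      rcases h.lt_or_eq with h1 | h1
      · exact Or.inl h1
      · right
        have e : ‖z1 P‖ ^ 2 = (z1 P).re ^ 2 + (z1 P).im ^ 2 := by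
          rw [← normSq_eq_norm_sq, normSq_apply]; ring
        rw [h1] at e
        by_contra hcon
        push Not at hcon
        have : |(z1 P).im| ^ 2 ≤ δ ^ 2 := pow_le_pow_left₀ (abs_nonneg _) hcon 2
        rw [sq_abs] at this
        nlinarith
    simpa [Valid] using this

end Pool.Agent.S4T2
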