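import Pool.Agent.Lib.MP_1d980c_gt.S4.Defs

/-! Abstract data for the assembly. -/

set_option autoImplicit false
open Complex ComplexConjugate Topology
open scoped ContDiff

namespace Pool.Agent.S4T2

/-- the data of one side. -/
structure Side where
  U : Bool → Set A4
  N : Set A4
  w : A4 → ℂ
  L : Bool → A4 → ℂ
  F : Bool → A4 → ℂ
  x : A4 → ℂ
  y : A4 → ℂ

/-- the properties of one side. -/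
structure Side.Good (s : Side) (C : ℝ) : Prop where
  openU : ∀ α, ∀ P ∈ S4, P ∈ s.U α → ∀ᶠ P' in 𝓝 P, P' ∈ s.U α
  openN : ∀ P ∈ S4, P ∈ s.N → ∀ᶠ P' in 𝓝 P, P' ∈ s.N
  smooth_w : ∀ α, ∀ P ∈ S4, P ∈ s.U α → ContDiffAt ℝ ∞ s.w P
  smooth_L : ∀ α, ∀ P ∈ S4, P ∈ s.U α → ContDiffAt ℝ ∞ (s.L α) P
  smooth_F : ∀ α, ∀ P ∈ S4, P ∈ s.U α → ContDiffAt ℝ ∞ (s.F α) P
  F_ne : ∀ α, ∀ P ∈ S4, P ∈ s.U α → s.F α P ≠ 0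
  node_x : ∀ P ∈ S4, P ∈ s.N → ContDiffAt ℝ ∞ s.x P
  node_y : ∀ P ∈ S4, P ∈ s.N → ContDiffAt ℝ ∞ s.y P
  node_L : ∀ P ∈ S4, P ∈ s.N → ContDiffAt ℝ ∞ (s.L false) P
  node_w : ∀ P ∈ S4, P ∈ s.N → ∀ᶠ P' in 𝓝 P, s.w P' = s.x P' * s.y P'
  node_lt : ∀ P ∈ S4, P ∈ s.N → ‖s.w P‖ < 1
  reg_re : ∀ α, ∀ P ∈ S4, P ∈ s.U α → ∀ v, Tan4 P v → fderiv ℝ s.w P v = 0 →
    (fderiv ℝ (s.L α) P v).re = 0
  reg_est : ∀ α, ∀ P ∈ S4, P ∈ s.U α → ∀ v, Tan4 P v → fderiv ℝ s.w P v = 0 →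
    |(fderiv ℝ (s.F α) P v / s.F α P).re| ≤ C * ‖fderiv ℝ (s.L α) P v‖
  reg_inj : ∀ α, ∀ P ∈ S4, P ∈ s.U α → ∀ v, Tan4 P v → fderiv ℝ s.w P v = 0 →
    fderiv ℝ (s.L α) P v = 0 → fderiv ℝ (s.F α) P v = 0 → v = 0
  node_re : ∀ P ∈ S4, P ∈ s.N → ∀ v, Tan4 P v → ∀ l : ℂ,
    fderiv ℝ s.x P v = s.x P * l → fderiv ℝ s.y P v = -(s.y P * l) →
    (fderiv ℝ (s.L false) P v).re = 0 ∧ (fderiv ℝ (s.L false) P v).im * l.re ≤ 0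
  node_inj : ∀ P ∈ S4, P ∈ s.N → ∀ v, Tan4 P v → fderiv ℝ s.x P v = 0 →
    fderiv ℝ s.y P v = 0 → v = 0
  rel_01 : ∀ P ∈ S4, P ∈ s.U false → P ∈ s.U true → s.w P ≠ 0 ∧
    ((∀ᶠ P' in 𝓝 P, s.L true P' = s.L false P' ∧ s.F true P' = s.w P' * s.F false P') ∨
     (∀ᶠ P' in 𝓝 P, s.L true P' = s.L false P' + 2 * Real.pi * I ∧ s.F true P' = -s.F false P'))
  rel_0N : ∀ P ∈ S4, P ∈ s.U false → P ∈ s.N →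
    ∀ᶠ P' in 𝓝 P, s.x P' * s.F false P' = 1 ∧ s.y P' = s.w P' * s.F false P'
  rel_1N : ∀ P ∈ S4, P ∈ s.U true → P ∈ s.N →
    (∀ᶠ P' in 𝓝 P, s.L true P' = s.L false P' ∧ s.y P' = s.F true P' ∧
      s.x P' * s.F true P' = s.w P') ∨
    (∀ᶠ P' in 𝓝 P, s.L true P' = s.L false P' + 2 * Real.pi * I ∧ s.x P' * s.F true P' = -1 ∧
      s.y P' = -(s.w P' * s.F true P'))

/-- the gluing of two sides. -/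
structure Cross (s t : Side) : Prop where
  glue : ∀ α β, ∀ P ∈ S4, P ∈ s.U α → P ∈ t.U β →
    ∀ᶠ P' in 𝓝 P, s.w P' * t.w P' = 1 ∧ exp (s.L α P' - t.L β P') = t.w P' ∧
      s.F α P' * t.F β P' * (if β then s.w P' else 1) =
        (if α then s.w P' else 1) * RR (s.L α P' - t.L β P')
  disj1 : ∀ β, ∀ P ∈ S4, P ∈ s.N → P ∉ t.U β
  disj2 : ∀ α, ∀ P ∈ S4, P ∈ t.N → P ∉ s.U α
  disj3 : ∀ P ∈ S4, P ∈ s.N → P ∉ t.N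
  cover : ∀ P ∈ S4, (∃ α, P ∈ s.U α) ∨ P ∈ s.N ∨ (∃ α, P ∈ t.U α) ∨ P ∈ t.N

/-- abstract data of an odd dimensional manifold `S ⊆ V` with germs `(b, r) : V → ℂ × R`. -/
structure OddGerms {V R : Type} [NormedAddCommGroup V] [NormedSpace ℝ V] [NormedAddCommGroup R]
    [NormedSpace ℂ R] (S : Set V) (tan : V → V → Prop)
    (G : V → Set ((V → ℂ) × (V → R))) : Prop where
  ex : ∀ u ∈ S, ∃ d ∈ G u, ∀ᶠ u' in 𝓝 u, d ∈ G u'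
  smooth_b : ∀ u ∈ S, ∀ d ∈ G u, ContDiffAt ℝ ∞ d.1 u
  smooth_r : ∀ u ∈ S, ∀ d ∈ G u, ContDiffAt ℝ ∞ d.2 u
  real : ∀ u ∈ S, ∀ d ∈ G u, ∀ v, tan u v → fderiv ℝ d.2 u v = 0 → (fderiv ℝ d.1 u v).im = 0
  inj : ∀ u ∈ S, ∀ d ∈ G u, ∀ v, tan u v → fderiv ℝ d.2 u v = 0 → fderiv ℝ d.1 u v = 0 → v = 0
  trans : ∀ u ∈ S, ∀ d ∈ G u, ∀ d' ∈ G u, ∃ (g : R → ℂ) (H : R → R),
    ContDiffAt ℂ ∞ g (d.2 u) ∧ ContDiffAt ℂ ∞ H (d.2 u) ∧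
    ∀ᶠ u' in 𝓝 u, d'.1 u' = d.1 u' + g (d.2 u') ∧ d'.2 u' = H (d.2 u')

/-- the exponent. -/
noncomputable def lam (ε μ : ℝ) (w L b1 b2 : ℂ) : ℂ :=
  -(I * μ / 2) * L - 2 * Real.pi * I * w * (b1 - I * ε * b2)

/-- the coordinate `ζ`. -/
noncomputable def zet (ε μ : ℝ) (w L b1 b2 : ℂ) : ℂ :=
  b1 * (1 + w ^ 2) + I * ε * b2 * (1 - w ^ 2) + (μ / (2 * Real.pi)) * w * L

section charts

variable {V1 V2 R1 R2 : Type}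

/-- the regular charts. -/
noncomputable def regChart (s : Side) (α : Bool) (ε μ : ℝ) (d1 : (V1 → ℂ) × (V1 → R1))
    (d2 : (V2 → ℂ) × (V2 → R2)) (x : A4 × V1 × V2) : ℂ × ℂ × ℂ × R1 × R2 :=
  (s.F α x.1 * exp (lam ε μ (s.w x.1) (s.L α x.1) (d1.1 x.2.1) (d2.1 x.2.2)),
    zet ε μ (s.w x.1) (s.L α x.1) (d1.1 x.2.1) (d2.1 x.2.2), s.w x.1, d1.2 x.2.1, d2.2 x.2.2)

/-- the node chart. -/
noncomputable def nodeChart (s : Side) (ε μ : ℝ) (d1 : (V1 → ℂ) × (V1 → R1))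
    (d2 : (V2 → ℂ) × (V2 → R2)) (x : A4 × V1 × V2) : ℂ × ℂ × ℂ × R1 × R2 :=
  (s.x x.1 * exp (-lam ε μ (s.x x.1 * s.y x.1) (s.L false x.1) (d1.1 x.2.1) (d2.1 x.2.2)),
    s.y x.1 * exp (lam ε μ (s.x x.1 * s.y x.1) (s.L false x.1) (d1.1 x.2.1) (d2.1 x.2.2)),
    zet ε μ (s.x x.1 * s.y x.1) (s.L false x.1) (d1.1 x.2.1) (d2.1 x.2.2),
    d1.2 x.2.1, d2.2 x.2.2)

/-- the germs of charts of one side at `x`. -/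
def sideGerms (s : Side) (ε μ : ℝ) (G1 : V1 → Set ((V1 → ℂ) × (V1 → R1)))
    (G2 : V2 → Set ((V2 → ℂ) × (V2 → R2))) (x : A4 × V1 × V2) :
    Set (A4 × V1 × V2 → ℂ × ℂ × ℂ × R1 × R2) :=
  {f | ∃ d1 ∈ G1 x.2.1, ∃ d2 ∈ G2 x.2.2,
    (∃ α, x.1 ∈ s.U α ∧ f = regChart s α ε μ d1 d2) ∨ (x.1 ∈ s.N ∧ f = nodeChart s ε μ d1 d2)}

end charts

/-- `g` is a holomorphic function of `f` near `x`. -/
def HolRel {X F : Type} [TopologicalSpace X] [NormedAddCommGroup F] [NormedSpace ℂ F]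
    (x : X) (f g : X → F) : Prop :=
  ∃ H : F → F, ContDiffAt ℂ ∞ H (f x) ∧ ∀ᶠ y in 𝓝 x, g y = H (f y)

end Pool.Agent.S4T2
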