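import Pool.Agent.Lib.MP_1d980c_gt.S4.TSA

/-! Task C2: the functions `tt`, `ss`, `FA`. -/

set_option autoImplicit false
open Complex ComplexConjugate Topology
open scoped ContDiff

namespace Pool.Agent.S4T2

private lemma ts_re_y1 (P : A4) : (y1 P).re = bet (-P.2.2) + 2 * (MM P).re := by
  simp [y1]

private lemma ts_im_y1 (P : A4) : (y1 P).im = 2 * DD P := by
  simp [y1]

private lemma ts_smooth_X (P : A4) : ContDiffAt ℝ ∞ (fun P : A4 => P.1) P := contDiffAt_fst

private lemma ts_smooth_Y (P : A4) : ContDiffAt ℝ ∞ (fun P : A4 => P.2.1) P :=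
  contDiffAt_fst.comp P contDiffAt_snd

private lemma ts_smooth_psiC {δ : ℝ} {P : A4} (hP : 0 < NN P) :
    ContDiffAt ℝ ∞ (fun P => (psi δ P : ℂ)) P :=
  (Complex.ofRealCLM.contDiff.contDiffAt).comp P (contDiffAt_psi hP)

private lemma ts_smooth_psiC' {δ : ℝ} {P : A4} (hP : 0 < NN P) :
    ContDiffAt ℝ ∞ (fun P => ((1 - psi δ P : ℝ) : ℂ)) P :=
  (Complex.ofRealCLM.contDiff.contDiffAt).comp P (contDiffAt_const.sub (contDiffAt_psi hP))

private lemma ts_div {f g : A4 → ℂ} {P : A4} (hf : ContDiffAt ℝ ∞ f P)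
    (hg : ContDiffAt ℝ ∞ g P) (h : g P ≠ 0) : ContDiffAt ℝ ∞ (fun P => f P / g P) P := by
  simp only [div_eq_mul_inv]
  exact hf.mul (hg.inv h)

private lemma ts_log {f : A4 → ℂ} {P : A4} (hf : ContDiffAt ℝ ∞ f P)
    (h : f P ∈ slitPlane) : ContDiffAt ℝ ∞ (fun P => log (f P)) P :=
  ((Complex.contDiffAt_log h).restrict_scalars ℝ).comp P hf

/-- smoothness of the generic expression where `Y ≠ 0`. -/
private lemma ts_smooth_gen {δ : ℝ} {P : A4} (hN : 0 < NN P) (hY : P.2.1 ≠ 0) {y : A4 → ℂ}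
    (hy : ContDiffAt ℝ ∞ y P) (hyne : y P ≠ 0) :
    ContDiffAt ℝ ∞ (fun P => ((1 - psi δ P : ℝ) : ℂ) / P.2.1 +
      (psi δ P : ℂ) * (4 * P.1) / y P) P := by
  refine ContDiffAt.add ?_ ?_
  · exact ts_div (ts_smooth_psiC' hN) (ts_smooth_Y P) hY
  · exact ts_div ((ts_smooth_psiC hN).mul (contDiffAt_const.mul (ts_smooth_X P))) hy hyne

/-- smoothness of the generic expression where `ψ = 1` locally. -/
private lemma ts_smooth_one {δ : ℝ} (hδ : 0 < δ) {P : A4} (hN : 0 < NN P) (h : δ < (z1 P).im)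
    {y : A4 → ℂ} (hy : ContDiffAt ℝ ∞ y P) (hyne : y P ≠ 0) :
    ContDiffAt ℝ ∞ (fun P => ((1 - psi δ P : ℝ) : ℂ) / P.2.1 +
      (psi δ P : ℂ) * (4 * P.1) / y P) P := by
  have h1 : ContDiffAt ℝ ∞ (fun P : A4 => (4 * P.1) / y P) P :=
    ts_div (contDiffAt_const.mul (ts_smooth_X P)) hy hyne
  refine h1.congr_of_eventuallyEq ?_
  have hc : ContinuousAt (fun P => (z1 P).im) P :=
    Complex.continuous_im.continuousAt.comp (contDiffAt_z1 hN).continuousAt
  filter_upwards [hc.eventually (lt_mem_nhds h)] with P' hP'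
  rw [psi_eq_one hδ (le_of_lt hP')]
  simp

theorem contDiffAt_tt {δ : ℝ} (hδ : 0 < δ) (hδ' : δ ≤ 1 / 20) {P : A4} (hP : P ∈ S4)
    (hre : 0 < (z1 P).re) (hz : z2 P ≠ 0) : ContDiffAt ℝ ∞ (tt δ) P := by
  have hN := NN_pos hP
  have hN4 := NN_le hP
  have hy2ne : y2 P ≠ 0 := by
    rw [y2_eq hN]
    exact mul_ne_zero (by exact_mod_cast hN.ne') hz
  by_cases hY : P.2.1 = 0
  · have hM : MM P = 0 := by simp [MM, hY]
    have hb : bet P.2.2 ≠ 0 := by
      intro hb
      apply hy2ne
      simp [y2, hM, hb]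
    have hh : -(1 / 2) < P.2.2 := by
      by_contra hcon
      exact hb (bet_of_le (not_lt.1 hcon))
    have hre1 : bet (-P.2.2) = NN P * (z1 P).re := by
      have := ts_re_y1 P
      rw [hM, Complex.zero_re, mul_zero, add_zero, y1_eq hN, Complex.re_ofReal_mul] at this
      exact this.symm
    have hh2 : P.2.2 < 1 / 2 := by
      by_contra hcon
      rw [bet_of_le (by linarith : -P.2.2 ≤ -(1 / 2))] at hre1
      have := mul_pos hN hre
      linarith
    have hr : rho2 P = 1 - P.2.2 ^ 2 := rho2_S4 hP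
    have hr' : 3 / 4 < rho2 P := by rw [hr]; nlinarith
    have hD : DD P = rho2 P := by
      have h1 := norm_Y P
      rw [hY, norm_zero] at h1
      linarith
    have him : 2 * DD P = NN P * (z1 P).im := by
      rw [← ts_im_y1, y1_eq hN, Complex.im_ofReal_mul]
    have himδ : δ < (z1 P).im := by
      by_contra hcon
      nlinarith
    exact ts_smooth_one hδ hN himδ (contDiff_y2.contDiffAt) hy2ne
  · exact ts_smooth_gen hN hY (contDiff_y2.contDiffAt) hy2ne

private lemma ts_z1_ne {δ : ℝ} (hδ : 0 < δ) {P : A4} (α : Bool) (hv : Valid δ α P) :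
    z1 P ≠ 0 := by
  intro h
  cases α
  · have hv' : 0 < (z1 P).re := by simpa [Valid] using hv
    rw [h] at hv'
    simp at hv'
  · have hv' : (z1 P).re < 0 ∨ δ < |(z1 P).im| := by simpa [Valid] using hv
    rw [h] at hv'
    simp at hv'
    linarith

theorem contDiffAt_ss {δ : ℝ} (hδ : 0 < δ) (hδ' : δ ≤ 1 / 20) {P : A4} (hP : P ∈ S4)
    (hv : Valid δ true P) : ContDiffAt ℝ ∞ (ss δ) P := by
  have hN := NN_pos hP
  have hz1ne := ts_z1_ne hδ true hv
  have hy1ne : y1 P ≠ 0 := by
    rw [y1_eq hN]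
    exact mul_ne_zero (by exact_mod_cast hN.ne') hz1ne
  by_cases hY : P.2.1 = 0
  · have hM : MM P = 0 := by simp [MM, hY]
    have hre1 : bet (-P.2.2) = NN P * (z1 P).re := by
      have := ts_re_y1 P
      rw [hM, Complex.zero_re, mul_zero, add_zero, y1_eq hN, Complex.re_ofReal_mul] at this
      exact this.symm
    have hre : 0 ≤ (z1 P).re := by
      have := bet_nonneg (-P.2.2)
      rw [hre1] at this
      by_contra hcon
      nlinarith
    have hr := rho2_nonneg P
    have hD : DD P = rho2 P := by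
      have h1 := norm_Y P
      rw [hY, norm_zero] at h1
      linarith
    have him : 2 * DD P = NN P * (z1 P).im := by
      rw [← ts_im_y1, y1_eq hN, Complex.im_ofReal_mul]
    have him0 : 0 ≤ (z1 P).im := by
      by_contra hcon
      nlinarith
    have hv' : (z1 P).re < 0 ∨ δ < |(z1 P).im| := by simpa [Valid] using hv
    have himδ : δ < (z1 P).im := by
      rcases hv' with h1 | h1
      · linarith
      · rwa [abs_of_nonneg him0] at h1
    exact ts_smooth_one hδ hN himδ (contDiff_y1.contDiffAt) hy1ne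
  · exact ts_smooth_gen hN hY (contDiff_y1.contDiffAt) hy1ne

theorem contDiffAt_Lb {δ : ℝ} (hδ : 0 < δ) {P : A4} (hP : 0 < NN P) (α : Bool)
    (hv : Valid δ α P) : ContDiffAt ℝ ∞ (Lb α) P := by
  cases α
  · have hv' : 0 < (z1 P).re := by simpa [Valid] using hv
    have h1 : ContDiffAt ℝ ∞ (fun P => log (z1 P)) P :=
      ts_log (contDiffAt_z1 hP) (Or.inl hv')
    have h2 : Lb false = fun P => log (z1 P) := by
      funext P
      simp [Lb]
    rw [h2]
    exact h1
  · have hv' : (z1 P).re < 0 ∨ δ < |(z1 P).im| := by simpa [Valid] using hv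
    have hs : -z1 P ∈ slitPlane := by
      rw [mem_slitPlane_iff]
      rcases hv' with h | h
      · left
        simpa using h
      · right
        intro h0
        have h1 : (z1 P).im = 0 := by simpa using h0
        rw [h1, abs_zero] at h
        linarith
    have h1 : ContDiffAt ℝ ∞ (fun P => log (-z1 P) + Real.pi * I) P :=
      (ts_log (contDiffAt_z1 hP).neg hs).add contDiffAt_const
    have h2 : Lb true = fun P => log (-z1 P) + Real.pi * I := by
      funext P
      simp [Lb]
    rw [h2]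
    exact h1

theorem exp_Lb {P : A4} (hz : z1 P ≠ 0) (α : Bool) : exp (Lb α P) = z1 P := by
  cases α
  · simp only [Lb, Bool.false_eq_true, if_false]
    exact exp_log hz
  · simp only [Lb, if_true]
    rw [Complex.exp_add, exp_log (neg_ne_zero.2 hz), Complex.exp_pi_mul_I]
    ring

/-- `Valid` is an open condition (at points where `z1` is continuous). -/
theorem valid_eventually {δ : ℝ} {P : A4} (hP : 0 < NN P) (α : Bool) (hv : Valid δ α P) :
    ∀ᶠ P' in 𝓝 P, Valid δ α P' := by
  have hc : ContinuousAt z1 P := (contDiffAt_z1 hP).continuousAt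
  have hre : ContinuousAt (fun P => (z1 P).re) P := Complex.continuous_re.continuousAt.comp hc
  have him : ContinuousAt (fun P => |(z1 P).im|) P :=
    continuous_abs.continuousAt.comp (Complex.continuous_im.continuousAt.comp hc)
  cases α
  · have hv' : 0 < (z1 P).re := by simpa [Valid] using hv
    filter_upwards [hre.eventually (lt_mem_nhds hv')] with P' h'
    simpa [Valid] using h'
  · have hv' : (z1 P).re < 0 ∨ δ < |(z1 P).im| := by simpa [Valid] using hv
    rcases hv' with h | h
    · filter_upwards [hre.eventually (gt_mem_nhds h)] with P' h'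
      have : (z1 P').re < 0 ∨ δ < |(z1 P').im| := Or.inl h'
      simpa [Valid] using this
    · filter_upwards [him.eventually (lt_mem_nhds h)] with P' h'
      have : (z1 P').re < 0 ∨ δ < |(z1 P').im| := Or.inr h'
      simpa [Valid] using this

theorem contDiffAt_FA {δ : ℝ} (hδ : 0 < δ) (hδ' : δ ≤ 1 / 20) {P : A4} (hP : P ∈ S4)
    (α : Bool) (hv : Valid δ α P) (hz : α = false → z2 P ≠ 0) :
    ContDiffAt ℝ ∞ (FA δ α) P := by
  have hN := NN_pos hP
  have hL : ContDiffAt ℝ ∞ (fun P => exp (Lb α P / 2)) P :=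
    ((contDiffAt_Lb hδ hN α hv).div_const 2).cexp
  cases α
  · have hv' : 0 < (z1 P).re := by simpa [Valid] using hv
    have h1 := hL.mul (contDiffAt_tt hδ hδ' hP hv' (hz rfl))
    have h2 : FA δ false = fun P => exp (Lb false P / 2) * tt δ P := by
      funext P
      simp [FA]
    rw [h2]
    exact h1
  · have h1 := hL.mul (contDiffAt_ss hδ hδ' hP hv)
    have h2 : FA δ true = fun P => exp (Lb true P / 2) * ss δ P := by
      funext P
      simp [FA]
    rw [h2]
    exact h1

theorem FA_ne {δ : ℝ} (hδ : 0 < δ) (hδ' : δ ≤ 1 / 20) {P : A4} (hP : P ∈ S4)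
    (α : Bool) (hv : Valid δ α P) (hz : α = false → z2 P ≠ 0)
    (hw : ‖z2 P‖ ^ 2 - ‖z1 P‖ ^ 2 < δ) : FA δ α P ≠ 0 := by
  cases α
  · have hv' : 0 < (z1 P).re := by simpa [Valid] using hv
    simp only [FA, Bool.false_eq_true, if_false]
    exact mul_ne_zero (Complex.exp_ne_zero _) (tt_ne hδ hδ' hP hv' (hz rfl))
  · simp only [FA, if_true]
    exact mul_ne_zero (Complex.exp_ne_zero _) (ss_ne hδ hδ' hP hv hw)

theorem Lb_rel_pos {P : A4} (h : 0 < (z1 P).im) : Lb true P = Lb false P := by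
  simp only [Lb, Bool.false_eq_true, if_false, if_true]
  have h1 : arg (-z1 P) = arg (z1 P) - Real.pi := arg_neg_eq_arg_sub_pi_of_im_pos h
  apply Complex.ext
  · simp [log_re]
  · simp [log_im, h1]

theorem Lb_rel_neg {P : A4} (h : (z1 P).im < 0) : Lb true P = Lb false P + 2 * Real.pi * I := by
  simp only [Lb, Bool.false_eq_true, if_false, if_true]
  have h1 : arg (-z1 P) = arg (z1 P) + Real.pi := arg_neg_eq_arg_add_pi_of_im_neg h
  apply Complex.ext
  · simp [log_re]
  · simp [log_im, h1]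
    ring

theorem FA_rel_pos {δ : ℝ} (hδ : 0 < δ) {P : A4} (h : δ < (z1 P).im) (hz : z2 P ≠ 0) :
    FA δ true P = ww P * FA δ false P := by
  have hy2ne : y2 P ≠ 0 := by
    intro h0
    apply hz
    simp [z2, h0]
  have hy1ne : y1 P ≠ 0 := by
    intro h0
    have : z1 P = 0 := by simp [z1, h0]
    rw [this] at h
    simp at h
    linarith
  simp only [FA, Bool.false_eq_true, if_false, if_true]
  rw [Lb_rel_pos (hδ.trans h)]
  unfold tt ss ww
  rw [psi_eq_one hδ h.le]
  simp only [sub_self, Complex.ofReal_zero, zero_div, zero_add, Complex.ofReal_one, one_mul]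
  field_simp

theorem FA_rel_neg {δ : ℝ} (hδ : 0 < δ) {P : A4} (h : (z1 P).im < -δ) :
    FA δ true P = -FA δ false P := by
  simp only [FA, Bool.false_eq_true, if_false, if_true]
  rw [Lb_rel_neg (by linarith : (z1 P).im < 0)]
  have h1 : exp ((Lb false P + 2 * Real.pi * I) / 2) = -exp (Lb false P / 2) := by
    have : (Lb false P + 2 * Real.pi * I) / 2 = Lb false P / 2 + Real.pi * I := by ring
    rw [this, Complex.exp_add, Complex.exp_pi_mul_I]
    ring
  rw [h1]
  unfold tt ss
  rw [psi_eq_zero hδ h.le]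
  simp

private lemma ts_NN_act (φ : ℝ) (P : A4) : NN (act φ P) = NN P := by
  simp [NN, y1_act, y2_act]

private lemma ts_z1_act (φ : ℝ) (P : A4) : z1 (act φ P) = z1 P := by
  simp [z1, y1_act, ts_NN_act]

private lemma ts_psi_act (δ φ : ℝ) (P : A4) : psi δ (act φ P) = psi δ P := by
  simp [psi, ts_z1_act]

private lemma ts_Lb_act (α : Bool) (φ : ℝ) (P : A4) : Lb α (act φ P) = Lb α P := by
  simp [Lb, ts_z1_act]

private lemma ts_gen_act (φ : ℝ) (ψ Y X y : ℂ) :
    (1 - ψ) / (exp (-(φ * I)) * Y) + ψ * (4 * (exp (φ * I) * X)) / y =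
      exp (φ * I) * ((1 - ψ) / Y + ψ * (4 * X) / y) := by
  rw [Complex.exp_neg, mul_add, ← div_div, div_inv_eq_mul]
  ring

/-- equivariance under the circle action. -/
theorem FA_act (δ : ℝ) (α : Bool) (φ : ℝ) (P : A4) :
    FA δ α (act φ P) = exp (φ * I) * FA δ α P := by
  have htt : tt δ (act φ P) = exp (φ * I) * tt δ P := by
    unfold tt
    rw [ts_psi_act, y2_act]
    simp only [act]
    push_cast
    exact ts_gen_act φ _ _ _ _
  have hss : ss δ (act φ P) = exp (φ * I) * ss δ P := by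
    unfold ss
    rw [ts_psi_act, y1_act]
    simp only [act]
    push_cast
    exact ts_gen_act φ _ _ _ _
  unfold FA
  rw [ts_Lb_act]
  cases α
  · simp only [Bool.false_eq_true, if_false]
    rw [htt]
    ring
  · simp only [if_true]
    rw [hss]
    ring

end Pool.Agent.S4T2
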