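import Pool.Agent.Lib.MP_1d980c_gt.S4.Basic

/-! Task C1: the functions `tt`, `ss`, `FA`. -/

set_option autoImplicit false
open Complex ComplexConjugate Topology
open scoped ContDiff

namespace Pool.Agent.S4T2

lemma psi_eq_one {δ : ℝ} (hδ : 0 < δ) {P : A4} (h : δ ≤ (z1 P).im) : psi δ P = 1 := by
  unfold psi
  apply Real.smoothTransition.one_of_one_le
  have : 1 / 2 ≤ (z1 P).im / (2 * δ) := by
    rw [div_le_div_iff₀ (by norm_num) (by positivity)]
    linarith
  linarith

lemma psi_eq_zero {δ : ℝ} (hδ : 0 < δ) {P : A4} (h : (z1 P).im ≤ -δ) : psi δ P = 0 := by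
  unfold psi
  apply Real.smoothTransition.zero_of_nonpos
  have : (z1 P).im / (2 * δ) ≤ -(1 / 2) := by
    rw [div_le_iff₀ (by positivity)]
    linarith
  linarith

lemma psi_nonneg (δ : ℝ) (P : A4) : 0 ≤ psi δ P := Real.smoothTransition.nonneg _
lemma psi_le_one (δ : ℝ) (P : A4) : psi δ P ≤ 1 := Real.smoothTransition.le_one _

lemma contDiffAt_psi {δ : ℝ} {P : A4} (hP : 0 < NN P) : ContDiffAt ℝ ∞ (psi δ) P := by
  have h1 : ContDiffAt ℝ ∞ (fun P => (z1 P).im) P :=
    (Complex.imCLM.contDiff.contDiffAt).comp P (contDiffAt_z1 hP)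
  have h2 : ContDiffAt ℝ ∞ (fun P => (z1 P).im / (2 * δ) + 1 / 2) P :=
    (h1.div_const _).add contDiffAt_const
  exact Real.smoothTransition.contDiffAt.comp P h2

private lemma tsa_re_y1 (P : A4) : (y1 P).re = bet (-P.2.2) + 2 * (MM P).re := by
  simp [y1]

private lemma tsa_im_y1 (P : A4) : (y1 P).im = 2 * DD P := by
  simp [y1]

private lemma tsa_re_y2 (P : A4) : (y2 P).re = bet P.2.2 + 2 * (MM P).re := by
  simp [y2]

private lemma tsa_im_y2 (P : A4) : (y2 P).im = 2 * (MM P).im := by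
  simp [y2]

private lemma tsa_Y_ne {P : A4} (h : DD P < 0) : P.2.1 ≠ 0 := by
  intro hY
  have h1 := norm_Y P
  rw [hY, norm_zero] at h1
  have h2 := rho2_nonneg P
  nlinarith

private lemma tsa_X_ne {P : A4} (h : 0 < DD P) : P.1 ≠ 0 := by
  intro hX
  have h1 := norm_X P
  rw [hX, norm_zero] at h1
  have h2 := rho2_nonneg P
  nlinarith

/-- the core computation: the real part of `((1-ψ)/Y + ψ 4X/y) * Y` is positive. -/
private lemma tsa_ne {P : A4} {ψ : ℝ} {y : ℂ} (h0 : 0 ≤ ψ) (h1 : ψ ≤ 1)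
    (hy : 0 < (MM P * conj y).re) :
    ((1 - ψ : ℝ) : ℂ) / P.2.1 + (ψ : ℂ) * (4 * P.1) / y ≠ 0 := by
  have hM : MM P ≠ 0 := by
    intro h
    rw [h, zero_mul, Complex.zero_re] at hy
    exact lt_irrefl _ hy
  have hY : P.2.1 ≠ 0 := fun h => hM (by simp [MM, h])
  have hyne : y ≠ 0 := by
    intro h
    rw [h, map_zero, mul_zero, Complex.zero_re] at hy
    exact lt_irrefl _ hy
  intro h
  have h2 : (((1 - ψ : ℝ) : ℂ) / P.2.1 + (ψ : ℂ) * (4 * P.1) / y) * P.2.1 =
      ((1 - ψ : ℝ) : ℂ) + ((2 * ψ / Complex.normSq y : ℝ) : ℂ) * (MM P * conj y) := by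
    have hn : (Complex.normSq y : ℂ) = y * conj y := (Complex.mul_conj y).symm
    have hcy : conj y ≠ 0 := (map_ne_zero _).2 hyne
    push_cast
    rw [hn]
    unfold MM
    field_simp
    ring
  rw [h, zero_mul] at h2
  have h3 := congrArg Complex.re h2
  rw [Complex.zero_re, Complex.add_re, Complex.ofReal_re, Complex.re_ofReal_mul] at h3
  have hns : 0 < Complex.normSq y := Complex.normSq_pos.2 hyne
  rcases eq_or_lt_of_le h0 with h4 | h4
  · rw [← h4] at h3
    simp at h3
  · have h5 : 0 < 2 * ψ / Complex.normSq y * (MM P * conj y).re := by positivity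
    linarith

theorem tt_ne {δ : ℝ} (hδ : 0 < δ) (hδ' : δ ≤ 1 / 20) {P : A4} (hP : P ∈ S4)
    (hre : 0 < (z1 P).re) (hz : z2 P ≠ 0) : tt δ P ≠ 0 := by
  have hN := NN_pos hP
  have hN4 := NN_le hP
  have hy1 := y1_eq hN
  have hy2 := y2_eq hN
  have hy2ne : y2 P ≠ 0 := by
    rw [hy2]
    exact mul_ne_zero (by exact_mod_cast hN.ne') hz
  have him : 2 * DD P = NN P * (z1 P).im := by
    rw [← tsa_im_y1, hy1, Complex.im_ofReal_mul]
  have hre1 : bet (-P.2.2) + 2 * (MM P).re = NN P * (z1 P).re := by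
    rw [← tsa_re_y1, hy1, Complex.re_ofReal_mul]
  rcases le_or_gt (z1 P).im (-δ) with h | h
  · have hD : DD P < 0 := by nlinarith
    have hY := tsa_Y_ne hD
    unfold tt
    rw [psi_eq_zero hδ h]
    simp [hY]
  rcases le_or_gt δ (z1 P).im with h' | h'
  · have hD : 0 < DD P := by nlinarith
    have hX := tsa_X_ne hD
    unfold tt
    rw [psi_eq_one hδ h']
    simp [hX, hy2ne]
  · unfold tt
    refine tsa_ne (psi_nonneg δ P) (psi_le_one δ P) ?_
    have hval : (MM P * conj (y2 P)).re = bet P.2.2 * (MM P).re +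
        2 * ((MM P).re ^ 2 + (MM P).im ^ 2) := by
      rw [Complex.mul_re, Complex.conj_re, Complex.conj_im, tsa_re_y2, tsa_im_y2]
      ring
    rw [hval]
    have hMD := MM_DD P
    rcases le_or_gt P.2.2 (-(1 / 2)) with hh | hh
    · rw [bet_of_le hh, zero_mul, zero_add]
      have h2 : y2 P = 2 * MM P := by
        unfold y2
        rw [bet_of_le hh]
        simp
      have hM : MM P ≠ 0 := by
        intro hM
        exact hy2ne (by rw [h2, hM, mul_zero])
      have : 0 < (MM P).re ^ 2 + (MM P).im ^ 2 := by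
        have h3 := Complex.normSq_pos.2 hM
        rw [Complex.normSq_apply] at h3
        nlinarith
      linarith
    rcases le_or_gt (1 / 2) P.2.2 with hh' | hh'
    · rw [bet_of_ge hh']
      rw [bet_of_le (by linarith : -P.2.2 ≤ -(1 / 2)), zero_add] at hre1
      have h3 : 0 < (MM P).re := by
        have : 0 < NN P * (z1 P).re := mul_pos hN hre
        linarith
      nlinarith [sq_nonneg (MM P).im]
    · have hr : rho2 P = 1 - P.2.2 ^ 2 := rho2_S4 hP
      have hr' : 3 / 4 < rho2 P := by rw [hr]; nlinarith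
      have hb0 := bet_nonneg P.2.2
      have hb1 := bet_le_one P.2.2
      have hD2 : DD P ^ 2 ≤ 1 / 100 := by
        have h5 : |2 * DD P| ≤ 1 / 5 := by
          rw [him, abs_mul, abs_of_pos hN]
          have h6 : |(z1 P).im| ≤ 1 / 20 := abs_le.2 ⟨by linarith, by linarith⟩
          calc NN P * |(z1 P).im| ≤ 4 * (1 / 20) :=
                mul_le_mul hN4 h6 (abs_nonneg _) (by norm_num)
            _ = 1 / 5 := by norm_num
        have h7 := abs_le.1 h5
        nlinarith [h7.1, h7.2]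
      set s := (MM P).re ^ 2 + (MM P).im ^ 2 with hs
      have hs4 : 1 / 4 < s := by nlinarith
      have hsr : (MM P).re ^ 2 ≤ s := by rw [hs]; nlinarith [sq_nonneg (MM P).im]
      rcases le_or_gt 0 (MM P).re with h8 | h8
      · nlinarith [mul_nonneg hb0 h8]
      · have h9 : (MM P).re ≤ bet P.2.2 * (MM P).re := by nlinarith
        have h10 : 0 < (MM P).re + 2 * s := by
          by_contra hcon
          have : 2 * s ≤ -(MM P).re := by linarith
          nlinarith
        linarith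

theorem ss_ne {δ : ℝ} (hδ : 0 < δ) (hδ' : δ ≤ 1 / 20) {P : A4} (hP : P ∈ S4)
    (hv : Valid δ true P) (hw : ‖z2 P‖ ^ 2 - ‖z1 P‖ ^ 2 < δ) : ss δ P ≠ 0 := by
  have hN := NN_pos hP
  have hy1 := y1_eq hN
  have hy2 := y2_eq hN
  have hnz := norm_z P hN
  have hz1 : (1 - δ) / 2 < ‖z1 P‖ ^ 2 := by linarith
  have hz1ne : z1 P ≠ 0 := by
    intro h
    rw [h, norm_zero] at hz1
    nlinarith
  have hy1ne : y1 P ≠ 0 := by
    rw [hy1]
    exact mul_ne_zero (by exact_mod_cast hN.ne') hz1ne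
  have him : 2 * DD P = NN P * (z1 P).im := by
    rw [← tsa_im_y1, hy1, Complex.im_ofReal_mul]
  have hre1 : bet (-P.2.2) + 2 * (MM P).re = NN P * (z1 P).re := by
    rw [← tsa_re_y1, hy1, Complex.re_ofReal_mul]
  rcases le_or_gt (z1 P).im (-δ) with h | h
  · have hD : DD P < 0 := by nlinarith
    have hY := tsa_Y_ne hD
    unfold ss
    rw [psi_eq_zero hδ h]
    simp [hY]
  rcases le_or_gt δ (z1 P).im with h' | h'
  · have hD : 0 < DD P := by nlinarith
    have hX := tsa_X_ne hD
    unfold ss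
    rw [psi_eq_one hδ h']
    simp [hX, hy1ne]
  · have hre : (z1 P).re < 0 := by
      have hv' : (z1 P).re < 0 ∨ δ < |(z1 P).im| := by simpa [Valid] using hv
      rcases hv' with h1 | h1
      · exact h1
      · exfalso
        have : |(z1 P).im| < δ := abs_lt.2 ⟨h, h'⟩
        linarith
    unfold ss
    refine tsa_ne (psi_nonneg δ P) (psi_le_one δ P) ?_
    have hval : (MM P * conj (y1 P)).re = (MM P).re * (NN P * (z1 P).re) +
        (NN P * (z2 P).im / 2) * (NN P * (z1 P).im) := by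
      have h1 : (MM P).im = NN P * (z2 P).im / 2 := by
        have : 2 * (MM P).im = NN P * (z2 P).im := by
          rw [← tsa_im_y2, hy2, Complex.im_ofReal_mul]
        linarith
      rw [Complex.mul_re, Complex.conj_re, Complex.conj_im, h1]
      rw [hy1, Complex.im_ofReal_mul, Complex.re_ofReal_mul]
      ring
    rw [hval]
    have hb := bet_nonneg (-P.2.2)
    have hMr : (MM P).re ≤ NN P * (z1 P).re / 2 := by linarith
    have hneg : NN P * (z1 P).re < 0 := by nlinarith
    have h1 : (NN P * (z1 P).re / 2) * (NN P * (z1 P).re) ≤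
        (MM P).re * (NN P * (z1 P).re) := by nlinarith
    have hsq1 : ‖z1 P‖ ^ 2 = (z1 P).re ^ 2 + (z1 P).im ^ 2 := by
      rw [← Complex.normSq_eq_norm_sq, Complex.normSq_apply]
      ring
    have hsq2 : ‖z2 P‖ ^ 2 = (z2 P).re ^ 2 + (z2 P).im ^ 2 := by
      rw [← Complex.normSq_eq_norm_sq, Complex.normSq_apply]
      ring
    have him2 : (z1 P).im ^ 2 ≤ 1 / 400 := by nlinarith
    have hre2 : 1 / 4 < (z1 P).re ^ 2 := by nlinarith
    have him3 : (z2 P).im ^ 2 ≤ 1 := by nlinarith [sq_nonneg (z2 P).re, sq_nonneg (z1 P).re]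
    have hprod : -(1 / 8) ≤ (z2 P).im * (z1 P).im := by
      nlinarith [sq_nonneg ((z2 P).im / 20 + (z1 P).im), sq_nonneg ((z2 P).im + 20 * (z1 P).im)]
    have hN2 : 0 < NN P ^ 2 := by positivity
    have : 0 < NN P ^ 2 / 2 * ((z1 P).re ^ 2 + (z2 P).im * (z1 P).im) := by
      apply mul_pos (by positivity)
      linarith
    nlinarith

end Pool.Agent.S4T2
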